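import Pool.Agent.Lib.MP_fed790_nt.PX.Defs

/-! A1: orthogonality on UnitAddCircle -/

open Finset MeasureTheory

namespace Pool.Agent.Lib.MP_fed790_nt.PX

/-- (Job PX A1) Proof.  `fourierCoeff_fourier` / `orthonormal_fourier` from `Mathlib/Analysis/Fourier/AddCircle.lean`, or directly:
for `n ≠ 0` translate by `x₀ = 1/(2n)` (`fourier_add_half_inv_index`: the integrand changes sign) and use
`integral_add_right_eq_self`; for `n = 0` the volume of `UnitAddCircle` is `1`
(`UnitAddCircle.measure_univ`).  Note: for `T = 1`, `AddCircle.haarAddCircle` equals `volume`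
(`AddCircle.volume_eq_smul_haarAddCircle`). -/
theorem tA1 : S_A1 := by
  intro n
  split_ifs with hn
  · subst hn
    simp only [fourier_zero, integral_const, smul_eq_mul, mul_one]
    simp [UnitAddCircle.measure_univ, measureReal_def]
  · have h1 : ∀ x : T, fourier n (x + ((1 / 2 / (n : ℝ) : ℝ) : T)) = -fourier n x :=
      fun x => fourier_add_half_inv_index hn one_pos x
    have h2 := integral_add_right_eq_self (μ := (volume : Measure T)) (fun x : T => fourier n x)
      ((1 / 2 / (n : ℝ) : ℝ) : T)
    simp only [h1, integral_neg] at h2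
    have h3 : (2 : ℂ) * ∫ x : T, fourier n x = 0 := by
      linear_combination -h2
    simpa using h3

end Pool.Agent.Lib.MP_fed790_nt.PX
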