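import Pool.Agent.Lib.MP_fed790_nt.PX.Defs

/-! A2: Dirichlet kernel bounds -/

open Finset MeasureTheory

namespace Pool.Agent.Lib.MP_fed790_nt.PX

private theorem a2_norm (n : ℤ) (x : T) : ‖fourier n x‖ = 1 := by
  rw [fourier_apply]
  exact Circle.norm_coe _

private theorem a2_pow (n : ℕ) (x : T) : fourier (n : ℤ) x = (fourier 1 x) ^ n := by
  obtain ⟨s, rfl⟩ := QuotientAddGroup.mk_surjective x
  have h1 := fourier_coe_apply (T := (1 : ℝ)) (n := (n : ℤ)) (x := s)
  have h2 := fourier_coe_apply (T := (1 : ℝ)) (n := 1) (x := s)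
  refine h1.trans ?_
  refine Eq.trans ?_ (congrArg (fun z => z ^ n) h2.symm)
  rw [← Complex.exp_nat_mul]
  congr 1
  push_cast
  ring

private theorem a2_lower (x : T) : 4 * ‖x‖ ≤ ‖fourier 1 x - 1‖ := by
  obtain ⟨s, rfl⟩ := QuotientAddGroup.mk_surjective x
  have hn : ‖((s : ℝ) : UnitAddCircle)‖ = |s - round s| := UnitAddCircle.norm_eq
  have h2 := fourier_coe_apply (T := (1 : ℝ)) (n := 1) (x := s)
  have h3 : fourier 1 ((s : ℝ) : UnitAddCircle) = Complex.exp (Complex.I * ((2 * Real.pi * s : ℝ) : ℂ)) := by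
    refine h2.trans ?_
    congr 1
    push_cast
    ring
  change 4 * ‖((s : ℝ) : UnitAddCircle)‖ ≤ ‖fourier 1 ((s : ℝ) : UnitAddCircle) - 1‖
  rw [hn, h3, Complex.norm_exp_I_mul_ofReal_sub_one]
  have h4 : (2 * Real.pi * s) / 2 = Real.pi * (s - round s) + (round s : ℤ) * Real.pi := by ring
  rw [h4, Real.sin_add_int_mul_pi]
  have h5 : |Real.pi * (s - round s)| ≤ Real.pi / 2 := by
    rw [abs_mul, abs_of_pos Real.pi_pos]
    have := abs_sub_round s
    nlinarith [Real.pi_pos]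
  have h6 := Real.mul_abs_le_abs_sin h5
  rw [abs_mul, abs_of_pos Real.pi_pos] at h6
  have h7 : 2 / Real.pi * (Real.pi * |s - round s|) = 2 * |s - round s| := by
    field_simp
  rw [h7] at h6
  have h8 : ‖2 * ((-1 : ℝ) ^ (round s) * Real.sin (Real.pi * (s - round s)))‖ =
      2 * |Real.sin (Real.pi * (s - round s))| := by
    rw [Real.norm_eq_abs, abs_mul, abs_mul, abs_zpow, abs_neg, abs_one, one_zpow, one_mul, abs_two]
  rw [h8]
  linarith

/-- (Job PX A2) Proof.  First bound: triangle inequality, `‖fourier n x‖ = 1` (`Circle.norm_coe` after `fourier_apply`).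
Second bound: induct to a real representative `x = (t : UnitAddCircle)` with `|t| ≤ 1/2` and `‖x‖ = |t|`
(`QuotientAddGroup.mk_surjective`, `UnitAddCircle.norm_eq : ‖(t : UnitAddCircle)‖ = |t - round t|`, take
`t - round t`).  With `z = fourier 1 x = exp (2πit)` one has `fourier n x = z ^ n`, `D n x (z - 1) = z ^ n - 1`
(`geom_sum_mul`), so `‖D n x‖ ‖z - 1‖ ≤ 2`, and `‖z - 1‖ = 2 |sin (π t)| ≥ 4 |t|` for `|t| ≤ 1/2`
(`Real.mul_le_sin` : `2/π * x ≤ sin x` on `[0, π/2]`).  If `t = 0` the claim is trivial. -/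
theorem tA2 : S_A2 := by
  intro n x
  constructor
  · calc ‖D n x‖ ≤ ∑ t ∈ range n, ‖fourier (t : ℤ) x‖ := norm_sum_le _ _
      _ = n := by
        simp only [a2_norm]
        simp
  · have h1 : D n x * (fourier 1 x - 1) = (fourier 1 x) ^ n - 1 := by
      unfold D
      rw [Finset.sum_congr rfl (fun t _ => a2_pow t x)]
      exact geom_sum_mul _ _
    have h2 : ‖D n x‖ * ‖fourier 1 x - 1‖ ≤ 2 := by
      rw [← norm_mul, h1]
      calc ‖(fourier 1 x) ^ n - 1‖ ≤ ‖(fourier 1 x) ^ n‖ + ‖(1 : ℂ)‖ := norm_sub_le _ _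
        _ = 2 := by
          rw [norm_pow, a2_norm, one_pow, norm_one]
          norm_num
    have h3 := a2_lower x
    have h4 := norm_nonneg (D n x)
    have h5 := mul_le_mul_of_nonneg_left h3 h4
    linarith

end Pool.Agent.Lib.MP_fed790_nt.PX
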