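import Pool.Agent.Lib.MP_fed790_nt.PX.Defs

/-! A3: transfer identity on the circle -/

open Finset MeasureTheory

namespace Pool.Agent.Lib.MP_fed790_nt.PX

private theorem a3_mp (κ : ℕ) (hκ : 0 < κ) :
    MeasurePreserving (fun θ : T => κ • θ) volume volume := by
  rcases Nat.lt_or_ge 1 κ with h | h
  · exact (AddCircle.ergodic_nsmul h).toMeasurePreserving
  · have h1 : κ = 1 := by omega
    subst h1
    simp only [one_smul]
    exact MeasurePreserving.id _

private theorem a3_ne (κ : ℕ) (u : ℤ) (hκ : 0 < κ) (h : ¬ (κ : ℤ) ∣ u) :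
    fourier u (((1 / κ : ℝ) : T)) ≠ (1 : ℂ) := by
  rw [fourier_coe_apply]
  intro h1
  rw [Complex.exp_eq_one_iff] at h1
  obtain ⟨n, hn⟩ := h1
  apply h
  have hk : (κ : ℂ) ≠ 0 := by exact_mod_cast hκ.ne'
  have h2 : (2 * Real.pi * Complex.I : ℂ) ≠ 0 := Complex.two_pi_I_ne_zero
  refine ⟨n, ?_⟩
  have h3 : (u : ℂ) = κ * n := by
    have h4 : (2 * Real.pi * Complex.I : ℂ) * u = (2 * Real.pi * Complex.I : ℂ) * (κ * n) := by
      push_cast at hn
      field_simp at hn
      linear_combination (2 * Real.pi * Complex.I : ℂ) * hn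
    exact mul_left_cancel₀ h2 h4
  exact_mod_cast h3

/-- (Job PX A3) Proof.  Let `f θ = fourier u θ * g (κ • θ)`.  If `κ ∤ u`: put `θ₀ = ((1/κ : ℝ) : UnitAddCircle)`; `κ • θ₀ = 0`, so
`f (θ + θ₀) = fourier u θ₀ * f θ` and by translation invariance (`integral_add_right_eq_self`)
`∫ f = fourier u θ₀ * ∫ f`, and `fourier u θ₀ = exp (2πi u/κ) ≠ 1` (`Complex.exp_eq_one_iff`), hence `∫ f = 0`.
If `u = κ v`: `fourier u θ = fourier v (κ • θ)` and `θ ↦ κ • θ` is measure preserving
(`AddCircle.ergodic_nsmul` for `κ > 1`, `.toMeasurePreserving`; trivial for `κ = 1`), so use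
`MeasurePreserving.integral_comp'`-type lemma, i.e. `integral_map` (the integrand `α ↦ fourier v α * g α` is
measurable, hence `AEStronglyMeasurable`).  `Int.mul_ediv_cancel_left` for `u / κ = v`. -/
theorem tA3 : S_A3 := by
  intro κ u g hκ hg _
  by_cases hd : (κ : ℤ) ∣ u
  · obtain ⟨v, rfl⟩ := hd
    rw [if_pos (dvd_mul_right _ _), Int.mul_ediv_cancel_left _ (by exact_mod_cast hκ.ne')]
    have h1 : ∀ θ : T, fourier ((κ : ℤ) * v) θ = fourier v (κ • θ) := by
      intro θ
      rw [fourier_apply, fourier_apply]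
      congr 2
      rw [← natCast_zsmul, smul_smul, mul_comm]
    simp_rw [h1]
    have hm : Measurable fun α : T => fourier v α * (g α : ℂ) :=
      ((fourier v).continuous.measurable).mul (Complex.measurable_ofReal.comp hg)
    have hmp := a3_mp κ hκ
    have h2 := integral_map (μ := (volume : Measure T)) (φ := fun θ : T => κ • θ)
      hmp.measurable.aemeasurable (f := fun α : T => fourier v α * (g α : ℂ))
      hm.aestronglyMeasurable
    rw [hmp.map_eq] at h2
    exact h2.symm
  · rw [if_neg hd]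
    have hz : κ • (((1 / κ : ℝ) : T)) = 0 := by
      rw [← AddCircle.coe_nsmul, nsmul_eq_mul, mul_one_div_cancel (by exact_mod_cast hκ.ne')]
      exact AddCircle.coe_period 1
    have h1 := integral_add_right_eq_self (μ := (volume : Measure T))
      (fun θ : T => fourier u θ * (g (κ • θ) : ℂ)) (((1 / κ : ℝ) : T))
    have h2 : ∀ θ : T, fourier u (θ + ((1 / κ : ℝ) : T)) * (g (κ • (θ + ((1 / κ : ℝ) : T))) : ℂ) =
        fourier u (((1 / κ : ℝ) : T)) * (fourier u θ * (g (κ • θ) : ℂ)) := by
      intro θ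
      rw [smul_add, hz, add_zero, ← mul_assoc]
      congr 1
      rw [fourier_apply, fourier_apply, fourier_apply, smul_add, AddCircle.toCircle_add,
        Circle.coe_mul, mul_comm]
    simp_rw [h2] at h1
    rw [integral_const_mul] at h1
    have h3 := a3_ne κ u hκ hd
    by_contra h4
    exact h3 (mul_right_cancel₀ h4 (h1.trans (one_mul _).symm))

end Pool.Agent.Lib.MP_fed790_nt.PX
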