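import Pool.Agent.Lib.MP_fed790_nt.PX.Defs

/-! A4: double transfer identity -/

open Finset MeasureTheory

namespace Pool.Agent.Lib.MP_fed790_nt.PX

private theorem a4_sum_range (Q V : ℕ) (f : ℕ → ℂ) :
    ∑ t ∈ range (Q * V), f t = ∑ w ∈ range V, ∑ ρ ∈ range Q, f (Q * w + ρ) := by
  induction V with
  | zero => simp
  | succ V ih => rw [Nat.mul_succ, sum_range_add, ih, sum_range_succ]

private theorem a4_double (Q V : ℕ) (F : ℤ → ℂ) (hF : ∀ u : ℤ, ¬ (Q : ℤ) ∣ u → F u = 0) :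
    ∑ t ∈ range (Q * V), ∑ t' ∈ range (Q * V), F ((t : ℤ) - t') =
      Q * ∑ w ∈ range V, ∑ w' ∈ range V, F (Q * ((w : ℤ) - w')) := by
  rw [a4_sum_range, mul_sum]
  refine sum_congr rfl fun w _ => ?_
  have h1 : ∀ ρ ∈ range Q, ∑ t' ∈ range (Q * V), F (((Q * w + ρ : ℕ) : ℤ) - t') =
      ∑ w' ∈ range V, F (Q * ((w : ℤ) - w')) := by
    intro ρ hρ
    rw [a4_sum_range]
    refine sum_congr rfl fun w' _ => ?_
    rw [sum_eq_single ρ]
    · congr 1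
      push_cast
      ring
    · intro ρ' hρ' hne
      apply hF
      rintro ⟨c, hc⟩
      apply hne
      rw [mem_range] at hρ hρ'
      have h2 : (ρ : ℤ) - ρ' = Q * (c - w + w') := by
        push_cast at hc
        linarith
      have h3 : |(ρ : ℤ) - ρ'| < Q := by
        rw [abs_lt]
        constructor <;> omega
      have h4 : (ρ : ℤ) - ρ' = 0 := Int.eq_zero_of_abs_lt_dvd ⟨_, h2⟩ h3
      omega
    · intro h
      exact absurd hρ h
  rw [sum_congr rfl h1, sum_const, card_range, nsmul_eq_mul]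

private theorem a4_D_sq (N : ℕ) (z : T) :
    ((‖D N z‖ ^ 2 : ℝ) : ℂ) = ∑ t ∈ range N, ∑ t' ∈ range N, fourier ((t : ℤ) - t') z := by
  have h1 : ((‖D N z‖ ^ 2 : ℝ) : ℂ) = D N z * (starRingEnd ℂ) (D N z) := by
    rw [Complex.mul_conj, Complex.normSq_eq_norm_sq]
  rw [h1]
  unfold D
  rw [map_sum, sum_mul_sum]
  refine sum_congr rfl fun t _ => sum_congr rfl fun t' _ => ?_
  rw [sub_eq_add_neg, fourier_add, fourier_neg]

private theorem a4_fourier (m : ℤ) (a b : ℕ) (x y : T) :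
    fourier m (a • x - b • y) = fourier (a * m) x * fourier (-(b * m)) y := by
  simp only [fourier_apply]
  have h1 : m • (a • x - b • y) = ((a : ℤ) * m) • x + (-((b : ℤ) * m)) • y := by
    rw [smul_sub, neg_smul, ← sub_eq_add_neg, ← natCast_zsmul, ← natCast_zsmul, smul_smul,
      smul_smul, mul_comm m, mul_comm m]
  rw [h1, AddCircle.toCircle_add]
  rfl

private theorem a4_int {G : T → ℝ} (hG : Measurable G) (hB : ∃ B : ℝ, ∀ x, |G x| ≤ B) (n : ℤ) :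
    Integrable (fun x : T => fourier n x * (G x : ℂ)) := by
  obtain ⟨B, hB⟩ := hB
  refine Integrable.of_bound (C := B) ?_ ?_
  · exact ((fourier n).continuous.measurable.mul
      (Complex.measurable_ofReal.comp hG)).aestronglyMeasurable
  · refine Filter.Eventually.of_forall fun x => ?_
    rw [norm_mul, Complex.norm_real]
    have h1 : ‖fourier n x‖ = 1 := by
      rw [fourier_apply]
      exact Circle.norm_coe _
    rw [h1, one_mul]
    exact hB x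

private theorem a4_expand (N a b : ℕ) {G₁ G₂ : T → ℝ} (h1 : Measurable G₁) (h2 : Measurable G₂)
    (hB1 : ∃ B : ℝ, ∀ x, |G₁ x| ≤ B) (hB2 : ∃ B : ℝ, ∀ x, |G₂ x| ≤ B) :
    ((∫ x : T, ∫ y : T, ‖D N (a • x - b • y)‖ ^ 2 * (G₁ x * G₂ y) : ℝ) : ℂ) =
      ∑ t ∈ range N, ∑ t' ∈ range N, (∫ x : T, fourier (a * ((t : ℤ) - t')) x * (G₁ x : ℂ)) *
        ∫ y : T, fourier (-(b * ((t : ℤ) - t'))) y * (G₂ y : ℂ) := by
  have e1 : ∀ x y : T, ((‖D N (a • x - b • y)‖ ^ 2 * (G₁ x * G₂ y) : ℝ) : ℂ) =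
      ∑ t ∈ range N, ∑ t' ∈ range N, (fourier (a * ((t : ℤ) - t')) x * (G₁ x : ℂ)) *
        (fourier (-(b * ((t : ℤ) - t'))) y * (G₂ y : ℂ)) := by
    intro x y
    rw [Complex.ofReal_mul, a4_D_sq, sum_mul]
    refine sum_congr rfl fun t _ => ?_
    rw [sum_mul]
    refine sum_congr rfl fun t' _ => ?_
    rw [a4_fourier, Complex.ofReal_mul]
    ring
  have e2 : ∀ x : T, ((∫ y : T, ‖D N (a • x - b • y)‖ ^ 2 * (G₁ x * G₂ y) : ℝ) : ℂ) =
      ∑ t ∈ range N, ∑ t' ∈ range N, (fourier (a * ((t : ℤ) - t')) x * (G₁ x : ℂ)) *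
        ∫ y : T, (fourier (-(b * ((t : ℤ) - t'))) y * (G₂ y : ℂ)) := by
    intro x
    rw [← integral_complex_ofReal]
    rw [integral_congr_ae (Filter.Eventually.of_forall fun y => e1 x y)]
    rw [integral_finset_sum]
    · refine sum_congr rfl fun t _ => ?_
      rw [integral_finset_sum]
      · refine sum_congr rfl fun t' _ => ?_
        rw [integral_const_mul]
      · intro t' _
        exact (a4_int h2 hB2 _).const_mul _
    · intro t _
      refine integrable_finset_sum _ fun t' _ => ?_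
      exact (a4_int h2 hB2 _).const_mul _
  rw [← integral_complex_ofReal]
  rw [integral_congr_ae (Filter.Eventually.of_forall fun x => e2 x)]
  rw [integral_finset_sum]
  · refine sum_congr rfl fun t _ => ?_
    rw [integral_finset_sum]
    · refine sum_congr rfl fun t' _ => ?_
      rw [integral_mul_const]
    · intro t' _
      exact (a4_int h1 hB1 _).mul_const _
  · intro t _
    refine integrable_finset_sum _ fun t' _ => ?_
    exact (a4_int h1 hB1 _).mul_const _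

/-- (Job PX A4) Proof.  `‖D n x‖² = ∑_{t,t' < n} fourier (t - t') x` (as complex numbers: `D n x * conj (D n x)`).
With `Q = κ₁ κ₂`, `n = Q V`, the left side (cast to `ℂ`) is
`∑_{t,t' < n} (∫ fourier (t-t') θ₁ g₁(κ₁θ₁)) (∫ fourier (t'-t) θ₂ g₂(κ₂θ₂))`
(`fourier n (θ₁ - θ₂) = fourier n θ₁ * fourier (-n) θ₂`; finite sums and products of bounded measurable
functions of one variable, so all integrals exist and `∫∫ f(θ₁) h(θ₂) = ∫ f ∫ h`).  By A3 a term is `0` unless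
`κ₁ ∣ t - t'` and `κ₂ ∣ t - t'`, i.e. (coprime) `Q ∣ t - t'`; then with `t - t' = Q m` it is
`(∫ fourier (κ₂ m) α g₁ α)(∫ fourier (-κ₁ m) β g₂ β)`.  Write `t = Q w + ρ`, `t' = Q w' + ρ'` with `ρ, ρ' < Q`
(`Nat.divModEquiv`-like bijection `range (Q V) ≃ range V × range Q`): `Q ∣ t - t'` iff `ρ = ρ'`, and `m = w - w'`.  So the
sum is `Q ∑_{w,w' < V} (…)`, which is the right side expanded in the same way
(`fourier m (κ₂ • α - κ₁ • β) = fourier (κ₂ m) α * fourier (-κ₁ m) β`). -/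
theorem tA4 (hA3 : S_A3) : S_A4 := by
  intro κ₁ κ₂ V g₁ g₂ hκ₁ hκ₂ hco hg₁ hg₂ hB₁ hB₂
  have hm : ∀ κ : ℕ, Measurable fun x : T => κ • x := fun κ => (continuous_const_smul κ).measurable
  have hB₁' : ∃ B : ℝ, ∀ x : T, |g₁ (κ₁ • x)| ≤ B := by
    obtain ⟨B, hB⟩ := hB₁
    exact ⟨B, fun x => hB _⟩
  have hB₂' : ∃ B : ℝ, ∀ x : T, |g₂ (κ₂ • x)| ≤ B := by
    obtain ⟨B, hB⟩ := hB₂
    exact ⟨B, fun x => hB _⟩
  obtain ⟨F, hF⟩ : ∃ F : ℤ → ℂ, F = fun u =>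
      (∫ x : T, fourier u x * (g₁ (κ₁ • x) : ℂ)) * ∫ y : T, fourier (-u) y * (g₂ (κ₂ • y) : ℂ) :=
    ⟨_, rfl⟩
  have hF0 : ∀ u : ℤ, ¬ ((κ₁ * κ₂ : ℕ) : ℤ) ∣ u → F u = 0 := by
    intro u hu
    rw [hF]
    simp only
    rw [hA3 κ₁ u g₁ hκ₁ hg₁ hB₁, hA3 κ₂ (-u) g₂ hκ₂ hg₂ hB₂]
    by_cases h1 : (κ₁ : ℤ) ∣ u
    · have h2 : ¬ (κ₂ : ℤ) ∣ -u := by
        intro h2
        apply hu
        rw [dvd_neg] at h2
        push_cast
        exact IsCoprime.mul_dvd (Nat.isCoprime_iff_coprime.2 hco) h1 h2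
      rw [if_neg h2, mul_zero]
    · rw [if_neg h1, zero_mul]
  have hFQ : ∀ m : ℤ, F ((κ₁ * κ₂ : ℕ) * m) =
      (∫ x : T, fourier (κ₂ * m) x * (g₁ x : ℂ)) * ∫ y : T, fourier (-(κ₁ * m)) y * (g₂ y : ℂ) := by
    intro m
    rw [hF]
    simp only
    have h1 : (((κ₁ * κ₂ : ℕ) : ℤ) * m) = κ₁ * (κ₂ * m) := by push_cast; ring
    have h2 : -(((κ₁ * κ₂ : ℕ) : ℤ) * m) = κ₂ * (-(κ₁ * m)) := by push_cast; ring
    have h3 : (κ₁ : ℤ) ≠ 0 := by exact_mod_cast hκ₁.ne'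
    have h4 : (κ₂ : ℤ) ≠ 0 := by exact_mod_cast hκ₂.ne'
    rw [hA3 κ₁ _ g₁ hκ₁ hg₁ hB₁, hA3 κ₂ _ g₂ hκ₂ hg₂ hB₂, h2, h1, if_pos (dvd_mul_right _ _),
      if_pos (dvd_mul_right _ _), Int.mul_ediv_cancel_left _ h3, Int.mul_ediv_cancel_left _ h4]
  apply Complex.ofReal_injective
  have e1 := a4_expand (κ₁ * κ₂ * V) 1 1 (hg₁.comp (hm κ₁)) (hg₂.comp (hm κ₂)) hB₁' hB₂'
  have e2 := a4_expand V κ₂ κ₁ hg₁ hg₂ hB₁ hB₂
  simp only [one_smul, Nat.cast_one, one_mul, Function.comp] at e1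
  rw [e1, Complex.ofReal_mul, e2]
  have e3 := a4_double (κ₁ * κ₂) V F hF0
  have e4 : ∀ w w' : ℕ, F (((κ₁ * κ₂ : ℕ) : ℤ) * ((w : ℤ) - w')) =
      (∫ x : T, fourier (κ₂ * ((w : ℤ) - w')) x * (g₁ x : ℂ)) *
        ∫ y : T, fourier (-(κ₁ * ((w : ℤ) - w'))) y * (g₂ y : ℂ) := fun w w' => hFQ _
  simp only [e4] at e3
  rw [hF] at e3
  rw [e3]
  push_cast
  rfl

end Pool.Agent.Lib.MP_fed790_nt.PX
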