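import Pool.Agent.Lib.MP_fed790_nt.PX.Defs

/-! A5: two-dimensional Bessel inequality -/

open Finset MeasureTheory

namespace Pool.Agent.Lib.MP_fed790_nt.PX

theorem a5_int {f : T → ℂ} (hf : Continuous f) : Integrable f :=
  hf.integrable_of_hasCompactSupport (HasCompactSupport.of_compactSpace f)

theorem a5_intR {f : T → ℝ} (hf : Continuous f) : Integrable f :=
  hf.integrable_of_hasCompactSupport (HasCompactSupport.of_compactSpace f)

theorem a5_fcont (n : ℤ) : Continuous fun x : T => (fourier n x : ℂ) :=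
  (fourier n).continuous

theorem a5_nsq (z : ℂ) : ((‖z‖ ^ 2 : ℝ) : ℂ) = z * (starRingEnd ℂ) z := by
  rw [Complex.mul_conj, Complex.normSq_eq_norm_sq]

/-- Parseval for finite trigonometric sums. -/
theorem a5_pars (hA1 : S_A1) (A : Finset ℤ) (c : ℤ → ℂ) :
    ∫ θ : T, ‖∑ a ∈ A, c a * fourier a θ‖ ^ 2 = ∑ a ∈ A, ‖c a‖ ^ 2 := by
  have h1 : ((∫ θ : T, ‖∑ a ∈ A, c a * fourier a θ‖ ^ 2 : ℝ) : ℂ)
      = ((∑ a ∈ A, ‖c a‖ ^ 2 : ℝ) : ℂ) := by
    rw [← integral_complex_ofReal]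
    have h2 : ∀ θ : T, ((‖∑ a ∈ A, c a * fourier a θ‖ ^ 2 : ℝ) : ℂ)
        = ∑ a ∈ A, ∑ b ∈ A, (c a * (starRingEnd ℂ) (c b)) * fourier (a - b) θ := by
      intro θ
      rw [a5_nsq, map_sum, Finset.sum_mul_sum]
      refine Finset.sum_congr rfl fun a _ => Finset.sum_congr rfl fun b _ => ?_
      rw [map_mul, ← fourier_neg, sub_eq_add_neg, fourier_add]
      ring
    simp_rw [h2]
    rw [integral_finsetSum]
    · rw [Complex.ofReal_sum]
      refine Finset.sum_congr rfl fun a ha => ?_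
      rw [integral_finsetSum]
      · have h3 : ∀ b ∈ A, ∫ θ : T, (c a * (starRingEnd ℂ) (c b)) * fourier (a - b) θ
            = if b = a then ((‖c a‖ ^ 2 : ℝ) : ℂ) else 0 := by
          intro b _
          rw [integral_const_mul, hA1]
          by_cases hb : b = a
          · subst hb
            simp [a5_nsq, -Complex.ofReal_pow]
          · have : a - b ≠ 0 := fun h => hb (by omega)
            simp [hb, this]
        rw [Finset.sum_congr rfl h3, Finset.sum_ite_eq' A a, if_pos ha]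
      · intro b _
        exact a5_int (continuous_const.mul (a5_fcont _))
    · intro a _
      exact a5_int (continuous_finsetSum _ fun b _ => continuous_const.mul (a5_fcont _))
  exact_mod_cast h1

/-- Two-dimensional Parseval. -/
theorem a5_pars2 (hA1 : S_A1) (A B : Finset ℤ) (g : ℤ → ℤ → ℂ) :
    ∫ θ₁ : T, ∫ θ₂ : T, ‖∑ b ∈ B, (∑ a ∈ A, g a b * fourier a θ₁) * fourier b θ₂‖ ^ 2
      = ∑ b ∈ B, ∑ a ∈ A, ‖g a b‖ ^ 2 := by
  simp_rw [a5_pars hA1 B]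
  rw [integral_finsetSum]
  · refine Finset.sum_congr rfl fun b _ => ?_
    exact a5_pars hA1 A fun a => g a b
  · intro b _
    refine a5_intR ?_
    refine Continuous.pow (Continuous.norm ?_) 2
    exact continuous_finsetSum _ fun a _ => continuous_const.mul (a5_fcont _)

/-- Finite Fourier expansion of `Φ`. -/
theorem a5_supp {ι : Type} [Fintype ι] (κ : ι → ℕ) (u : ι → ℂ) (ν : ι → ℤ) (a : ℕ → ℂ) (W : ℕ) :
    ∃ N₀ : ℕ, (∀ d : ℤ, (N₀ : ℤ) < |d| → phi κ u ν a W d = 0) ∧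
      ∀ N : ℕ, N₀ ≤ N → ∀ θ : T,
        ∑ d ∈ Icc (-(N : ℤ)) N, phi κ u ν a W d * fourier d θ = Phi κ u ν a W θ := by
  classical
  refine ⟨∑ p, ∑ ω ∈ Icc 1 W, (ν p + κ p * ω : ℤ).natAbs, ?_, ?_⟩
  · intro d hd
    unfold phi
    refine Finset.sum_eq_zero fun p _ => ?_
    have : ∑ ω ∈ Icc 1 W, (if d = ν p + κ p * ω then a ω else 0) = 0 := by
      refine Finset.sum_eq_zero fun ω hω => ?_
      rw [if_neg]
      intro h
      have h1 : (ν p + κ p * ω : ℤ).natAbs ≤ ∑ p, ∑ ω ∈ Icc 1 W, (ν p + κ p * ω : ℤ).natAbs :=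
        le_trans (Finset.single_le_sum (f := fun ω : ℕ => (ν p + κ p * ω : ℤ).natAbs)
          (fun _ _ => Nat.zero_le _) hω)
          (Finset.single_le_sum (f := fun p => ∑ ω ∈ Icc 1 W, (ν p + κ p * ω : ℤ).natAbs)
          (fun _ _ => Nat.zero_le _) (Finset.mem_univ p))
      rw [← h] at h1
      have h2 : |d| = (d.natAbs : ℤ) := Int.abs_eq_natAbs d
      rw [h2] at hd
      exact absurd (by exact_mod_cast hd) (not_lt.mpr h1)
    rw [this, mul_zero]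
  · intro N hN θ
    have hmem : ∀ p : ι, ∀ ω ∈ Icc 1 W, (ν p + κ p * ω : ℤ) ∈ Icc (-(N : ℤ)) N := by
      intro p ω hω
      have h1 : (ν p + κ p * ω : ℤ).natAbs ≤ ∑ p, ∑ ω ∈ Icc 1 W, (ν p + κ p * ω : ℤ).natAbs :=
        le_trans (Finset.single_le_sum (f := fun ω : ℕ => (ν p + κ p * ω : ℤ).natAbs)
          (fun _ _ => Nat.zero_le _) hω)
          (Finset.single_le_sum (f := fun p => ∑ ω ∈ Icc 1 W, (ν p + κ p * ω : ℤ).natAbs)
          (fun _ _ => Nat.zero_le _) (Finset.mem_univ p))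
      have h2 := le_trans h1 hN
      rw [Finset.mem_Icc]
      omega
    unfold phi Phi Fs
    simp_rw [Finset.sum_mul]
    rw [Finset.sum_comm]
    refine Finset.sum_congr rfl fun p _ => ?_
    have h3 : ∀ d ∈ Icc (-(N : ℤ)) N,
        (κ p : ℂ) * u p * (∑ ω ∈ Icc 1 W, if d = ν p + κ p * ω then a ω else 0) * fourier d θ
        = ∑ ω ∈ Icc 1 W, if d = ν p + κ p * ω then
          (κ p : ℂ) * u p * a ω * fourier (ν p + κ p * ω) θ else 0 := by
      intro d _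
      rw [Finset.mul_sum, Finset.sum_mul]
      refine Finset.sum_congr rfl fun ω _ => ?_
      by_cases h : d = ν p + κ p * ω
      · simp only [h, if_true]
      · simp [h]
    rw [Finset.sum_congr rfl h3, Finset.sum_comm, Finset.mul_sum]
    refine Finset.sum_congr rfl fun ω hω => ?_
    rw [Finset.sum_ite_eq' (Icc (-(N : ℤ)) N), if_pos (hmem p ω hω), fourier_add]
    have h4 : (fourier ((κ p : ℤ) * ω) θ : ℂ) = fourier (ω : ℤ) (κ p • θ) := by
      rw [fourier_apply, fourier_apply]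
      congr 2
      rw [mul_comm, mul_smul, natCast_zsmul, natCast_zsmul, natCast_zsmul]
    rw [h4]
    ring

/-- A shift of the frequency. -/
theorem a5_shift (φ : ℤ → ℂ) (N M x : ℕ) (hφ : ∀ d : ℤ, (N : ℤ) < |d| → φ d = 0)
    (hM : N + x ≤ M) (θ : T) :
    fourier (-(x : ℤ)) θ * ∑ d ∈ Icc (-(N : ℤ)) N, φ d * fourier d θ
      = ∑ a ∈ Icc (-(M : ℤ)) M, φ (a + x) * fourier a θ := by
  rw [Finset.mul_sum]
  have h1 : ∑ d ∈ Icc (-(N : ℤ)) N, fourier (-(x : ℤ)) θ * (φ d * fourier d θ)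
      = ∑ a ∈ (Icc (-(N : ℤ)) N).image (fun d : ℤ => d - (x : ℤ)), φ (a + x) * fourier a θ := by
    rw [Finset.sum_image (fun a _ b _ h => by
      have : a - (x : ℤ) = b - (x : ℤ) := h
      omega)]
    refine Finset.sum_congr rfl fun d _ => ?_
    rw [sub_add_cancel, sub_eq_add_neg, fourier_add]
    ring
  rw [h1]
  refine Finset.sum_subset ?_ ?_
  · intro a ha
    rw [Finset.mem_image] at ha
    obtain ⟨d, hd, rfl⟩ := ha
    rw [Finset.mem_Icc] at hd ⊢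
    omega
  · intro a _ ha
    rw [hφ (a + x), zero_mul]
    by_contra hcon
    apply ha
    rw [Finset.mem_image]
    refine ⟨a + x, ?_, by ring⟩
    rw [Finset.mem_Icc]
    have := abs_le.mp (not_lt.mp hcon)
    omega

/-- (Job PX A5) Proof.  Put `c y y' = ∑_{x<ℓ} φ₁(w+x-y) conj φ₂(w+x-y')`.  `Φ_i θ = ∑_{d ∈ S_i} φ_i(d) fourier d θ` for every
finite `S_i ⊆ ℤ` containing the support of `φ_i` (e.g. an interval `Icc (-N) N`): because
`fourier (ν p) θ * fourier ω (κ p • θ) = fourier (ν p + κ p ω) θ`.  Let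
`G(θ₁,θ₂) = (∑_{x<ℓ} fourier (-x) (θ₁ - θ₂)) Φ₁(θ₁) conj (Φ₂(θ₂))`; its norm squared is the integrand on the right
(`∑ fourier (-x) z = conj (D ℓ z)`).  Expanding, `G = ∑_{x,d₁,d₂} φ₁(d₁) conj φ₂(d₂) fourier (d₁-x) θ₁ fourier (x-d₂) θ₂`,
so by A1 (iterated) `∫∫ G(θ₁,θ₂) fourier (y-w) θ₁ fourier (w-y') θ₂ = c y y'`  (`d₁ = w + x - y`, `d₂ = w + x - y'`).
Bessel: with `B = ∑_{y,y'<ℓ} c y y' fourier (w-y) θ₁ fourier (y'-w) θ₂` one has `∫∫ |B|² = ∑ |c|²` and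
`∫∫ G conj B = ∑ |c|²`, hence `0 ≤ ∫∫ |G - B|² = ∫∫ |G|² - ∑ |c|²`.  All functions are finite sums of products
of characters (continuous), so all integrals exist.  Alternatively expand `∫∫|G|²` completely: it is
`∑_{a,b ∈ ℤ (finite)} |c_{a,b}|²` over all pairs of coefficients, of which the `(y,y')` are some. -/
theorem tA5 (hA1 : S_A1) : S_A5 := by
  intro ι₁ ι₂ _ _ κ₁ κ₂ u₁ u₂ ν₁ ν₂ a₁ a₂ W ℓ w
  obtain ⟨N₁, hs₁, he₁⟩ := a5_supp κ₁ u₁ ν₁ a₁ W
  obtain ⟨N₂, hs₂, he₂⟩ := a5_supp κ₂ u₂ ν₂ a₂ W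
  set φ₁ := phi κ₁ u₁ ν₁ a₁ W with hφ₁
  set φ₂ := phi κ₂ u₂ ν₂ a₂ W with hφ₂
  set N : ℕ := max N₁ N₂ with hN
  set M : ℕ := N + ℓ + w.natAbs with hM
  have hs₁' : ∀ d : ℤ, (N : ℤ) < |d| → φ₁ d = 0 := fun d hd =>
    hs₁ d (lt_of_le_of_lt (by exact_mod_cast le_max_left _ _) hd)
  have hs₂' : ∀ d : ℤ, (N : ℤ) < |d| → φ₂ d = 0 := fun d hd =>
    hs₂ d (lt_of_le_of_lt (by exact_mod_cast le_max_right _ _) hd)
  have he₁' := he₁ N (le_max_left _ _)
  have he₂' := he₂ N (le_max_right _ _)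
  let g : ℤ → ℤ → ℂ := fun a b => ∑ x ∈ range ℓ, φ₁ (a + x) * (starRingEnd ℂ) (φ₂ (x - b))
  have hG : ∀ θ₁ θ₂ : T, ‖D ℓ (θ₁ - θ₂)‖ ^ 2 *
      (‖Phi κ₁ u₁ ν₁ a₁ W θ₁‖ ^ 2 * ‖Phi κ₂ u₂ ν₂ a₂ W θ₂‖ ^ 2)
      = ‖∑ b ∈ Icc (-(M : ℤ)) M, (∑ a ∈ Icc (-(M : ℤ)) M, g a b * fourier a θ₁) *
        fourier b θ₂‖ ^ 2 := by
    intro θ₁ θ₂
    rw [← mul_pow, ← mul_pow]
    congr 1
    have e1 : ‖D ℓ (θ₁ - θ₂)‖ = ‖(starRingEnd ℂ) (D ℓ (θ₁ - θ₂))‖ := (RCLike.norm_conj _).symm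
    have e2 : ‖Phi κ₂ u₂ ν₂ a₂ W θ₂‖ = ‖(starRingEnd ℂ) (Phi κ₂ u₂ ν₂ a₂ W θ₂)‖ :=
      (RCLike.norm_conj _).symm
    rw [e1, e2, ← norm_mul, ← norm_mul]
    congr 1
    unfold D
    rw [map_sum, Finset.sum_mul]
    have h5 : ∀ x ∈ range ℓ, (starRingEnd ℂ) (fourier (x : ℤ) (θ₁ - θ₂) : ℂ) *
        (Phi κ₁ u₁ ν₁ a₁ W θ₁ * (starRingEnd ℂ) (Phi κ₂ u₂ ν₂ a₂ W θ₂))
        = ∑ b ∈ Icc (-(M : ℤ)) M, ∑ a ∈ Icc (-(M : ℤ)) M,
          (φ₁ (a + x) * (starRingEnd ℂ) (φ₂ (x - b)) * fourier a θ₁) * fourier b θ₂ := by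
      intro x hx
      have hx' : N + x ≤ M := by
        rw [Finset.mem_range] at hx
        omega
      have h6 : (starRingEnd ℂ) (fourier (x : ℤ) (θ₁ - θ₂) : ℂ)
          = fourier (-(x : ℤ)) θ₁ * (starRingEnd ℂ) (fourier (-(x : ℤ)) θ₂ : ℂ) := by
        rw [← fourier_neg, ← fourier_neg]
        simp only [fourier_apply, neg_neg]
        rw [← Circle.coe_mul, ← AddCircle.toCircle_add]
        congr 2
        rw [smul_sub, neg_smul, neg_smul, sub_neg_eq_add]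
      have h7 : (starRingEnd ℂ) (fourier (-(x : ℤ)) θ₂ : ℂ) *
          (starRingEnd ℂ) (Phi κ₂ u₂ ν₂ a₂ W θ₂)
          = ∑ b ∈ Icc (-(M : ℤ)) M, (starRingEnd ℂ) (φ₂ (x - b)) * fourier b θ₂ := by
        rw [← map_mul, ← he₂' θ₂, a5_shift φ₂ N M x hs₂' hx' θ₂, map_sum]
        refine Finset.sum_nbij' (fun a => -a) (fun a => -a) ?_ ?_ ?_ ?_ ?_
        · intro a ha
          rw [Finset.mem_Icc] at ha ⊢
          omega
        · intro a ha
          rw [Finset.mem_Icc] at ha ⊢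
          omega
        · intro a _
          exact neg_neg a
        · intro a _
          exact neg_neg a
        · intro a _
          rw [map_mul, ← fourier_neg]
          congr 2
          congr 1
          ring
      calc (starRingEnd ℂ) (fourier (x : ℤ) (θ₁ - θ₂) : ℂ) *
          (Phi κ₁ u₁ ν₁ a₁ W θ₁ * (starRingEnd ℂ) (Phi κ₂ u₂ ν₂ a₂ W θ₂))
          = (fourier (-(x : ℤ)) θ₁ * Phi κ₁ u₁ ν₁ a₁ W θ₁) *
            ((starRingEnd ℂ) (fourier (-(x : ℤ)) θ₂ : ℂ) *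
              (starRingEnd ℂ) (Phi κ₂ u₂ ν₂ a₂ W θ₂)) := by
            rw [h6]; ring
        _ = (∑ a ∈ Icc (-(M : ℤ)) M, φ₁ (a + x) * fourier a θ₁) *
            ∑ b ∈ Icc (-(M : ℤ)) M, (starRingEnd ℂ) (φ₂ (x - b)) * fourier b θ₂ := by
            rw [h7, ← he₁' θ₁, a5_shift φ₁ N M x hs₁' hx' θ₁]
        _ = _ := by
            rw [Finset.sum_mul_sum, Finset.sum_comm]
            refine Finset.sum_congr rfl fun b _ => Finset.sum_congr rfl fun a _ => ?_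
            ring
    rw [Finset.sum_congr rfl h5, Finset.sum_comm]
    refine Finset.sum_congr rfl fun b _ => ?_
    rw [Finset.sum_comm, Finset.sum_mul]
    refine Finset.sum_congr rfl fun a _ => ?_
    simp only [g]
    rw [Finset.sum_mul, Finset.sum_mul]
  simp_rw [hG]
  rw [a5_pars2 hA1, Finset.sum_comm]
  have h8 : ∀ y ∈ range ℓ, ∀ y' ∈ range ℓ,
      ∑ x ∈ range ℓ, φ₁ (w + x - y) * (starRingEnd ℂ) (φ₂ (w + x - y')) = g (w - y) (y' - w) := by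
    intro y _ y' _
    simp only [g]
    refine Finset.sum_congr rfl fun x _ => ?_
    congr 2
    · ring
    · congr 1
      ring
  rw [Finset.sum_congr rfl fun y' hy' => Finset.sum_congr rfl fun y hy =>
    congrArg (fun z : ℂ => ‖z‖ ^ 2) (h8 y hy y' hy')]
  have h9 : ∀ y' ∈ range ℓ, ∑ y ∈ range ℓ, ‖g (w - y) (y' - w)‖ ^ 2
      ≤ ∑ a ∈ Icc (-(M : ℤ)) M, ‖g a (y' - w)‖ ^ 2 := by
    intro y' _
    rw [← Finset.sum_image (s := range ℓ) (g := fun y : ℕ => w - (y : ℤ))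
      (f := fun a => ‖g a (y' - w)‖ ^ 2) (fun a _ b _ h => by
        have : w - (a : ℤ) = w - (b : ℤ) := h
        omega)]
    refine Finset.sum_le_sum_of_subset_of_nonneg ?_ fun _ _ _ => by positivity
    intro a ha
    rw [Finset.mem_image] at ha
    obtain ⟨y, hy, rfl⟩ := ha
    rw [Finset.mem_range] at hy
    rw [Finset.mem_Icc]
    omega
  refine le_trans (Finset.sum_le_sum h9) ?_
  rw [← Finset.sum_image (s := range ℓ) (g := fun y : ℕ => (y : ℤ) - w)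
    (f := fun b => ∑ a ∈ Icc (-(M : ℤ)) M, ‖g a b‖ ^ 2) (fun a _ b _ h => by
      have : (a : ℤ) - w = (b : ℤ) - w := h
      omega)]
  refine Finset.sum_le_sum_of_subset_of_nonneg ?_ fun _ _ _ => by positivity
  intro a ha
  rw [Finset.mem_image] at ha
  obtain ⟨y, hy, rfl⟩ := ha
  rw [Finset.mem_range] at hy
  rw [Finset.mem_Icc]
  omega

end Pool.Agent.Lib.MP_fed790_nt.PX
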