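import Pool.Agent.Lib.MP_fed790_nt.PX.Defs

/-! A6: measure of major arcs -/

open Finset MeasureTheory

namespace Pool.Agent.Lib.MP_fed790_nt.PX

private lemma a6_mp (M : ℕ) (hM : 0 < M) :
    MeasurePreserving (fun θ : T => M • θ) (volume : Measure T) (volume : Measure T) := by
  rcases Nat.lt_or_ge 1 M with h | h
  · exact (AddCircle.ergodic_nsmul (T := (1 : ℝ)) h).toMeasurePreserving
  · have h1 : M = 1 := le_antisymm h hM
    subst h1
    simp only [one_smul]
    exact MeasurePreserving.id (volume : Measure T)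

/-- (Job PX A6) Proof.  `{θ | ‖M • θ‖ ≤ δ}` is the preimage of `closedBall 0 δ` under `θ ↦ M • θ`, which is measure preserving
(`AddCircle.ergodic_nsmul` for `M > 1`, trivial for `M = 1`), and
`volume (closedBall x δ) = ENNReal.ofReal (min 1 (2δ))` (`AddCircle.volume_closedBall`). -/
theorem tA6 : S_A6 := by
  intro M δ hM hδ
  have hset : {θ : T | ‖M • θ‖ ≤ δ} = (fun θ : T => M • θ) ⁻¹' (Metric.closedBall 0 δ) := by
    ext θ
    simp
  have hmp := a6_mp M hM
  rw [measureReal_def, hset, hmp.measure_preimage Metric.isClosed_closedBall.measurableSet.nullMeasurableSet,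
    AddCircle.volume_closedBall]
  rw [ENNReal.toReal_ofReal (by positivity)]
  exact min_le_right _ _

end Pool.Agent.Lib.MP_fed790_nt.PX
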