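import Pool.Agent.Lib.MP_fed790_nt.PX.Defs

/-! A7: L2 norm of the Dirichlet kernel -/

open Finset MeasureTheory

namespace Pool.Agent.Lib.MP_fed790_nt.PX

/-- (Job PX A7) Proof.  `‖D ℓ z‖² = ∑_{t,t'<ℓ} fourier (t-t') z` (in `ℂ`); `∫ fourier n (x - y) dy = fourier n x * ∫ fourier (-n) y dy`,
which is `1` for `n = 0` and `0` otherwise by A1. -/
theorem tA7 (hA1 : S_A1) : S_A7 := by
  intro ℓ x
  have h0 : ∫ y : T, ‖D ℓ (x - y)‖ ^ 2 = ∫ y : T, ‖D ℓ y‖ ^ 2 :=
    integral_sub_left_eq_self (fun y : T => ‖D ℓ y‖ ^ 2) volume x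
  rw [h0]
  have h1 : ∀ y : T, ((‖D ℓ y‖ ^ 2 : ℝ) : ℂ) =
      ∑ t ∈ range ℓ, ∑ s ∈ range ℓ, fourier ((t : ℤ) - (s : ℤ)) y := by
    intro y
    rw [Complex.ofReal_pow, ← Complex.mul_conj']
    unfold D
    rw [map_sum, Finset.sum_mul_sum]
    refine Finset.sum_congr rfl fun t _ => Finset.sum_congr rfl fun s _ => ?_
    rw [← fourier_neg, ← fourier_add, sub_eq_add_neg]
  have hint : ∀ n : ℤ, Integrable (fun y : T => (fourier n y : ℂ)) volume := fun n =>
    (fourier n : C(T, ℂ)).continuous.integrable_of_hasCompactSupport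
      (HasCompactSupport.of_compactSpace _)
  have h2 : (((∫ y : T, ‖D ℓ y‖ ^ 2 : ℝ)) : ℂ) = ((ℓ : ℝ) : ℂ) := by
    rw [← integral_complex_ofReal]
    calc ∫ y : T, ((‖D ℓ y‖ ^ 2 : ℝ) : ℂ)
        = ∫ y : T, ∑ t ∈ range ℓ, ∑ s ∈ range ℓ, fourier ((t : ℤ) - (s : ℤ)) y :=
          integral_congr_ae (Filter.Eventually.of_forall h1)
      _ = ∑ t ∈ range ℓ, ∑ s ∈ range ℓ, ∫ y : T, fourier ((t : ℤ) - (s : ℤ)) y := by
          rw [integral_finsetSum _ fun t _ => integrable_finsetSum _ fun s _ => hint _]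
          refine Finset.sum_congr rfl fun t _ => ?_
          rw [integral_finsetSum _ fun s _ => hint _]
      _ = ∑ t ∈ range ℓ, ∑ s ∈ range ℓ, (if t = s then (1 : ℂ) else 0) := by
          refine Finset.sum_congr rfl fun t _ => Finset.sum_congr rfl fun s _ => ?_
          rw [hA1]
          refine if_congr ?_ rfl rfl
          omega
      _ = ∑ t ∈ range ℓ, (1 : ℂ) := by
          refine Finset.sum_congr rfl fun t ht => ?_
          rw [Finset.sum_ite_eq, if_pos ht]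
      _ = ((ℓ : ℝ) : ℂ) := by
          rw [Finset.sum_const, Finset.card_range, nsmul_eq_mul, mul_one, Complex.ofReal_natCast]
  exact_mod_cast h2

end Pool.Agent.Lib.MP_fed790_nt.PX
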