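import Pool.Agent.Lib.MP_fed790_nt.PX.Defs

/-! A8: Parseval for F -/

open Finset MeasureTheory

namespace Pool.Agent.Lib.MP_fed790_nt.PX

/-- (Job PX A8) Proof.  `‖F α‖² = ∑_{ω,ω'} a ω conj (a ω') fourier (ω-ω') α`, A1 gives `∫ = ∑_{ω ∈ Icc 1 W} ‖a ω‖² ≤ W`. -/
theorem tA8 (hA1 : S_A1) : S_A8 := by
  intro a W ha
  have h1 : ∀ y : T, ((‖Fs a W y‖ ^ 2 : ℝ) : ℂ) =
      ∑ t ∈ Icc 1 W, ∑ s ∈ Icc 1 W,
        (a t * (starRingEnd ℂ) (a s)) * fourier ((t : ℤ) - (s : ℤ)) y := by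
    intro y
    rw [Complex.ofReal_pow, ← Complex.mul_conj']
    unfold Fs
    rw [map_sum, Finset.sum_mul_sum]
    refine Finset.sum_congr rfl fun t _ => Finset.sum_congr rfl fun s _ => ?_
    rw [map_mul, ← fourier_neg, sub_eq_add_neg, fourier_add]
    ring
  have hint : ∀ n : ℤ, Integrable (fun y : T => (fourier n y : ℂ)) volume := fun n =>
    (fourier n : C(T, ℂ)).continuous.integrable_of_hasCompactSupport
      (HasCompactSupport.of_compactSpace _)
  have h2 : (((∫ y : T, ‖Fs a W y‖ ^ 2 : ℝ)) : ℂ) =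
      ((∑ t ∈ Icc 1 W, ‖a t‖ ^ 2 : ℝ) : ℂ) := by
    rw [← integral_complex_ofReal]
    calc ∫ y : T, ((‖Fs a W y‖ ^ 2 : ℝ) : ℂ)
        = ∫ y : T, ∑ t ∈ Icc 1 W, ∑ s ∈ Icc 1 W,
            (a t * (starRingEnd ℂ) (a s)) * fourier ((t : ℤ) - (s : ℤ)) y :=
          integral_congr_ae (Filter.Eventually.of_forall h1)
      _ = ∑ t ∈ Icc 1 W, ∑ s ∈ Icc 1 W,
            ∫ y : T, (a t * (starRingEnd ℂ) (a s)) * fourier ((t : ℤ) - (s : ℤ)) y := by
          rw [integral_finsetSum _ fun t _ => integrable_finsetSum _ fun s _ =>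
            (hint _).const_mul _]
          refine Finset.sum_congr rfl fun t _ => ?_
          rw [integral_finsetSum _ fun s _ => (hint _).const_mul _]
      _ = ∑ t ∈ Icc 1 W, ∑ s ∈ Icc 1 W,
            (if t = s then (a t * (starRingEnd ℂ) (a s)) else 0) := by
          refine Finset.sum_congr rfl fun t _ => Finset.sum_congr rfl fun s _ => ?_
          rw [integral_const_mul, hA1]
          by_cases hts : t = s
          · subst hts
            simp
          · have : ¬ ((t : ℤ) - (s : ℤ) = 0) := by omega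
            rw [if_neg this, if_neg hts, mul_zero]
      _ = ∑ t ∈ Icc 1 W, (a t * (starRingEnd ℂ) (a t)) := by
          refine Finset.sum_congr rfl fun t ht => ?_
          rw [Finset.sum_ite_eq, if_pos ht]
      _ = ((∑ t ∈ Icc 1 W, ‖a t‖ ^ 2 : ℝ) : ℂ) := by
          push_cast
          refine Finset.sum_congr rfl fun t _ => ?_
          rw [Complex.mul_conj']
  have h3 : ∫ y : T, ‖Fs a W y‖ ^ 2 = ∑ t ∈ Icc 1 W, ‖a t‖ ^ 2 := by exact_mod_cast h2
  rw [h3]
  calc ∑ t ∈ Icc 1 W, ‖a t‖ ^ 2 ≤ ∑ t ∈ Icc 1 W, (1 : ℝ) := by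
        refine Finset.sum_le_sum fun t _ => ?_
        have := ha t
        have h0 := norm_nonneg (a t)
        nlinarith
    _ = (W : ℝ) := by simp

end Pool.Agent.Lib.MP_fed790_nt.PX
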