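import Pool.Agent.Lib.MP_fed790_nt.PX.Defs

/-! B1: the collision lemma -/

open Finset MeasureTheory

namespace Pool.Agent.Lib.MP_fed790_nt.PX

private lemma b1_norm_zsmul (x : ℝ) (t : ℤ) :
    ‖t • ((x : ℝ) : T)‖ = |(t : ℝ) * x - round ((t : ℝ) * x)| := by
  have h : t • ((x : ℝ) : T) = (((t : ℝ) * x : ℝ) : T) := by
    have := (AddCircle.coe_zsmul (p := (1 : ℝ)) (n := t) (x := x))
    rw [← this, zsmul_eq_mul]
  rw [h]
  exact UnitAddCircle.norm_eq

private lemma b1_norm_nsmul (x : ℝ) (t : ℕ) :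
    ‖t • ((x : ℝ) : T)‖ = |(t : ℝ) * x - round ((t : ℝ) * x)| := by
  have := b1_norm_zsmul x t
  rw [natCast_zsmul] at this
  simpa using this

/-- (Job PX B1) Proof.  Let `S` be the set of `p` with `‖κ p • α - γ‖ ≤ δ`; `ε n < #S` (`n = card ι`, `S` nonempty since `ε ≥ 0`).
Fix `a ∈ S`.  By separation (`p₀ = a`) fewer than `#S` indices have `I |κ p - κ a| < K`, so some `b ∈ S` has
`I |κ b - κ a| ≥ K`.  Put `D = |κ b - κ a|` (so `0 < D ≤ K`, since all `κ p ∈ [K, 2K]`).  Let `x : ℝ` represent `α`.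
`‖(κ b - κ a) • α‖ ≤ 2δ`, so `D x = h + e₁` with `h ∈ ℤ`, `|e₁| ≤ 2δ`.  Let `d = gcd(h, D)`, `q = D / d > 0`,
`h₀ = h / d`, coprime; `x = h₀/q + e₁/D`, `|e₁/D| ≤ 2δ I / K`.
For `p ∈ S`: `‖(κ p - κ a) • α‖ ≤ 2δ`, so `(κ p - κ a) h₀ / q` is within `2δ + K·2δI/K = 2δ(1+I)` of an integer
(`|κ p - κ a| ≤ K`); it is a rational with denominator `q ≤ K` and `2δ(1+I) < 1/K ≤ 1/q`, so it is an integer, so
`q ∣ κ p - κ a` (`q` coprime to `h₀`).  Hence all `p ∈ S` satisfy `(q:ℤ) ∣ κ p - κ a`, and by the class hypothesis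
`q ∣ M₂` (otherwise `#S ≤ ε n`).  Finally `M₂ x = (M₂/q) h₀ + M₂ e₁/D` is within `M₂ · 2δI/K` of an integer.
(`UnitAddCircle.norm_eq : ‖(t : UnitAddCircle)‖ = |t - round t|`, `round_le`, triangle inequality in the group;
`‖(n : ℝ)‖ = 0` in the circle for integers `n`.) -/
theorem tB1 : S_B1 := by
  classical
  intro ι _ κ K I M₂ ε δ hK hI hδ hε hκ hsep hcl hsmall α γ hS
  obtain ⟨x, rfl⟩ := QuotientAddGroup.mk_surjective α
  change ‖M₂ • ((x : ℝ) : T)‖ ≤ _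
  set S : Finset ι := univ.filter fun p => ‖κ p • ((x : ℝ) : T) - γ‖ ≤ δ with hSdef
  have hS' : ε * Fintype.card ι < ((S.card : ℕ) : ℝ) := hS
  have hn0 : (0 : ℝ) ≤ ε * Fintype.card ι := mul_nonneg hε (Nat.cast_nonneg _)
  have hSpos : 0 < S.card := by
    have : (0 : ℝ) < ((S.card : ℕ) : ℝ) := lt_of_le_of_lt hn0 hS'
    exact_mod_cast this
  obtain ⟨a, ha⟩ := Finset.card_pos.mp hSpos
  -- the second index
  obtain ⟨b, hbS, hb⟩ : ∃ b ∈ S, K ≤ I * ((κ b : ℤ) - κ a).natAbs := by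
    by_contra hcon
    push Not at hcon
    have hsub : S ⊆ univ.filter fun p => I * ((κ p : ℤ) - κ a).natAbs < K := by
      intro p hp
      exact Finset.mem_filter.mpr ⟨Finset.mem_univ _, hcon p hp⟩
    have h1 : ((S.card : ℕ) : ℝ) ≤ ε * Fintype.card ι :=
      le_trans (by exact_mod_cast Finset.card_le_card hsub) (hsep a)
    linarith
  -- differences of elements of `S`
  have hdiff : ∀ p ∈ S, ‖((κ p : ℤ) - κ a) • ((x : ℝ) : T)‖ ≤ 2 * δ := by
    intro p hp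
    have hp' : ‖κ p • ((x : ℝ) : T) - γ‖ ≤ δ := (Finset.mem_filter.mp hp).2
    have ha' : ‖κ a • ((x : ℝ) : T) - γ‖ ≤ δ := (Finset.mem_filter.mp ha).2
    have heq : ((κ p : ℤ) - κ a) • ((x : ℝ) : T)
        = (κ p • ((x : ℝ) : T) - γ) - (κ a • ((x : ℝ) : T) - γ) := by
      rw [sub_zsmul, natCast_zsmul, natCast_zsmul]
      abel
    rw [heq]
    have := norm_sub_le (κ p • ((x : ℝ) : T) - γ) (κ a • ((x : ℝ) : T) - γ)
    linarith
  have habs : ∀ p, |((κ p : ℤ) - κ a)| ≤ K := by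
    intro p
    have h1 := hκ p
    have h2 := hκ a
    rw [abs_le]
    constructor <;> omega
  set t : ℤ := (κ b : ℤ) - κ a with ht
  set D : ℕ := t.natAbs with hD
  have hD0 : 0 < D := by
    rcases Nat.eq_zero_or_pos D with h | h
    · rw [h] at hb; omega
    · exact h
  have hDK : D ≤ K := by
    have := habs b
    have h3 : ((D : ℕ) : ℤ) = |t| := by rw [hD]; exact Int.natCast_natAbs t
    have : ((D : ℕ) : ℤ) ≤ K := by rw [h3]; exact this
    exact_mod_cast this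
  have hDnorm : ‖((D : ℕ) : ℤ) • ((x : ℝ) : T)‖ ≤ 2 * δ := by
    have h1 := hdiff b hbS
    rcases Int.natAbs_eq t with h | h
    · rw [hD, ← h]; exact h1
    · have h2 : ((D : ℕ) : ℤ) = -t := by rw [hD]; omega
      rw [h2, neg_zsmul, norm_neg]; exact h1
  rw [b1_norm_zsmul] at hDnorm
  set h : ℤ := round ((((D : ℕ) : ℤ) : ℝ) * x) with hh
  set e₁ : ℝ := (((D : ℕ) : ℤ) : ℝ) * x - h with he₁
  have hDint : (0 : ℤ) < (D : ℤ) := by exact_mod_cast hD0
  have hgpos : 0 < Int.gcd h (D : ℤ) := Int.gcd_pos_of_ne_zero_right _ (by omega)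
  obtain ⟨h₀, q, hcop, hh₀, hq⟩ := Int.exists_gcd_one hgpos
  set d : ℕ := Int.gcd h (D : ℤ) with hd
  have hdint : (0 : ℤ) < (d : ℤ) := by exact_mod_cast hgpos
  have hqpos : 0 < q := by
    by_contra hcon
    push Not at hcon
    have : q * (d : ℤ) ≤ 0 := mul_nonpos_of_nonpos_of_nonneg hcon hdint.le
    omega
  have hdR : (0 : ℝ) < (d : ℝ) := by exact_mod_cast hgpos
  have hqR : (0 : ℝ) < (q : ℝ) := by exact_mod_cast hqpos
  have hDR : ((D : ℕ) : ℝ) = (q : ℝ) * d := by exact_mod_cast hq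
  have hDR0 : (0 : ℝ) < ((D : ℕ) : ℝ) := by exact_mod_cast hD0
  have hhR : ((h : ℤ) : ℝ) = (h₀ : ℝ) * d := by exact_mod_cast hh₀
  have he₁' : e₁ = (q : ℝ) * d * x - (h₀ : ℝ) * d := by
    rw [he₁, hhR]
    have : ((((D : ℕ) : ℤ) : ℝ)) = (q : ℝ) * d := by rw [← hDR]; norm_cast
    rw [this]
  have hqx : (q : ℝ) * x = h₀ + e₁ / d := by
    rw [he₁']; field_simp; ring
  have he₁b : |e₁| ≤ 2 * δ := hDnorm
  have hKD : (K : ℝ) ≤ I * ((q : ℝ) * d) := by
    rw [← hDR]; exact_mod_cast hb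
  have hKR : (0 : ℝ) < (K : ℝ) := by exact_mod_cast hK
  have hIR : (0 : ℝ) < (I : ℝ) := by exact_mod_cast hI
  have hqK : (q : ℝ) ≤ K := by
    have h1 : (q : ℝ) * 1 ≤ (q : ℝ) * d := by
      apply mul_le_mul_of_nonneg_left _ hqR.le
      exact_mod_cast hgpos
    have h2 : ((D : ℕ) : ℝ) ≤ K := by exact_mod_cast hDK
    linarith
  -- `q` divides all differences
  have hqdvd : ∀ p ∈ S, q ∣ (κ p : ℤ) - κ a := by
    intro p hp
    have hp1 := hdiff p hp
    rw [b1_norm_zsmul] at hp1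
    set s : ℤ := (κ p : ℤ) - κ a with hs
    set g : ℤ := round ((s : ℝ) * x) with hg
    have hsK0 : |s| ≤ (K : ℤ) := habs p
    have hsK : |(s : ℝ)| ≤ K := by exact_mod_cast hsK0
    have hkey : ((s * h₀ - q * g : ℤ) : ℝ) = q * ((s : ℝ) * x - g) - s * (e₁ / d) := by
      push_cast
      have : (q : ℝ) * ((s : ℝ) * x - g) = s * (q * x) - q * g := by ring
      rw [this, hqx]; ring
    have hb1 : |(q : ℝ) * ((s : ℝ) * x - g)| ≤ q * (2 * δ) := by
      rw [abs_mul, abs_of_pos hqR]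
      exact mul_le_mul_of_nonneg_left hp1 hqR.le
    have hb2 : |(s : ℝ) * (e₁ / d)| ≤ I * q * (2 * δ) := by
      rw [abs_mul, abs_div, abs_of_pos hdR]
      calc |(s : ℝ)| * (|e₁| / d) ≤ K * (2 * δ / d) := by
            apply mul_le_mul hsK _ (by positivity) hKR.le
            exact div_le_div_of_nonneg_right he₁b hdR.le
        _ = (K / d) * (2 * δ) := by ring
        _ ≤ (I * q) * (2 * δ) := by
            apply mul_le_mul_of_nonneg_right _ (by positivity)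
            rw [div_le_iff₀ hdR]; linarith
    have hlt : |((s * h₀ - q * g : ℤ) : ℝ)| < 1 := by
      rw [hkey]
      have h1 := abs_sub (q * ((s : ℝ) * x - g)) (s * (e₁ / d))
      have h2 : (q : ℝ) * (2 * δ * (1 + I)) ≤ K * (2 * δ * (1 + I)) :=
        mul_le_mul_of_nonneg_right hqK (by positivity)
      have h3 : (2 : ℝ) * K * δ * (1 + I) < 1 := hsmall
      nlinarith
    have hlt' : |s * h₀ - q * g| < 1 := by exact_mod_cast hlt
    have hz : s * h₀ - q * g = 0 := Int.abs_lt_one_iff.mp hlt'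
    have hdv : q ∣ s * h₀ := ⟨g, by linarith⟩
    have hcop' : IsCoprime q h₀ := by
      rw [Int.isCoprime_iff_gcd_eq_one, Int.gcd_comm]; exact hcop
    exact hcop'.dvd_of_dvd_mul_right hdv
  -- `q` divides `M₂`
  have hqnat : ((q.toNat : ℕ) : ℤ) = q := Int.toNat_of_nonneg hqpos.le
  have hqM : q.toNat ∣ M₂ := by
    by_contra hcon
    have h1 := hcl q.toNat (by omega) hcon (κ a)
    have hsub : S ⊆ univ.filter fun p => ((q.toNat : ℕ) : ℤ) ∣ (κ p : ℤ) - (κ a : ℤ) := by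
      intro p hp
      refine Finset.mem_filter.mpr ⟨Finset.mem_univ _, ?_⟩
      rw [hqnat]; exact hqdvd p hp
    have h2 : ((S.card : ℕ) : ℝ) ≤ ε * Fintype.card ι :=
      le_trans (by exact_mod_cast Finset.card_le_card hsub) h1
    linarith
  obtain ⟨m, hm⟩ := hqM
  have hM : (M₂ : ℝ) = (q : ℝ) * m := by
    have : ((M₂ : ℕ) : ℤ) = q * m := by rw [hm]; push_cast; rw [hqnat]
    exact_mod_cast this
  rw [b1_norm_nsmul]
  have hround := round_le ((M₂ : ℝ) * x) ((m : ℤ) * h₀)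
  refine le_trans hround ?_
  have heq : (M₂ : ℝ) * x - (((m : ℤ) * h₀ : ℤ) : ℝ) = m * (e₁ / d) := by
    push_cast
    rw [hM]
    have : (q : ℝ) * m * x = m * (q * x) := by ring
    rw [this, hqx]; ring
  rw [heq, abs_mul, abs_div, abs_of_pos hdR, abs_of_nonneg (Nat.cast_nonneg m), hM]
  have hfin : |e₁| / d ≤ q * (2 * δ * I / K) := by
    rw [div_le_iff₀ hdR]
    have h1 : q * (2 * δ * I / K) * d = 2 * δ * (I * (q * d) / K) := by ring
    rw [h1]
    have h2 : 1 ≤ I * ((q : ℝ) * d) / K := by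
      rw [le_div_iff₀ hKR]; linarith
    nlinarith
  calc (m : ℝ) * (|e₁| / d) ≤ m * (q * (2 * δ * I / K)) :=
        mul_le_mul_of_nonneg_left hfin (Nat.cast_nonneg m)
    _ = (q : ℝ) * m * (2 * δ * I / K) := by ring

end Pool.Agent.Lib.MP_fed790_nt.PX
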