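import Pool.Agent.Lib.MP_fed790_nt.PX.Defs

/-! C2: minor arcs, one kappa_1 and a pool kappa_2 -/

open Finset MeasureTheory

namespace Pool.Agent.Lib.MP_fed790_nt.PX

theorem c2_cont_D (n : ℕ) : Continuous (D n) := by
  unfold D
  exact continuous_finset_sum _ fun t _ => (fourier (t : ℤ)).continuous

theorem c2_meas (n a b : ℕ) (g₁ g₂ : T → ℝ) (h₁ : Measurable g₁) (h₂ : Measurable g₂) :
    Measurable fun z : T × T => ‖D n (a • z.1 - b • z.2)‖ ^ 2 * (g₁ z.1 * g₂ z.2) := by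
  have hc : Continuous fun z : T × T => ‖D n (a • z.1 - b • z.2)‖ ^ 2 := by
    have h := c2_cont_D n
    fun_prop
  exact hc.measurable.mul ((h₁.comp measurable_fst).mul (h₂.comp measurable_snd))

/-- inner and outer integrability of a bounded measurable function on the torus. -/
theorem c2_int (F : T → T → ℝ) (hF : Measurable fun z : T × T => F z.1 z.2) (C : ℝ)
    (hC : ∀ x y, |F x y| ≤ C) :
    (∀ x, Integrable (F x)) ∧ Integrable (fun x => ∫ y, F x y) := by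
  constructor
  · intro x
    refine Integrable.of_bound (C := C) ?_ ?_
    · exact (hF.comp (measurable_const.prodMk measurable_id)).aestronglyMeasurable
    · exact Filter.Eventually.of_forall fun y => by simpa using hC x y
  · refine Integrable.of_bound (C := C * (volume : Measure T).real Set.univ) ?_ ?_
    · exact (hF.stronglyMeasurable.integral_prod_right).aestronglyMeasurable
    · refine Filter.Eventually.of_forall fun x => ?_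
      refine (norm_integral_le_of_norm_le_const (C := C) ?_)
      exact Filter.Eventually.of_forall fun y => by simpa using hC x y

/-- (Job PX C2) Proof.  Fix `p`, write `Q = κ₁ κ₂ p`, `ℓ = Q V_p`.  By A4 the `p`-term equals
`(κ₁ κ₂p)³ ∫∫ ‖D V_p (κ₂p • α - κ₁ • β)‖² g₁ α g₂ β`.  Exchange the finite sum over `p` with the integrals; so it suffices
to show for all `α, β` with `g₁ α ≠ 0`:
`∑_p (κ₁ κ₂p)³ ‖D V_p (κ₂p • α - κ₁ • β)‖² ≤ n · 4K²ℓ²(ε + 1/(4A²))`, `n = card ι`.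
Let `δ = 4K²A/ℓ`, `γ = κ₁ • β`.  If `‖κ₂p • α - γ‖ ≤ δ` (at most `ε n` indices) use `‖D V‖ ≤ V`:
`(κ₁κ₂p)³ V² = κ₁ κ₂p ℓ² ≤ 4K²ℓ²`.  Otherwise `‖D V‖ ≤ 1/(2δ)`, and
`(κ₁κ₂p)³/(4δ²) ≤ 64K⁶ ℓ²/(64 K⁴A²) = 4K²ℓ² /(4A²)`.
Integrability: everything is bounded and measurable (the circle has measure 1); `∫∫ g₁ α g₂ β = ∫ g₁ ∫ g₂`. -/
theorem tC2 (hA2 : S_A2) (hA4 : S_A4) : S_C2 := by
  intro ι _ κ₁ κ₂ K ℓ ε A g₁ g₂ B hK hℓ hε hA hκ₁ hκ₂ hcop hdvd hg₁ hg₂ hb₁ hb₂ hcoll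
  have hK' : (0 : ℝ) < K := by exact_mod_cast hK
  have hℓ' : (0 : ℝ) < ℓ := by exact_mod_cast hℓ
  have hκ₁pos : 0 < κ₁ := lt_of_lt_of_le hK hκ₁.1
  have hκ₂pos : ∀ p, 0 < κ₂ p := fun p => lt_of_lt_of_le hK (hκ₂ p).1
  have hB : 0 ≤ B := (hb₁ 0).1.trans (hb₁ 0).2
  choose V hV using hdvd
  have hVr : ∀ p, (ℓ : ℝ) = κ₁ * κ₂ p * V p := fun p => by exact_mod_cast hV p
  set E : ℝ := 4 * K ^ 2 * ℓ ^ 2 * (ε + 1 / (4 * A ^ 2)) with hE
  have hEn : 0 ≤ E := by positivity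
  -- the functions
  set F : ι → T → T → ℝ := fun p α β =>
    ‖D (V p) (κ₂ p • α - κ₁ • β)‖ ^ 2 * (g₁ α * g₂ β) with hF
  have hFb : ∀ p α β, |F p α β| ≤ (V p : ℝ) ^ 2 * (B * B) := by
    intro p α β
    have h1 : ‖D (V p) (κ₂ p • α - κ₁ • β)‖ ≤ V p := (hA2 _ _).1
    have h2 : 0 ≤ g₁ α * g₂ β := mul_nonneg (hb₁ α).1 (hb₂ β).1
    have h3 : g₁ α * g₂ β ≤ B * B := mul_le_mul (hb₁ α).2 (hb₂ β).2 (hb₂ β).1 hB
    rw [hF]
    simp only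
    rw [abs_of_nonneg (by positivity)]
    exact mul_le_mul (pow_le_pow_left₀ (norm_nonneg _) h1 2) h3 h2 (by positivity)
  have hFm : ∀ p, Measurable fun z : T × T => F p z.1 z.2 := fun p =>
    c2_meas (V p) (κ₂ p) κ₁ g₁ g₂ hg₁ hg₂
  have hFi := fun p => c2_int (F p) (hFm p) _ (hFb p)
  -- each term
  have hterm : ∀ p, ((κ₁ : ℝ) * κ₂ p) ^ 2 * ∫ θ₁ : T, ∫ θ₂ : T, ‖D ℓ (θ₁ - θ₂)‖ ^ 2 *
      (g₁ (κ₁ • θ₁) * g₂ (κ₂ p • θ₂)) = ∫ α : T, ∫ β : T, ((κ₁ : ℝ) * κ₂ p) ^ 3 * F p α β := by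
    intro p
    have h4 := hA4 κ₁ (κ₂ p) (V p) g₁ g₂ hκ₁pos (hκ₂pos p) (hcop p) hg₁ hg₂
      ⟨B, fun x => by rw [abs_of_nonneg (hb₁ x).1]; exact (hb₁ x).2⟩
      ⟨B, fun x => by rw [abs_of_nonneg (hb₂ x).1]; exact (hb₂ x).2⟩
    rw [← hV p] at h4
    rw [h4]
    simp_rw [integral_const_mul]
    ring
  rw [Finset.sum_congr rfl fun p _ => hterm p]
  -- exchange
  have hFi' : ∀ p, (∀ x, Integrable fun y => ((κ₁ : ℝ) * κ₂ p) ^ 3 * F p x y) ∧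
      Integrable (fun x => ∫ y, ((κ₁ : ℝ) * κ₂ p) ^ 3 * F p x y) := by
    intro p
    refine ⟨fun x => ((hFi p).1 x).const_mul _, ?_⟩
    simp_rw [integral_const_mul]
    exact (hFi p).2.const_mul _
  have hex : ∑ p, ∫ α : T, ∫ β : T, ((κ₁ : ℝ) * κ₂ p) ^ 3 * F p α β =
      ∫ α : T, ∫ β : T, ∑ p, ((κ₁ : ℝ) * κ₂ p) ^ 3 * F p α β := by
    rw [← integral_finset_sum _ fun p _ => (hFi' p).2]
    refine integral_congr_ae (Filter.Eventually.of_forall fun α => ?_)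
    simp only
    rw [integral_finset_sum _ fun p _ => (hFi' p).1 α]
  rw [hex]
  -- integrability of the majorant
  have hg₁i : Integrable g₁ := Integrable.of_bound (C := B) hg₁.aestronglyMeasurable
    (Filter.Eventually.of_forall fun x => by
      rw [Real.norm_eq_abs, abs_of_nonneg (hb₁ x).1]; exact (hb₁ x).2)
  have hg₂i : Integrable g₂ := Integrable.of_bound (C := B) hg₂.aestronglyMeasurable
    (Filter.Eventually.of_forall fun x => by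
      rw [Real.norm_eq_abs, abs_of_nonneg (hb₂ x).1]; exact (hb₂ x).2)
  have hrhs : (Fintype.card ι * (4 * K ^ 2 * ℓ ^ 2 * (ε + 1 / (4 * A ^ 2))) *
      ((∫ α : T, g₁ α) * ∫ β : T, g₂ β) : ℝ) =
      ∫ α : T, ∫ β : T, (Fintype.card ι * E) * (g₁ α * g₂ β) := by
    simp_rw [integral_const_mul]
    rw [integral_mul_const]
  rw [hrhs]
  -- pointwise bound
  have hpt : ∀ α β, ∑ p, ((κ₁ : ℝ) * κ₂ p) ^ 3 * F p α β ≤ (Fintype.card ι * E) * (g₁ α * g₂ β) := by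
    intro α β
    by_cases hg : g₁ α = 0
    · simp [hF, hg]
    have hgg : 0 ≤ g₁ α * g₂ β := mul_nonneg (hb₁ α).1 (hb₂ β).1
    have hre : ∑ p, ((κ₁ : ℝ) * κ₂ p) ^ 3 * F p α β =
        (∑ p, ((κ₁ : ℝ) * κ₂ p) ^ 3 * ‖D (V p) (κ₂ p • α - κ₁ • β)‖ ^ 2) * (g₁ α * g₂ β) := by
      rw [Finset.sum_mul]
      exact Finset.sum_congr rfl fun p _ => by rw [hF]; ring
    rw [hre]
    refine mul_le_mul_of_nonneg_right ?_ hgg
    have hcc := hcoll α hg (κ₁ • β)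
    set δ : ℝ := 4 * K ^ 2 * A / ℓ with hδ
    have hδpos : 0 < δ := by positivity
    have hone : ∀ p, ((κ₁ : ℝ) * κ₂ p) ^ 3 * ‖D (V p) (κ₂ p • α - κ₁ • β)‖ ^ 2 ≤
        (if ‖κ₂ p • α - κ₁ • β‖ ≤ δ then (4 * K ^ 2 * ℓ ^ 2 : ℝ) else 0) +
          4 * K ^ 2 * ℓ ^ 2 * (1 / (4 * A ^ 2)) := by
      intro p
      have hq1 : (κ₁ : ℝ) ≤ 2 * K := by exact_mod_cast hκ₁.2
      have hq2 : (κ₂ p : ℝ) ≤ 2 * K := by exact_mod_cast (hκ₂ p).2
      have hq : (κ₁ : ℝ) * κ₂ p ≤ 4 * K ^ 2 := by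
        calc (κ₁ : ℝ) * κ₂ p ≤ (2 * K) * (2 * K) :=
              mul_le_mul hq1 hq2 (Nat.cast_nonneg _) (by positivity)
          _ = _ := by ring
      have hq0 : (0 : ℝ) ≤ (κ₁ : ℝ) * κ₂ p := by positivity
      obtain ⟨hd1, hd2⟩ := hA2 (V p) (κ₂ p • α - κ₁ • β)
      split_ifs with hif
      · have h1 : ((κ₁ : ℝ) * κ₂ p) ^ 3 * ‖D (V p) (κ₂ p • α - κ₁ • β)‖ ^ 2 ≤
            ((κ₁ : ℝ) * κ₂ p) ^ 3 * (V p : ℝ) ^ 2 :=
          mul_le_mul_of_nonneg_left (pow_le_pow_left₀ (norm_nonneg _) hd1 2) (by positivity)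
        have h2 : ((κ₁ : ℝ) * κ₂ p) ^ 3 * (V p : ℝ) ^ 2 = ((κ₁ : ℝ) * κ₂ p) * (ℓ : ℝ) ^ 2 := by
          rw [hVr p]; ring
        have h3 : ((κ₁ : ℝ) * κ₂ p) * (ℓ : ℝ) ^ 2 ≤ 4 * K ^ 2 * (ℓ : ℝ) ^ 2 :=
          mul_le_mul_of_nonneg_right hq (by positivity)
        have h4 : (0 : ℝ) ≤ 4 * K ^ 2 * ℓ ^ 2 * (1 / (4 * A ^ 2)) := by positivity
        linarith
      · push_neg at hif
        have h1 : ‖D (V p) (κ₂ p • α - κ₁ • β)‖ ≤ 1 / (2 * δ) := by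
          rw [le_div_iff₀ (by positivity)]
          refine le_trans ?_ hd2
          exact mul_le_mul_of_nonneg_left (by linarith) (norm_nonneg _)
        have h2 : ‖D (V p) (κ₂ p • α - κ₁ • β)‖ ^ 2 ≤ (1 / (2 * δ)) ^ 2 :=
          pow_le_pow_left₀ (norm_nonneg _) h1 2
        have h3 : ((κ₁ : ℝ) * κ₂ p) ^ 3 ≤ (4 * K ^ 2) ^ 3 := pow_le_pow_left₀ hq0 hq 3
        have h4 := mul_le_mul h3 h2 (by positivity) (by positivity)
        refine h4.trans (le_of_eq ?_)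
        rw [hδ]
        field_simp
        ring
    calc ∑ p, ((κ₁ : ℝ) * κ₂ p) ^ 3 * ‖D (V p) (κ₂ p • α - κ₁ • β)‖ ^ 2
        ≤ ∑ p, ((if ‖κ₂ p • α - κ₁ • β‖ ≤ δ then (4 * K ^ 2 * ℓ ^ 2 : ℝ) else 0) +
          4 * K ^ 2 * ℓ ^ 2 * (1 / (4 * A ^ 2))) := Finset.sum_le_sum fun p _ => hone p
      _ = ((univ.filter fun p => ‖κ₂ p • α - κ₁ • β‖ ≤ δ).card : ℝ) * (4 * K ^ 2 * ℓ ^ 2) +
          Fintype.card ι * (4 * K ^ 2 * ℓ ^ 2 * (1 / (4 * A ^ 2))) := by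
        rw [Finset.sum_add_distrib, ← Finset.sum_filter, Finset.sum_const, Finset.sum_const,
          nsmul_eq_mul, nsmul_eq_mul]
        rfl
      _ ≤ (ε * Fintype.card ι) * (4 * K ^ 2 * ℓ ^ 2) +
          Fintype.card ι * (4 * K ^ 2 * ℓ ^ 2 * (1 / (4 * A ^ 2))) := by
        gcongr
      _ = Fintype.card ι * E := by rw [hE]; ring
  have hSi : Measurable fun z : T × T => ∑ p, ((κ₁ : ℝ) * κ₂ p) ^ 3 * F p z.1 z.2 :=
    Finset.measurable_sum _ fun p _ => (hFm p).const_mul _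
  refine integral_mono ?_ ?_ fun α => ?_
  · have : (fun α => ∫ β : T, ∑ p, ((κ₁ : ℝ) * κ₂ p) ^ 3 * F p α β) =
        fun α => ∑ p, ∫ β : T, ((κ₁ : ℝ) * κ₂ p) ^ 3 * F p α β := by
      funext α
      rw [integral_finset_sum _ fun p _ => (hFi' p).1 α]
    rw [this]
    exact integrable_finset_sum _ fun p _ => (hFi' p).2
  · simp_rw [integral_const_mul]
    exact (hg₁i.mul_const _).const_mul _
  · refine integral_mono ?_ ?_ fun β => hpt α β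
    · exact integrable_finset_sum _ fun p _ => (hFi' p).1 α
    · exact (hg₂i.const_mul _).const_mul _

end Pool.Agent.Lib.MP_fed790_nt.PX
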