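import Pool.Agent.Lib.MP_fed790_nt.PX.Defs

/-! C3: both images major, theta_1 not major -/

open Finset MeasureTheory

namespace Pool.Agent.Lib.MP_fed790_nt.PX

/-- representative of norm at most `1/2` -/
private theorem c3_rep (x : T) : ∃ s : ℝ, ((s : ℝ) : T) = x ∧ |s| = ‖x‖ := by
  induction x using QuotientAddGroup.induction_on with
  | H t =>
    refine ⟨t - round t, ?_, ?_⟩
    · have h : ((round t : ℝ) : T) = 0 := by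
        have h2 := AddCircle.coe_eq_zero_iff (p := (1 : ℝ)) (x := (round t : ℝ))
        exact h2.2 ⟨round t, by simp⟩
      have h3 : ((t - (round t : ℝ) : ℝ) : T) = (t : T) - ((round t : ℝ) : T) := rfl
      rw [h3, h, sub_zero]
    · exact (UnitAddCircle.norm_eq (x := t)).symm

/-- small multiples do not wrap around -/
private theorem c3_mul (n : ℕ) (x : T) (h : n * ‖x‖ < 1 / 2) : ‖n • x‖ = n * ‖x‖ := by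
  obtain ⟨s, hs, hn⟩ := c3_rep x
  have h1 : n • x = ((n * s : ℝ) : T) := by
    rw [← hs, ← nsmul_eq_mul]
    rfl
  have h2 : |(n : ℝ) * s| = n * ‖x‖ := by
    rw [abs_mul, hn, abs_of_nonneg (Nat.cast_nonneg n)]
  rw [h1]
  have h3 := (AddCircle.norm_coe_eq_abs_iff (p := (1 : ℝ)) one_ne_zero (x := (n : ℝ) * s)).2
    (by rw [h2, abs_one]; exact h.le)
  rw [h3, h2]

/-- Bezout with small coefficients -/
private theorem c3_bez (a b : ℕ) (ha : 0 < a) (hb : 0 < b) (h : a.Coprime b) :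
    ∃ u v : ℕ, u ≤ b ∧ v ≤ a ∧ ((u : ℤ) * a - v * b = 1) := by
  rcases Nat.lt_or_ge 1 b with hb1 | hb1
  · obtain ⟨u, hu, hu2⟩ := Nat.exists_mul_mod_eq_one_of_coprime h hb1
    have h3 := Nat.div_add_mod (a * u) b
    rw [hu2] at h3
    refine ⟨u, a * u / b, hu.le, ?_, ?_⟩
    · have h4 : a * u / b ≤ a * b / b := Nat.div_le_div_right (Nat.mul_le_mul_left a hu.le)
      rwa [Nat.mul_div_cancel a hb] at h4
    · have h5 : (b : ℤ) * ((a * u / b : ℕ) : ℤ) + 1 = a * u := by exact_mod_cast h3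
      linarith
  · have hb2 : b = 1 := by omega
    subst hb2
    refine ⟨1, a - 1, le_refl 1, by omega, ?_⟩
    have h6 : ((a - 1 : ℕ) : ℤ) = a - 1 := by omega
    rw [h6]
    push_cast
    ring

/-- (Job PX C3) Proof.  Let `x = M₂ • θ₁`, `y = M₂ • θ₂`, `δ₃ = 1/(32K³)`.  Suppose `‖x - y‖ ≤ δ₃`.  Then `‖κ₁ • x‖ ≤ δ₂` and
`‖κ₂ • x‖ ≤ ‖κ₂ • y‖ + κ₂ ‖x - y‖ ≤ δ₂ + 2Kδ₃`.  Bezout: `1 = aκ₁ + bκ₂` with `|a| ≤ κ₂`, `|b| ≤ κ₁` (`Nat.gcdA`, `Nat.gcdB`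
after reduction, or `Int.gcd_eq_gcd_ab` with the reduced coefficients: choose `a` with `0 ≤ a < κ₂`, then `|b| ≤ κ₁`), so
`‖x‖ ≤ 2K δ₂ + 2K (δ₂ + 2Kδ₃) = 4Kδ₂ + 4K²δ₃` and `κ₁ ‖x‖ ≤ 8K²δ₂ + 8K³δ₃ < 1/4 + 1/4 = 1/2`.
For a point of the circle with `κ₁‖x‖ < 1/2` one has `‖κ₁ • x‖ = κ₁ ‖x‖` (take the representative `t` with
`|t| = ‖x‖`; `|κ₁ t| < 1/2` so `round (κ₁ t) = 0`).  So `‖x‖ ≤ δ₂/κ₁ ≤ δ₂/K`, a contradiction.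
Hence `δ₃ < ‖x - y‖ = ‖M₂ • (θ₁ - θ₂)‖ ≤ M₂ ‖θ₁ - θ₂‖`, and A2 gives `‖D‖ ≤ 1/(2‖θ₁-θ₂‖) ≤ M₂/(2δ₃) = 16 M₂ K³`. -/
theorem tC3 (hA2 : S_A2) : S_C3 := by
  intro κ₁ κ₂ K M₂ ℓ δ₂ hK hM hδ hk1 hk2 hcop hsm θ₁ θ₂ h1 h2 h3
  obtain ⟨x, hx⟩ : ∃ x : T, x = M₂ • θ₁ := ⟨_, rfl⟩
  obtain ⟨y, hy⟩ : ∃ y : T, y = M₂ • θ₂ := ⟨_, rfl⟩
  have hKr : (0 : ℝ) < K := by exact_mod_cast hK
  have hMr : (0 : ℝ) < M₂ := by exact_mod_cast hM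
  have k1l : (K : ℝ) ≤ κ₁ := by exact_mod_cast hk1.1
  have k1u : (κ₁ : ℝ) ≤ 2 * K := by exact_mod_cast hk1.2
  have k2l : (K : ℝ) ≤ κ₂ := by exact_mod_cast hk2.1
  have k2u : (κ₂ : ℝ) ≤ 2 * K := by exact_mod_cast hk2.2
  have h1' : ‖κ₁ • x‖ ≤ δ₂ := by rw [hx, smul_comm]; exact h1
  have h2' : ‖κ₂ • y‖ ≤ δ₂ := by rw [hy, smul_comm]; exact h2
  rw [← hx] at h3
  have key : 1 / (32 * (K : ℝ) ^ 3) < ‖x - y‖ := by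
    by_contra hle
    push Not at hle
    have e1 : ‖κ₂ • (x - y)‖ ≤ κ₂ * ‖x - y‖ := norm_nsmul_le
    have e2 : κ₂ • x = κ₂ • y + κ₂ • (x - y) := by rw [← smul_add]; congr 1; abel
    have e3 : ‖κ₂ • x‖ ≤ δ₂ + 2 * K * (1 / (32 * (K : ℝ) ^ 3)) := by
      rw [e2]
      refine (norm_add_le _ _).trans (add_le_add h2' (e1.trans ?_))
      exact mul_le_mul k2u hle (norm_nonneg _) (by positivity)
    obtain ⟨u, v, hu, hv, huv⟩ := c3_bez κ₁ κ₂ (by omega) (by omega) hcop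
    have hu' : (u : ℝ) ≤ 2 * K := (by exact_mod_cast hu : (u : ℝ) ≤ κ₂).trans k2u
    have hv' : (v : ℝ) ≤ 2 * K := (by exact_mod_cast hv : (v : ℝ) ≤ κ₁).trans k1u
    have e4 : x = u • (κ₁ • x) - v • (κ₂ • x) := by
      have hh : ((u : ℤ) * κ₁ - v * κ₂) • x = x := by rw [huv]; simp
      rw [sub_smul, mul_smul, mul_smul] at hh
      simp only [natCast_zsmul] at hh
      rw [hh]
    have e5 : ‖x‖ ≤ 2 * K * δ₂ + 2 * K * (δ₂ + 2 * K * (1 / (32 * (K : ℝ) ^ 3))) := by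
      have f1 : ‖u • (κ₁ • x)‖ ≤ 2 * K * δ₂ :=
        (norm_nsmul_le).trans (mul_le_mul hu' h1' (norm_nonneg _) (by positivity))
      have f2 : ‖v • (κ₂ • x)‖ ≤ 2 * K * (δ₂ + 2 * K * (1 / (32 * (K : ℝ) ^ 3))) :=
        (norm_nsmul_le).trans (mul_le_mul hv' e3 (norm_nonneg _) (by positivity))
      calc ‖x‖ = ‖u • (κ₁ • x) - v • (κ₂ • x)‖ := by rw [← e4]
        _ ≤ ‖u • (κ₁ • x)‖ + ‖v • (κ₂ • x)‖ := norm_sub_le _ _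
        _ ≤ _ := add_le_add f1 f2
    have e6 : κ₁ * ‖x‖ < 1 / 2 := by
      have f1 : (κ₁ : ℝ) * ‖x‖ ≤ 2 * K * (2 * K * δ₂ + 2 * K * (δ₂ + 2 * K * (1 / (32 * (K : ℝ) ^ 3)))) :=
        mul_le_mul k1u e5 (norm_nonneg _) (by positivity)
      have f2 : 2 * K * (2 * K * δ₂ + 2 * K * (δ₂ + 2 * K * (1 / (32 * (K : ℝ) ^ 3)))) =
          8 * K ^ 2 * δ₂ + 1 / 4 := by
        field_simp
        ring
      rw [f2] at f1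
      linarith
    have e7 := c3_mul κ₁ x e6
    rw [e7] at h1'
    have e8 : ‖x‖ ≤ δ₂ / K := by
      rw [le_div_iff₀ hKr]
      calc ‖x‖ * K ≤ ‖x‖ * κ₁ := mul_le_mul_of_nonneg_left k1l (norm_nonneg _)
        _ = κ₁ * ‖x‖ := mul_comm _ _
        _ ≤ δ₂ := h1'
    exact absurd h3 (not_lt.2 e8)
  have hxy : ‖x - y‖ ≤ M₂ * ‖θ₁ - θ₂‖ := by
    rw [hx, hy, ← smul_sub]
    exact norm_nsmul_le
  have hA := (hA2 ℓ (θ₁ - θ₂)).2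
  have g1 : 1 / (32 * (K : ℝ) ^ 3) < M₂ * ‖θ₁ - θ₂‖ := lt_of_lt_of_le key hxy
  have g2 : ‖D ℓ (θ₁ - θ₂)‖ * (1 / (32 * (K : ℝ) ^ 3)) ≤ ‖D ℓ (θ₁ - θ₂)‖ * (M₂ * ‖θ₁ - θ₂‖) :=
    mul_le_mul_of_nonneg_left g1.le (norm_nonneg _)
  have g3 : ‖D ℓ (θ₁ - θ₂)‖ * (M₂ * ‖θ₁ - θ₂‖) ≤ M₂ / 2 := by
    have : ‖D ℓ (θ₁ - θ₂)‖ * (M₂ * ‖θ₁ - θ₂‖) = M₂ / 2 * (‖D ℓ (θ₁ - θ₂)‖ * (2 * ‖θ₁ - θ₂‖)) := by
      ring
    rw [this]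
    have := mul_le_mul_of_nonneg_left hA (by positivity : (0 : ℝ) ≤ M₂ / 2)
    linarith
  have g4 := g2.trans g3
  have g5 : ‖D ℓ (θ₁ - θ₂)‖ / (32 * (K : ℝ) ^ 3) ≤ M₂ / 2 := by
    rw [div_eq_mul_one_div]; exact g4
  rw [div_le_iff₀ (by positivity)] at g5
  linarith

end Pool.Agent.Lib.MP_fed790_nt.PX
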