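import Pool.Agent.Lib.MP_fed790_nt.PX.Defs

/-! C4: cancellation over the colours on the major arcs -/

open Finset MeasureTheory

namespace Pool.Agent.Lib.MP_fed790_nt.PX

theorem c4_fourier_one (m : ℤ) (θ : T) : (fourier m θ : ℂ) = fourier 1 (m • θ) := by
  simp [fourier_apply]

theorem c4_norm (m : ℤ) (θ : T) : ‖(fourier m θ : ℂ)‖ = 1 := by
  rw [fourier_apply]; exact Circle.norm_coe _

theorem c4_sub_one (z : T) : ‖(fourier 1 z : ℂ) - 1‖ ≤ 2 * Real.pi * ‖z‖ := by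
  obtain ⟨x, rfl⟩ := QuotientAddGroup.mk_surjective z
  change ‖(fourier 1 ((x : ℝ) : T) : ℂ) - 1‖ ≤ 2 * Real.pi * ‖((x : ℝ) : T)‖
  have h1 : ((x : ℝ) : T) = (((x - round x : ℝ)) : T) := by
    rw [AddCircle.coe_sub]
    have : (((round x : ℤ) : ℝ) : T) = 0 := by
      rw [AddCircle.coe_eq_zero_iff]
      exact ⟨round x, by simp⟩
    rw [this, sub_zero]
  have h2 : ‖((x : ℝ) : T)‖ = |x - round x| := UnitAddCircle.norm_eq
  rw [h2, h1, fourier_coe_apply]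
  have h3 : (2 * (Real.pi : ℂ) * Complex.I * ((1 : ℤ) : ℂ) * ((x - round x : ℝ) : ℂ) / ((1 : ℝ) : ℂ))
      = Complex.I * ((2 * Real.pi * (x - round x) : ℝ) : ℂ) := by
    push_cast; ring
  rw [h3]
  refine (Real.norm_exp_I_mul_ofReal_sub_one_le).trans ?_
  rw [Real.norm_eq_abs, abs_mul, abs_of_pos (by positivity : (0 : ℝ) < 2 * Real.pi)]

theorem c4_sub (z z' : T) : ‖(fourier 1 z : ℂ) - fourier 1 z'‖ ≤ 2 * Real.pi * ‖z - z'‖ := by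
  have h : (fourier 1 z : ℂ) = fourier 1 z' * fourier 1 (z - z') := by
    simp only [fourier_apply, one_smul]
    rw [← Circle.coe_mul, ← AddCircle.toCircle_add]
    congr 2
    abel
  rw [h]
  have h2 : (fourier 1 z' : ℂ) * fourier 1 (z - z') - fourier 1 z' =
      fourier 1 z' * (fourier 1 (z - z') - 1) := by ring
  rw [h2, norm_mul, c4_norm, one_mul]
  exact c4_sub_one _

theorem c4_small {M₂ : ℕ} (hM : 0 < M₂) {E δ₁ : ℝ} (hE : 0 ≤ E) (m : ℤ)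
    (hd : (M₂ : ℤ) ∣ m) (hm : |(m : ℝ)| ≤ E) (θ : T) (hθ : ‖M₂ • θ‖ ≤ δ₁) :
    ‖m • θ‖ ≤ E / M₂ * δ₁ := by
  obtain ⟨j, rfl⟩ := hd
  have hM' : (0 : ℝ) < M₂ := by exact_mod_cast hM
  have h1 : ((M₂ : ℤ) * j) • θ = j • (M₂ • θ) := by
    rw [mul_comm, mul_smul, natCast_zsmul]
  rw [h1]
  have h2 : ‖j • (M₂ • θ)‖ ≤ ‖j‖ * ‖M₂ • θ‖ := norm_zsmul_le j _
  refine h2.trans ?_
  have h3 : ‖j‖ ≤ E / M₂ := by
    rw [le_div_iff₀ hM', Int.norm_eq_abs]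
    rw [Int.cast_mul, abs_mul] at hm
    have : |((M₂ : ℤ) : ℝ)| = M₂ := by simp
    rw [this] at hm
    linarith
  exact mul_le_mul h3 hθ (norm_nonneg _) (by positivity)

theorem c4_Fs_norm (a : ℕ → ℂ) (W : ℕ) (ha : ∀ ω, ‖a ω‖ ≤ 1) (α : T) : ‖Fs a W α‖ ≤ W := by
  unfold Fs
  refine (norm_sum_le _ _).trans ?_
  calc ∑ ω ∈ Icc 1 W, ‖a ω * fourier (ω : ℤ) α‖ ≤ ∑ ω ∈ Icc 1 W, (1 : ℝ) := by
        refine Finset.sum_le_sum fun ω _ => ?_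
        rw [norm_mul, c4_norm, mul_one]; exact ha ω
    _ = W := by simp

theorem c4_Fs_sub (a : ℕ → ℂ) (W : ℕ) (ha : ∀ ω, ‖a ω‖ ≤ 1) (α α' : T) :
    ‖Fs a W α - Fs a W α'‖ ≤ W * (2 * Real.pi * (W * ‖α - α'‖)) := by
  unfold Fs
  rw [← Finset.sum_sub_distrib]
  refine (norm_sum_le _ _).trans ?_
  calc ∑ ω ∈ Icc 1 W, ‖a ω * fourier (ω : ℤ) α - a ω * fourier (ω : ℤ) α'‖
      ≤ ∑ ω ∈ Icc 1 W, (2 * Real.pi * (W * ‖α - α'‖)) := by
        refine Finset.sum_le_sum fun ω hω => ?_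
        rw [← mul_sub, norm_mul, c4_fourier_one (ω : ℤ) α, c4_fourier_one (ω : ℤ) α']
        have h1 := c4_sub ((ω : ℤ) • α) ((ω : ℤ) • α')
        have h2 : ‖((ω : ℤ) • α) - (ω : ℤ) • α'‖ ≤ W * ‖α - α'‖ := by
          rw [← smul_sub]
          refine (norm_zsmul_le (ω : ℤ) _).trans ?_
          refine mul_le_mul_of_nonneg_right ?_ (norm_nonneg _)
          rw [Int.norm_eq_abs]
          have : ω ≤ W := (Finset.mem_Icc.1 hω).2
          simp only [Int.cast_natCast, Nat.abs_cast]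
          exact_mod_cast this
        calc ‖a ω‖ * ‖(fourier 1 ((ω : ℤ) • α) : ℂ) - fourier 1 ((ω : ℤ) • α')‖
            ≤ 1 * (2 * Real.pi * ‖((ω : ℤ) • α) - (ω : ℤ) • α'‖) :=
              mul_le_mul (ha ω) h1 (norm_nonneg _) zero_le_one
          _ ≤ 2 * Real.pi * (W * ‖α - α'‖) := by
              rw [one_mul]
              exact mul_le_mul_of_nonneg_left h2 (by positivity)
    _ = W * (2 * Real.pi * (W * ‖α - α'‖)) := by simp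

/-- (Job PX C4) Proof.  Let `g(i,b) = κ(i,b) fourier (ν(i,b)) θ * Fs a W (κ(i,b) • θ)`.  `Φ = ∑_i u_i ∑_b ψ_b g(i,b) =
∑_i u_i ∑_b ψ_b (g(i,b) - g(i,0))` because `∑ ψ_b = 0`.  So it suffices that
`‖g(i,b) - g(i,0)‖ ≤ K W η₀ (1 + 8πKWδ₁/M₂)`.  Telescoping with `κ = κ(i,b)`, `κ' = κ(i,0)`, `ν, ν'`:
`g - g' = (κ-κ') fourier ν θ F(κθ) + κ' (fourier ν θ - fourier ν' θ) F(κθ) + κ' fourier ν' θ (F(κθ) - F(κ'θ))`.
`‖F‖ ≤ W`; `‖fourier m θ - fourier m' θ‖ = ‖fourier (m-m') θ - 1‖ ≤ 2π ‖(m-m') • θ‖`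
(on the circle: `fourier 1 z = exp (2πi t)` with `|t| = ‖z‖`, `‖exp (is) - 1‖ ≤ |s|`), and if `M₂ ∣ m - m'` and
`|m - m'| ≤ Kη₀` then `‖(m-m') • θ‖ ≤ (|m-m'|/M₂) ‖M₂ • θ‖ ≤ (Kη₀/M₂) δ₁`.
`‖F(κθ) - F(κ'θ)‖ ≤ ∑_{ω ≤ W} ‖fourier ω ((κ-κ') • θ) - 1‖ ≤ 2π W · W · (Kη₀/M₂) δ₁`.  With `κ' ≤ 2K`, `W ≥ 1`:
total `≤ Kη₀W + 2K·2π(Kη₀/M₂)δ₁(W + W²) ≤ KWη₀(1 + 8πKWδ₁/M₂)`. -/
theorem tC4 : S_C4 := by
  intro ι _ k _ κ u ψ ν a W K M₂ η₀ δ₁ hK hM hW hη hδ hκ hu hψ ha hsum hκd hνd θ hθ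
  have hK' : (0 : ℝ) < K := by exact_mod_cast hK
  have hM' : (0 : ℝ) < M₂ := by exact_mod_cast hM
  have hW' : (1 : ℝ) ≤ W := by exact_mod_cast hW
  have hE : 0 ≤ (K : ℝ) * η₀ := by positivity
  set g : ι × ZMod k → ℂ := fun p => (κ p : ℂ) * fourier (ν p) θ * Fs a W (κ p • θ) with hg
  set B : ℝ := K * W * (η₀ * (1 + 8 * Real.pi * K * W * δ₁ / M₂)) with hB
  have hB0 : 0 ≤ B := by positivity
  -- the key estimate
  have key : ∀ i b, ‖g (i, b) - g (i, 0)‖ ≤ B := by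
    intro i b
    obtain ⟨hd1, hs1⟩ := hκd i b
    obtain ⟨hd2, hs2⟩ := hνd i b
    have e1 : g (i, b) - g (i, 0) =
        ((κ (i, b) : ℂ) - κ (i, 0)) * fourier (ν (i, b)) θ * Fs a W (κ (i, b) • θ)
        + (κ (i, 0) : ℂ) * (fourier (ν (i, b)) θ - fourier (ν (i, 0)) θ) * Fs a W (κ (i, b) • θ)
        + (κ (i, 0) : ℂ) * fourier (ν (i, 0)) θ * (Fs a W (κ (i, b) • θ) - Fs a W (κ (i, 0) • θ)) := by
      simp only [hg]; ring
    have n1 : ‖((κ (i, b) : ℂ) - κ (i, 0))‖ ≤ K * η₀ := by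
      have : ((κ (i, b) : ℂ) - κ (i, 0)) = (((κ (i, b) : ℝ) - κ (i, 0) : ℝ) : ℂ) := by push_cast; rfl
      rw [this, Complex.norm_real, Real.norm_eq_abs]; exact hs1
    have n0 : ‖(κ (i, 0) : ℂ)‖ ≤ 2 * K := by
      rw [Complex.norm_natCast]; exact_mod_cast (hκ (i, 0)).2
    have n2 : ‖(fourier (ν (i, b)) θ : ℂ) - fourier (ν (i, 0)) θ‖ ≤
        2 * Real.pi * (K * η₀ / M₂ * δ₁) := by
      rw [c4_fourier_one (ν (i, b)) θ, c4_fourier_one (ν (i, 0)) θ]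
      refine (c4_sub _ _).trans (mul_le_mul_of_nonneg_left ?_ (by positivity))
      rw [← sub_smul]
      refine c4_small hM hE _ hd2 ?_ θ hθ
      push_cast; exact hs2
    have n3 : ‖Fs a W (κ (i, b) • θ) - Fs a W (κ (i, 0) • θ)‖ ≤
        W * (2 * Real.pi * (W * (K * η₀ / M₂ * δ₁))) := by
      refine (c4_Fs_sub a W ha _ _).trans ?_
      have h : ‖κ (i, b) • θ - κ (i, 0) • θ‖ ≤ K * η₀ / M₂ * δ₁ := by
        have h1 : κ (i, b) • θ - κ (i, 0) • θ = ((κ (i, b) : ℤ) - κ (i, 0)) • θ := by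
          rw [sub_smul, natCast_zsmul, natCast_zsmul]
        rw [h1]
        refine c4_small hM hE _ hd1 ?_ θ hθ
        push_cast; exact hs1
      gcongr
    have nF := c4_Fs_norm a W ha (κ (i, b) • θ)
    rw [e1]
    refine (norm_add₃_le).trans ?_
    rw [norm_mul, norm_mul, norm_mul, norm_mul, norm_mul, norm_mul, c4_norm, c4_norm, mul_one, mul_one]
    have t1 : ‖((κ (i, b) : ℂ) - κ (i, 0))‖ * ‖Fs a W (κ (i, b) • θ)‖ ≤ K * η₀ * W :=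
      mul_le_mul n1 nF (norm_nonneg _) hE
    have hX : 0 ≤ K * η₀ / M₂ * δ₁ := by positivity
    have t2 : ‖(κ (i, 0) : ℂ)‖ * ‖(fourier (ν (i, b)) θ : ℂ) - fourier (ν (i, 0)) θ‖ *
        ‖Fs a W (κ (i, b) • θ)‖ ≤ 2 * K * (2 * Real.pi * (K * η₀ / M₂ * δ₁)) * W := by
      refine mul_le_mul (mul_le_mul n0 n2 (norm_nonneg _) (by positivity)) nF (norm_nonneg _) ?_
      positivity
    have t3 : ‖(κ (i, 0) : ℂ)‖ * ‖Fs a W (κ (i, b) • θ) - Fs a W (κ (i, 0) • θ)‖ ≤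
        2 * K * (W * (2 * Real.pi * (W * (K * η₀ / M₂ * δ₁)))) :=
      mul_le_mul n0 n3 (norm_nonneg _) (by positivity)
    have hBe : B = K * η₀ * W + 8 * Real.pi * K * W * W * (K * η₀ / M₂ * δ₁) := by
      rw [hB]; field_simp
    have hW2 : (W : ℝ) ≤ W * W := by nlinarith
    have hfin : 2 * K * (2 * Real.pi * (K * η₀ / M₂ * δ₁)) * W ≤
        4 * Real.pi * K * W * W * (K * η₀ / M₂ * δ₁) := by
      have : 2 * K * (2 * Real.pi * (K * η₀ / M₂ * δ₁)) * W =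
        (4 * Real.pi * K * (K * η₀ / M₂ * δ₁)) * W := by ring
      rw [this]
      have h2 : 4 * Real.pi * K * W * W * (K * η₀ / M₂ * δ₁) =
        (4 * Real.pi * K * (K * η₀ / M₂ * δ₁)) * (W * W) := by ring
      rw [h2]
      exact mul_le_mul_of_nonneg_left hW2 (by positivity)
    rw [hBe]
    have : 2 * (K : ℝ) * (W * (2 * Real.pi * (W * (K * η₀ / M₂ * δ₁)))) =
      4 * Real.pi * K * W * W * (K * η₀ / M₂ * δ₁) := by ring
    linarith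
  -- rewriting the sum
  have hPhi : Phi κ (fun p => u p.1 * ψ p.2) ν a W θ =
      ∑ p : ι × ZMod k, u p.1 * ψ p.2 * (g (p.1, p.2) - g (p.1, 0)) := by
    unfold Phi
    rw [Fintype.sum_prod_type, Fintype.sum_prod_type]
    refine Finset.sum_congr rfl fun i _ => ?_
    have h0 : ∑ b : ZMod k, u i * ψ b * g (i, 0) = 0 := by
      have : ∀ b : ZMod k, u i * ψ b * g (i, 0) = u i * g (i, 0) * ψ b := fun b => by ring
      rw [Finset.sum_congr rfl fun b _ => this b, ← Finset.mul_sum, hsum, mul_zero]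
    have h1 : ∑ b : ZMod k, u i * ψ b * (g (i, b) - g (i, 0)) = ∑ b : ZMod k, u i * ψ b * g (i, b) := by
      simp only [mul_sub, Finset.sum_sub_distrib]
      rw [h0, sub_zero]
    rw [h1]
    refine Finset.sum_congr rfl fun b _ => ?_
    simp only [hg]; ring
  rw [hPhi]
  refine (norm_sum_le _ _).trans ?_
  calc ∑ p : ι × ZMod k, ‖u p.1 * ψ p.2 * (g (p.1, p.2) - g (p.1, 0))‖
      ≤ ∑ p : ι × ZMod k, B := by
        refine Finset.sum_le_sum fun p _ => ?_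
        rw [norm_mul, norm_mul]
        have h1 : ‖u p.1‖ * ‖ψ p.2‖ ≤ 1 := mul_le_one₀ (hu _) (norm_nonneg _) (hψ _)
        calc ‖u p.1‖ * ‖ψ p.2‖ * ‖g (p.1, p.2) - g (p.1, 0)‖ ≤ 1 * B :=
              mul_le_mul h1 (key _ _) (norm_nonneg _) zero_le_one
          _ = B := one_mul _
    _ = Fintype.card (ι × ZMod k) * B := by simp [Finset.sum_const, Finset.card_univ]

end Pool.Agent.Lib.MP_fed790_nt.PX
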