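import Pool.Agent.Lib.MP_fed790_nt.PX.Defs

/-! C5: assembly of the main analytic estimate -/

open Finset MeasureTheory

namespace Pool.Agent.Lib.MP_fed790_nt.PX

private lemma c5_D_cont (n : ℕ) : Continuous (D n) := by
  unfold D
  exact continuous_finsetSum _ fun t _ => (fourier (t : ℤ)).continuous

private lemma c5_Fs_cont (a : ℕ → ℂ) (W : ℕ) : Continuous (Fs a W) := by
  unfold Fs
  exact continuous_finsetSum _ fun ω _ => continuous_const.mul (fourier (ω : ℤ)).continuous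

private lemma c5_Phi_cont {ι : Type} [Fintype ι] (κ : ι → ℕ) (u : ι → ℂ) (ν : ι → ℤ)
    (a : ℕ → ℂ) (W : ℕ) : Continuous (Phi κ u ν a W) := by
  unfold Phi
  refine continuous_finsetSum _ fun p _ => ?_
  refine (continuous_const.mul (fourier (ν p)).continuous).mul ?_
  exact (c5_Fs_cont a W).comp (by fun_prop)

private lemma c5_bdd {X : Type} [TopologicalSpace X] [CompactSpace X] {f : X → ℝ}
    (hf : Continuous f) : ∃ B : ℝ, ∀ x, |f x| ≤ B := by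
  obtain ⟨B, hB⟩ := isCompact_univ.exists_bound_of_continuousOn hf.continuousOn
  exact ⟨B, fun x => hB x (Set.mem_univ x)⟩

/-- bounded measurable functions of two variables -/
private def c5_good (H : T → T → ℝ) : Prop :=
  Measurable (fun z : T × T => H z.1 z.2) ∧ ∃ B : ℝ, ∀ x y, |H x y| ≤ B

/-- the weighted double integral -/
private noncomputable def c5_J (ℓ : ℕ) (H : T → T → ℝ) : ℝ :=
  ∫ θ₁ : T, ∫ θ₂ : T, ‖D ℓ (θ₁ - θ₂)‖ ^ 2 * H θ₁ θ₂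

private lemma c5_good_cont {H : T → T → ℝ} (h : Continuous (fun z : T × T => H z.1 z.2)) :
    c5_good H := by
  refine ⟨h.measurable, ?_⟩
  obtain ⟨B, hB⟩ := c5_bdd h
  exact ⟨B, fun x y => hB (x, y)⟩

private lemma c5_good_add {H H' : T → T → ℝ} (h : c5_good H) (h' : c5_good H') :
    c5_good (fun x y => H x y + H' x y) := by
  obtain ⟨hm, B, hB⟩ := h
  obtain ⟨hm', B', hB'⟩ := h'
  exact ⟨hm.add hm', B + B', fun x y => (abs_add_le _ _).trans (add_le_add (hB x y) (hB' x y))⟩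

private lemma c5_good_mul {H H' : T → T → ℝ} (h : c5_good H) (h' : c5_good H') :
    c5_good (fun x y => H x y * H' x y) := by
  obtain ⟨hm, B, hB⟩ := h
  obtain ⟨hm', B', hB'⟩ := h'
  refine ⟨hm.mul hm', B * B', fun x y => ?_⟩
  rw [abs_mul]
  exact mul_le_mul (hB x y) (hB' x y) (abs_nonneg _) ((abs_nonneg _).trans (hB x y))

private lemma c5_good_const_mul {H : T → T → ℝ} (c : ℝ) (h : c5_good H) :
    c5_good (fun x y => c * H x y) := by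
  obtain ⟨hm, B, hB⟩ := h
  refine ⟨hm.const_mul c, |c| * B, fun x y => ?_⟩
  rw [abs_mul]
  exact mul_le_mul_of_nonneg_left (hB x y) (abs_nonneg _)

private lemma c5_good_sum {ι : Type} (s : Finset ι) {H : ι → T → T → ℝ}
    (h : ∀ i, c5_good (H i)) : c5_good (fun x y => ∑ i ∈ s, H i x y) := by
  classical
  induction s using Finset.induction_on with
  | empty =>
    refine ⟨?_, 0, fun x y => ?_⟩
    · simp only [Finset.sum_empty]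
      exact measurable_const
    · simp
  | insert i s hi ih =>
    have := c5_good_add (h i) ih
    have he : (fun x y => ∑ j ∈ insert i s, H j x y) = fun x y => H i x y + ∑ j ∈ s, H j x y := by
      funext x y
      rw [Finset.sum_insert hi]
    rw [he]
    exact this

open Classical in
private lemma c5_good_ite {H : T → T → ℝ} {P : T → T → Prop}
    (hP : MeasurableSet {z : T × T | P z.1 z.2}) (h : c5_good H) :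
    c5_good (fun x y => if P x y then H x y else 0) := by
  obtain ⟨hm, B, hB⟩ := h
  refine ⟨Measurable.ite hP hm measurable_const, |B|, fun x y => ?_⟩
  show |if P x y then H x y else 0| ≤ |B|
  split_ifs
  · exact (hB x y).trans (le_abs_self B)
  · rw [abs_zero]
    exact abs_nonneg B

open Classical in
private lemma c5_good_ite' {H : T → T → ℝ} {P : T → T → Prop}
    (hP : MeasurableSet {z : T × T | P z.1 z.2}) (h : c5_good H) :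
    c5_good (fun x y => if P x y then 0 else H x y) := by
  obtain ⟨hm, B, hB⟩ := h
  refine ⟨Measurable.ite hP measurable_const hm, |B|, fun x y => ?_⟩
  show |if P x y then 0 else H x y| ≤ |B|
  split_ifs
  · rw [abs_zero]
    exact abs_nonneg B
  · exact (hB x y).trans (le_abs_self B)

private lemma c5_good_w (ℓ : ℕ) : c5_good (fun x y => ‖D ℓ (x - y)‖ ^ 2) := by
  apply c5_good_cont
  have := c5_D_cont ℓ
  fun_prop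

private lemma c5_int (ℓ : ℕ) {H : T → T → ℝ} (h : c5_good H) :
    Integrable (fun z : T × T => ‖D ℓ (z.1 - z.2)‖ ^ 2 * H z.1 z.2)
      ((volume : Measure T).prod volume) := by
  obtain ⟨hm, B, hB⟩ := c5_good_mul (c5_good_w ℓ) h
  exact Integrable.of_bound hm.aestronglyMeasurable B (Filter.Eventually.of_forall fun z => hB z.1 z.2)

private lemma c5_J_eq (ℓ : ℕ) {H : T → T → ℝ} (h : c5_good H) :
    c5_J ℓ H = ∫ z : T × T, ‖D ℓ (z.1 - z.2)‖ ^ 2 * H z.1 z.2 ∂((volume : Measure T).prod volume) := by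
  rw [integral_prod _ (c5_int ℓ h)]
  rfl

private lemma c5_J_mono (ℓ : ℕ) {H H' : T → T → ℝ} (h : c5_good H) (h' : c5_good H')
    (hle : ∀ x y, H x y ≤ H' x y) : c5_J ℓ H ≤ c5_J ℓ H' := by
  rw [c5_J_eq ℓ h, c5_J_eq ℓ h']
  refine integral_mono (c5_int ℓ h) (c5_int ℓ h') fun z => ?_
  exact mul_le_mul_of_nonneg_left (hle z.1 z.2) (by positivity)

private lemma c5_J_add (ℓ : ℕ) {H H' : T → T → ℝ} (h : c5_good H) (h' : c5_good H') :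
    c5_J ℓ (fun x y => H x y + H' x y) = c5_J ℓ H + c5_J ℓ H' := by
  rw [c5_J_eq ℓ h, c5_J_eq ℓ h', c5_J_eq ℓ (c5_good_add h h'),
    ← integral_add (c5_int ℓ h) (c5_int ℓ h')]
  congr 1
  funext z
  ring

private lemma c5_J_const_mul (ℓ : ℕ) (c : ℝ) {H : T → T → ℝ} (h : c5_good H) :
    c5_J ℓ (fun x y => c * H x y) = c * c5_J ℓ H := by
  rw [c5_J_eq ℓ h, c5_J_eq ℓ (c5_good_const_mul c h), ← integral_const_mul]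
  congr 1
  funext z
  ring

private lemma c5_J_sum (ℓ : ℕ) {ι : Type} (s : Finset ι) {H : ι → T → T → ℝ}
    (h : ∀ i, c5_good (H i)) :
    c5_J ℓ (fun x y => ∑ i ∈ s, H i x y) = ∑ i ∈ s, c5_J ℓ (H i) := by
  classical
  induction s using Finset.induction_on with
  | empty =>
    simp [c5_J]
  | insert i s hi ih =>
    have he : (fun x y => ∑ j ∈ insert i s, H j x y) = fun x y => H i x y + ∑ j ∈ s, H j x y := by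
      funext x y
      rw [Finset.sum_insert hi]
    rw [he, c5_J_add ℓ (h i) (c5_good_sum s h), ih, Finset.sum_insert hi]

/-- the inequality for one pair -/
private lemma c5_pair {g₁ g₂ x₁ x₂ x₃ δ₂ d : ℝ} (hg₁ : 0 ≤ g₁) (hg₂ : 0 ≤ g₂) (hx₃ : d < x₃) :
    g₁ * g₂ ≤ (if x₁ ≤ δ₂ then 0 else g₁) * g₂ + g₁ * (if x₂ ≤ δ₂ then 0 else g₂) +
      (if x₁ ≤ δ₂ ∧ x₂ ≤ δ₂ ∧ d < x₃ then g₁ * g₂ else 0) := by
  have h0 : 0 ≤ g₁ * g₂ := mul_nonneg hg₁ hg₂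
  by_cases h1 : x₁ ≤ δ₂
  · by_cases h2 : x₂ ≤ δ₂
    · simp [h1, h2, hx₃]
    · simp [h1, h2]
  · by_cases h2 : x₂ ≤ δ₂
    · simp [h1, h2]
    · simp [h1, h2, h0]

/-- (Job PX C5) Proof.  Let `δ₂ = M₂*(8KAI/ℓ)`, `δ₁ = 8M₂AI/ℓ = δ₂/K`, `n_i = card ι_i`, `G(α) = ‖Fs a W α‖²`, `G_min` the minor part.
Pointwise in `(θ₁, θ₂)`:
`‖Φ₁‖²‖Φ₂‖² ≤ [‖M₂θ₁‖ ≤ δ₁]‖Φ₁‖²‖Φ₂‖² + n₁n₂ ∑_{p,q} (κ₁κ₂)² (G_min(κ₁θ₁)G(κ₂θ₂) + G(κ₁θ₁)G_min(κ₂θ₂) +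
[‖M₂κ₁θ₁‖ ≤ δ₂ ∧ ‖M₂κ₂θ₂‖ ≤ δ₂ ∧ δ₂/K < ‖M₂θ₁‖] G(κ₁θ₁)G(κ₂θ₂))`  (C5a for both factors).  Multiply by `‖D‖²`,
integrate (all integrands are bounded and measurable) and use C5g, C5m, C5n, C5o:
* C5g: `≤ (n₁KWη)²(n₂2KW)²·2δ₁ℓ = n₁²n₂² (2KW)⁴/4 · η² · 2δ₁ℓ ≤ n₁²n₂² L⁴ℓ⁴ η² · 4M₂AI` (as `δ₁ℓ/2 = 4M₂AI`);
* C5m, C5n: each `≤ n₁²n₂² (2KW)² ℓ² (ε + 1/(4A²)) ≤ n₁²n₂² ℓ⁴ L²(ε + 1/(4A²))`;
* C5o: `≤ n₁²n₂² (2K)⁴ (16M₂K³)² W² = n₁²n₂² 2¹² M₂² K¹⁰ W² ≤ n₁²n₂² 2¹⁰ K⁸ M₂² L² ℓ²`.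
The condition `8K²δ₂ < 1/4` of C5o is `256 M₂K³AI < ℓ`. -/
theorem tC5 (hC5a : S_C5a) (hC5m : S_C5m) (hC5n : S_C5n) (hC5o : S_C5o) (hC5g : S_C5g) : S_C5 := by
  intro ι₁ ι₂ _ _ κ₁ κ₂ u₁ u₂ ν₁ ν₂ a W ℓ K I M₂ ε A L η hK hI hM hW hℓ hε hA hL hη hκ₁ hκ₂ hco
    hdvd hu₁ hu₂ ha hs₁ hq₁ hs₂ hq₂ hKW h8 h256 hΦ
  have hKr : (0 : ℝ) < K := by exact_mod_cast hK
  have hIr : (0 : ℝ) < I := by exact_mod_cast hI
  have hMr : (0 : ℝ) < M₂ := by exact_mod_cast hM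
  have hWr : (0 : ℝ) < W := by exact_mod_cast hW
  have hℓr : (0 : ℝ) < ℓ := by exact_mod_cast hℓ
  obtain ⟨δ₂, hδ₂⟩ : ∃ δ₂ : ℝ, δ₂ = M₂ * (8 * K * A * I / ℓ) := ⟨_, rfl⟩
  obtain ⟨δ₁, hδ₁⟩ : ∃ δ₁ : ℝ, δ₁ = 8 * M₂ * A * I / ℓ := ⟨_, rfl⟩
  have hδ₂0 : 0 ≤ δ₂ := by rw [hδ₂]; positivity
  have hδ₁0 : 0 ≤ δ₁ := by rw [hδ₁]; positivity
  have hδ : δ₂ / K = δ₁ := by
    rw [hδ₂, hδ₁]
    field_simp
  have hsmall : 8 * (K : ℝ) ^ 2 * δ₂ < 1 / 4 := by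
    rw [hδ₂]
    have : 8 * (K : ℝ) ^ 2 * (M₂ * (8 * K * A * I / ℓ)) = (256 * M₂ * (K : ℝ) ^ 3 * A * I) / ℓ / 4 := by
      field_simp
      ring
    rw [this]
    have h1 : (256 * M₂ * (K : ℝ) ^ 3 * A * I) / ℓ < 1 := (div_lt_one hℓr).2 h256
    linarith
  obtain ⟨G, hG⟩ : ∃ G : T → ℝ, G = fun α => ‖Fs a W α‖ ^ 2 := ⟨_, rfl⟩
  have hG0 : ∀ α, 0 ≤ G α := fun α => by rw [hG]; positivity
  have hGc : Continuous G := by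
    rw [hG]
    have := c5_Fs_cont a W
    fun_prop
  obtain ⟨n₁, hn₁⟩ : ∃ n₁ : ℝ, n₁ = Fintype.card ι₁ := ⟨_, rfl⟩
  obtain ⟨n₂, hn₂⟩ : ∃ n₂ : ℝ, n₂ = Fintype.card ι₂ := ⟨_, rfl⟩
  have hn₁0 : 0 ≤ n₁ := by rw [hn₁]; positivity
  have hn₂0 : 0 ≤ n₂ := by rw [hn₂]; positivity
  -- the functions
  obtain ⟨H0, hH0⟩ : ∃ H0 : T → T → ℝ, H0 = fun x y =>
    ‖Phi κ₁ u₁ ν₁ a W x‖ ^ 2 * ‖Phi κ₂ u₂ ν₂ a W y‖ ^ 2 := ⟨_, rfl⟩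
  obtain ⟨H1, hH1⟩ : ∃ H1 : T → T → ℝ, H1 = fun x y =>
    if ‖M₂ • x‖ ≤ δ₁ then ‖Phi κ₁ u₁ ν₁ a W x‖ ^ 2 * ‖Phi κ₂ u₂ ν₂ a W y‖ ^ 2 else 0 := ⟨_, rfl⟩
  obtain ⟨Hm, hHm⟩ : ∃ Hm : ι₁ → ι₂ → T → T → ℝ, Hm = fun p q x y =>
    (if ‖M₂ • (κ₁ p • x)‖ ≤ δ₂ then 0 else G (κ₁ p • x)) * G (κ₂ q • y) := ⟨_, rfl⟩
  obtain ⟨Hn, hHn⟩ : ∃ Hn : ι₁ → ι₂ → T → T → ℝ, Hn = fun p q x y =>
    G (κ₁ p • x) * (if ‖M₂ • (κ₂ q • y)‖ ≤ δ₂ then 0 else G (κ₂ q • y)) := ⟨_, rfl⟩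
  obtain ⟨Ho, hHo⟩ : ∃ Ho : ι₁ → ι₂ → T → T → ℝ, Ho = fun p q x y =>
    (if ‖M₂ • (κ₁ p • x)‖ ≤ δ₂ ∧ ‖M₂ • (κ₂ q • y)‖ ≤ δ₂ ∧ δ₂ / K < ‖M₂ • x‖ then
      G (κ₁ p • x) * G (κ₂ q • y) else 0) := ⟨_, rfl⟩
  have g0 : c5_good H0 := by
    rw [hH0]
    apply c5_good_cont
    have h1 := c5_Phi_cont κ₁ u₁ ν₁ a W
    have h2 := c5_Phi_cont κ₂ u₂ ν₂ a W
    fun_prop
  have m1 : MeasurableSet {z : T × T | ‖M₂ • z.1‖ ≤ δ₁} := by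
    apply IsClosed.measurableSet
    exact isClosed_le (by fun_prop) continuous_const
  have m2 : ∀ p, MeasurableSet {z : T × T | ‖M₂ • (κ₁ p • z.1)‖ ≤ δ₂} := by
    intro p
    apply IsClosed.measurableSet
    exact isClosed_le (by fun_prop) continuous_const
  have m3 : ∀ q, MeasurableSet {z : T × T | ‖M₂ • (κ₂ q • z.2)‖ ≤ δ₂} := by
    intro q
    apply IsClosed.measurableSet
    exact isClosed_le (by fun_prop) continuous_const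
  have m4 : MeasurableSet {z : T × T | δ₂ / K < ‖M₂ • z.1‖} := by
    apply IsOpen.measurableSet
    exact isOpen_lt continuous_const (by fun_prop)
  have g1 : c5_good H1 := by
    have := c5_good_ite (P := fun x _ => ‖M₂ • x‖ ≤ δ₁) m1 g0
    rw [hH0] at this
    rw [hH1]
    convert this
  have gG1 : ∀ p, c5_good (fun x _ => G (κ₁ p • x)) := by
    intro p
    apply c5_good_cont
    fun_prop
  have gG2 : ∀ q, c5_good (fun _ y => G (κ₂ q • y)) := by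
    intro q
    apply c5_good_cont
    fun_prop
  have gm : ∀ p q, c5_good (Hm p q) := by
    intro p q
    rw [hHm]
    have h1 := c5_good_ite' (P := fun x _ => ‖M₂ • (κ₁ p • x)‖ ≤ δ₂) (m2 p) (gG1 p)
    have h2 := c5_good_mul h1 (gG2 q)
    convert h2
  have gn : ∀ p q, c5_good (Hn p q) := by
    intro p q
    rw [hHn]
    have h1 := c5_good_ite' (P := fun _ y => ‖M₂ • (κ₂ q • y)‖ ≤ δ₂) (m3 q) (gG2 q)
    have h2 := c5_good_mul (gG1 p) h1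
    convert h2
  have go : ∀ p q, c5_good (Ho p q) := by
    intro p q
    rw [hHo]
    have h1 := c5_good_ite (P := fun x y => ‖M₂ • (κ₁ p • x)‖ ≤ δ₂ ∧ ‖M₂ • (κ₂ q • y)‖ ≤ δ₂ ∧
      δ₂ / K < ‖M₂ • x‖) ((m2 p).inter ((m3 q).inter m4)) (c5_good_mul (gG1 p) (gG2 q))
    convert h1
  -- the upper bound
  have gs : ∀ p q, c5_good (fun x y => ((κ₁ p : ℝ) * κ₂ q) ^ 2 * (Hm p q x y + Hn p q x y + Ho p q x y)) :=
    fun p q => c5_good_const_mul _ (c5_good_add (c5_good_add (gm p q) (gn p q)) (go p q))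
  have gss : ∀ p, c5_good (fun x y => ∑ q, ((κ₁ p : ℝ) * κ₂ q) ^ 2 *
      (Hm p q x y + Hn p q x y + Ho p q x y)) := fun p => c5_good_sum univ (fun q => gs p q)
  have gsss : c5_good (fun x y => n₁ * n₂ * ∑ p, ∑ q, ((κ₁ p : ℝ) * κ₂ q) ^ 2 *
      (Hm p q x y + Hn p q x y + Ho p q x y)) := c5_good_const_mul _ (c5_good_sum univ gss)
  have hpt : ∀ x y, H0 x y ≤ H1 x y + n₁ * n₂ * ∑ p, ∑ q, ((κ₁ p : ℝ) * κ₂ q) ^ 2 *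
      (Hm p q x y + Hn p q x y + Ho p q x y) := by
    intro x y
    by_cases hx : ‖M₂ • x‖ ≤ δ₁
    · have h1 : H1 x y = H0 x y := by
        rw [hH1, hH0]
        simp only
        rw [if_pos hx]
      rw [h1]
      have h2 : 0 ≤ n₁ * n₂ * ∑ p, ∑ q, ((κ₁ p : ℝ) * κ₂ q) ^ 2 *
          (Hm p q x y + Hn p q x y + Ho p q x y) := by
        refine mul_nonneg (mul_nonneg hn₁0 hn₂0) (Finset.sum_nonneg fun p _ =>
          Finset.sum_nonneg fun q _ => mul_nonneg (by positivity) ?_)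
        refine add_nonneg (add_nonneg ?_ ?_) ?_
        · rw [hHm]
          simp only
          refine mul_nonneg ?_ (hG0 _)
          split_ifs
          · exact le_rfl
          · exact hG0 _
        · rw [hHn]
          simp only
          refine mul_nonneg (hG0 _) ?_
          split_ifs
          · exact le_rfl
          · exact hG0 _
        · rw [hHo]
          simp only
          split_ifs
          · exact mul_nonneg (hG0 _) (hG0 _)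
          · exact le_rfl
      linarith
    · have h1 : 0 = H1 x y := by
        rw [hH1]
        simp only
        rw [if_neg hx]
      rw [← h1, zero_add]
      have hx' : δ₂ / K < ‖M₂ • x‖ := by rw [hδ]; exact not_le.1 hx
      have e1 := hC5a ι₁ κ₁ u₁ ν₁ a W x hu₁
      have e2 := hC5a ι₂ κ₂ u₂ ν₂ a W y hu₂
      have e3 : H0 x y ≤ (n₁ * ∑ p, (κ₁ p : ℝ) ^ 2 * G (κ₁ p • x)) *
          (n₂ * ∑ q, (κ₂ q : ℝ) ^ 2 * G (κ₂ q • y)) := by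
        rw [hH0, hn₁, hn₂, hG]
        exact mul_le_mul e1 e2 (by positivity) (by positivity)
      refine e3.trans ?_
      have e4 : (n₁ * ∑ p, (κ₁ p : ℝ) ^ 2 * G (κ₁ p • x)) *
          (n₂ * ∑ q, (κ₂ q : ℝ) ^ 2 * G (κ₂ q • y)) = n₁ * n₂ * ∑ p, ∑ q,
          ((κ₁ p : ℝ) * κ₂ q) ^ 2 * (G (κ₁ p • x) * G (κ₂ q • y)) := by
        rw [mul_mul_mul_comm, Finset.sum_mul_sum]
        congr 1
        refine Finset.sum_congr rfl fun p _ => Finset.sum_congr rfl fun q _ => ?_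
        ring
      rw [e4]
      refine mul_le_mul_of_nonneg_left ?_ (mul_nonneg hn₁0 hn₂0)
      refine Finset.sum_le_sum fun p _ => Finset.sum_le_sum fun q _ => ?_
      refine mul_le_mul_of_nonneg_left ?_ (by positivity)
      rw [hHm, hHn, hHo]
      exact c5_pair (hG0 _) (hG0 _) hx'
  have hJ : c5_J ℓ H0 ≤ c5_J ℓ H1 + n₁ * n₂ * ∑ p, ∑ q, ((κ₁ p : ℝ) * κ₂ q) ^ 2 *
      (c5_J ℓ (Hm p q) + c5_J ℓ (Hn p q) + c5_J ℓ (Ho p q)) := by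
    refine (c5_J_mono ℓ g0 (c5_good_add g1 gsss) hpt).trans ?_
    rw [c5_J_add ℓ g1 gsss, c5_J_const_mul ℓ _ (c5_good_sum univ gss), c5_J_sum ℓ univ gss]
    refine le_of_eq ?_
    congr 2
    refine Finset.sum_congr rfl fun p _ => ?_
    rw [c5_J_sum ℓ univ (fun q => gs p q)]
    refine Finset.sum_congr rfl fun q _ => ?_
    rw [c5_J_const_mul ℓ _ (c5_good_add (c5_good_add (gm p q) (gn p q)) (go p q)),
      c5_J_add ℓ (c5_good_add (gm p q) (gn p q)) (go p q), c5_J_add ℓ (gm p q) (gn p q)]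
  -- the four bounds
  have b1 : c5_J ℓ H1 ≤ (n₁ * (K * W * η)) ^ 2 * (n₂ * (2 * K * W)) ^ 2 * (2 * δ₁) * ℓ := by
    rw [hH1, hn₁, hn₂]
    refine hC5g ι₁ ι₂ κ₁ κ₂ u₁ u₂ ν₁ ν₂ a W ℓ K M₂ η δ₁ hK hM hη hδ₁0 (fun p => (hκ₂ p).2) hu₂ ha ?_
    rw [hδ₁]
    exact hΦ
  have b2 : ∑ p, ∑ q, ((κ₁ p : ℝ) * κ₂ q) ^ 2 * c5_J ℓ (Hm p q) ≤
      n₁ * n₂ * (4 * K ^ 2 * ℓ ^ 2 * (ε + 1 / (4 * A ^ 2))) * (W : ℝ) ^ 2 := by
    rw [hHm, hn₁, hn₂, hG, hδ₂]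
    exact hC5m ι₁ ι₂ κ₁ κ₂ a W ℓ K I M₂ ε A hK hI hM hℓ hε hA hκ₁ hκ₂ hco hdvd ha hs₂ hq₂ h8
  have b3 : ∑ p, ∑ q, ((κ₁ p : ℝ) * κ₂ q) ^ 2 * c5_J ℓ (Hn p q) ≤
      n₁ * n₂ * (4 * K ^ 2 * ℓ ^ 2 * (ε + 1 / (4 * A ^ 2))) * (W : ℝ) ^ 2 := by
    rw [hHn, hn₁, hn₂, hG, hδ₂]
    exact hC5n ι₁ ι₂ κ₁ κ₂ a W ℓ K I M₂ ε A hK hI hM hℓ hε hA hκ₁ hκ₂ hco hdvd ha hs₁ hq₁ h8
  have b4 : ∀ p q, c5_J ℓ (Ho p q) ≤ (16 * M₂ * K ^ 3) ^ 2 * (W : ℝ) ^ 2 := by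
    intro p q
    rw [hHo, hG]
    exact hC5o (κ₁ p) (κ₂ q) a W ℓ K M₂ δ₂ hK hM hδ₂0 (hκ₁ p) (hκ₂ q) (hco p q) hsmall ha
  have b4' : ∑ p, ∑ q, ((κ₁ p : ℝ) * κ₂ q) ^ 2 * c5_J ℓ (Ho p q) ≤
      n₁ * n₂ * (16 * K ^ 4 * ((16 * M₂ * K ^ 3) ^ 2 * (W : ℝ) ^ 2)) := by
    have h1 : ∀ p q, ((κ₁ p : ℝ) * κ₂ q) ^ 2 * c5_J ℓ (Ho p q) ≤
        16 * K ^ 4 * ((16 * M₂ * K ^ 3) ^ 2 * (W : ℝ) ^ 2) := by
      intro p q
      have k1 : (κ₁ p : ℝ) ≤ 2 * K := by exact_mod_cast (hκ₁ p).2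
      have k2 : (κ₂ q : ℝ) ≤ 2 * K := by exact_mod_cast (hκ₂ q).2
      have k3 : (κ₁ p : ℝ) * κ₂ q ≤ (2 * K) * (2 * K) :=
        mul_le_mul k1 k2 (by positivity) (by positivity)
      have k4 : ((κ₁ p : ℝ) * κ₂ q) ^ 2 ≤ 16 * K ^ 4 := by
        refine (pow_le_pow_left₀ (by positivity) k3 2).trans (le_of_eq ?_)
        ring
      refine (mul_le_mul_of_nonneg_left (b4 p q) (by positivity)).trans ?_
      exact mul_le_mul_of_nonneg_right k4 (by positivity)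
    refine (Finset.sum_le_sum fun p _ => Finset.sum_le_sum fun q _ => h1 p q).trans (le_of_eq ?_)
    rw [Finset.sum_const, Finset.sum_const, Finset.card_univ, Finset.card_univ, nsmul_eq_mul,
      nsmul_eq_mul, hn₁, hn₂]
    ring
  have hsplit : ∑ p, ∑ q, ((κ₁ p : ℝ) * κ₂ q) ^ 2 *
      (c5_J ℓ (Hm p q) + c5_J ℓ (Hn p q) + c5_J ℓ (Ho p q)) =
      ∑ p, ∑ q, ((κ₁ p : ℝ) * κ₂ q) ^ 2 * c5_J ℓ (Hm p q) +
      ∑ p, ∑ q, ((κ₁ p : ℝ) * κ₂ q) ^ 2 * c5_J ℓ (Hn p q) +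
      ∑ p, ∑ q, ((κ₁ p : ℝ) * κ₂ q) ^ 2 * c5_J ℓ (Ho p q) := by
    rw [← Finset.sum_add_distrib, ← Finset.sum_add_distrib]
    refine Finset.sum_congr rfl fun p _ => ?_
    rw [← Finset.sum_add_distrib, ← Finset.sum_add_distrib]
    refine Finset.sum_congr rfl fun q _ => ?_
    ring
  rw [hsplit] at hJ
  have hgoal : ∫ θ₁ : T, ∫ θ₂ : T, ‖D ℓ (θ₁ - θ₂)‖ ^ 2 *
      (‖Phi κ₁ u₁ ν₁ a W θ₁‖ ^ 2 * ‖Phi κ₂ u₂ ν₂ a W θ₂‖ ^ 2) = c5_J ℓ H0 := by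
    rw [hH0]
    rfl
  rw [hgoal, ← hn₁, ← hn₂]
  have hX : (2 * (K : ℝ) * W) ^ 2 ≤ L ^ 2 * ℓ ^ 2 := by
    rw [← mul_pow]
    exact pow_le_pow_left₀ (by positivity) hKW 2
  have hX4 : (2 * (K : ℝ) * W) ^ 4 ≤ L ^ 4 * ℓ ^ 4 := by
    rw [← mul_pow]
    exact pow_le_pow_left₀ (by positivity) hKW 4
  have hN : 0 ≤ n₁ * n₂ := mul_nonneg hn₁0 hn₂0
  -- term 1
  have t1 : (n₁ * (K * W * η)) ^ 2 * (n₂ * (2 * K * W)) ^ 2 * (2 * δ₁) * ℓ ≤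
      n₁ ^ 2 * n₂ ^ 2 * ℓ ^ 4 * (L ^ 4 * η ^ 2 * (4 * M₂ * A * I)) := by
    have e : (n₁ * (K * W * η)) ^ 2 * (n₂ * (2 * K * W)) ^ 2 * (2 * δ₁) * ℓ =
        n₁ ^ 2 * n₂ ^ 2 * (η ^ 2 * (4 * M₂ * A * I)) * (2 * (K : ℝ) * W) ^ 4 := by
      rw [hδ₁]
      field_simp
      ring
    rw [e]
    have := mul_le_mul_of_nonneg_left hX4
      (show 0 ≤ n₁ ^ 2 * n₂ ^ 2 * (η ^ 2 * (4 * M₂ * A * I)) by positivity)
    refine this.trans (le_of_eq ?_)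
    ring
  have t2 : n₁ * n₂ * (n₁ * n₂ * (4 * K ^ 2 * ℓ ^ 2 * (ε + 1 / (4 * A ^ 2))) * (W : ℝ) ^ 2) ≤
      n₁ ^ 2 * n₂ ^ 2 * ℓ ^ 4 * (L ^ 2 * (ε + 1 / (4 * A ^ 2))) := by
    have e : n₁ * n₂ * (n₁ * n₂ * (4 * K ^ 2 * ℓ ^ 2 * (ε + 1 / (4 * A ^ 2))) * (W : ℝ) ^ 2) =
        n₁ ^ 2 * n₂ ^ 2 * ℓ ^ 2 * (ε + 1 / (4 * A ^ 2)) * (2 * (K : ℝ) * W) ^ 2 := by
      ring
    rw [e]
    have := mul_le_mul_of_nonneg_left hX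
      (show 0 ≤ n₁ ^ 2 * n₂ ^ 2 * ℓ ^ 2 * (ε + 1 / (4 * A ^ 2)) by positivity)
    refine this.trans (le_of_eq ?_)
    ring
  have t3 : n₁ * n₂ * (n₁ * n₂ * (16 * K ^ 4 * ((16 * M₂ * K ^ 3) ^ 2 * (W : ℝ) ^ 2))) ≤
      n₁ ^ 2 * n₂ ^ 2 * ℓ ^ 4 * (2 ^ 10 * K ^ 8 * M₂ ^ 2 * L ^ 2 / ℓ ^ 2) := by
    have e : n₁ * n₂ * (n₁ * n₂ * (16 * K ^ 4 * ((16 * M₂ * K ^ 3) ^ 2 * (W : ℝ) ^ 2))) =
        n₁ ^ 2 * n₂ ^ 2 * (2 ^ 10 * K ^ 8 * M₂ ^ 2) * (2 * (K : ℝ) * W) ^ 2 := by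
      ring
    rw [e]
    have := mul_le_mul_of_nonneg_left hX
      (show 0 ≤ n₁ ^ 2 * n₂ ^ 2 * (2 ^ 10 * (K : ℝ) ^ 8 * M₂ ^ 2) by positivity)
    refine this.trans (le_of_eq ?_)
    field_simp
  have s2 := mul_le_mul_of_nonneg_left b2 hN
  have s3 := mul_le_mul_of_nonneg_left b3 hN
  have s4 := mul_le_mul_of_nonneg_left b4' hN
  have hfin : n₁ ^ 2 * n₂ ^ 2 * ℓ ^ 4 *
      (2 * L ^ 2 * (ε + 1 / (4 * A ^ 2)) + L ^ 4 * η ^ 2 * (4 * M₂ * A * I)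
        + 2 ^ 10 * K ^ 8 * M₂ ^ 2 * L ^ 2 / ℓ ^ 2) =
      n₁ ^ 2 * n₂ ^ 2 * ℓ ^ 4 * (L ^ 4 * η ^ 2 * (4 * M₂ * A * I)) +
      n₁ ^ 2 * n₂ ^ 2 * ℓ ^ 4 * (L ^ 2 * (ε + 1 / (4 * A ^ 2))) +
      n₁ ^ 2 * n₂ ^ 2 * ℓ ^ 4 * (L ^ 2 * (ε + 1 / (4 * A ^ 2))) +
      n₁ ^ 2 * n₂ ^ 2 * ℓ ^ 4 * (2 ^ 10 * K ^ 8 * M₂ ^ 2 * L ^ 2 / ℓ ^ 2) := by
    ring
  rw [hfin]
  have hJ' : c5_J ℓ H0 ≤ c5_J ℓ H1 +
      (n₁ * n₂ * ∑ p, ∑ q, ((κ₁ p : ℝ) * κ₂ q) ^ 2 * c5_J ℓ (Hm p q) +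
      n₁ * n₂ * ∑ p, ∑ q, ((κ₁ p : ℝ) * κ₂ q) ^ 2 * c5_J ℓ (Hn p q) +
      n₁ * n₂ * ∑ p, ∑ q, ((κ₁ p : ℝ) * κ₂ q) ^ 2 * c5_J ℓ (Ho p q)) := by
    refine hJ.trans (le_of_eq ?_)
    ring
  linarith [hJ', b1, t1, s2, t2, s3, s4, t3]

end Pool.Agent.Lib.MP_fed790_nt.PX
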