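import Pool.Agent.Lib.MP_fed790_nt.PX.Defs

/-! C5a: Cauchy-Schwarz for Phi -/

open Finset MeasureTheory

namespace Pool.Agent.Lib.MP_fed790_nt.PX

/-- (Job PX C5a) Proof.  Triangle inequality (`‖fourier‖ = 1`, `‖u p‖ ≤ 1`) and `(∑_p t_p)² ≤ card ι * ∑ t_p²`
(`sq_sum_le_card_mul_sum_sq`). -/
theorem tC5a : S_C5a := by
  intro ι _ κ u ν a W θ hu
  have hf : ∀ (n : ℤ) (x : T), ‖(fourier n x : ℂ)‖ = 1 := by
    intro n x
    rw [fourier_apply]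
    exact Circle.norm_coe _
  have h1 : ‖Phi κ u ν a W θ‖ ≤ ∑ p, (κ p : ℝ) * ‖Fs a W (κ p • θ)‖ := by
    unfold Phi
    refine (norm_sum_le _ _).trans (Finset.sum_le_sum fun p _ => ?_)
    rw [norm_mul, norm_mul, norm_mul, hf, mul_one, Complex.norm_natCast]
    have : (κ p : ℝ) * ‖u p‖ ≤ κ p := by
      have := hu p
      have h0 : (0 : ℝ) ≤ κ p := Nat.cast_nonneg _
      nlinarith
    exact mul_le_mul_of_nonneg_right this (norm_nonneg _)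
  have h2 : ‖Phi κ u ν a W θ‖ ^ 2 ≤ (∑ p, (κ p : ℝ) * ‖Fs a W (κ p • θ)‖) ^ 2 :=
    pow_le_pow_left₀ (norm_nonneg _) h1 2
  refine h2.trans ?_
  have h3 := sq_sum_le_card_mul_sum_sq (s := (univ : Finset ι))
    (f := fun p => (κ p : ℝ) * ‖Fs a W (κ p • θ)‖)
  simpa [mul_pow] using h3

end Pool.Agent.Lib.MP_fed790_nt.PX
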