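import Pool.Agent.Lib.MP_fed790_nt.PX.Defs

/-! C5g: contribution of the major arcs -/

open Finset MeasureTheory

namespace Pool.Agent.Lib.MP_fed790_nt.PX

private lemma c5g_D_cont (n : ℕ) : Continuous (D n) := by
  unfold D
  exact continuous_finsetSum _ fun t _ => (fourier (t : ℤ)).continuous

private lemma c5g_Fs_bound (a : ℕ → ℂ) (W : ℕ) (ha : ∀ ω, ‖a ω‖ ≤ 1) (α : T) :
    ‖Fs a W α‖ ≤ W := by
  unfold Fs
  refine (norm_sum_le _ _).trans ?_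
  have : ∀ ω ∈ Icc 1 W, ‖a ω * fourier (ω : ℤ) α‖ ≤ 1 := by
    intro ω _
    rw [norm_mul, fourier_apply, Circle.norm_coe, mul_one]
    exact ha ω
  refine (Finset.sum_le_sum this).trans ?_
  simp

private lemma c5g_Phi_bound {ι : Type} [Fintype ι] (κ : ι → ℕ) (u : ι → ℂ) (ν : ι → ℤ)
    (a : ℕ → ℂ) (W K : ℕ) (hκ : ∀ p, κ p ≤ 2 * K) (hu : ∀ p, ‖u p‖ ≤ 1) (ha : ∀ ω, ‖a ω‖ ≤ 1)
    (θ : T) : ‖Phi κ u ν a W θ‖ ≤ Fintype.card ι * (2 * K * W) := by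
  unfold Phi
  refine (norm_sum_le _ _).trans ?_
  have : ∀ p ∈ (univ : Finset ι), ‖(κ p : ℂ) * u p * fourier (ν p) θ * Fs a W (κ p • θ)‖
      ≤ 2 * K * W := by
    intro p _
    rw [norm_mul, norm_mul, norm_mul, fourier_apply, Circle.norm_coe, mul_one,
      Complex.norm_natCast]
    have h1 : (κ p : ℝ) ≤ 2 * K := by exact_mod_cast hκ p
    have h2 := c5g_Fs_bound a W ha (κ p • θ)
    have h3 : (κ p : ℝ) * ‖u p‖ ≤ 2 * K * 1 :=
      mul_le_mul h1 (hu p) (norm_nonneg _) (by positivity)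
    rw [mul_one] at h3
    exact mul_le_mul h3 h2 (norm_nonneg _) (by positivity)
  refine (Finset.sum_le_sum this).trans ?_
  simp

/-- (Job PX C5g) Proof.  On `‖M₂ • θ₁‖ ≤ δ₁`: `‖Φ₁‖² ≤ (n₁KWη)²`, and `‖Φ₂‖ ≤ n₂ · 2K · W` trivially.  So the integrand is at most
`C · 1[‖M₂ • θ₁‖ ≤ δ₁] ‖D ℓ (θ₁ - θ₂)‖²` with `C` the product of the two squares; integrate over `θ₂` (A7: `= ℓ`) and then over
`θ₁` (A6: measure `≤ 2δ₁`). -/
theorem tC5g (hA6 : S_A6) (hA7 : S_A7) : S_C5g := by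
  intro ι₁ ι₂ _ _ κ₁ κ₂ u₁ u₂ ν₁ ν₂ a W ℓ K M₂ η δ₁ hK hM₂ hη hδ₁ hκ₂ hu₂ ha hΦ
  set C : ℝ := (Fintype.card ι₁ * (K * W * η)) ^ 2 * (Fintype.card ι₂ * (2 * K * W)) ^ 2 with hC
  have hC0 : 0 ≤ C := by positivity
  set S : Set T := {θ : T | ‖M₂ • θ‖ ≤ δ₁} with hS
  have hSm : MeasurableSet S := by
    have : IsClosed S := by
      rw [hS]
      exact isClosed_le (by fun_prop) continuous_const
    exact this.measurableSet
  have hinner : ∀ θ₁ : T, ∫ θ₂ : T, ‖D ℓ (θ₁ - θ₂)‖ ^ 2 *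
      (if ‖M₂ • θ₁‖ ≤ δ₁ then ‖Phi κ₁ u₁ ν₁ a W θ₁‖ ^ 2 * ‖Phi κ₂ u₂ ν₂ a W θ₂‖ ^ 2 else 0) ≤
      S.indicator (fun _ => (ℓ : ℝ) * C) θ₁ := by
    intro θ₁
    by_cases h : ‖M₂ • θ₁‖ ≤ δ₁
    · have hmem : θ₁ ∈ S := h
      rw [Set.indicator_of_mem hmem, ← hA7 ℓ θ₁, ← integral_mul_const]
      refine integral_mono_of_nonneg ?_ ?_ ?_
      · refine Filter.Eventually.of_forall fun θ₂ => ?_
        simp only [Pi.zero_apply]
        rw [if_pos h]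
        positivity
      · have hc : Continuous fun θ₂ : T => ‖D ℓ (θ₁ - θ₂)‖ ^ 2 * C := by
          have := c5g_D_cont ℓ
          fun_prop
        exact hc.integrable_of_hasCompactSupport (HasCompactSupport.of_compactSpace _)
      · refine Filter.Eventually.of_forall fun θ₂ => ?_
        simp only
        rw [if_pos h]
        refine mul_le_mul_of_nonneg_left ?_ (by positivity)
        rw [hC]
        refine mul_le_mul ?_ ?_ (by positivity) (by positivity)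
        · exact pow_le_pow_left₀ (norm_nonneg _) (hΦ θ₁ h) 2
        · exact pow_le_pow_left₀ (norm_nonneg _)
            (c5g_Phi_bound κ₂ u₂ ν₂ a W K hκ₂ hu₂ ha θ₂) 2
    · have hmem : θ₁ ∉ S := h
      rw [Set.indicator_of_notMem hmem]
      simp [h]
  have hnn : ∀ θ₁ : T, 0 ≤ ∫ θ₂ : T, ‖D ℓ (θ₁ - θ₂)‖ ^ 2 *
      (if ‖M₂ • θ₁‖ ≤ δ₁ then ‖Phi κ₁ u₁ ν₁ a W θ₁‖ ^ 2 * ‖Phi κ₂ u₂ ν₂ a W θ₂‖ ^ 2 else 0) := by
    intro θ₁
    refine integral_nonneg fun θ₂ => ?_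
    simp only [Pi.zero_apply]
    split_ifs <;> positivity
  have hvol := hA6 M₂ δ₁ hM₂ hδ₁
  calc ∫ θ₁ : T, ∫ θ₂ : T, ‖D ℓ (θ₁ - θ₂)‖ ^ 2 *
      (if ‖M₂ • θ₁‖ ≤ δ₁ then ‖Phi κ₁ u₁ ν₁ a W θ₁‖ ^ 2 * ‖Phi κ₂ u₂ ν₂ a W θ₂‖ ^ 2 else 0)
      ≤ ∫ θ₁ : T, S.indicator (fun _ => (ℓ : ℝ) * C) θ₁ := by
        refine integral_mono_of_nonneg (Filter.Eventually.of_forall hnn) ?_
          (Filter.Eventually.of_forall hinner)
        exact (integrable_const _).indicator hSm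
    _ = (volume : Measure T).real S * ((ℓ : ℝ) * C) := by
        rw [integral_indicator_const _ hSm, smul_eq_mul]
    _ ≤ 2 * δ₁ * ((ℓ : ℝ) * C) := by
        exact mul_le_mul_of_nonneg_right hvol (by positivity)
    _ = C * (2 * δ₁) * ℓ := by ring

end Pool.Agent.Lib.MP_fed790_nt.PX
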