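import Pool.Agent.Lib.MP_fed790_nt.PX.Defs

/-! C5m: minor contribution, first variable -/

open Finset MeasureTheory

namespace Pool.Agent.Lib.MP_fed790_nt.PX

private theorem c5m_norm_fourier (n : ℤ) (x : T) : ‖(fourier n x : ℂ)‖ = 1 := by
  rw [fourier_apply]
  exact Circle.norm_coe _

private theorem c5m_cont (a : ℕ → ℂ) (W : ℕ) : Continuous (Fs a W) := by
  unfold Fs
  refine continuous_finsetSum _ (fun ω _ => ?_)
  exact continuous_const.mul (fourier (ω : ℤ)).continuous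

private theorem c5m_bound (a : ℕ → ℂ) (W : ℕ) (ha : ∀ ω, ‖a ω‖ ≤ 1) (x : T) :
    ‖Fs a W x‖ ^ 2 ≤ (W : ℝ) ^ 2 := by
  have h : ‖Fs a W x‖ ≤ (W : ℝ) := by
    unfold Fs
    calc ‖∑ ω ∈ Icc 1 W, a ω * fourier (ω : ℤ) x‖
        ≤ ∑ ω ∈ Icc 1 W, ‖a ω * fourier (ω : ℤ) x‖ := norm_sum_le _ _
      _ ≤ ∑ ω ∈ Icc 1 W, (1 : ℝ) := by
          refine sum_le_sum (fun ω _ => ?_)
          rw [norm_mul, c5m_norm_fourier, mul_one]
          exact ha ω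
      _ = (W : ℝ) := by simp
  exact pow_le_pow_left₀ (norm_nonneg _) h 2

/-- (Job PX C5m) Proof.  Sum over `p` of C2 applied with `κ₁ := κ₁ p`, the pool `κ₂`, `g₁ α = if ‖M₂ • α‖ ≤ M₂*(8KAI/ℓ) then 0 else ‖Fs a W α‖²`,
`g₂ β = ‖Fs a W β‖²`, `B = W²`.  Hypothesis on `g₁`: if `g₁ α ≠ 0` then `M₂*(8KAI/ℓ) < ‖M₂ • α‖`; with `δ = 4K²A/ℓ`
one has `M₂ (2δI/K) = M₂*(8KAI/ℓ)` and `2Kδ(1+I) = 8K³A(1+I)/ℓ < 1`, so by (the contrapositive of) B1 every `γ` has at most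
`ε n₂` collisions.  `∫ g₁ ≤ ∫ ‖F‖² ≤ W`, `∫ g₂ ≤ W` by A8.  Measurability: `Fs a W` is continuous, the set
`{α | ‖M₂ • α‖ ≤ …}` is closed. -/
theorem tC5m (hB1 : S_B1) (hC2 : S_C2) (hA8 : S_A8) : S_C5m := by
  intro ι₁ ι₂ _ _ κ₁ κ₂ a W ℓ K I M₂ ε A hK hI hM hℓ hε hA h1 h2 hcop hdvd ha hcol har hsmall
  have hKr : (0 : ℝ) < K := Nat.cast_pos.2 hK
  have hℓr : (0 : ℝ) < ℓ := Nat.cast_pos.2 hℓ
  set R : ℝ := M₂ * (8 * K * A * I / ℓ) with hR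
  set g₁ : T → ℝ := fun α => if ‖M₂ • α‖ ≤ R then 0 else ‖Fs a W α‖ ^ 2 with hg₁
  set g₂ : T → ℝ := fun β => ‖Fs a W β‖ ^ 2 with hg₂
  have hg₂c : Continuous g₂ := (c5m_cont a W).norm.pow 2
  have hg₂m : Measurable g₂ := hg₂c.measurable
  have hset : MeasurableSet {α : T | ‖M₂ • α‖ ≤ R} := by
    apply IsClosed.measurableSet
    exact isClosed_le ((continuous_nsmul M₂).norm) continuous_const
  have hg₁m : Measurable g₁ := Measurable.ite hset measurable_const hg₂m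
  have hb₂ : ∀ x, 0 ≤ g₂ x ∧ g₂ x ≤ (W : ℝ) ^ 2 := fun x =>
    ⟨by positivity, c5m_bound a W ha x⟩
  have hle : ∀ x, g₁ x ≤ g₂ x := by
    intro x
    simp only [hg₁]
    split_ifs
    · exact (hb₂ x).1
    · exact le_refl _
  have hb₁ : ∀ x, 0 ≤ g₁ x ∧ g₁ x ≤ (W : ℝ) ^ 2 := by
    intro x
    refine ⟨?_, (hle x).trans (hb₂ x).2⟩
    simp only [hg₁]
    split_ifs
    · exact le_refl _
    · exact (hb₂ x).1
  have hi₂ : Integrable g₂ (volume : Measure T) := by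
    apply Integrable.of_bound hg₂m.aestronglyMeasurable ((W : ℝ) ^ 2)
    filter_upwards with x
    rw [Real.norm_of_nonneg (hb₂ x).1]
    exact (hb₂ x).2
  have hi₁ : Integrable g₁ (volume : Measure T) := by
    apply Integrable.of_bound hg₁m.aestronglyMeasurable ((W : ℝ) ^ 2)
    filter_upwards with x
    rw [Real.norm_of_nonneg (hb₁ x).1]
    exact (hb₁ x).2
  have hI2 : ∫ β : T, g₂ β ≤ (W : ℝ) := hA8 a W ha
  have hI1 : ∫ α : T, g₁ α ≤ (W : ℝ) := (integral_mono hi₁ hi₂ hle).trans hI2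
  have hI1' : 0 ≤ ∫ α : T, g₁ α := integral_nonneg fun x => (hb₁ x).1
  have hI2' : 0 ≤ ∫ β : T, g₂ β := integral_nonneg fun x => (hb₂ x).1
  have hprod : (∫ α : T, g₁ α) * ∫ β : T, g₂ β ≤ (W : ℝ) ^ 2 := by
    rw [sq]
    exact mul_le_mul hI1 hI2 hI2' (Nat.cast_nonneg _)
  have hcoll : ∀ α, g₁ α ≠ 0 → ∀ γ : T,
      (((univ.filter fun p => ‖κ₂ p • α - γ‖ ≤ 4 * K ^ 2 * A / ℓ).card : ℕ) : ℝ)
        ≤ ε * Fintype.card ι₂ := by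
    intro α hα γ
    by_contra hcon
    rw [not_le] at hcon
    have hδ : (0 : ℝ) ≤ 4 * K ^ 2 * A / ℓ := by positivity
    have hs : 2 * (K : ℝ) * (4 * K ^ 2 * A / ℓ) * (1 + I) < 1 := by
      have : 2 * (K : ℝ) * (4 * K ^ 2 * A / ℓ) * (1 + I) = 8 * (K : ℝ) ^ 3 * A * (1 + I) / ℓ := by
        ring
      rw [this, div_lt_one hℓr]
      exact hsmall
    have hb := hB1 ι₂ κ₂ K I M₂ ε (4 * K ^ 2 * A / ℓ) hK hI hδ hε h2 hcol har hs α γ hcon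
    have he : (M₂ : ℝ) * (2 * (4 * K ^ 2 * A / ℓ) * I / K) = R := by
      rw [hR]
      field_simp
      ring
    rw [he] at hb
    apply hα
    simp only [hg₁]
    rw [if_pos hb]
  set X : ℝ := 4 * K ^ 2 * ℓ ^ 2 * (ε + 1 / (4 * A ^ 2)) with hX
  have hX0 : 0 ≤ X := by positivity
  have hp : ∀ p : ι₁, ∑ q, ((κ₁ p : ℝ) * κ₂ q) ^ 2 * ∫ θ₁ : T, ∫ θ₂ : T, ‖D ℓ (θ₁ - θ₂)‖ ^ 2 *
      (g₁ (κ₁ p • θ₁) * g₂ (κ₂ q • θ₂)) ≤ Fintype.card ι₂ * X * (W : ℝ) ^ 2 := by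
    intro p
    have h := hC2 ι₂ (κ₁ p) κ₂ K ℓ ε A g₁ g₂ ((W : ℝ) ^ 2) hK hℓ hε hA (h1 p) h2 (hcop p)
      (hdvd p) hg₁m hg₂m hb₁ hb₂ hcoll
    refine h.trans ?_
    apply mul_le_mul_of_nonneg_left hprod
    positivity
  have hsum := sum_le_sum (s := (univ : Finset ι₁)) (fun p _ => hp p)
  refine hsum.trans (le_of_eq ?_)
  rw [sum_const, card_univ, nsmul_eq_mul]
  ring

end Pool.Agent.Lib.MP_fed790_nt.PX
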