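import Pool.Agent.Lib.MP_fed790_nt.PX.Defs

/-! C5n: minor contribution, second variable -/

open Finset MeasureTheory

namespace Pool.Agent.Lib.MP_fed790_nt.PX

private theorem c5n_D_neg (n : ℕ) (x : T) : ‖D n (-x)‖ = ‖D n x‖ := by
  have h : D n (-x) = (starRingEnd ℂ) (D n x) := by
    unfold D
    rw [map_sum]
    refine Finset.sum_congr rfl fun t _ => ?_
    rw [← fourier_neg]
    simp only [fourier_apply]
    simp
  rw [h, RCLike.norm_conj]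

private theorem c5n_D_cont (n : ℕ) : Continuous (D n) := by
  unfold D
  exact continuous_finsetSum _ fun t _ => (fourier (t : ℤ)).continuous

private theorem c5n_Fs_cont (a : ℕ → ℂ) (W : ℕ) : Continuous (Fs a W) := by
  unfold Fs
  exact continuous_finsetSum _ fun t _ => continuous_const.mul (fourier (t : ℤ)).continuous

private theorem c5n_bdd {f : T → ℂ} (hf : Continuous f) : ∃ B : ℝ, ∀ x, |‖f x‖ ^ 2| ≤ B := by
  obtain ⟨B, hB⟩ := (isCompact_univ : IsCompact (Set.univ : Set T)).exists_bound_of_continuousOn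
    (f := fun x => ‖f x‖ ^ 2) (by fun_prop)
  exact ⟨B, fun x => by simpa using hB x (Set.mem_univ x)⟩

private theorem c5n_swap (ℓ : ℕ) (G₁ G₂ : T → ℝ) (h₁ : Measurable G₁) (h₂ : Measurable G₂)
    (b₁ : ∃ B : ℝ, ∀ x, |G₁ x| ≤ B) (b₂ : ∃ B : ℝ, ∀ x, |G₂ x| ≤ B) :
    ∫ θ₁ : T, ∫ θ₂ : T, ‖D ℓ (θ₁ - θ₂)‖ ^ 2 * (G₁ θ₁ * G₂ θ₂) =
      ∫ θ₁ : T, ∫ θ₂ : T, ‖D ℓ (θ₁ - θ₂)‖ ^ 2 * (G₂ θ₁ * G₁ θ₂) := by
  obtain ⟨B₁, hB₁⟩ := b₁
  obtain ⟨B₂, hB₂⟩ := b₂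
  obtain ⟨B₃, hB₃⟩ := c5n_bdd (c5n_D_cont ℓ)
  rw [integral_integral_swap]
  · refine integral_congr_ae (Filter.Eventually.of_forall fun θ₁ => ?_)
    refine integral_congr_ae (Filter.Eventually.of_forall fun θ₂ => ?_)
    have h : ‖D ℓ (θ₂ - θ₁)‖ = ‖D ℓ (θ₁ - θ₂)‖ := by
      rw [← c5n_D_neg, neg_sub]
    simp only [h]
    ring
  · have hm : Measurable (Function.uncurry fun θ₁ θ₂ : T =>
        ‖D ℓ (θ₁ - θ₂)‖ ^ 2 * (G₁ θ₁ * G₂ θ₂)) := by
      have hD : Measurable fun p : T × T => ‖D ℓ (p.1 - p.2)‖ ^ 2 :=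
        (((c5n_D_cont ℓ).comp (continuous_fst.sub continuous_snd)).norm.pow 2).measurable
      exact hD.mul ((h₁.comp measurable_fst).mul (h₂.comp measurable_snd))
    refine Integrable.of_bound hm.aestronglyMeasurable (B₃ * (B₁ * B₂))
      (Filter.Eventually.of_forall fun p => ?_)
    rw [Real.norm_eq_abs]
    simp only [Function.uncurry]
    rw [abs_mul, abs_mul]
    exact mul_le_mul (hB₃ _) (mul_le_mul (hB₁ _) (hB₂ _) (abs_nonneg _)
      ((abs_nonneg _).trans (hB₁ 0))) (mul_nonneg (abs_nonneg _) (abs_nonneg _))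
      ((abs_nonneg _).trans (hB₃ 0))

/-- (Job PX C5n) Proof.  C5m with the roles of the two pools exchanged (`Nat.Coprime.symm`, `mul_comm`, `Finset.sum_comm`), and
`MeasureTheory.integral_integral_swap` for the double integral (bounded measurable integrand on a finite measure space);
`‖D ℓ (θ₁ - θ₂)‖ = ‖D ℓ (θ₂ - θ₁)‖` because `D ℓ (-x) = conj (D ℓ x)`. -/
theorem tC5n (hC5m : S_C5m) : S_C5n := by
  intro ι₁ ι₂ _ _ κ₁ κ₂ a W ℓ K I M₂ ε A hK hI hM hℓ hε hA h₁ h₂ hc hd ha hs hq hl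
  have key := hC5m ι₂ ι₁ κ₂ κ₁ a W ℓ K I M₂ ε A hK hI hM hℓ hε hA h₂ h₁
    (fun p q => (hc q p).symm) (fun p q => by rw [mul_comm]; exact hd q p) ha hs hq hl
  rw [Finset.sum_comm]
  have hcard : (Fintype.card ι₂ : ℝ) * Fintype.card ι₁ *
      (4 * K ^ 2 * ℓ ^ 2 * (ε + 1 / (4 * A ^ 2))) * (W : ℝ) ^ 2 =
      Fintype.card ι₁ * Fintype.card ι₂ *
      (4 * K ^ 2 * ℓ ^ 2 * (ε + 1 / (4 * A ^ 2))) * (W : ℝ) ^ 2 := by ring
  rw [hcard] at key
  refine le_trans (le_of_eq ?_) key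
  refine Finset.sum_congr rfl fun q _ => Finset.sum_congr rfl fun p _ => ?_
  rw [mul_comm (κ₁ p : ℝ) (κ₂ q : ℝ)]
  congr 1
  obtain ⟨B, hB⟩ := c5n_bdd (c5n_Fs_cont a W)
  refine c5n_swap ℓ (fun θ => ‖Fs a W (κ₁ p • θ)‖ ^ 2)
    (fun θ => if ‖M₂ • (κ₂ q • θ)‖ ≤ M₂ * (8 * K * A * I / ℓ) then 0
      else ‖Fs a W (κ₂ q • θ)‖ ^ 2) ?_ ?_ ⟨B, fun x => hB _⟩ ⟨B, fun x => ?_⟩
  · exact ((((c5n_Fs_cont a W).comp (continuous_nsmul (κ₁ p))).norm).pow 2).measurable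
  · refine Measurable.ite ?_ measurable_const
      ((((c5n_Fs_cont a W).comp (continuous_nsmul (κ₂ q))).norm).pow 2).measurable
    exact measurableSet_le (((continuous_nsmul M₂).comp (continuous_nsmul (κ₂ q))).norm).measurable
      measurable_const
  · show |(if _ then (0:ℝ) else _)| ≤ B
    split_ifs
    · rw [abs_zero]
      exact (abs_nonneg _).trans (hB 0)
    · exact hB _

end Pool.Agent.Lib.MP_fed790_nt.PX
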