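import Pool.Agent.Lib.MP_fed790_nt.PX.Defs

/-! C5o: off-major contribution -/

open Finset MeasureTheory

namespace Pool.Agent.Lib.MP_fed790_nt.PX

private theorem c5o_cont (a : ℕ → ℂ) (W κ : ℕ) :
    Continuous fun θ : T => ‖Fs a W (κ • θ)‖ ^ 2 := by
  unfold Fs
  have h : ∀ n : ℤ, Continuous fun θ : T => (fourier n (κ • θ) : ℂ) := fun n =>
    (fourier n).continuous.comp (continuous_nsmul κ)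
  fun_prop (disch := exact h _)

private theorem c5o_int (a : ℕ → ℂ) (W κ : ℕ) :
    Integrable (fun θ : T => ‖Fs a W (κ • θ)‖ ^ 2) :=
  (c5o_cont a W κ).integrable_of_hasCompactSupport (HasCompactSupport.of_compactSpace _)

private theorem c5o_le (hA3 : S_A3) (hA8 : S_A8) {a : ℕ → ℂ} (W : ℕ) {κ : ℕ} (hκ : 0 < κ)
    (ha : ∀ ω, ‖a ω‖ ≤ 1) : ∫ θ : T, ‖Fs a W (κ • θ)‖ ^ 2 ≤ (W : ℝ) := by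
  have hc : Continuous fun θ : T => ‖Fs a W θ‖ ^ 2 := by
    have := c5o_cont a W 1
    simpa using this
  obtain ⟨B, hB⟩ := isCompact_univ.exists_bound_of_continuousOn
    (f := fun θ : T => ‖Fs a W θ‖ ^ 2) hc.continuousOn
  have h := hA3 κ 0 (fun α => ‖Fs a W α‖ ^ 2) hκ hc.measurable
    ⟨B, fun x => by simpa using hB x (Set.mem_univ x)⟩
  rw [if_pos (dvd_zero _)] at h
  simp only [Int.zero_ediv, fourier_zero, one_mul] at h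
  have h1 : ∫ θ : T, ‖Fs a W (κ • θ)‖ ^ 2 = ∫ α : T, ‖Fs a W α‖ ^ 2 := by
    have e1 : ((∫ θ : T, ‖Fs a W (κ • θ)‖ ^ 2 : ℝ) : ℂ) = ((∫ α : T, ‖Fs a W α‖ ^ 2 : ℝ) : ℂ) := by
      rw [← integral_complex_ofReal, ← integral_complex_ofReal]
      exact h
    exact_mod_cast e1
  rw [h1]
  exact hA8 a W ha

/-- (Job PX C5o) Proof.  Where the condition holds, C3 gives `‖D‖² ≤ (16 M₂ K³)²`.  So the integrand is at most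
`(16M₂K³)² ‖F(κ₁θ₁)‖² ‖F(κ₂θ₂)‖²` everywhere, whose double integral is `(16M₂K³)² ∫‖F(κ₁θ)‖² ∫‖F(κ₂θ)‖²`, and
`∫ ‖F(κθ)‖² dθ = ∫ ‖F‖² ≤ W` (A3 with `u = 0`, or `AddCircle.ergodic_nsmul`; A8). -/
theorem tC5o (hA3 : S_A3) (hA8 : S_A8) (hC3 : S_C3) : S_C5o := by
  intro κ₁ κ₂ a W ℓ K M₂ δ₂ hK hM₂ hδ hκ₁ hκ₂ hcop h8 ha
  have hp1 : 0 < κ₁ := lt_of_lt_of_le hK hκ₁.1
  have hp2 : 0 < κ₂ := lt_of_lt_of_le hK hκ₂.1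
  have hpt : ∀ θ₁ θ₂ : T, ‖D ℓ (θ₁ - θ₂)‖ ^ 2 *
      (if ‖M₂ • (κ₁ • θ₁)‖ ≤ δ₂ ∧ ‖M₂ • (κ₂ • θ₂)‖ ≤ δ₂ ∧ δ₂ / K < ‖M₂ • θ₁‖ then
        ‖Fs a W (κ₁ • θ₁)‖ ^ 2 * ‖Fs a W (κ₂ • θ₂)‖ ^ 2 else 0) ≤
      ((16 * M₂ * K ^ 3) ^ 2 * ‖Fs a W (κ₁ • θ₁)‖ ^ 2) * ‖Fs a W (κ₂ • θ₂)‖ ^ 2 := by
    intro θ₁ θ₂
    split_ifs with h
    · have h1 := hC3 κ₁ κ₂ K M₂ ℓ δ₂ hK hM₂ hδ hκ₁ hκ₂ hcop h8 θ₁ θ₂ h.1 h.2.1 h.2.2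
      have h2 : ‖D ℓ (θ₁ - θ₂)‖ ^ 2 ≤ (16 * M₂ * K ^ 3 : ℝ) ^ 2 :=
        pow_le_pow_left₀ (norm_nonneg _) h1 2
      calc _ ≤ (16 * M₂ * K ^ 3 : ℝ) ^ 2 * (‖Fs a W (κ₁ • θ₁)‖ ^ 2 * ‖Fs a W (κ₂ • θ₂)‖ ^ 2) :=
            mul_le_mul_of_nonneg_right h2 (by positivity)
        _ = _ := by ring
    · rw [mul_zero]
      positivity
  have hnn : ∀ θ₁ θ₂ : T, 0 ≤ ‖D ℓ (θ₁ - θ₂)‖ ^ 2 *
      (if ‖M₂ • (κ₁ • θ₁)‖ ≤ δ₂ ∧ ‖M₂ • (κ₂ • θ₂)‖ ≤ δ₂ ∧ δ₂ / K < ‖M₂ • θ₁‖ then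
        ‖Fs a W (κ₁ • θ₁)‖ ^ 2 * ‖Fs a W (κ₂ • θ₂)‖ ^ 2 else 0) := by
    intro θ₁ θ₂
    split_ifs
    · positivity
    · rw [mul_zero]
  have hin : ∀ θ₁ : T, ∫ θ₂ : T, ‖D ℓ (θ₁ - θ₂)‖ ^ 2 *
      (if ‖M₂ • (κ₁ • θ₁)‖ ≤ δ₂ ∧ ‖M₂ • (κ₂ • θ₂)‖ ≤ δ₂ ∧ δ₂ / K < ‖M₂ • θ₁‖ then
        ‖Fs a W (κ₁ • θ₁)‖ ^ 2 * ‖Fs a W (κ₂ • θ₂)‖ ^ 2 else 0) ≤
      ((16 * M₂ * K ^ 3 : ℝ) ^ 2 * W) * ‖Fs a W (κ₁ • θ₁)‖ ^ 2 := by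
    intro θ₁
    have e1 := integral_mono_of_nonneg (μ := (volume : Measure T))
      (Filter.Eventually.of_forall (hnn θ₁)) ((c5o_int a W κ₂).const_mul _)
      (Filter.Eventually.of_forall (hpt θ₁))
    refine e1.trans ?_
    rw [integral_const_mul]
    have e2 := c5o_le hA3 hA8 W hp2 ha
    calc _ ≤ ((16 * M₂ * K ^ 3 : ℝ) ^ 2 * ‖Fs a W (κ₁ • θ₁)‖ ^ 2) * W :=
          mul_le_mul_of_nonneg_left e2 (by positivity)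
      _ = _ := by ring
  have e3 := integral_mono_of_nonneg (μ := (volume : Measure T))
    (Filter.Eventually.of_forall fun θ₁ : T => integral_nonneg (hnn θ₁))
    ((c5o_int a W κ₁).const_mul ((16 * M₂ * K ^ 3 : ℝ) ^ 2 * W))
    (Filter.Eventually.of_forall hin)
  refine e3.trans ?_
  rw [integral_const_mul]
  have e4 := c5o_le hA3 hA8 W hp1 ha
  calc _ ≤ ((16 * M₂ * K ^ 3 : ℝ) ^ 2 * W) * W := mul_le_mul_of_nonneg_left e4 (by positivity)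
    _ = _ := by ring

end Pool.Agent.Lib.MP_fed790_nt.PX
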