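import Pool.Agent.Lib.MP_fed790_nt.PX.Defs3

/-! D0: basic facts about the parameters -/

open Finset MeasureTheory

namespace Pool.Agent.Lib.MP_fed790_nt.PX

private lemma d0_clog (k : ℕ) (hk : 2 ≤ k) : 2 ^ Nat.clog 2 k ≤ k ^ 2 := by
  have h1 : 2 ^ (Nat.clog 2 k).pred < k := Nat.pow_pred_clog_lt_self (by norm_num) (by omega)
  have hpos : 0 < Nat.clog 2 k := Nat.clog_pos (by norm_num) hk
  obtain ⟨m, hm⟩ : ∃ m, Nat.clog 2 k = m + 1 := ⟨Nat.clog 2 k - 1, by omega⟩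
  rw [hm] at h1 ⊢
  simp only [Nat.pred_succ] at h1
  calc 2 ^ (m + 1) = 2 * 2 ^ m := by ring
    _ ≤ k * k := Nat.mul_le_mul hk h1.le
    _ = k ^ 2 := by ring

private lemma d0_hh_ge (k : ℕ) : k ^ 140 ≤ hh k := by
  have h : k ≤ 2 ^ Nat.clog 2 k := Nat.le_pow_clog (by norm_num) k
  calc k ^ 140 ≤ (2 ^ Nat.clog 2 k) ^ 140 := Nat.pow_le_pow_left h 140
    _ = hh k := by rw [hh, tt, ← pow_mul, mul_comm]

private lemma d0_hh_le (k : ℕ) (hk : 2 ≤ k) : hh k ≤ k ^ 280 := by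
  calc hh k = (2 ^ Nat.clog 2 k) ^ 140 := by rw [hh, tt, ← pow_mul, mul_comm]
    _ ≤ (k ^ 2) ^ 140 := Nat.pow_le_pow_left (d0_clog k hk) 140
    _ = k ^ 280 := by rw [← pow_mul]

private lemma d0_tt (k : ℕ) : tt k ≤ 140 * k := by
  have h : Nat.clog 2 k ≤ k := Nat.clog_le_of_le_pow Nat.lt_two_pow_self.le
  rw [tt]
  omega

private lemma d0_card (k R : ℕ) : Fintype.card (Ed k R) ≤ k ^ 2 * R ^ 2 := by
  have hlt : ∀ e : Ed k R, (e.1.2.1 : ℕ) < k := fun e => by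
    have h1 : (e.1.2.1 : ℕ) < e.1.1.1 := e.2
    have h2 := e.1.1.1.2
    omega
  have hlt' : ∀ e : Ed k R, (e.1.1.1 : ℕ) - 1 < k := fun e => by
    have h1 : (e.1.2.1 : ℕ) < e.1.1.1 := e.2
    have h2 := e.1.1.1.2
    omega
  have hinj : Function.Injective (fun e : Ed k R =>
      (((⟨e.1.2.1, hlt e⟩ : Fin k), (⟨e.1.1.1 - 1, hlt' e⟩ : Fin k)), (e.1.1.2, e.1.2.2))) := by
    rintro ⟨⟨⟨a, b⟩, ⟨c, d⟩⟩, he⟩ ⟨⟨⟨a', b'⟩, ⟨c', d'⟩⟩, he'⟩ hh
    simp only [Prod.mk.injEq, Fin.mk.injEq] at hh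
    obtain ⟨⟨h1, h2⟩, h3, h4⟩ := hh
    have h5 : (c : ℕ) < a := he
    have h6 : (c' : ℕ) < a' := he'
    have h7 : a = a' := Fin.ext (by omega)
    have h8 : c = c' := Fin.ext h1
    subst h7 h8 h3 h4
    rfl
  have := Fintype.card_le_of_injective _ hinj
  simpa [Fintype.card_prod, Fintype.card_fin, sq] using this

private lemma d0_En_le (k : ℕ) : En k ≤ k ^ 30 := by
  calc En k ≤ k ^ 2 * (k ^ 14) ^ 2 := d0_card k (k ^ 14)
    _ = k ^ 30 := by rw [← pow_mul, ← pow_add]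

private lemma d0_En_pos (k : ℕ) (hk : 2 ≤ k) : 0 < En k := by
  have hR : 0 < k ^ 14 := Nat.pow_pos (by omega)
  have : Nonempty (Ed k (k ^ 14)) :=
    ⟨⟨((⟨1, by omega⟩, ⟨0, hR⟩), (⟨0, by omega⟩, ⟨0, hR⟩)), by
      show (⟨0, _⟩ : Fin (k + 1)) < ⟨1, _⟩
      simp [Fin.lt_def]⟩⟩
  exact Fintype.card_pos

private lemma d0_hh_pos (k : ℕ) : 0 < hh k := Nat.pow_pos (by norm_num)

private lemma d0_hh_two (k : ℕ) (hk : 2 ≤ k) : 2 ≤ hh k :=
  calc 2 ≤ 2 ^ 140 := by norm_num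
    _ ≤ k ^ 140 := Nat.pow_le_pow_left hk 140
    _ ≤ hh k := d0_hh_ge k

private lemma d0_nn (k : ℕ) (hk : 2 ≤ k) : nn k ≤ hh k ^ 3 := by
  have h1 : k ^ 30 ≤ hh k := (Nat.pow_le_pow_right (by omega) (by norm_num)).trans (d0_hh_ge k)
  calc nn k = En k * hh k ^ 2 := rfl
    _ ≤ hh k * hh k ^ 2 := Nat.mul_le_mul_right _ ((d0_En_le k).trans h1)
    _ = hh k ^ 3 := by ring

private lemma d0_Idx (k : ℕ) (hk : 2 ≤ k) : ∀ i ∈ Idx k, 0 < i ∧ i ≤ 2 * hh k ^ 5 := by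
  intro i hi
  simp only [Idx, i₀, mem_Ico] at hi
  have h1 := d0_nn k hk
  have h2 : hh k ^ 3 ≤ hh k ^ 5 := Nat.pow_le_pow_right (d0_hh_pos k) (by norm_num)
  have h3 : 0 < hh k ^ 5 := Nat.pow_pos (d0_hh_pos k)
  omega

private lemma d0_Del (k : ℕ) (hk : 2 ≤ k) : 0 < Del k := by
  unfold Del
  refine Finset.prod_pos fun i _ => Finset.prod_pos fun i' hi' => ?_
  simp only [mem_Ico] at hi'
  have h0 : 2 * hh k * k ≠ 0 := by
    have := d0_hh_pos k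
    positivity
  exact Nat.sub_pos_of_lt (Nat.pow_lt_pow_left hi'.2 h0)

private lemma d0_base (k : ℕ) (hk : 2 ≤ k) : 2 ≤ (hh k ^ 2).factorial * Del k := by
  have h1 : 2 ≤ hh k ^ 2 := by
    have := d0_hh_two k hk
    nlinarith
  have h2 : 2 ≤ (hh k ^ 2).factorial := h1.trans (Nat.self_le_factorial _)
  have h3 := d0_Del k hk
  nlinarith

private lemma d0_Mm (k : ℕ) (hk : 2 ≤ k) : 2 ≤ Mm k := by
  have h := d0_base k hk
  calc 2 ≤ (hh k ^ 2).factorial * Del k := h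
    _ = ((hh k ^ 2).factorial * Del k) ^ 1 := (pow_one _).symm
    _ ≤ Mm k := Nat.pow_le_pow_right (by omega) (d0_hh_pos k)

private lemma d0_base_dvd (k : ℕ) : (hh k ^ 2).factorial * Del k ∣ Mm k :=
  dvd_pow_self _ (d0_hh_pos k).ne'

private lemma d0_prime (k q : ℕ) (hq : q.Prime) (h : q ≤ hh k ^ 2) : q ∣ Mm k :=
  ((hq.dvd_factorial.2 h).mul_right _).trans (d0_base_dvd k)

/-- (Job PX D0) Proof.  `k ≤ 2 ^ clog 2 k` (`Nat.le_pow_clog`) and `2 ^ clog 2 k < 2 k ≤ k²` (`Nat.pow_pred_clog_lt_self`), so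
`k¹⁴⁰ ≤ h = (2 ^ clog)¹⁴⁰ ≤ (k²)¹⁴⁰`; `clog 2 k ≤ k`.  `Fintype.card (Ed k R)` is `R²` times the number of pairs
`g < g'` in `Fin (k+1)`, at most `k(k+1)/2 · R² ≤ k² k²⁸`; a crude bound is enough, but note that
`(k+1)² R²` is not `≤ k³⁰` for `k = 2`: use `card {(g,g') | g < g'} = (k+1)k/2` (or that `(s,r) ↦` swap is injective into the
complement).  It is positive because `k + 1 ≥ 2` and `R ≥ 1`.  `nn = En h² ≤ k³⁰h² ≤ h³`.
`Idx = Ico (h⁵) (h⁵ + nn)`.  `Del > 0`: every factor `i^m - i'^m` with `i' < i`, `m > 0` is positive.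
`Mm = (h²! Del)^h`: a prime dividing `Mm` divides the base, so its `h`-th power divides `Mm`.  The rest is immediate. -/
theorem tD0 : S_D0 := by
  intro k hk
  have hM := d0_Mm k hk
  refine ⟨d0_hh_ge k, d0_hh_le k hk, d0_tt k, d0_En_le k, d0_En_pos k hk, d0_nn k hk, d0_Idx k hk,
    d0_Del k hk, hM, d0_prime k, d0_prime k 2 Nat.prime_two ?_, ?_, ?_, ?_, ?_, ?_⟩
  · have := d0_hh_two k hk
    nlinarith
  · intro q hq hd
    exact pow_dvd_pow_of_dvd (hq.dvd_of_dvd_pow hd) _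
  · intro i hi i' hi' hlt
    have h1 : (i ^ (2 * hh k * k) - i' ^ (2 * hh k * k)) ∣ Del k := by
      unfold Del
      refine Dvd.dvd.trans ?_ (Finset.dvd_prod_of_mem _ hi)
      refine Finset.dvd_prod_of_mem (fun i' => i ^ (2 * hh k * k) - i' ^ (2 * hh k * k)) ?_
      simp only [Idx, mem_Ico] at hi' ⊢
      exact ⟨hi'.1, hlt⟩
    exact (h1.mul_left _).trans (d0_base_dvd k)
  · exact dvd_mul_right _ _
  · intro i hi
    exact (Finset.dvd_prod_of_mem _ hi).mul_left _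
  · unfold Xx
    refine Nat.mul_pos (Nat.pow_pos (by omega)) (Finset.prod_pos fun i _ => ?_)
    unfold lam
    omega

end Pool.Agent.Lib.MP_fed790_nt.PX
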