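import Pool.Agent.Lib.MP_fed790_nt.PX.Defs3

/-! D1: primes of y^(2^t)+1 -/

open Finset MeasureTheory

namespace Pool.Agent.Lib.MP_fed790_nt.PX

/-- (Job PX D1) Proof.  `y ^ 2 ^ t + 1` is odd, so `q ≠ 2`.  In `ZMod q` (`Fact q.Prime`): `y ^ 2 ^ t = -1 ≠ 1`, `y ^ 2 ^ (t+1) = 1`, so
`orderOf (y : ZMod q) = 2 ^ (t+1)` (`orderOf_eq_prime_pow`), and `orderOf y ∣ q - 1` (`ZMod.orderOf_dvd_card_sub_one`). -/
theorem tD1 : S_D1 := by
  intro q y t hq hy hd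
  haveI : Fact q.Prime := ⟨hq⟩
  have hodd : ¬ 2 ∣ y ^ 2 ^ t + 1 := by
    intro h2
    have h3 : 2 ∣ y ^ 2 ^ t := dvd_pow hy (by positivity)
    omega
  have hq2 : q ≠ 2 := by
    rintro rfl
    exact hodd hd
  have h1 : ((y : ZMod q)) ^ 2 ^ t = -1 := by
    have h := (ZMod.natCast_eq_zero_iff (y ^ 2 ^ t + 1) q).2 hd
    push_cast at h
    exact eq_neg_of_add_eq_zero_left h
  have hne : (-1 : ZMod q) ≠ 1 := by
    haveI : Fact (2 < q) := ⟨lt_of_le_of_ne hq.two_le (Ne.symm hq2)⟩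
    exact ZMod.neg_one_ne_one
  have hord : orderOf (y : ZMod q) = 2 ^ (t + 1) := by
    apply orderOf_eq_prime_pow
    · rw [h1]; exact hne
    · rw [pow_succ, pow_mul, h1]; simp
  have hy0 : (y : ZMod q) ≠ 0 := by
    intro h0
    rw [h0, zero_pow (by positivity)] at h1
    exact one_ne_zero (by simpa using (congrArg (fun z => -z) h1).symm : (1 : ZMod q) = 0)
  rw [← hord]
  exact ZMod.orderOf_dvd_card_sub_one hy0

end Pool.Agent.Lib.MP_fed790_nt.PX
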