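import Pool.Agent.Lib.MP_fed790_nt.PX.Defs3

/-! D10: ell is a multiple of all products -/

open Finset MeasureTheory

namespace Pool.Agent.Lib.MP_fed790_nt.PX

private theorem d10_dvd {k : ℕ} (hk : 2 ≤ k) (c : ℕ → ZMod k) (i : ℕ) (b : ZMod k) :
    kap k c i b ∣ kst k i := by
  haveI : NeZero k := ⟨by omega⟩
  have h : jj k c i b ≤ k := (ZMod.val_lt _).le
  unfold kap kst
  exact mul_dvd_mul (mul_dvd_mul dvd_rfl (pow_dvd_pow _ h))
    (pow_dvd_pow _ (Nat.mul_le_mul_left _ (by omega)))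

private theorem d10_two {k : ℕ} (hD0 : S_D0) (hk : 2 ≤ k) {i : ℕ} (hi : i ∈ Idx k) :
    2 ≤ kst k i := by
  obtain ⟨-, -, -, -, -, -, hpos, -, hM, -⟩ := hD0 k hk
  have h1 : 0 < i := (hpos i hi).1
  have h2 : 1 ≤ (Mm k * i) ^ hh k := Nat.one_le_pow _ _ (Nat.mul_pos (by omega) h1)
  have h3 : 2 ≤ lam k i := by unfold lam; omega
  have h4 : 1 ≤ (Zz k i ^ k + 1) ^ k := Nat.one_le_pow _ _ (Nat.succ_pos _)
  have h5 : 1 ≤ (Zz k i + 1) ^ (k * k) := Nat.one_le_pow _ _ (Nat.succ_pos _)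
  unfold kst
  calc 2 = 2 * 1 * 1 := by norm_num
    _ ≤ lam k i * (Zz k i ^ k + 1) ^ k * (Zz k i + 1) ^ (k * k) :=
      Nat.mul_le_mul (Nat.mul_le_mul h3 h4) h5

/-- (Job PX D10) Proof.  The indices `i(x) = i₀ + (e x) J + (π x).1` (`(π x).1 < J`) are distinct elements of `Idx k = Ico i₀ (i₀ + En·J)`, and
`kap k c i b ∣ kst k i` (exponents: `jj ≤ k`, `k(k-1-jj) ≤ k·k`).  So the product divides `∏_{x} kst (i x)`, which divides
`∏_{i ∈ Idx} kst k i` (`Finset.prod_dvd_prod_of_subset` for the image).  Size: the complement of the image has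
`En (J - 1) ≥ h² - 1 ≥ h` elements, each with `kst ≥ 2`. -/
theorem tD10 (hD0 : S_D0) : S_D10 := by
  intro k hk c e π
  obtain ⟨hh1, -, -, -, hEn, -, -, -, -, -⟩ := hD0 k hk
  have hh2 : 2 ≤ hh k := by
    refine le_trans ?_ hh1
    calc 2 ≤ k := hk
      _ = k ^ 1 := (pow_one k).symm
      _ ≤ k ^ 140 := Nat.pow_le_pow_right (by omega) (by norm_num)
  obtain ⟨a, ha⟩ : ∃ a : Ed k (k ^ 14) → ℕ,
      ∀ x, a x = i₀ k + (e x : ℕ) * Jn k + ((π x).1 : ℕ) := ⟨_, fun x => rfl⟩
  have hinj : Function.Injective a := by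
    intro x y hxy
    have hx := (π x).1.isLt
    have hy := (π y).1.isLt
    have h1 : Jn k * (e x : ℕ) + ((π x).1 : ℕ) = Jn k * (e y : ℕ) + ((π y).1 : ℕ) := by
      rw [ha, ha, Nat.add_assoc, Nat.add_assoc, Nat.mul_comm (e x : ℕ), Nat.mul_comm (e y : ℕ)]
        at hxy
      exact Nat.add_left_cancel hxy
    have hJ : 0 < Jn k := by omega
    have h2 : (e x : ℕ) = e y := by
      have h3 := congrArg (fun z => z / Jn k) h1
      simp only [Nat.mul_add_div hJ, Nat.div_eq_of_lt hx, Nat.div_eq_of_lt hy,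
        Nat.add_zero] at h3
      exact h3
    exact e.injective (Fin.ext h2)
  have hmem : ∀ x, a x ∈ Idx k := by
    intro x
    have hx := (π x).1.isLt
    have h1 : ((e x : ℕ) + 1) * Jn k ≤ En k * Jn k := Nat.mul_le_mul_right _ (e x).isLt
    have h2 : ((e x : ℕ) + 1) * Jn k = (e x : ℕ) * Jn k + Jn k := by ring
    unfold Idx nn
    rw [Finset.mem_Ico, ha]
    constructor
    · omega
    · omega
  have hsub : Finset.univ.image a ⊆ Idx k := by
    intro i hi
    obtain ⟨x, -, rfl⟩ := Finset.mem_image.1 hi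
    exact hmem x
  have hprod : ∏ x, kst k (a x) = ∏ i ∈ Finset.univ.image a, kst k i :=
    (Finset.prod_image (fun x _ y _ h => hinj h)).symm
  have hd1 : (∏ x, kap k c (a x) (π x).2) ∣ ∏ x, kst k (a x) :=
    Finset.prod_dvd_prod_of_dvd _ _ (fun x _ => d10_dvd hk c _ _)
  have hd2 : ∏ x, kst k (a x) ∣ ellk k := by
    rw [hprod]
    exact Finset.prod_dvd_prod_of_subset _ _ _ hsub
  have hle : (∏ x, kap k c (a x) (π x).2) ≤ ∏ x, kst k (a x) :=
    Nat.le_of_dvd (Finset.prod_pos fun x _ => by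
      have := d10_two hD0 hk (hmem x)
      omega) hd1
  have hsplit : (∏ i ∈ Idx k \ Finset.univ.image a, kst k i) *
      ∏ i ∈ Finset.univ.image a, kst k i = ellk k := Finset.prod_sdiff hsub
  have hcard : hh k ≤ (Idx k \ Finset.univ.image a).card := by
    rw [Finset.card_sdiff_of_subset hsub, Finset.card_image_of_injective _ hinj,
      Finset.card_univ]
    have h1 : (Idx k).card = nn k := by
      unfold Idx
      rw [Nat.card_Ico]
      omega
    have h2 : Fintype.card (Ed k (k ^ 14)) = En k := rfl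
    have h3 : hh k + En k ≤ nn k := by
      unfold nn Jn
      calc hh k + En k ≤ En k * hh k + En k * hh k := by
            have h4 : hh k ≤ En k * hh k := Nat.le_mul_of_pos_left _ hEn
            have h5 : En k ≤ En k * hh k := Nat.le_mul_of_pos_right _ (by omega)
            omega
        _ = En k * (2 * hh k) := by ring
        _ ≤ En k * hh k ^ 2 := by
            rw [pow_two]
            exact Nat.mul_le_mul_left _ (Nat.mul_le_mul_right _ hh2)
    rw [h1, h2]
    omega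
  have hpow : 2 ^ hh k ≤ ∏ i ∈ Idx k \ Finset.univ.image a, kst k i := by
    calc 2 ^ hh k ≤ 2 ^ (Idx k \ Finset.univ.image a).card :=
          Nat.pow_le_pow_right (by norm_num) hcard
      _ = ∏ _i ∈ Idx k \ Finset.univ.image a, 2 := (Finset.prod_const 2).symm
      _ ≤ ∏ i ∈ Idx k \ Finset.univ.image a, kst k i :=
          Finset.prod_le_prod (fun _ _ => Nat.zero_le _)
            (fun i hi => d10_two hD0 hk (Finset.mem_sdiff.1 hi).1)
  simp only [← ha]
  refine ⟨hd1.trans hd2, ?_⟩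
  calc (∏ x, kap k c (a x) (π x).2) * 2 ^ hh k
      ≤ (∏ x, kst k (a x)) * ∏ i ∈ Idx k \ Finset.univ.image a, kst k i :=
        Nat.mul_le_mul hle hpow
    _ = ellk k := by rw [hprod, Nat.mul_comm, hsplit]

end Pool.Agent.Lib.MP_fed790_nt.PX
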