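import Pool.Agent.Lib.MP_fed790_nt.PX.Defs3

/-! D11: upper and lower bounds for the sizes -/

open Finset MeasureTheory

namespace Pool.Agent.Lib.MP_fed790_nt.PX

private theorem d11_prod_le {ι : Type} (s : Finset ι) (f : ι → ℕ) (e n : ℕ)
    (h : ∀ i ∈ s, f i ≤ 2 ^ e) (hn : s.card ≤ n) : ∏ i ∈ s, f i ≤ 2 ^ (e * n) := by
  calc ∏ i ∈ s, f i ≤ ∏ _i ∈ s, 2 ^ e := Finset.prod_le_prod' h
    _ = (2 ^ e) ^ s.card := by rw [Finset.prod_const]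
    _ = 2 ^ (e * s.card) := by rw [pow_mul]
    _ ≤ 2 ^ (e * n) := Nat.pow_le_pow_right (by norm_num) (Nat.mul_le_mul_left _ hn)

private theorem d11_add_one {a e : ℕ} (h : a ≤ 2 ^ e) : a + 1 ≤ 2 ^ (e + 1) := by
  have : 1 ≤ 2 ^ e := Nat.one_le_two_pow
  rw [pow_succ]
  omega

private theorem d11_pow {a e : ℕ} (h : a ≤ 2 ^ e) (n : ℕ) : a ^ n ≤ 2 ^ (e * n) := by
  rw [pow_mul]
  exact Nat.pow_le_pow_left h n

private theorem d11_mul {a b e f : ℕ} (h : a ≤ 2 ^ e) (h' : b ≤ 2 ^ f) : a * b ≤ 2 ^ (e + f) := by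
  rw [pow_add]
  exact Nat.mul_le_mul h h'

private theorem d11_mono {a e f : ℕ} (h : a ≤ 2 ^ e) (h' : e ≤ f) : a ≤ 2 ^ f :=
  h.trans (Nat.pow_le_pow_right (by norm_num) h')

/-- (Job PX D11) Proof.  All in powers of two; `h = 2^t`, `t = tt k ≤ 140k`, `k¹⁴⁰ ≤ h`, so `2h⁵ = 2^(1+5t)` and `(1+5t)·2k ≤ h`.
`i^(2hk) ≤ (2h⁵)^(2hk) ≤ 2^(h²)`; `Del ≤ 2^(h²·nn²) ≤ 2^(h⁸)`; `(h²)! ≤ (h²)^(h²) = 2^(2t h²) ≤ 2^(h³)`;
`Mm ≤ 2^(h(h³+h⁸)) ≤ 2^(h¹⁰)`; `λ_i ≤ 2^(1 + h(h¹⁰+1+5t)) ≤ 2^(h¹²)`; `X ≤ 2^(4h·h¹⁰ + h³·h¹²) ≤ 2^(h¹⁶)`;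
`Z_i ≤ 2^(h(h¹⁶+1+5t)) ≤ 2^(h¹⁸)`; `kst ≤ 2^(h¹² + k(k h¹⁸+1) + k²(h¹⁸+1)) ≤ 2^(h¹⁹)`; `ellk ≤ 2^(h³·h¹⁹) = 2^(h²²)`;
`Mm^(k+2)((2k+1)ell+1) ≤ 2^((k+2)h¹⁰ + (2k+2) + h²²) ≤ 2^(h²³)`.  Lower bounds: `kst k i ≥ Kk` for `i ∈ Idx`
(monotone in `i`; exponents `≥`), `nn ≥ h² ≥ 10`, so `Kk¹⁰ ≤ Kk^nn ≤ ellk`.  `Xx ≤ Zz k i₀ ≤ Kk`.  `Mm = (≥2)^h`. -/
theorem tD11 (hD0 : S_D0) : S_D11 := by
  intro k hk
  obtain ⟨q1, -, q3, -, q5, q6, q7, q8, q9, -, -, -, -, q14, -, q16⟩ := hD0 k hk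
  have hht : hh k = 2 ^ tt k := rfl
  -- numerical facts
  have n1 : 5000 * k ^ 2 ≤ hh k := by
    calc 5000 * k ^ 2 ≤ 2 ^ 138 * k ^ 2 := Nat.mul_le_mul_right _ (by norm_num)
      _ ≤ k ^ 138 * k ^ 2 := Nat.mul_le_mul_right _ (Nat.pow_le_pow_left hk _)
      _ = k ^ 140 := by rw [← pow_add]
      _ ≤ hh k := q1
  have hk2 : k ≤ k ^ 2 := by nlinarith
  have hk4 : 4 ≤ k ^ 2 := by nlinarith
  have n2 : (1 + 5 * tt k) * (2 * k) ≤ hh k := by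
    have : 1 + 5 * tt k ≤ 701 * k := by omega
    calc (1 + 5 * tt k) * (2 * k) ≤ 701 * k * (2 * k) := Nat.mul_le_mul_right _ this
      _ = 1402 * k ^ 2 := by ring
      _ ≤ hh k := by omega
  have n3 : 1 + 5 * tt k ≤ hh k := by
    calc 1 + 5 * tt k ≤ (1 + 5 * tt k) * (2 * k) := Nat.le_mul_of_pos_right _ (by omega)
      _ ≤ hh k := n2
  have n4 : 2 * tt k ≤ hh k := by omega
  have n5 : 20000 ≤ hh k := by omega
  set h := hh k with hh0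
  have hpos : 1 ≤ h := by omega
  have pw : ∀ a b : ℕ, a ≤ b → h ^ a ≤ h ^ b := fun a b hab => Nat.pow_le_pow_right hpos hab
  have pp : ∀ a : ℕ, 1 ≤ h ^ a := fun a => Nat.one_le_pow _ _ hpos
  have ps : ∀ a : ℕ, 20000 * h ^ a ≤ h ^ (a + 1) := fun a => by
    rw [pow_succ, mul_comm]
    exact Nat.mul_le_mul_left _ n5
  -- indices
  have hi : ∀ i ∈ Idx k, i ≤ 2 ^ (1 + 5 * tt k) := by
    intro i hi
    have h1 : 2 ^ (1 + 5 * tt k) = 2 * h ^ 5 := by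
      rw [pow_add, pow_one, hht, ← pow_mul, mul_comm 5 (tt k)]
    rw [h1]
    exact (q7 i hi).2
  have hcard : (Idx k).card = nn k := by
    unfold Idx
    rw [Nat.card_Ico]
    omega
  have hi0 : i₀ k ∈ Idx k := by
    unfold Idx
    rw [Finset.mem_Ico]
    have h2 : 0 < nn k := by
      unfold nn Jn
      positivity
    omega
  -- Del
  have hfac : ∀ i ∈ Idx k, i ^ (2 * hh k * k) ≤ 2 ^ (h ^ 2) := by
    intro i hii
    refine d11_mono (d11_pow (hi i hii) _) ?_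
    calc (1 + 5 * tt k) * (2 * hh k * k) = ((1 + 5 * tt k) * (2 * k)) * h := by
          rw [← hh0]; ring
      _ ≤ h * h := Nat.mul_le_mul_right _ n2
      _ = h ^ 2 := by ring
  have hDel : Del k ≤ 2 ^ (h ^ 8) := by
    have h1 : Del k ≤ 2 ^ (h ^ 2 * nn k * nn k) := by
      unfold Del
      refine d11_prod_le _ _ _ _ ?_ hcard.le
      intro i hii
      refine d11_prod_le _ _ _ _ ?_ ?_
      · intro i' _
        exact (Nat.sub_le _ _).trans (hfac i hii)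
      · rw [Nat.card_Ico]
        unfold Idx at hii
        rw [Finset.mem_Ico] at hii
        omega
    refine d11_mono h1 ?_
    calc h ^ 2 * nn k * nn k ≤ h ^ 2 * h ^ 3 * h ^ 3 :=
          Nat.mul_le_mul (Nat.mul_le_mul_left _ q6) q6
      _ = h ^ 8 := by ring
  have hfact : (h ^ 2).factorial ≤ 2 ^ (h ^ 3) := by
    have h1 : h ^ 2 ≤ 2 ^ (2 * tt k) := by
      rw [hht, ← pow_mul, mul_comm]
    refine (Nat.factorial_le_pow (h ^ 2)).trans ?_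
    refine d11_mono (d11_pow h1 _) ?_
    calc 2 * tt k * h ^ 2 ≤ h * h ^ 2 := Nat.mul_le_mul_right _ n4
      _ = h ^ 3 := by ring
  have hMm : Mm k ≤ 2 ^ (h ^ 10) := by
    unfold Mm
    rw [← hh0]
    refine d11_mono (d11_pow (d11_mul hfact hDel) _) ?_
    have e1 := pw 3 8 (by norm_num)
    have e2 : 20000 * h ^ 9 ≤ h ^ 10 := ps 9
    calc (h ^ 3 + h ^ 8) * h ≤ (h ^ 8 + h ^ 8) * h := Nat.mul_le_mul_right _ (by omega)
      _ = 2 * h ^ 9 := by ring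
      _ ≤ h ^ 10 := by
        have := pp 9
        omega
  have hlam : ∀ i ∈ Idx k, lam k i ≤ 2 ^ (h ^ 12) := by
    intro i hii
    unfold lam
    rw [add_comm]
    refine d11_mono (d11_add_one (d11_pow (d11_mul hMm (hi i hii)) _)) ?_
    rw [← hh0]
    have e1 : 1 + 5 * tt k ≤ h ^ 10 := n3.trans (by
      calc h = h ^ 1 := (pow_one h).symm
        _ ≤ h ^ 10 := pw 1 10 (by norm_num))
    have e2 : 20000 * h ^ 11 ≤ h ^ 12 := ps 11
    have e3 := pp 11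
    calc (h ^ 10 + (1 + 5 * tt k)) * h + 1 ≤ (h ^ 10 + h ^ 10) * h + 1 := by
          have := Nat.mul_le_mul_right h (Nat.add_le_add_left e1 (h ^ 10))
          omega
      _ = 2 * h ^ 11 + 1 := by ring
      _ ≤ h ^ 12 := by omega
  have hXx : Xx k ≤ 2 ^ (h ^ 16) := by
    unfold Xx
    refine d11_mono (d11_mul (d11_pow hMm _) (d11_prod_le _ _ _ _ hlam hcard.le)) ?_
    rw [← hh0]
    have e2 : 20000 * h ^ 15 ≤ h ^ 16 := ps 15
    have e3 := pw 11 15 (by norm_num)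
    have e4 : h ^ 12 * nn k ≤ h ^ 15 := by
      calc h ^ 12 * nn k ≤ h ^ 12 * h ^ 3 := Nat.mul_le_mul_left _ q6
        _ = h ^ 15 := by ring
    have e5 : h ^ 10 * (4 * h) = 4 * h ^ 11 := by ring
    rw [e5]
    omega
  have hZz : ∀ i ∈ Idx k, Zz k i ≤ 2 ^ (h ^ 18) := by
    intro i hii
    unfold Zz
    refine d11_mono (d11_pow (d11_mul hXx (hi i hii)) _) ?_
    rw [← hh0]
    have e1 : 1 + 5 * tt k ≤ h ^ 16 := n3.trans (by
      calc h = h ^ 1 := (pow_one h).symm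
        _ ≤ h ^ 16 := pw 1 16 (by norm_num))
    have e2 : 20000 * h ^ 17 ≤ h ^ 18 := ps 17
    have e3 := pp 17
    calc (h ^ 16 + (1 + 5 * tt k)) * h ≤ (h ^ 16 + h ^ 16) * h :=
          Nat.mul_le_mul_right h (Nat.add_le_add_left e1 (h ^ 16))
      _ = 2 * h ^ 17 := by ring
      _ ≤ h ^ 18 := by omega
  have hZk : ∀ i ∈ Idx k, Zz k i ^ k + 1 ≤ 2 ^ (h ^ 18 * k + 1) := by
    intro i hii
    exact d11_add_one (d11_pow (hZz i hii) k)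
  have e19 : (4 * k ^ 2 + 1) * h ^ 18 ≤ h ^ 19 := by
    calc (4 * k ^ 2 + 1) * h ^ 18 ≤ h * h ^ 18 := Nat.mul_le_mul_right _ (by omega)
      _ = h ^ 19 := by ring
  have hkst : ∀ i ∈ Idx k, kst k i ≤ 2 ^ (h ^ 19) := by
    intro i hii
    unfold kst
    refine d11_mono (d11_mul (d11_mul (hlam i hii) (d11_pow (hZk i hii) k))
      (d11_pow (d11_add_one (hZz i hii)) (k * k))) ?_
    refine le_trans ?_ e19
    have e1 := pw 12 18 (by norm_num)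
    have e2 := pp 18
    have e3 : (h ^ 18 * k + 1) * k ≤ 2 * k ^ 2 * h ^ 18 := by
      have : k * 1 ≤ k ^ 2 * h ^ 18 := Nat.mul_le_mul hk2 e2
      calc (h ^ 18 * k + 1) * k = k ^ 2 * h ^ 18 + k * 1 := by ring
        _ ≤ k ^ 2 * h ^ 18 + k ^ 2 * h ^ 18 := Nat.add_le_add_left this _
        _ = 2 * k ^ 2 * h ^ 18 := by ring
    have e4 : (h ^ 18 + 1) * (k * k) ≤ 2 * k ^ 2 * h ^ 18 := by
      calc (h ^ 18 + 1) * (k * k) ≤ (h ^ 18 + h ^ 18) * (k * k) :=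
            Nat.mul_le_mul_right _ (Nat.add_le_add_left e2 _)
        _ = 2 * k ^ 2 * h ^ 18 := by ring
    have e5 : (4 * k ^ 2 + 1) * h ^ 18 = 2 * k ^ 2 * h ^ 18 + 2 * k ^ 2 * h ^ 18 + h ^ 18 := by
      ring
    rw [e5]
    omega
  have hell : ellk k ≤ 2 ^ (h ^ 22) := by
    unfold ellk
    refine d11_mono (d11_prod_le _ _ _ _ hkst hcard.le) ?_
    calc h ^ 19 * nn k ≤ h ^ 19 * h ^ 3 := Nat.mul_le_mul_left _ q6
      _ = h ^ 22 := by ring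
  -- lower bounds
  have hXpos : 1 ≤ Xx k := q16
  have hi0pos : 1 ≤ i₀ k := (q7 _ hi0).1
  have hZ0 : Xx k ≤ Zz k (i₀ k) := by
    unfold Zz
    rw [← hh0]
    calc Xx k ≤ Xx k * i₀ k := Nat.le_mul_of_pos_right _ hi0pos
      _ ≤ (Xx k * i₀ k) ^ h := Nat.le_self_pow (by omega) _
  have hZ0pos : 1 ≤ Zz k (i₀ k) := hXpos.trans hZ0
  have hkk : 1 ≤ k * (k - 1) := by
    have : 1 ≤ k - 1 := by omega
    exact Nat.mul_le_mul (by omega : 1 ≤ k) this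
  have hlampos : ∀ i, 1 ≤ lam k i := fun i => by unfold lam; omega
  have hKZ : Zz k (i₀ k) ≤ Kk k := by
    unfold Kk
    calc Zz k (i₀ k) ≤ Zz k (i₀ k) ^ (k * (k - 1)) := Nat.le_self_pow (by omega) _
      _ ≤ lam k (i₀ k) * Zz k (i₀ k) ^ (k * (k - 1)) := Nat.le_mul_of_pos_left _ (hlampos _)
  have hKpos : 1 ≤ Kk k := hZ0pos.trans hKZ
  have hKkst : ∀ i ∈ Idx k, Kk k ≤ kst k i := by
    intro i hii
    have hle : i₀ k ≤ i := by
      unfold Idx at hii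
      exact (Finset.mem_Ico.1 hii).1
    have l1 : lam k (i₀ k) ≤ lam k i := by
      unfold lam
      exact Nat.add_le_add_left (Nat.pow_le_pow_left (Nat.mul_le_mul_left _ hle) _) _
    have l2 : Zz k (i₀ k) ≤ Zz k i := by
      unfold Zz
      exact Nat.pow_le_pow_left (Nat.mul_le_mul_left _ hle) _
    have l3 : Zz k (i₀ k) ^ (k * (k - 1)) ≤ (Zz k i + 1) ^ (k * k) := by
      calc Zz k (i₀ k) ^ (k * (k - 1)) ≤ (Zz k i + 1) ^ (k * (k - 1)) :=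
            Nat.pow_le_pow_left (by omega) _
        _ ≤ (Zz k i + 1) ^ (k * k) :=
            Nat.pow_le_pow_right (by omega) (Nat.mul_le_mul_left _ (by omega))
    unfold Kk kst
    calc lam k (i₀ k) * Zz k (i₀ k) ^ (k * (k - 1)) ≤ lam k i * (Zz k i + 1) ^ (k * k) :=
          Nat.mul_le_mul l1 l3
      _ ≤ lam k i * (Zz k i ^ k + 1) ^ k * (Zz k i + 1) ^ (k * k) := by
          refine Nat.mul_le_mul_right _ ?_
          exact Nat.le_mul_of_pos_right _ (by positivity)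
  have hnn : 10 ≤ nn k := by
    unfold nn Jn
    rw [← hh0]
    have : 10 ≤ h ^ 2 := by nlinarith
    exact this.trans (Nat.le_mul_of_pos_left _ q5)
  have hK10 : Kk k ^ 10 ≤ ellk k := by
    calc Kk k ^ 10 ≤ Kk k ^ nn k := Nat.pow_le_pow_right hKpos hnn
      _ = ∏ _i ∈ Idx k, Kk k := by rw [Finset.prod_const, hcard]
      _ ≤ ellk k := Finset.prod_le_prod' hKkst
  have hMlow : 2 ^ h ≤ Mm k := by
    unfold Mm
    rw [← hh0]
    refine Nat.pow_le_pow_left ?_ _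
    have f1 : 2 ≤ (h ^ 2).factorial := by
      have : 2 ≤ h ^ 2 := by nlinarith
      calc 2 = Nat.factorial 2 := rfl
        _ ≤ (h ^ 2).factorial := Nat.factorial_le this
    exact f1.trans (Nat.le_mul_of_pos_right _ q8)
  refine ⟨hMm, hell, ?_, hK10, Nat.le_of_dvd q16 q14, hZ0.trans hKZ, hMlow, ?_, ?_⟩
  · have g1 : (2 * k + 1) * ellk k + 1 ≤ 2 ^ (2 * k + 2 + h ^ 22) := by
      have g2 : 2 * k + 2 ≤ 2 ^ (2 * k + 2) := Nat.lt_two_pow_self.le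
      calc (2 * k + 1) * ellk k + 1 ≤ (2 * k + 1) * 2 ^ (h ^ 22) + 2 ^ (h ^ 22) :=
            Nat.add_le_add (Nat.mul_le_mul_left _ hell) Nat.one_le_two_pow
        _ = (2 * k + 2) * 2 ^ (h ^ 22) := by ring
        _ ≤ 2 ^ (2 * k + 2) * 2 ^ (h ^ 22) := Nat.mul_le_mul_right _ g2
        _ = 2 ^ (2 * k + 2 + h ^ 22) := (pow_add _ _ _).symm
    refine d11_mono (d11_mul (d11_pow hMm _) g1) ?_
    have e1 : h ^ 10 * (k + 2) ≤ h ^ 22 := by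
      calc h ^ 10 * (k + 2) ≤ h ^ 10 * h := Nat.mul_le_mul_left _ (by omega)
        _ = h ^ 11 := by ring
        _ ≤ h ^ 22 := pw 11 22 (by norm_num)
    have e2 : 2 * k + 2 ≤ h ^ 22 := by
      calc 2 * k + 2 ≤ h := by omega
        _ = h ^ 1 := (pow_one h).symm
        _ ≤ h ^ 22 := pw 1 22 (by norm_num)
    have e3 : 20000 * h ^ 22 ≤ h ^ 23 := ps 22
    have e4 := pp 22
    omega
  · intro i hii
    refine d11_mono (hZk i hii) ?_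
    have e1 := pp 18
    have e2 : h ^ 18 * k + 1 ≤ (4 * k ^ 2 + 1) * h ^ 18 := by
      calc h ^ 18 * k + 1 ≤ h ^ 18 * k ^ 2 + h ^ 18 :=
            Nat.add_le_add (Nat.mul_le_mul_left _ hk2) e1
        _ ≤ h ^ 18 * (4 * k ^ 2) + h ^ 18 :=
            Nat.add_le_add_right (Nat.mul_le_mul_left _ (by omega)) _
        _ = (4 * k ^ 2 + 1) * h ^ 18 := by ring
    exact e2.trans (e19.trans (pw 19 22 (by norm_num)))
  · intro i hii
    exact d11_mono (hkst i hii) (pw 19 22 (by norm_num))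

end Pool.Agent.Lib.MP_fed790_nt.PX
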