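import Pool.Agent.Lib.MP_fed790_nt.PX.Defs3

/-! D12: numerical conditions -/

open Finset MeasureTheory

namespace Pool.Agent.Lib.MP_fed790_nt.PX

private theorem d12_kpow {k h : ℝ} (hk : 2 ≤ k) (hkh : k ^ 140 ≤ h) (j : ℕ) (hj : j ≤ 140) :
    k ^ j ≤ h :=
  (pow_le_pow_right₀ (by linarith) hj).trans hkh

private theorem d12_h {k h : ℝ} (hk : 2 ≤ k) (hkh : k ^ 140 ≤ h) : 10 ^ 6 ≤ h := by
  have h1 : (2 : ℝ) ^ 20 ≤ k ^ 20 := pow_le_pow_left₀ (by norm_num) hk 20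
  have h2 := d12_kpow hk hkh 20 (by norm_num)
  have h3 : (10 : ℝ) ^ 6 ≤ 2 ^ 20 := by norm_num
  linarith

private theorem d12_one {k h K ell : ℝ} (hk : 2 ≤ k) (hkh : k ^ 140 ≤ h) (hK : h ^ 2 ≤ K)
    (hell : K ^ 10 ≤ ell) : 8 * K ^ 3 * k ^ 13 * (1 + 4 * h ^ 5) < ell := by
  have hh := d12_h hk hkh
  have h0 : 0 < h := by linarith
  have hK0 : 0 < K := lt_of_lt_of_le (by positivity) hK
  have hhK : h < K := by nlinarith
  have k13 := d12_kpow hk hkh 13 (by norm_num)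
  have e1 : 1 + 4 * h ^ 5 ≤ 5 * h ^ 5 := by
    have : 1 ≤ h ^ 5 := one_le_pow₀ (by linarith)
    linarith
  have e2 : 8 * K ^ 3 * k ^ 13 * (1 + 4 * h ^ 5) ≤ 8 * K ^ 3 * h * (5 * h ^ 5) := by
    have : 0 ≤ k ^ 13 := by positivity
    gcongr
  have e3 : 8 * K ^ 3 * h * (5 * h ^ 5) ≤ K ^ 3 * h ^ 7 := by
    have : 40 * h ^ 6 ≤ h ^ 7 := by
      have : h ^ 7 = h * h ^ 6 := by ring
      rw [this]
      have : 0 ≤ h ^ 6 := by positivity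
      nlinarith
    have h3 : 0 ≤ K ^ 3 := by positivity
    nlinarith [mul_le_mul_of_nonneg_left this h3]
  have e4 : K ^ 3 * h ^ 7 < K ^ 3 * K ^ 7 := by
    have : h ^ 7 < K ^ 7 := pow_lt_pow_left₀ hhK h0.le (by norm_num)
    have h3 : 0 < K ^ 3 := by positivity
    exact mul_lt_mul_of_pos_left this h3
  have e5 : K ^ 3 * K ^ 7 = K ^ 10 := by ring
  linarith

private theorem d12_two {k h m K ell : ℝ} (hk : 2 ≤ k) (hkh : k ^ 140 ≤ h) (hm : 0 ≤ m)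
    (hmK : m ≤ K) (hK : h ^ 2 ≤ K) (hell : K ^ 10 ≤ ell) :
    256 * m * K ^ 3 * k ^ 13 * (4 * h ^ 5) < ell := by
  have hh := d12_h hk hkh
  have h0 : 0 < h := by linarith
  have hK0 : 0 < K := lt_of_lt_of_le (by positivity) hK
  have hhK : h < K := by nlinarith
  have hK1 : 1 ≤ K := by linarith
  have k13 := d12_kpow hk hkh 13 (by norm_num)
  have e2 : 256 * m * K ^ 3 * k ^ 13 * (4 * h ^ 5) ≤ 256 * K * K ^ 3 * h * (4 * h ^ 5) := by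
    have : 0 ≤ k ^ 13 := by positivity
    gcongr
  have e3 : 256 * K * K ^ 3 * h * (4 * h ^ 5) ≤ K ^ 4 * h ^ 7 := by
    have h1 : 1024 * h ^ 6 ≤ h ^ 7 := by
      have : h ^ 7 = h * h ^ 6 := by ring
      rw [this]
      have : 0 ≤ h ^ 6 := by positivity
      nlinarith
    have h3 : 0 ≤ K ^ 4 := by positivity
    have h4 := mul_le_mul_of_nonneg_left h1 h3
    calc 256 * K * K ^ 3 * h * (4 * h ^ 5) = K ^ 4 * (1024 * h ^ 6) := by ring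
      _ ≤ K ^ 4 * h ^ 7 := h4
  have e4 : K ^ 4 * h ^ 7 ≤ K ^ 4 * K ^ 4 := by
    have h1 : h ^ 7 ≤ h ^ 8 := pow_le_pow_right₀ (by linarith) (by norm_num)
    have h2 : h ^ 8 = (h ^ 2) ^ 4 := by ring
    have h3 : (h ^ 2) ^ 4 ≤ K ^ 4 := pow_le_pow_left₀ (by positivity) hK 4
    have h5 : 0 ≤ K ^ 4 := by positivity
    exact mul_le_mul_of_nonneg_left (by linarith) h5
  have e5 : K ^ 4 * K ^ 4 < K ^ 10 := by
    have : K ^ 10 = K ^ 4 * K ^ 4 * K ^ 2 := by ring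
    rw [this]
    have h1 : 0 < K ^ 4 * K ^ 4 := by positivity
    have h2 : 1 < K ^ 2 := by nlinarith
    nlinarith
  linarith

private theorem d12_inv {k h : ℝ} (hk : 2 ≤ k) (hkh : k ^ 140 ≤ h) :
    1 / h ^ 2 ≤ 1 / 10 * (1 / k ^ 14) := by
  have hh := d12_h hk hkh
  have h0 : 0 < h := by linarith
  have k14 := d12_kpow hk hkh 14 (by norm_num)
  have kp : 0 < k ^ 14 := by positivity
  rw [show 1 / 10 * (1 / k ^ 14) = 1 / (10 * k ^ 14) by field_simp]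
  apply one_div_le_one_div_of_le (by positivity)
  nlinarith

private theorem d12_three {k h m X K ell : ℝ} (hk : 2 ≤ k) (hkh : k ^ 140 ≤ h)
    (hm : h ^ 100 ≤ m) (hX : m ^ 2 ≤ X) (hXK : X ≤ K) (hell : K ^ 10 ≤ ell) :
    2 * (k ^ 5) ^ 2 * (1 / k ^ 26 + 1 / (4 * (k ^ 13) ^ 2)) +
      (k ^ 5) ^ 4 * (4 * k ^ 2 / X * (1 + 32 * Real.pi * k ^ 5 * k ^ 13 * (4 * h ^ 5))) ^ 2 *
        (4 * m * k ^ 13 * (4 * h ^ 5)) +
      2 ^ 10 * K ^ 8 * m ^ 2 * (k ^ 5) ^ 2 / ell ^ 2 ≤ 1 / k ^ 14 := by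
  have hh := d12_h hk hkh
  have h0 : 0 < h := by linarith
  have h1 : 1 ≤ h := by linarith
  have k0 : 0 < k := by linarith
  have hm0 : 0 < m := lt_of_lt_of_le (by positivity) hm
  have hX0 : 0 < X := lt_of_lt_of_le (by positivity) hX
  have hK0 : 0 < K := lt_of_lt_of_le hX0 hXK
  have hinv := d12_inv hk hkh
  -- first term
  have t1 : 2 * (k ^ 5) ^ 2 * (1 / k ^ 26 + 1 / (4 * (k ^ 13) ^ 2)) ≤ 5 / 8 * (1 / k ^ 14) := by
    have e : 2 * (k ^ 5) ^ 2 * (1 / k ^ 26 + 1 / (4 * (k ^ 13) ^ 2)) = 5 / 2 * (1 / k ^ 16) := by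
      field_simp
      norm_num
    rw [e]
    have e2 : 1 / k ^ 16 ≤ 1 / 4 * (1 / k ^ 14) := by
      rw [show 1 / 4 * (1 / k ^ 14) = 1 / (4 * k ^ 14) by field_simp]
      apply one_div_le_one_div_of_le (by positivity)
      have : k ^ 16 = k ^ 2 * k ^ 14 := by ring
      rw [this]
      have h2 : 4 ≤ k ^ 2 := by nlinarith
      have : 0 < k ^ 14 := by positivity
      nlinarith
    linarith
  -- second term
  have t2 : (k ^ 5) ^ 4 * (4 * k ^ 2 / X * (1 + 32 * Real.pi * k ^ 5 * k ^ 13 * (4 * h ^ 5))) ^ 2 *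
        (4 * m * k ^ 13 * (4 * h ^ 5)) ≤ 1 / 10 * (1 / k ^ 14) := by
    have k20 : (k ^ 5) ^ 4 ≤ h := by
      rw [← pow_mul]
      exact d12_kpow hk hkh 20 (by norm_num)
    have k13 := d12_kpow hk hkh 13 (by norm_num)
    have k18 : k ^ 5 * k ^ 13 ≤ h := by
      rw [← pow_add]
      exact d12_kpow hk hkh 18 (by norm_num)
    have k2 : 4 * k ^ 2 ≤ h := by
      have : 4 * k ^ 2 ≤ k ^ 2 * k ^ 2 := mul_le_mul_of_nonneg_right (by nlinarith) (sq_nonneg k)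
      have h4 := d12_kpow hk hkh 4 (by norm_num)
      have : k ^ 2 * k ^ 2 = k ^ 4 := by ring
      linarith
    have p1 : 1 + 32 * Real.pi * k ^ 5 * k ^ 13 * (4 * h ^ 5) ≤ h ^ 7 := by
      have hpi : Real.pi ≤ 4 := Real.pi_le_four
      have a1 : 32 * Real.pi * k ^ 5 * k ^ 13 * (4 * h ^ 5) ≤ 512 * h ^ 6 := by
        calc 32 * Real.pi * k ^ 5 * k ^ 13 * (4 * h ^ 5)
            = Real.pi * (k ^ 5 * k ^ 13) * (128 * h ^ 5) := by ring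
          _ ≤ 4 * h * (128 * h ^ 5) := by
            have : 0 ≤ k ^ 5 * k ^ 13 := by positivity
            gcongr
          _ = 512 * h ^ 6 := by ring
      have a2 : 1 ≤ h ^ 6 := one_le_pow₀ h1
      have a3 : h ^ 7 = h * h ^ 6 := by ring
      rw [a3]
      nlinarith
    have p1' : 0 ≤ 1 + 32 * Real.pi * k ^ 5 * k ^ 13 * (4 * h ^ 5) := by
      have := Real.pi_pos
      positivity
    have p2 : 4 * k ^ 2 / X * (1 + 32 * Real.pi * k ^ 5 * k ^ 13 * (4 * h ^ 5)) ≤ h ^ 8 / X := by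
      have : 4 * k ^ 2 / X ≤ h / X := by gcongr
      calc 4 * k ^ 2 / X * (1 + 32 * Real.pi * k ^ 5 * k ^ 13 * (4 * h ^ 5))
          ≤ h / X * h ^ 7 := by gcongr
        _ = h ^ 8 / X := by ring
    have p2' : 0 ≤ 4 * k ^ 2 / X * (1 + 32 * Real.pi * k ^ 5 * k ^ 13 * (4 * h ^ 5)) := by
      positivity
    have p3 : 4 * m * k ^ 13 * (4 * h ^ 5) ≤ m * h ^ 7 := by
      calc 4 * m * k ^ 13 * (4 * h ^ 5) ≤ 4 * m * h * (4 * h ^ 5) := by gcongr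
        _ = m * (16 * h ^ 6) := by ring
        _ ≤ m * h ^ 7 := by
          have : 16 * h ^ 6 ≤ h ^ 7 := by
            have a3 : h ^ 7 = h * h ^ 6 := by ring
            rw [a3]
            have : 0 ≤ h ^ 6 := by positivity
            nlinarith
          gcongr
    have p4 : (k ^ 5) ^ 4 * (4 * k ^ 2 / X * (1 + 32 * Real.pi * k ^ 5 * k ^ 13 * (4 * h ^ 5))) ^ 2 *
        (4 * m * k ^ 13 * (4 * h ^ 5)) ≤ h * (h ^ 8 / X) ^ 2 * (m * h ^ 7) := by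
      gcongr
    have p5 : h * (h ^ 8 / X) ^ 2 * (m * h ^ 7) = h ^ 24 * m / X ^ 2 := by
      field_simp
    have p6 : h ^ 24 * m / X ^ 2 ≤ 1 / h ^ 2 := by
      rw [div_le_div_iff₀ (by positivity) (by positivity)]
      have q1 : (m ^ 2) ^ 2 ≤ X ^ 2 := pow_le_pow_left₀ (by positivity) hX 2
      have q2 : h ^ 26 ≤ m := (pow_le_pow_right₀ h1 (by norm_num)).trans hm
      have q3 : h ^ 26 ≤ m ^ 3 := by
        have hm1 : 1 ≤ m := le_trans (one_le_pow₀ h1) hm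
        exact q2.trans (le_self_pow₀ hm1 (by norm_num))
      calc h ^ 24 * m * h ^ 2 = h ^ 26 * m := by ring
        _ ≤ m ^ 3 * m := by gcongr
        _ = (m ^ 2) ^ 2 := by ring
        _ ≤ 1 * X ^ 2 := by linarith
    calc _ ≤ h * (h ^ 8 / X) ^ 2 * (m * h ^ 7) := p4
      _ = h ^ 24 * m / X ^ 2 := p5
      _ ≤ 1 / h ^ 2 := p6
      _ ≤ _ := hinv
  -- third term
  have t3 : 2 ^ 10 * K ^ 8 * m ^ 2 * (k ^ 5) ^ 2 / ell ^ 2 ≤ 1 / 10 * (1 / k ^ 14) := by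
    have k10 : (k ^ 5) ^ 2 ≤ h := by
      rw [← pow_mul]
      exact d12_kpow hk hkh 10 (by norm_num)
    have hell0 : 0 < ell := lt_of_lt_of_le (by positivity) hell
    have hmK : m ^ 2 ≤ K := hX.trans hXK
    have hm1 : 1 ≤ m := le_trans (one_le_pow₀ h1) hm
    have hhK : h ^ 100 ≤ K := hm.trans ((le_self_pow₀ hm1 (by norm_num)).trans hmK)
    have r1 : 2 ^ 10 * K ^ 8 * m ^ 2 * (k ^ 5) ^ 2 / ell ^ 2 ≤ 2 ^ 10 * K ^ 8 * K * h / (K ^ 10) ^ 2 := by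
      gcongr
    have r2 : 2 ^ 10 * K ^ 8 * K * h / (K ^ 10) ^ 2 ≤ 1 / h ^ 2 := by
      rw [div_le_div_iff₀ (by positivity) (by positivity)]
      have q1 : h ^ 4 ≤ K := (pow_le_pow_right₀ h1 (by norm_num)).trans hhK
      have hK1 : 1 ≤ K := le_trans (one_le_pow₀ h1) hhK
      have q2 : 2 ^ 10 * h ^ 3 ≤ h ^ 4 := by
        have a3 : h ^ 4 = h * h ^ 3 := by ring
        rw [a3]
        have : 0 ≤ h ^ 3 := by positivity
        nlinarith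
      have q3 : K ≤ K ^ 11 := le_self_pow₀ hK1 (by norm_num)
      calc 2 ^ 10 * K ^ 8 * K * h * h ^ 2 = K ^ 9 * (2 ^ 10 * h ^ 3) := by ring
        _ ≤ K ^ 9 * K ^ 11 := by
          have : 2 ^ 10 * h ^ 3 ≤ K ^ 11 := by linarith
          gcongr
        _ = 1 * (K ^ 10) ^ 2 := by ring
    exact r1.trans (r2.trans hinv)
  have hpos : 0 < 1 / k ^ 14 := by positivity
  linarith

private theorem d12_four {k h P E : ℝ} (hk : 2 ≤ k) (hkh : k ^ 140 ≤ h) (hP : h ^ 100 ≤ P)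
    (hE0 : 0 ≤ E) (hE : E ≤ k ^ 30) :
    E ^ 2 * (2 * (1 / k ^ 70) + 2 / h ^ 2 + 2 * h ^ 23 / P) ≤ 1 / 4 := by
  have hh := d12_h hk hkh
  have h0 : 0 < h := by linarith
  have h1 : 1 ≤ h := by linarith
  have k0 : 0 < k := by linarith
  have hP0 : 0 < P := lt_of_lt_of_le (by positivity) hP
  have e1 : E ^ 2 ≤ k ^ 60 := by
    calc E ^ 2 ≤ (k ^ 30) ^ 2 := pow_le_pow_left₀ hE0 hE 2
      _ = k ^ 60 := by ring
  have k60 := d12_kpow hk hkh 60 (by norm_num)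
  have s0 : E ^ 2 * (2 * (1 / k ^ 70) + 2 / h ^ 2 + 2 * h ^ 23 / P) ≤
      k ^ 60 * (2 * (1 / k ^ 70) + 2 / h ^ 2 + 2 * h ^ 23 / P) := by
    have : 0 ≤ 2 * (1 / k ^ 70) + 2 / h ^ 2 + 2 * h ^ 23 / P := by positivity
    gcongr
  have s1 : k ^ 60 * (2 * (1 / k ^ 70)) ≤ 1 / 512 := by
    have e : k ^ 60 * (2 * (1 / k ^ 70)) = 2 / k ^ 10 := by
      field_simp
    rw [e, div_le_div_iff₀ (by positivity) (by norm_num)]
    have : (2 : ℝ) ^ 10 ≤ k ^ 10 := pow_le_pow_left₀ (by norm_num) hk 10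
    norm_num at this ⊢
    linarith
  have s2 : k ^ 60 * (2 / h ^ 2) ≤ 1 / 512 := by
    calc k ^ 60 * (2 / h ^ 2) ≤ h * (2 / h ^ 2) := by gcongr
      _ = 2 / h := by field_simp
      _ ≤ 1 / 512 := by
        rw [div_le_div_iff₀ h0 (by norm_num)]
        linarith
  have s3 : k ^ 60 * (2 * h ^ 23 / P) ≤ 1 / 512 := by
    have e : h ^ 25 ≤ P := (pow_le_pow_right₀ h1 (by norm_num)).trans hP
    calc k ^ 60 * (2 * h ^ 23 / P) ≤ h * (2 * h ^ 23 / h ^ 25) := by gcongr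
      _ = 2 / h := by field_simp
      _ ≤ 1 / 512 := by
        rw [div_le_div_iff₀ h0 (by norm_num)]
        linarith
  nlinarith

/-- (Job PX D12) Proof.  Write `h = hh k ≥ k¹⁴⁰ ≥ 2¹⁴⁰`, `m = Mm^(2h)`; `2^h ≤ Mm`, so `m ≥ 2^(2h²)`, `m² = Mm^(4h) ≤ Xx ≤ Kk`, `Kk¹⁰ ≤ ell`.
`2^h ≥ h¹⁰⁰` (as `h ≥ 2¹⁴⁰`; `h = 2^t` with `100 t ≤ 2^t`).  All polynomial quantities (`k¹³`, `i₀ = h⁵`, `Real.pi ≤ 4`, constants)
are at most `h⁷`, say.  (1),(2): `Kk⁷` is larger than `512 k¹³ · 4h⁵`-type factors.  (3): first term `= 2.5 k⁻¹⁶ ≤ 0.625 k⁻¹⁴`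
(`k ≥ 2`); second term `≤ h³⁰ m/X² ≤ h³⁰/m³ ≤ h⁻¹`-tiny, `≤ 0.1 k⁻¹⁴`; third term `≤ 2¹⁰ k¹⁰ Kk⁹/Kk²⁰ ≤ 0.1 k⁻¹⁴`.
(4): `En² ≤ k⁶⁰`: the three parts are `≤ 2k⁻¹⁰ ≤ 1/512`, `2k⁶⁰/h² ≤ 1/512`, `2h²³k⁶⁰/2^h ≤ 1/512`. -/
theorem tD12 (hD0 : S_D0) (hD11 : S_D11) : S_D12 := by
  intro k hk
  obtain ⟨a1, -, -, a4, -, -, -, -, a9, -⟩ := hD0 k hk
  obtain ⟨-, -, -, b4, b5, b6, b7, -, -⟩ := hD11 k hk
  -- `h ^ 100 ≤ 2 ^ h`
  have ht : hh k ^ 100 ≤ 2 ^ hh k := by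
    have t1 : 140 ≤ tt k := by
      unfold tt
      have : 1 ≤ Nat.clog 2 k := Nat.clog_pos (by norm_num) hk
      omega
    have t2 : 100 * tt k ≤ 2 ^ tt k := by
      have h1 : ∀ n : ℕ, 140 ≤ n → 100 * n ≤ 2 ^ n := by
        intro n hn
        induction n, hn using Nat.le_induction with
        | base => norm_num
        | succ n hn ih =>
          rw [pow_succ]
          omega
      exact h1 _ t1
    have e : hh k = 2 ^ tt k := rfl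
    calc hh k ^ 100 = 2 ^ (100 * tt k) := by rw [e, ← pow_mul, Nat.mul_comm]
      _ ≤ 2 ^ hh k := Nat.pow_le_pow_right (by norm_num) (by rw [e]; exact t2)
  have hhpos : 0 < hh k := by unfold hh; positivity
  have hm1 : Mm k ≤ Mm k ^ (2 * hh k) := Nat.le_self_pow (by omega) _
  have hm2 : hh k ^ 100 ≤ Mm k ^ (2 * hh k) := ht.trans (b7.trans hm1)
  have hm3 : (Mm k ^ (2 * hh k)) ^ 2 ≤ Xx k := by
    rw [← pow_mul, show 2 * hh k * 2 = 4 * hh k by ring]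
    exact b5
  -- casts
  have c1 : (k : ℝ) ^ 140 ≤ (hh k : ℝ) := by exact_mod_cast a1
  have c2 : (2 : ℝ) ≤ (k : ℝ) := by exact_mod_cast hk
  have c3 : (hh k : ℝ) ^ 100 ≤ ((Mm k ^ (2 * hh k) : ℕ) : ℝ) := by exact_mod_cast hm2
  have c4 : ((Mm k ^ (2 * hh k) : ℕ) : ℝ) ^ 2 ≤ (Xx k : ℝ) := by exact_mod_cast hm3
  have c5 : (Xx k : ℝ) ≤ (Kk k : ℝ) := by exact_mod_cast b6
  have c6 : (Kk k : ℝ) ^ 10 ≤ (ellk k : ℝ) := by exact_mod_cast b4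
  have c7 : (hh k : ℝ) ^ 100 ≤ ((2 ^ hh k : ℕ) : ℝ) := by exact_mod_cast ht
  have c8 : ((En k : ℕ) : ℝ) ≤ (k : ℝ) ^ 30 := by exact_mod_cast a4
  have hh6 := d12_h c2 c1
  have m1 : (1 : ℝ) ≤ ((Mm k ^ (2 * hh k) : ℕ) : ℝ) :=
    le_trans (one_le_pow₀ (by linarith)) c3
  have c9 : ((Mm k ^ (2 * hh k) : ℕ) : ℝ) ≤ (Kk k : ℝ) :=
    (le_self_pow₀ m1 (by norm_num)).trans (c4.trans c5)
  have c10 : (hh k : ℝ) ^ 2 ≤ (Kk k : ℝ) :=
    ((pow_le_pow_right₀ (by linarith) (by norm_num)).trans c3).trans c9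
  have i0 : ((4 * i₀ k : ℕ) : ℝ) = 4 * (hh k : ℝ) ^ 5 := by
    unfold i₀
    push_cast
    ring
  have hsq : ((hh k ^ 2 : ℕ) : ℝ) = (hh k : ℝ) ^ 2 := by push_cast; ring
  have h23 : ((hh k ^ 23 : ℕ) : ℝ) = (hh k : ℝ) ^ 23 := by push_cast; ring
  rw [i0, hsq, h23]
  refine ⟨?_, ?_, ?_, ?_⟩
  · exact d12_one c2 c1 c10 c6
  · exact d12_two c2 c1 (by linarith) c9 c10 c6
  · exact d12_three c2 c1 c3 c4 c5 c6
  · exact d12_four c2 c1 c7 (Nat.cast_nonneg _) c8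

end Pool.Agent.Lib.MP_fed790_nt.PX
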