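import Pool.Agent.Lib.MP_fed790_nt.PX.Defs3

/-! D13: assembly of the pool system -/

open Finset MeasureTheory

namespace Pool.Agent.Lib.MP_fed790_nt.PX

private lemma d13_mem (k : ℕ) (x : Fin (En k)) (j : Fin (Jn k)) :
    i₀ k + (x : ℕ) * Jn k + (j : ℕ) ∈ Idx k := by
  have hx := x.2
  have hj := j.2
  have h1 : (x : ℕ) * Jn k + (j : ℕ) < En k * Jn k := by
    calc (x : ℕ) * Jn k + (j : ℕ) < (x : ℕ) * Jn k + Jn k := by omega
      _ = ((x : ℕ) + 1) * Jn k := by ring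
      _ ≤ En k * Jn k := Nat.mul_le_mul_right _ hx
  rw [Idx, mem_Ico]
  constructor
  · omega
  · rw [nn]; omega

private lemma d13_lt {J x y i j : ℕ} (hi : i < J) (hxy : x < y) : x * J + i < y * J + j := by
  calc x * J + i < x * J + J := by omega
    _ = (x + 1) * J := by ring
    _ ≤ y * J := Nat.mul_le_mul_right _ hxy
    _ ≤ y * J + j := Nat.le_add_right _ _

private lemma d13_ne {J x y i j : ℕ} (a : ℕ) (hi : i < J) (hj : j < J) (hxy : x ≠ y) :
    a + x * J + i ≠ a + y * J + j := by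
  rcases lt_or_gt_of_ne hxy with h | h
  · have := d13_lt (j := j) hi h; omega
  · have := d13_lt (j := i) hj h; omega

private lemma d13_hpos (k : ℕ) : 0 < hh k := by rw [hh]; positivity

private lemma d13_i0pos (k : ℕ) : 0 < i₀ k := by
  rw [i₀]; exact pow_pos (d13_hpos k) 5

private lemma d13_sep (hD5 : S_D5) (k : ℕ) (hk : 2 ≤ k) (c : ℕ → ZMod k) {i i' : ℕ}
    (hi : i ∈ Idx k) (hi' : i' ∈ Idx k) (b b' : ZMod k)
    (h : 4 * i₀ k * ((kap k c i b : ℤ) - kap k c i' b').natAbs < Kk k) : i = i' := by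
  by_contra hne
  rcases lt_or_gt_of_ne hne with hlt | hlt
  · obtain ⟨h1, h2⟩ := hD5 k hk c i hi i' hi' hlt b b'
    have h3 : ((kap k c i b : ℤ) - kap k c i' b').natAbs = kap k c i' b' - kap k c i b := by omega
    rw [h3] at h
    exact absurd h2 (not_le.mpr h)
  · obtain ⟨h1, h2⟩ := hD5 k hk c i' hi' i hi hlt b' b
    have h3 : ((kap k c i b : ℤ) - kap k c i' b').natAbs = kap k c i b - kap k c i' b' := by omega
    rw [h3] at h
    exact absurd h2 (not_le.mpr h)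

private lemma d13_hsep (hD0 : S_D0) (hD5 : S_D5) (k : ℕ) [NeZero k] (hk : 2 ≤ k) (c : ℕ → ZMod k)
    (x : Fin (En k)) (p₀ : Fin (Jn k) × ZMod k) :
    (((univ.filter fun p : Fin (Jn k) × ZMod k =>
      4 * i₀ k * ((kap k c (i₀ k + (x : ℕ) * Jn k + (p.1 : ℕ)) p.2 : ℤ) -
        kap k c (i₀ k + (x : ℕ) * Jn k + (p₀.1 : ℕ)) p₀.2).natAbs < Kk k).card : ℕ) : ℝ) ≤
      1 / (k : ℝ) ^ 26 * Fintype.card (Fin (Jn k) × ZMod k) := by
  have hsub : (univ.filter fun p : Fin (Jn k) × ZMod k =>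
      4 * i₀ k * ((kap k c (i₀ k + (x : ℕ) * Jn k + (p.1 : ℕ)) p.2 : ℤ) -
        kap k c (i₀ k + (x : ℕ) * Jn k + (p₀.1 : ℕ)) p₀.2).natAbs < Kk k) ⊆
      (univ : Finset (ZMod k)).image (fun b => (p₀.1, b)) := by
    intro p hp
    rw [mem_filter] at hp
    have h1 := d13_sep hD5 k hk c (d13_mem k x p.1) (d13_mem k x p₀.1) p.2 p₀.2 hp.2
    rw [mem_image]
    refine ⟨p.2, mem_univ _, ?_⟩
    have h2 : p.1 = p₀.1 := Fin.ext (by omega)
    rw [← h2]
  have hcard : (univ.filter fun p : Fin (Jn k) × ZMod k =>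
      4 * i₀ k * ((kap k c (i₀ k + (x : ℕ) * Jn k + (p.1 : ℕ)) p.2 : ℤ) -
        kap k c (i₀ k + (x : ℕ) * Jn k + (p₀.1 : ℕ)) p₀.2).natAbs < Kk k).card ≤ k := by
    refine (card_le_card hsub).trans (card_image_le.trans ?_)
    rw [card_univ, ZMod.card]
  have hJ : k ^ 26 ≤ Jn k := by
    have h0 := (hD0 k hk).1
    have h1 : k ^ 26 ≤ k ^ 140 := Nat.pow_le_pow_right (by omega) (by norm_num)
    have h2 : hh k ≤ hh k ^ 2 := Nat.le_self_pow (by norm_num) _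
    rw [Jn]; omega
  have hJ' : ((k : ℝ)) ^ 26 ≤ (Jn k : ℝ) := by exact_mod_cast hJ
  have hkpos : (0 : ℝ) < (k : ℝ) ^ 26 := by positivity
  rw [Fintype.card_prod, Fintype.card_fin, ZMod.card]
  have h3 : (((univ.filter fun p : Fin (Jn k) × ZMod k =>
      4 * i₀ k * ((kap k c (i₀ k + (x : ℕ) * Jn k + (p.1 : ℕ)) p.2 : ℤ) -
        kap k c (i₀ k + (x : ℕ) * Jn k + (p₀.1 : ℕ)) p₀.2).natAbs < Kk k).card : ℕ) : ℝ) ≤ k := by
    exact_mod_cast hcard
  refine h3.trans ?_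
  rw [one_div, inv_mul_eq_div, le_div_iff₀ hkpos]
  push_cast
  nlinarith [Nat.cast_nonneg (α := ℝ) k]

private lemma d13_hcl (hD11 : S_D11) (hD8b : S_D8b) (k : ℕ) [NeZero k] (hp : k.Prime)
    (c : ℕ → ZMod k) (N : ℕ) (hb : Bad k c N) (hN : 2 ^ hh k ^ 22 ≤ N)
    (x : Fin (En k)) (q : ℕ) (hq : 0 < q) (hqM : ¬ q ∣ Mm k ^ (2 * hh k)) (a : ℤ) :
    (((univ.filter fun p : Fin (Jn k) × ZMod k =>
      (q : ℤ) ∣ (kap k c (i₀ k + (x : ℕ) * Jn k + (p.1 : ℕ)) p.2 : ℤ) - a).card : ℕ) : ℝ) ≤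
      1 / (k : ℝ) ^ 26 * Fintype.card (Fin (Jn k) × ZMod k) := by
  have hk : 2 ≤ k := hp.two_le
  have h11 := hD11 k hk
  have hZ : ∀ i ∈ Idx k, Zz k i ^ k + 1 ≤ N := fun i hi => (h11.2.2.2.2.2.2.2.1 i hi).trans hN
  have h := hD8b k hp c N hb hZ (x : ℕ) x.2 q hq hqM a
  have hkpos : (0 : ℝ) < (k : ℝ) ^ 26 := by
    have : (0 : ℝ) < k := by exact_mod_cast (by omega : 0 < k)
    positivity
  rw [Fintype.card_prod, Fintype.card_fin, ZMod.card, one_div, inv_mul_eq_div, le_div_iff₀ hkpos,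
    mul_comm]
  exact_mod_cast h

private lemma d13_K4 (hD0 : S_D0) (hD11 : S_D11) (k : ℕ) (hk : 2 ≤ k) :
    0 < Kk k ∧ 4 * Kk k ≤ ellk k := by
  obtain ⟨h1, h2, h3, h4, h5, h6, h7, h8, h9⟩ := hD11 k hk
  have hM : 2 ≤ Mm k := (hD0 k hk).2.2.2.2.2.2.2.2.1
  have hhp := d13_hpos k
  have hK2 : 2 ≤ Kk k := by
    calc 2 ≤ Mm k := hM
      _ ≤ Mm k ^ (4 * hh k) := Nat.le_self_pow (by omega) _
      _ ≤ Xx k := h5
      _ ≤ Kk k := h6
  refine ⟨by omega, ?_⟩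
  calc 4 * Kk k ≤ 2 ^ 9 * Kk k := Nat.mul_le_mul_right _ (by norm_num)
    _ ≤ Kk k ^ 9 * Kk k := Nat.mul_le_mul_right _ (Nat.pow_le_pow_left hK2 9)
    _ = Kk k ^ 10 := by ring
    _ ≤ ellk k := h4

private lemma d13_hW (k ell K : ℕ) (hK : 0 < K) :
    (2 * k + 1) * ell + K ≤ K * ((2 * k + 1) * ell / K + 2) := by
  have h := Nat.lt_mul_div_succ ((2 * k + 1) * ell) hK
  have h2 : K * ((2 * k + 1) * ell / K + 2) = K * ((2 * k + 1) * ell / K + 1) + K := by ring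
  rw [h2]
  omega

private lemma d13_hWL (k ell K : ℕ) (hk : 2 ≤ k) (h4 : 4 * K ≤ ell) :
    (2 : ℝ) * K * (((2 * k + 1) * ell / K + 2 : ℕ) : ℝ) ≤ (k : ℝ) ^ 5 * ell := by
  have h1 : K * ((2 * k + 1) * ell / K) ≤ (2 * k + 1) * ell := Nat.mul_div_le _ _
  have h2 : 2 * K * ((2 * k + 1) * ell / K + 2) ≤ k ^ 5 * ell := by
    have h5 : 4 * k + 3 ≤ k ^ 5 := by
      have : 16 * k ≤ k ^ 5 := by
        calc 16 * k = 2 ^ 4 * k := by norm_num
          _ ≤ k ^ 4 * k := Nat.mul_le_mul_right _ (Nat.pow_le_pow_left hk 4)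
          _ = k ^ 5 := by ring
      omega
    calc 2 * K * ((2 * k + 1) * ell / K + 2) = 2 * (K * ((2 * k + 1) * ell / K)) + 4 * K := by ring
      _ ≤ 2 * ((2 * k + 1) * ell) + ell := by omega
      _ = (4 * k + 3) * ell := by ring
      _ ≤ k ^ 5 * ell := Nat.mul_le_mul_right _ h5
  exact_mod_cast h2

private lemma d13_hM2 (hD0 : S_D0) (k : ℕ) (hk : 2 ≤ k) :
    Mm k ^ (k + 2) * Mm k ^ (2 * hh k) ∣ Xx k := by
  obtain ⟨a1, a2, a3, a4, a5, a6, a7, a8, a9, a10, a11, a12, a13, a14, a15, a16⟩ := hD0 k hk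
  refine dvd_trans ?_ a14
  rw [← pow_add]
  refine pow_dvd_pow _ ?_
  have h1 : k ^ 2 ≤ k ^ 140 := Nat.pow_le_pow_right (by omega) (by norm_num)
  have h2 : 2 * k ≤ k ^ 2 := by nlinarith
  omega

/-- (Job PX D13) Proof.  Take an equivalence `e : Ed k (k^14) ≃ Fin (En k)` (`Fintype.equivFin`), `κ x (j,b) = kap k c (i₀ k + e x * Jn k + j) b` (these
indices are in `Idx k`, and different for different `x`), `J = Jn k`, `M = Mm k`, `ell = ellk k`, `K = Kk k`, `X₀ = Xx k`,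
`M₂ = Mm k ^ (2 hh k)`, `I = 4 i₀ k`, `W = (2k+1)*ell/K + 2`, `B = hh k ^ 2`, `Y = 2 ^ hh k`, `Lg = hh k ^ 23`,
`ε = 1/k^26`, `A = k^13`, `L = k^5`, `η = 4k²/X₀ (1 + 32 π L A I)`, `S = 1/k^70`, `εC = 1/k^14`, `R = k^14`.
`hsep`: elements with different index are separated by D5, so the filter is contained in `{(j₀, b)}`, at most `k` elements, and
`k ≤ k⁻²⁶ J k`.  `hcl`: D8b.  `hWL`: `2KW ≤ 2(2k+1)ell + 4K ≤ (4k+3) ell ≤ k⁵ ell` (`4K ≤ ell` from D11).  `hC`, `hell1`, `hell2`,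
`hbad`: D12.  `hεC`: `2/k¹⁴ ≤ 1/(4k¹¹)` as `k³ ≥ 8`.  `hM₂`: `k + 2 + 2h ≤ 4h`.  `hX₀`: D6 (both `≡ λ_i`). -/
theorem tD13 (hD0 : S_D0) (hD2 : S_D2) (hD4 : S_D4) (hD5 : S_D5) (hD6 : S_D6) (hD7 : S_D7) (hD8b : S_D8b) (hD9 : S_D9) (hD10 : S_D10) (hD11 : S_D11) (hD12 : S_D12) : S_D13 := by
  intro k _ hp c N hb hN
  have hk : 2 ≤ k := hp.two_le
  have hk1 : 1 ≤ k := by omega
  have hkR : (1 : ℝ) ≤ k := by exact_mod_cast hk1
  have hkR2 : (2 : ℝ) ≤ k := by exact_mod_cast hk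
  have hkpos : (0 : ℝ) < k := by linarith
  let e : Ed k (k ^ 14) ≃ Fin (En k) := Fintype.equivFin _
  have hhp := d13_hpos k
  obtain ⟨hKp, hK4⟩ := d13_K4 hD0 hD11 k hk
  obtain ⟨a1, a2, a3, a4, a5, a6, a7, a8, a9, a10, a11, a12, a13, a14, a15, a16⟩ := hD0 k hk
  obtain ⟨b1, b2, b3, b4, b5, b6, b7, b8, b9⟩ := hD11 k hk
  obtain ⟨c1, c2, c3, c4⟩ := hD12 k hk
  have hbk : ∀ (x : Ed k (k ^ 14)) (p : Fin (Jn k) × ZMod k),
      Kk k ≤ kap k c (i₀ k + (e x : ℕ) * Jn k + (p.1 : ℕ)) p.2 ∧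
      kap k c (i₀ k + (e x : ℕ) * Jn k + (p.1 : ℕ)) p.2 ≤ 2 * Kk k := by
    intro x p
    obtain ⟨d1, d2, d3, d4⟩ := hD4 k hk c _ (d13_mem k (e x) p.1) p.2
    exact ⟨d3.trans d1, d2.trans d4⟩
  refine ⟨{ J := Jn k, M := Mm k, ell := ellk k, K := Kk k, X₀ := Xx k,
            M₂ := Mm k ^ (2 * hh k), I := 4 * i₀ k,
            W := (2 * k + 1) * ellk k / Kk k + 2,
            B := hh k ^ 2, Y := 2 ^ hh k, Lg := hh k ^ 23,
            κ := fun x p => kap k c (i₀ k + (e x : ℕ) * Jn k + (p.1 : ℕ)) p.2,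
            ε := 1 / (k : ℝ) ^ 26, A := (k : ℝ) ^ 13, L := (k : ℝ) ^ 5,
            η := 4 * (k : ℝ) ^ 2 / Xx k *
              (1 + 32 * Real.pi * (k : ℝ) ^ 5 * (k : ℝ) ^ 13 * ((4 * i₀ k : ℕ) : ℝ)),
            S := 1 / (k : ℝ) ^ 70, εC := 1 / (k : ℝ) ^ 14,
            hk := hk
            hR := by positivity
            hJ := by rw [Jn]; positivity
            hM := a9
            hell := by omega
            hKpos := hKp
            hX₀pos := a16
            hM₂pos := by positivity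
            hIpos := by have := d13_i0pos k; omega
            hWpos := Nat.succ_pos _
            hBpos := by positivity
            hYpos := by positivity
            hε := by positivity
            hA := one_le_pow₀ hkR
            hL := by positivity
            hη0 := by positivity
            hS0 := by positivity
            hεC0 := by positivity
            hc := hb.1
            hK := hbk
            hcop := ?_
            hmod := ?_
            hdvd := ?_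
            hY := ?_
            hcol := ?_
            hX₀ := ?_
            hM₂ := d13_hM2 hD0 k hk
            hclose := ?_
            hsep := ?_
            hcl := ?_
            hS := ?_
            hB := a10
            hW := d13_hW k _ _ hKp
            hWL := d13_hWL k _ _ hk hK4
            hell0 := by omega
            hell1 := c1
            hell2 := c2
            hη := le_refl _
            hC := c3
            hεC := ?_
            hR2 := ?_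
            hLg := b3
            hbad := ?_ }, rfl⟩
  · intro x y p q hxy
    refine hD2 k hk c _ (d13_mem k (e x) p.1) _ (d13_mem k (e y) q.1) ?_ _ _
    refine d13_ne _ p.1.2 q.1.2 ?_
    intro h
    exact hxy (e.injective (Fin.ext h))
  · intro x p
    exact (hD6 k hk c _ (d13_mem k (e x) p.1) p.2).2.1
  · intro π
    exact (hD10 k hk c e π).1
  · intro π
    exact (hD10 k hk c e π).2
  · intro x j b
    exact hD7 k hp c N hb _ (d13_mem k (e x) j) ((b8 _ (d13_mem k (e x) j)).trans hN) b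
  · intro x j b
    have h1 := (hD6 k hk c _ (d13_mem k (e x) j) b).1
    have h2 := (hD6 k hk c _ (d13_mem k (e x) j) 0).1
    have h3 := (Nat.modEq_iff_dvd.mp (h2.trans h1.symm))
    exact h3
  · intro x j b
    exact (hD6 k hk c _ (d13_mem k (e x) j) b).2.2
  · intro x p₀
    exact d13_hsep hD0 hD5 k hk c (e x) p₀
  · intro x q hq hqM a
    exact d13_hcl hD11 hD8b k hp c N hb hN (e x) q hq hqM a
  · intro x p
    exact hD9 k hk c _ (d13_mem k (e x) p.1) p.2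
  · have h8 : (8 : ℝ) ≤ (k : ℝ) ^ 3 := by
      calc (8 : ℝ) = 2 ^ 3 := by norm_num
        _ ≤ (k : ℝ) ^ 3 := pow_le_pow_left₀ (by norm_num) hkR2 3
    push_cast
    rw [← add_div, div_le_div_iff₀ (by positivity) (by positivity)]
    have h11 : (0 : ℝ) < (k : ℝ) ^ 11 := by positivity
    have h14 : (k : ℝ) ^ 14 = (k : ℝ) ^ 11 * (k : ℝ) ^ 3 := by ring
    rw [h14]
    nlinarith
  · have h1 : 2 ≤ k ^ 10 := by
      calc 2 ≤ k := hk
        _ ≤ k ^ 10 := Nat.le_self_pow (by norm_num) _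
    calc 2 * k ^ 4 ≤ k ^ 10 * k ^ 4 := Nat.mul_le_mul_right _ h1
      _ = k ^ 14 := by ring
  · exact c4

end Pool.Agent.Lib.MP_fed790_nt.PX
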