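import Pool.Agent.Lib.MP_fed790_nt.PX.Defs3

/-! D2: coprimality of the pool elements -/

open Finset MeasureTheory

namespace Pool.Agent.Lib.MP_fed790_nt.PX

/-- A prime divisor of a pool element divides `λ_i` or a steering factor. -/
private theorem d2_split (k : ℕ) (c : ℕ → ZMod k) (i : ℕ) (b : ZMod k) (q : ℕ) [Fact q.Prime]
    (h : q ∣ kap k c i b) : q ∣ lam k i ∨ ((Zz k i : ℕ) : ZMod q) ^ (2 * k) = 1 := by
  have hq : q.Prime := Fact.out
  unfold kap at h
  rcases (Nat.Prime.dvd_mul hq).1 h with h1 | h1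
  · rcases (Nat.Prime.dvd_mul hq).1 h1 with h2 | h2
    · exact Or.inl h2
    · right
      have h3 : q ∣ Zz k i ^ k + 1 := hq.dvd_of_dvd_pow h2
      have h4 : (((Zz k i ^ k + 1 : ℕ)) : ZMod q) = 0 := (ZMod.natCast_eq_zero_iff _ _).2 h3
      push_cast at h4
      have h5 : ((Zz k i : ℕ) : ZMod q) ^ k = -1 := by
        linear_combination h4
      rw [Nat.mul_comm, pow_mul, h5]
      norm_num
  · right
    have h3 : q ∣ Zz k i + 1 := hq.dvd_of_dvd_pow h1
    have h4 : (((Zz k i + 1 : ℕ)) : ZMod q) = 0 := (ZMod.natCast_eq_zero_iff _ _).2 h3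
    push_cast at h4
    have h5 : ((Zz k i : ℕ) : ZMod q) = -1 := by
      linear_combination h4
    rw [pow_mul, h5]
    norm_num

/-- If `i ^ (2hk) = i' ^ (2hk)` modulo `q` then `q ∣ M`. -/
private theorem d2_M (hD0 : S_D0) (k : ℕ) (hk : 2 ≤ k) (i i' : ℕ) (hi : i ∈ Idx k)
    (hi' : i' ∈ Idx k) (hlt : i' < i) (q : ℕ) [Fact q.Prime]
    (h : ((i : ℕ) : ZMod q) ^ (2 * hh k * k) = ((i' : ℕ) : ZMod q) ^ (2 * hh k * k)) :
    q ∣ Mm k := by
  obtain ⟨-, -, -, -, -, -, -, -, -, -, -, -, hdel, -, -, -⟩ := hD0 k hk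
  refine dvd_trans ?_ (hdel i hi i' hi' hlt)
  rw [← ZMod.natCast_eq_zero_iff]
  rw [Nat.cast_sub (Nat.pow_le_pow_left hlt.le _)]
  push_cast
  rw [h, sub_self]

/-- One ordering. -/
private theorem d2_lt (hD0 : S_D0) (k : ℕ) (hk : 2 ≤ k) (c : ℕ → ZMod k) (i i' : ℕ)
    (hi : i ∈ Idx k) (hi' : i' ∈ Idx k) (hlt : i' < i) (b b' : ZMod k) :
    (kap k c i b).Coprime (kap k c i' b') := by
  refine Nat.coprime_of_dvd ?_
  intro q hq h1 h2
  have : Fact q.Prime := ⟨hq⟩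
  have hh0 : hh k ≠ 0 := by unfold hh; positivity
  have hk0 : k ≠ 0 := by omega
  obtain ⟨-, -, -, -, -, -, -, -, -, -, -, -, -, hMX, hlX, -⟩ := hD0 k hk
  have hZX : ∀ j, q ∣ Xx k → ((Zz k j : ℕ) : ZMod q) ^ (2 * k) ≠ 1 := by
    intro j hX hZ
    have hX0 : ((Xx k : ℕ) : ZMod q) = 0 := (ZMod.natCast_eq_zero_iff _ _).2 hX
    unfold Zz at hZ
    push_cast at hZ
    rw [hX0, zero_mul, zero_pow hh0, zero_pow (by positivity)] at hZ
    exact zero_ne_one hZ
  rcases d2_split k c i b q h1 with h3 | h3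
  · rcases d2_split k c i' b' q h2 with h4 | h4
    · -- both `λ`
      have e3 : ((lam k i : ℕ) : ZMod q) = 0 := (ZMod.natCast_eq_zero_iff _ _).2 h3
      have e4 : ((lam k i' : ℕ) : ZMod q) = 0 := (ZMod.natCast_eq_zero_iff _ _).2 h4
      unfold lam at e3 e4
      push_cast at e3 e4
      have hM : ((Mm k : ℕ) : ZMod q) ≠ 0 := by
        intro h0
        rw [h0, zero_mul, zero_pow hh0, add_zero] at e3
        exact one_ne_zero e3
      have e5 : ((Mm k : ℕ) : ZMod q) ^ hh k * ((i : ZMod q) ^ hh k - (i' : ZMod q) ^ hh k) = 0 := by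
        rw [mul_pow] at e3 e4
        linear_combination e3 - e4
      have e6 : (i : ZMod q) ^ hh k = (i' : ZMod q) ^ hh k := by
        rcases mul_eq_zero.1 e5 with h5 | h5
        · exact absurd h5 (pow_ne_zero _ hM)
        · exact sub_eq_zero.1 h5
      have e7 : ((i : ℕ) : ZMod q) ^ (2 * hh k * k) = ((i' : ℕ) : ZMod q) ^ (2 * hh k * k) := by
        have e8 : 2 * hh k * k = hh k * (2 * k) := by ring
        rw [e8, pow_mul (i : ZMod q), pow_mul (i' : ZMod q), e6]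
      exact hM ((ZMod.natCast_eq_zero_iff _ _).2 (d2_M hD0 k hk i i' hi hi' hlt q e7))
    · exact hZX i' (h3.trans (hlX i hi)) h4
  · rcases d2_split k c i' b' q h2 with h4 | h4
    · exact hZX i (h4.trans (hlX i' hi')) h3
    · by_cases hX : q ∣ Xx k
      · exact hZX i hX h3
      · have hX0 : ((Xx k : ℕ) : ZMod q) ≠ 0 := fun h => hX ((ZMod.natCast_eq_zero_iff _ _).1 h)
        have e5 : ((Xx k : ℕ) : ZMod q) ^ (2 * hh k * k) * (i : ZMod q) ^ (2 * hh k * k) = 1 := by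
          unfold Zz at h3
          push_cast at h3
          rw [← pow_mul, mul_pow] at h3
          have : 2 * hh k * k = hh k * (2 * k) := by ring
          rw [this]
          exact h3
        have e6 : ((Xx k : ℕ) : ZMod q) ^ (2 * hh k * k) * (i' : ZMod q) ^ (2 * hh k * k) = 1 := by
          unfold Zz at h4
          push_cast at h4
          rw [← pow_mul, mul_pow] at h4
          have : 2 * hh k * k = hh k * (2 * k) := by ring
          rw [this]
          exact h4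
        have e7 : ((i : ℕ) : ZMod q) ^ (2 * hh k * k) = ((i' : ℕ) : ZMod q) ^ (2 * hh k * k) :=
          mul_left_cancel₀ (pow_ne_zero (2 * hh k * k) hX0) (e5.trans e6.symm)
        have h5 := d2_M hD0 k hk i i' hi hi' hlt q e7
        exact hX (h5.trans ((dvd_pow_self _ (by positivity)).trans hMX))

/-- (Job PX D2) Proof.  By symmetry let `i' < i`.  Suppose a prime `q` divides both.  `M = Mm k`, `X = Xx k`, `h = hh k`, `Z_i = (X i)^h`.
(1) `q ∣ λ_i` and `q ∣ λ_i'`: then `q ∣ λ_i - λ_i' = M^h (i^h - i'^h)`, and `q ∤ M` (as `λ_i = 1 + (Mi)^h`), so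
`q ∣ i^h - i'^h ∣ i^(2hk) - i'^(2hk) ∣ M`, contradiction.
(2) `q ∣ λ_i` and `q ∣` a factor `Z^k+1` or `Z+1` of the other: `q ∣ λ_i ∣ X ∣ Z_i'`, so `q ∣ 1`.  Same with `i, i'` exchanged.
(3) both divide steering factors: `Z_i ^ (2k) ≡ 1` and `Z_i' ^ (2k) ≡ 1` mod `q` (from `Z^k ≡ -1` or `Z ≡ -1`), i.e.
`X^(2hk) i^(2hk) ≡ X^(2hk) i'^(2hk) ≡ 1`; `q ∤ X`, so `q ∣ i^(2hk) - i'^(2hk) ∣ M ∣ X` (D0: `M^(4h) ∣ X`), contradiction. -/
theorem tD2 (hD0 : S_D0) : S_D2 := by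
  intro k hk c i hi i' hi' hne b b'
  rcases lt_or_gt_of_ne hne with h | h
  · exact (d2_lt hD0 k hk c i' i hi' hi h b' b).symm
  · exact d2_lt hD0 k hk c i i' hi hi' h b b'

end Pool.Agent.Lib.MP_fed790_nt.PX
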