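import Pool.Agent.Lib.MP_fed790_nt.PX.Defs3

/-! D3: primes of the pool elements are 1 mod 2h -/

open Finset MeasureTheory

namespace Pool.Agent.Lib.MP_fed790_nt.PX

private theorem d3_key (hD1 : S_D1) (k y q : ℕ) (hq : q.Prime) (hy : 2 ∣ y)
    (h : q ∣ y ^ hh k + 1) : 2 * hh k ∣ q - 1 := by
  have h1 := hD1 q y (tt k) hq hy h
  have h2 : 2 ^ (tt k + 1) = 2 * hh k := by
    rw [pow_succ, mul_comm]
    rfl
  rwa [h2] at h1

/-- (Job PX D3) Proof.  `q` divides `λ_i = (Mi)^h + 1`, or `Z_i^k + 1 = ((X i)^k)^h + 1`, or `Z_i + 1 = (X i)^h + 1`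
(`Nat.Prime.dvd_mul`, `Nat.Prime.dvd_of_dvd_pow`); `h = 2 ^ tt k`, `M` and `X` are even.  Apply D1. -/
theorem tD3 (hD0 : S_D0) (hD1 : S_D1) : S_D3 := by
  intro k hk c i hi b q hq hdiv
  obtain ⟨-, -, -, -, -, -, -, -, -, -, h2M, -, -, hMX, -, -⟩ := hD0 k hk
  have hh0 : hh k ≠ 0 := by
    unfold hh
    positivity
  have hX2 : 2 ∣ Xx k := dvd_trans (dvd_pow h2M (by omega)) hMX
  have hXi : 2 ∣ Xx k * i := Dvd.dvd.mul_right hX2 i
  have hMi : 2 ∣ Mm k * i := Dvd.dvd.mul_right h2M i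
  unfold kap at hdiv
  rcases (Nat.Prime.dvd_mul hq).1 hdiv with h | h
  · rcases (Nat.Prime.dvd_mul hq).1 h with h | h
    · apply d3_key hD1 k (Mm k * i) q hq hMi
      unfold lam at h
      rwa [add_comm] at h
    · have h' := hq.dvd_of_dvd_pow h
      apply d3_key hD1 k ((Xx k * i) ^ k) q hq (dvd_pow hXi (by omega))
      have e : ((Xx k * i) ^ k) ^ hh k = Zz k i ^ k := by
        unfold Zz
        rw [← pow_mul, ← pow_mul, mul_comm k (hh k)]
      rwa [e]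
  · have h' := hq.dvd_of_dvd_pow h
    exact d3_key hD1 k (Xx k * i) q hq hXi h'

end Pool.Agent.Lib.MP_fed790_nt.PX
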