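import Pool.Agent.Lib.MP_fed790_nt.PX.Defs3

/-! D4: sizes of the pool elements -/

open Finset MeasureTheory

namespace Pool.Agent.Lib.MP_fed790_nt.PX

private theorem d4_exp {x : ℝ} (hx : x ≤ 1 / 4) : Real.exp x ≤ 4 / 3 := by
  have h1 : Real.exp x ≤ Real.exp (1 / 4) := Real.exp_le_exp.2 hx
  have h2 : (1 : ℝ) - 1 / 4 ≤ Real.exp (-(1 / 4)) := Real.one_sub_le_exp_neg _
  have h3 : Real.exp (1 / 4) * Real.exp (-(1 / 4)) = 1 := by
    rw [← Real.exp_add]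
    norm_num
  have h4 : 0 < Real.exp (1 / 4) := Real.exp_pos _
  nlinarith

private theorem d4_pow {x : ℝ} (hx : 0 ≤ x) (n : ℕ) : (1 + x) ^ n ≤ Real.exp (n * x) := by
  rw [Real.exp_nat_mul]
  refine pow_le_pow_left₀ (by linarith) ?_ n
  have := Real.add_one_le_exp x
  linarith

private theorem d4_jj (k : ℕ) (hk : 2 ≤ k) (c : ℕ → ZMod k) (i : ℕ) (b : ZMod k) :
    jj k c i b ≤ k - 1 := by
  have : NeZero k := ⟨by omega⟩
  have h1 : jj k c i b < k := ZMod.val_lt _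
  omega

/-- (Job PX D4) Proof.  With `j = jj … ≤ k - 1` (`ZMod.val_lt`, `k ≥ 2` so `NeZero k`), `Z = Z_i`: `Z^(kj) ≤ (Z^k+1)^j ≤ (Z+1)^(kj)` and
`Z^(k(k-1-j)) ≤ (Z+1)^(k(k-1-j))`, exponents add up to `k(k-1)`.  Third: monotonicity in `i ≥ i₀`.
Fourth: let `m = k(k-1)`, `s = i/i₀ ≤ 1 + nn/i₀ ≤ 1 + 1/h²` (`nn ≤ h³`, `i₀ = h⁵`).  `λ_i ≤ s^h λ_{i₀}`,
`Z_i = s^h Z_{i₀}`, so `λ_i (Z_i+1)^m ≤ s^(h + hm) (1 + 1/Z_i)^m λ_{i₀} Z_{i₀}^m`, and
`s^(h+hm) ≤ (1+1/h²)^(hk²) ≤ exp (k²/h) ≤ 4/3`, `(1+1/Z_i)^m ≤ exp (k²/Z_i) ≤ 4/3` since `Z_i ≥ h ≥ k¹⁴⁰`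
(`Real.add_one_le_exp`, `exp (1/4) ≤ 4/3`); `16/9 ≤ 2`. -/
theorem tD4 (hD0 : S_D0) : S_D4 := by
  intro k hk c i hi b
  obtain ⟨h140, -, -, -, -, hnn, hidx, -, hM2, -, -, -, -, -, -, hX⟩ := hD0 k hk
  have hi' := hi
  unfold Idx at hi'
  rw [Finset.mem_Ico] at hi'
  obtain ⟨hi0, hi1⟩ := hi'
  set h := hh k with hh_def
  set Z := Zz k i with hZ
  set Z0 := Zz k (i₀ k) with hZ0
  set m := k * (k - 1) with hm
  have hj := d4_jj k hk c i b
  set j := jj k c i b with hjd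
  have hexp : k * j + k * (k - 1 - j) = m := by
    rw [hm, ← mul_add]
    congr 1
    omega
  have hkap : kap k c i b = lam k i * (Z ^ k + 1) ^ j * (Z + 1) ^ (k * (k - 1 - j)) := rfl
  have hk2 : 4 ≤ k ^ 2 := by nlinarith
  have hhk : 4 * k ^ 2 ≤ h := by
    refine le_trans ?_ h140
    have h1 : k ^ 140 = k ^ 2 * k ^ 138 := by rw [← pow_add]
    have h2 : 2 ^ 2 ≤ k ^ 138 := (Nat.pow_le_pow_left hk 2).trans
      (Nat.pow_le_pow_right (by omega) (by norm_num))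
    rw [h1, mul_comm 4]
    exact Nat.mul_le_mul_left _ (by omega)
  have hh1 : 1 ≤ h := by nlinarith
  have hi0h : h ≤ i₀ k := by
    unfold i₀
    rw [← hh_def]
    exact Nat.le_self_pow (by norm_num) h
  have hi0pos : 0 < i₀ k := lt_of_lt_of_le hh1 hi0h
  have hZi : i ≤ Z := by
    rw [hZ]
    unfold Zz
    rw [← hh_def]
    calc i ≤ Xx k * i := Nat.le_mul_of_pos_left _ hX
      _ ≤ (Xx k * i) ^ h := Nat.le_self_pow (by omega) _
  have hmon : Zz k (i₀ k) ≤ Zz k i := by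
    unfold Zz
    exact Nat.pow_le_pow_left (Nat.mul_le_mul_left _ hi0) _
  have hlmon : lam k (i₀ k) ≤ lam k i := by
    unfold lam
    exact Nat.add_le_add_left (Nat.pow_le_pow_left (Nat.mul_le_mul_left _ hi0) _) _
  refine ⟨?_, ?_, ?_, ?_⟩
  · rw [hkap, mul_assoc]
    refine Nat.mul_le_mul_left _ ?_
    rw [← hexp, pow_add, pow_mul]
    refine Nat.mul_le_mul (Nat.pow_le_pow_left (by omega) _) (Nat.pow_le_pow_left (by omega) _)
  · rw [hkap, mul_assoc]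
    refine Nat.mul_le_mul_left _ ?_
    rw [← hexp, pow_add, pow_mul (Z + 1) k j]
    refine Nat.mul_le_mul (Nat.pow_le_pow_left ?_ _) le_rfl
    have h1 : Z ^ k + 1 ^ k ≤ (Z + 1) ^ k :=
      pow_add_pow_le (Nat.zero_le _) (Nat.zero_le _) (by omega)
    rwa [one_pow] at h1
  · unfold Kk
    exact Nat.mul_le_mul hlmon (Nat.pow_le_pow_left hmon _)
  · -- the main estimate
    have hI0 : (0 : ℝ) < (i₀ k : ℝ) := by exact_mod_cast hi0pos
    set s : ℝ := (i : ℝ) / (i₀ k : ℝ) with hs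
    have hIs : (i : ℝ) = s * (i₀ k : ℝ) := by
      rw [hs, div_mul_cancel₀ _ hI0.ne']
    have hs1 : 1 ≤ s := by
      rw [hs, one_le_div hI0]
      exact_mod_cast hi0
    have hhR : (0 : ℝ) < (h : ℝ) := by exact_mod_cast hh1
    have hi0R : (i₀ k : ℝ) = (h : ℝ) ^ 5 := by
      unfold i₀
      rw [← hh_def]
      push_cast
      rfl
    have hs2 : s ≤ 1 + 1 / (h : ℝ) ^ 2 := by
      rw [hs, div_le_iff₀ hI0]
      have h1 : (i : ℝ) ≤ (i₀ k : ℝ) + (h : ℝ) ^ 3 := by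
        have h2 : i ≤ i₀ k + h ^ 3 := by omega
        exact_mod_cast h2
      refine h1.trans (le_of_eq ?_)
      rw [hi0R]
      field_simp
    have hMi : ((Mm k * i : ℕ) : ℝ) ^ h = s ^ h * ((Mm k * i₀ k : ℕ) : ℝ) ^ h := by
      rw [← mul_pow]
      push_cast
      rw [hIs]
      ring
    have hZs : (Z : ℝ) = s ^ h * (Z0 : ℝ) := by
      rw [hZ, hZ0]
      unfold Zz
      rw [← hh_def]
      push_cast
      rw [← mul_pow, hIs]
      ring
    have hlam : (lam k i : ℝ) ≤ s ^ h * (lam k (i₀ k) : ℝ) := by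
      unfold lam
      rw [← hh_def]
      have h1 : (1 : ℝ) ≤ s ^ h := one_le_pow₀ hs1
      have h2 : (((1 + (Mm k * i) ^ h : ℕ)) : ℝ) = 1 + ((Mm k * i : ℕ) : ℝ) ^ h := by push_cast; rfl
      have h3 : (((1 + (Mm k * i₀ k) ^ h : ℕ)) : ℝ) = 1 + ((Mm k * i₀ k : ℕ) : ℝ) ^ h := by
        push_cast; rfl
      rw [h2, h3, hMi, mul_add, mul_one]
      linarith
    have hZpos : (0 : ℝ) < (Z : ℝ) := by
      have : 0 < Z := lt_of_lt_of_le (lt_of_lt_of_le hi0pos hi0) hZi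
      exact_mod_cast this
    have hZ1 : ((Z : ℝ) + 1) ^ m = (s ^ h) ^ m * (Z0 : ℝ) ^ m * (1 + 1 / (Z : ℝ)) ^ m := by
      rw [← mul_pow, ← hZs, ← mul_pow]
      congr 1
      field_simp
    have e1 : (1 + 1 / (Z : ℝ)) ^ m ≤ 4 / 3 := by
      refine (d4_pow (by positivity) m).trans (d4_exp ?_)
      rw [mul_one_div, div_le_iff₀ hZpos]
      have h1 : 4 * m ≤ Z := by
        have h2 : m ≤ k ^ 2 := by
          rw [hm, pow_two]
          exact Nat.mul_le_mul_left _ (by omega)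
        omega
      have h3 : (4 : ℝ) * m ≤ Z := by exact_mod_cast h1
      linarith
    have e2 : s ^ (h * (1 + m)) ≤ 4 / 3 := by
      calc s ^ (h * (1 + m)) ≤ (1 + 1 / (h : ℝ) ^ 2) ^ (h * (1 + m)) :=
            pow_le_pow_left₀ (by linarith) hs2 _
        _ ≤ Real.exp ((h * (1 + m) : ℕ) * (1 / (h : ℝ) ^ 2)) := d4_pow (by positivity) _
        _ ≤ 4 / 3 := by
            refine d4_exp ?_
            have h1 : 1 + m ≤ k ^ 2 := by
              rw [hm]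
              obtain ⟨r, rfl⟩ : ∃ r, k = r + 1 := ⟨k - 1, by omega⟩
              rw [Nat.add_sub_cancel]
              nlinarith
            have h2 : 4 * (1 + m) ≤ h := by omega
            have h3 : (4 : ℝ) * (1 + m) ≤ h := by exact_mod_cast h2
            push_cast
            have h4 : (h : ℝ) * (1 + m) * (1 / (h : ℝ) ^ 2) = (1 + m) / h := by
              field_simp
            rw [h4, div_le_iff₀ hhR]
            linarith
    have key : ((lam k i * (Z + 1) ^ m : ℕ) : ℝ) ≤ ((2 * Kk k : ℕ) : ℝ) := by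
      have hK : ((Kk k : ℕ) : ℝ) = (lam k (i₀ k) : ℝ) * (Z0 : ℝ) ^ m := by
        unfold Kk
        push_cast
        rfl
      have hKpos : (0 : ℝ) ≤ ((Kk k : ℕ) : ℝ) := Nat.cast_nonneg _
      have hs0 : (0 : ℝ) ≤ s := by linarith
      push_cast
      calc (lam k i : ℝ) * ((Z : ℝ) + 1) ^ m
          ≤ (s ^ h * (lam k (i₀ k) : ℝ)) * ((Z : ℝ) + 1) ^ m :=
            mul_le_mul_of_nonneg_right hlam (by positivity)
        _ = s ^ (h * (1 + m)) * (1 + 1 / (Z : ℝ)) ^ m * (Kk k : ℝ) := by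
            rw [hZ1, hK, ← pow_mul, mul_add, mul_one, pow_add]
            ring
        _ ≤ (4 / 3) * (4 / 3) * (Kk k : ℝ) := by
            refine mul_le_mul_of_nonneg_right ?_ hKpos
            exact mul_le_mul e2 e1 (by positivity) (by norm_num)
        _ ≤ 2 * (Kk k : ℝ) := by nlinarith
    exact_mod_cast key

end Pool.Agent.Lib.MP_fed790_nt.PX
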