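import Pool.Agent.Lib.MP_fed790_nt.PX.Defs3

/-! D5: separation of the pool elements -/

open Finset MeasureTheory

namespace Pool.Agent.Lib.MP_fed790_nt.PX

/-- `i' ^ h - i ^ h ≥ i' ^ (h - 1)` in additive form. -/
theorem d5_pow {i i' n : ℕ} (h : i < i') : i ^ (n + 1) + i' ^ n ≤ i' ^ (n + 1) := by
  obtain ⟨j, rfl⟩ : ∃ j, i' = j + 1 := ⟨i' - 1, by omega⟩
  have h1 : i ≤ j := by omega
  calc i ^ (n + 1) + (j + 1) ^ n = i * i ^ n + (j + 1) ^ n := by rw [pow_succ, mul_comm]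
    _ ≤ j * (j + 1) ^ n + (j + 1) ^ n := by
        have h2 : i ^ n ≤ (j + 1) ^ n := Nat.pow_le_pow_left (by omega) n
        exact Nat.add_le_add_right (Nat.mul_le_mul h1 h2) _
    _ = (j + 1) ^ (n + 1) := by ring

theorem d5_lam {M i i' I₀ h : ℕ} (hM : 0 < M) (hh : 0 < h) (hi' : 0 < i') (hlt : i < i')
    (hI : i' ≤ 2 * I₀) :
    1 + (M * i) ^ h ≤ 1 + (M * i') ^ h ∧
    1 + (M * i') ^ h ≤ 4 * I₀ * ((1 + (M * i') ^ h) - (1 + (M * i) ^ h)) := by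
  obtain ⟨n, rfl⟩ : ∃ n, h = n + 1 := ⟨h - 1, by omega⟩
  have h1 := d5_pow (n := n) hlt
  have h2 : M ^ (n + 1) * i ^ (n + 1) + M ^ (n + 1) * i' ^ n ≤ M ^ (n + 1) * i' ^ (n + 1) := by
    rw [← Nat.mul_add]
    exact Nat.mul_le_mul_left _ h1
  have h3 : (M * i) ^ (n + 1) = M ^ (n + 1) * i ^ (n + 1) := mul_pow _ _ _
  have h4 : (M * i') ^ (n + 1) = M ^ (n + 1) * i' ^ (n + 1) := mul_pow _ _ _
  have h5 : M ^ (n + 1) * i' ^ n ≤ (1 + (M * i') ^ (n + 1)) - (1 + (M * i) ^ (n + 1)) := by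
    rw [h3, h4]
    omega
  constructor
  · rw [h3, h4]
    omega
  · have h6 : 1 ≤ (M * i') ^ (n + 1) := Nat.one_le_iff_ne_zero.2 (by positivity)
    calc 1 + (M * i') ^ (n + 1) ≤ 2 * (M * i') ^ (n + 1) := by omega
      _ = 2 * i' * (M ^ (n + 1) * i' ^ n) := by rw [h4]; ring
      _ ≤ 4 * I₀ * (M ^ (n + 1) * i' ^ n) := Nat.mul_le_mul_right _ (by omega)
      _ ≤ _ := Nat.mul_le_mul_left _ h5

/-- (Job PX D5) Proof.  `kap i' b' ≥ λ_{i'} Z_{i'}^m` and `kap i b ≤ λ_i (Z_i+1)^m ≤ λ_i Z_{i'}^m` (`m = k(k-1)`; `Z_i + 1 = (Xi)^h + 1 ≤ (X i')^h`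
because `Xi < Xi'` and `h ≥ 1`).  So the difference is at least `(λ_{i'} - λ_i) Z_{i'}^m = M^h (i'^h - i^h) Z_{i'}^m`, and
`i'^h - i^h ≥ i'^(h-1)` (`i ≤ i'-1`, `(i'-1)^h ≤ (i'-1) i'^(h-1)`).  With `i' ≤ 2i₀`:
`4i₀ M^h i'^(h-1) ≥ 2 M^h i'^h ≥ 1 + (M i')^h = λ_{i'}`, so `4i₀ · difference ≥ λ_{i'} Z_{i'}^m ≥ Kk` (D4). -/
theorem tD5 (hD0 : S_D0) (hD4 : S_D4) : S_D5 := by
  intro k hk c i hi i' hi' hlt b b'
  obtain ⟨_, _, _, _, _, _, hidx, _, hM2, _, _, _, _, _, _, hX⟩ := hD0 k hk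
  obtain ⟨_, hA2, _, _⟩ := hD4 k hk c i hi b
  obtain ⟨hB1, _, hB3, _⟩ := hD4 k hk c i' hi' b'
  have hh0 : 0 < hh k := by unfold hh; positivity
  have hi'0 : 0 < i' := (hidx i' hi').1
  have hi'2 : i' ≤ 2 * i₀ k := (hidx i' hi').2
  have hZ : Zz k i + 1 ≤ Zz k i' := by
    unfold Zz
    have : Xx k * i < Xx k * i' := Nat.mul_lt_mul_of_pos_left hlt hX
    exact Nat.pow_lt_pow_left this hh0.ne'
  obtain ⟨hL1, hL2⟩ := d5_lam (M := Mm k) (I₀ := i₀ k) (h := hh k) (by omega) hh0 hi'0 hlt hi'2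
  change lam k i ≤ lam k i' at hL1
  change lam k i' ≤ 4 * i₀ k * (lam k i' - lam k i) at hL2
  set m := k * (k - 1) with hm
  set Q := Zz k i' ^ m with hQ
  have hQ0 : 0 < Q := by
    have : 0 < Zz k i' := by omega
    positivity
  have h1 : kap k c i b ≤ lam k i * Q :=
    hA2.trans (Nat.mul_le_mul_left _ (Nat.pow_le_pow_left hZ m))
  have hlam0 : 0 < lam k i' := by unfold lam; omega
  have hlt' : lam k i < lam k i' := by
    rcases Nat.lt_or_ge (lam k i) (lam k i') with h | h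
    · exact h
    · exfalso
      rw [Nat.sub_eq_zero_of_le h, Nat.mul_zero] at hL2
      omega
  have h2 : lam k i * Q < lam k i' * Q := Nat.mul_lt_mul_of_pos_right hlt' hQ0
  constructor
  · exact lt_of_le_of_lt h1 (lt_of_lt_of_le h2 hB1)
  · calc Kk k ≤ lam k i' * Q := hB3
      _ ≤ 4 * i₀ k * (lam k i' - lam k i) * Q := Nat.mul_le_mul_right _ hL2
      _ = 4 * i₀ k * (lam k i' * Q - lam k i * Q) := by rw [Nat.mul_assoc, Nat.sub_mul]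
      _ ≤ 4 * i₀ k * (kap k c i' b' - kap k c i b) := by
          apply Nat.mul_le_mul_left
          omega

end Pool.Agent.Lib.MP_fed790_nt.PX
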