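import Pool.Agent.Lib.MP_fed790_nt.PX.Defs3

/-! D6: residues and closeness -/

open Finset MeasureTheory

namespace Pool.Agent.Lib.MP_fed790_nt.PX

private theorem d6_pow (Z n : ℕ) : (Z + 1) ^ (n + 1) ≤ Z ^ (n + 1) + (n + 1) * (Z + 1) ^ n := by
  induction n with
  | zero => simp
  | succ n ih =>
    calc (Z + 1) ^ (n + 2) = (Z + 1) ^ (n + 1) * Z + (Z + 1) ^ (n + 1) := by ring
      _ ≤ (Z ^ (n + 1) + (n + 1) * (Z + 1) ^ n) * Z + (Z + 1) ^ (n + 1) := by gcongr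
      _ = Z ^ (n + 2) + (n + 1) * ((Z + 1) ^ n * Z) + (Z + 1) ^ (n + 1) := by ring
      _ ≤ Z ^ (n + 2) + (n + 1) * ((Z + 1) ^ n * (Z + 1)) + (Z + 1) ^ (n + 1) := by
          gcongr
          omega
      _ = Z ^ (n + 1 + 1) + (n + 1 + 1) * (Z + 1) ^ (n + 1) := by ring

private theorem d6_abs (a b L U : ℕ) (ha : L ≤ a) (ha' : a ≤ U) (hb : L ≤ b) (hb' : b ≤ U) :
    |(a : ℤ) - b| ≤ (U : ℤ) - L := by
  rw [abs_le]
  constructor <;> omega

/-- (Job PX D6) Proof.  `X ∣ Z_i`, so both steering factors are `≡ 1` mod `X`: first claim.  `M^(k+2) ∣ M^h ∣ (Mi)^h` (`k + 2 ≤ k¹⁴⁰ ≤ h`) so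
`λ_i ≡ 1`, and `M^(k+2) ∣ M^(4h) ∣ X`: second claim.  Third: by D4 both `kap i b`, `kap i 0` lie in
`[λ Z^m, λ (Z+1)^m]`, `m = k(k-1)`, so the distance is at most `λ((Z+1)^m - Z^m) ≤ λ m (Z+1)^(m-1)`, and
`λ m (Z+1)^(m-1) X ≤ m λ (Z+1)^m ≤ m · 2Kk ≤ 4k²Kk` since `X ≤ Z + 1`. -/
theorem tD6 (hD0 : S_D0) (hD4 : S_D4) : S_D6 := by
  intro k hk c i hi b
  obtain ⟨h140, _, _, _, _, _, hipos, _, hM2, _, _, _, _, hMX, _, hXpos⟩ := hD0 k hk
  have hi0 : 0 < i := (hipos i hi).1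
  have hh0 : hh k ≠ 0 := by
    unfold hh
    positivity
  have hk2 : k + 2 ≤ hh k := by
    calc k + 2 ≤ k * k := by nlinarith
      _ = k ^ 2 := by ring
      _ ≤ k ^ 140 := Nat.pow_le_pow_right (by omega) (by norm_num)
      _ ≤ hh k := h140
  have hXZ : Xx k ∣ Zz k i := by
    unfold Zz
    exact (dvd_mul_right _ _).trans (dvd_pow_self _ hh0)
  have hZ0 : Zz k i ≡ 0 [MOD Xx k] := (Nat.modEq_zero_iff_dvd).2 hXZ
  have h1 : kap k c i b ≡ lam k i [MOD Xx k] := by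
    unfold kap
    have ha : Zz k i ^ k + 1 ≡ 1 [MOD Xx k] := by
      have := (hZ0.pow k).add_right 1
      rwa [zero_pow (by omega : k ≠ 0), zero_add] at this
    have hb : Zz k i + 1 ≡ 1 [MOD Xx k] := by
      have := hZ0.add_right 1
      rwa [zero_add] at this
    have h3 := ((Nat.ModEq.refl (n := Xx k) (lam k i)).mul (ha.pow (jj k c i b))).mul
      (hb.pow (k * (k - 1 - jj k c i b)))
    rwa [one_pow, one_pow, mul_one, mul_one] at h3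
  have hMdvd : Mm k ^ (k + 2) ∣ Xx k :=
    (pow_dvd_pow _ (by omega : k + 2 ≤ 4 * hh k)).trans hMX
  have h2 : lam k i ≡ 1 [MOD Mm k ^ (k + 2)] := by
    unfold lam
    have h3 : (Mm k * i) ^ hh k ≡ 0 [MOD Mm k ^ (k + 2)] := by
      rw [Nat.modEq_zero_iff_dvd, mul_pow]
      exact (pow_dvd_pow _ hk2).trans (dvd_mul_right _ _)
    have h4 := h3.add_left 1
    rwa [add_zero] at h4
  refine ⟨h1, (h1.of_dvd hMdvd).trans h2, ?_⟩
  obtain ⟨hb1, hb2, _, hb4⟩ := hD4 k hk c i hi b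
  obtain ⟨ha1, ha2, _, _⟩ := hD4 k hk c i hi 0
  have habs := d6_abs _ _ _ _ hb1 hb2 ha1 ha2
  obtain ⟨n, hn⟩ : ∃ n, k * (k - 1) = n + 1 :=
    ⟨k * (k - 1) - 1, by
      have : 0 < k * (k - 1) := Nat.mul_pos (by omega) (by omega)
      omega⟩
  have hZpos : 0 < Zz k i := by
    unfold Zz
    positivity
  have hXle : Xx k ≤ Zz k i + 1 := (Nat.le_of_dvd hZpos hXZ).trans (Nat.le_succ _)
  have hnk : n + 1 ≤ k ^ 2 := by
    rw [← hn]
    calc k * (k - 1) ≤ k * k := Nat.mul_le_mul_left _ (by omega)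
      _ = k ^ 2 := by ring
  have hmain : lam k i * (Zz k i + 1) ^ (k * (k - 1)) * Xx k ≤
      lam k i * Zz k i ^ (k * (k - 1)) * Xx k + 4 * k ^ 2 * Kk k := by
    rw [hn] at hb4 ⊢
    calc lam k i * (Zz k i + 1) ^ (n + 1) * Xx k
        ≤ lam k i * (Zz k i ^ (n + 1) + (n + 1) * (Zz k i + 1) ^ n) * Xx k := by
          gcongr
          exact d6_pow _ _
      _ = lam k i * Zz k i ^ (n + 1) * Xx k +
          (n + 1) * (lam k i * ((Zz k i + 1) ^ n * Xx k)) := by ring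
      _ ≤ lam k i * Zz k i ^ (n + 1) * Xx k +
          (n + 1) * (lam k i * ((Zz k i + 1) ^ n * (Zz k i + 1))) := by gcongr
      _ = lam k i * Zz k i ^ (n + 1) * Xx k +
          (n + 1) * (lam k i * (Zz k i + 1) ^ (n + 1)) := by ring
      _ ≤ lam k i * Zz k i ^ (n + 1) * Xx k + k ^ 2 * (2 * Kk k) := by gcongr
      _ ≤ lam k i * Zz k i ^ (n + 1) * Xx k + 4 * k ^ 2 * Kk k := by nlinarith
  have hmain' : ((lam k i * (Zz k i + 1) ^ (k * (k - 1)) : ℕ) : ℤ) * Xx k ≤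
      ((lam k i * Zz k i ^ (k * (k - 1)) : ℕ) : ℤ) * Xx k + 4 * (k : ℤ) ^ 2 * Kk k := by
    exact_mod_cast hmain
  have hX0 : (0 : ℤ) ≤ Xx k := Int.natCast_nonneg _
  calc |(kap k c i b : ℤ) - kap k c i 0| * Xx k
      ≤ (((lam k i * (Zz k i + 1) ^ (k * (k - 1)) : ℕ) : ℤ) -
        ((lam k i * Zz k i ^ (k * (k - 1)) : ℕ) : ℤ)) * Xx k :=
        mul_le_mul_of_nonneg_right habs hX0
    _ ≤ 4 * (k : ℤ) ^ 2 * Kk k := by
        rw [sub_mul]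
        linarith

end Pool.Agent.Lib.MP_fed790_nt.PX
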