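import Pool.Agent.Lib.MP_fed790_nt.PX.Defs3

/-! D7: colours of the pool elements -/

open Finset MeasureTheory

namespace Pool.Agent.Lib.MP_fed790_nt.PX

private theorem d7_hh_pos (k : ℕ) : 0 < hh k := by
  unfold hh
  positivity

private theorem d7_idx_pos {k i : ℕ} (hi : i ∈ Idx k) : 0 < i := by
  unfold Idx at hi
  rw [mem_Ico] at hi
  have h1 : 0 < i₀ k := by
    unfold i₀
    exact pow_pos (d7_hh_pos k) 5
  omega

private theorem d7_Del_pos {k : ℕ} (hk : 0 < k) : 0 < Del k := by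
  unfold Del
  refine prod_pos fun i _ => prod_pos fun i' hi' => ?_
  rw [mem_Ico] at hi'
  have h1 : 2 * hh k * k ≠ 0 := by
    have := d7_hh_pos k
    positivity
  exact Nat.sub_pos_of_lt (Nat.pow_lt_pow_left hi'.2 h1)

private theorem d7_Zz_pos {k i : ℕ} (hk : 0 < k) (hi : i ∈ Idx k) : 0 < Zz k i := by
  have hM : 0 < Mm k := by
    unfold Mm
    exact pow_pos (Nat.mul_pos (Nat.factorial_pos _) (d7_Del_pos hk)) _
  have hX : 0 < Xx k := by
    unfold Xx
    refine Nat.mul_pos (pow_pos hM _) (prod_pos fun j _ => ?_)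
    unfold lam
    omega
  unfold Zz
  exact pow_pos (Nat.mul_pos hX (d7_idx_pos hi)) _

private theorem d7_one {k : ℕ} {c : ℕ → ZMod k}
    (hc : ∀ a b : ℕ, 0 < a → 0 < b → c (a * b) = c a + c b) : c 1 = 0 := by
  have h1 := hc 1 1 one_pos one_pos
  rw [mul_one] at h1
  have h2 : c 1 + 0 = c 1 + c 1 := by rw [add_zero]; exact h1
  exact (add_left_cancel h2).symm

private theorem d7_pow {k : ℕ} {c : ℕ → ZMod k}
    (hc : ∀ a b : ℕ, 0 < a → 0 < b → c (a * b) = c a + c b) {a : ℕ} (ha : 0 < a) (n : ℕ) :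
    c (a ^ n) = n * c a := by
  induction n with
  | zero => rw [pow_zero, d7_one hc, Nat.cast_zero, zero_mul]
  | succ n ih =>
    rw [pow_succ, hc _ _ (pow_pos ha n) ha, ih, Nat.cast_succ]
    ring

/-- (Job PX D7) Proof.  Complete additivity gives `c (a^n) = n • c a` for `a > 0`.  In `ZMod k`: `c (Z^k) = k • c Z = 0`.  The pair
`n = Z^k`, `n + 1 ≤ N` is excluded, so `c (Z^k+1) ≠ 0`, a unit (`k` prime).  So
`c (kap i b) = c λ_i + (jj : ZMod k) * c (Z^k+1) + (k(…) : ZMod k) * c (Z+1) = c λ_i + b` (`ZMod.natCast_zmod_val`, `CharP` for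
`(k : ZMod k) = 0`), in particular `c (kap i 0) = c λ_i`. -/
theorem tD7 : S_D7 := by
  intro k hk c N hbad i hi hZN b
  haveI : Fact k.Prime := ⟨hk⟩
  obtain ⟨hc, hno⟩ := hbad
  have hk0 : 0 < k := hk.pos
  have hZ : 0 < Zz k i := d7_Zz_pos hk0 hi
  have hkk : ((k : ℕ) : ZMod k) = 0 := ZMod.natCast_self k
  have h1 : c (Zz k i ^ k) = 0 := by
    rw [d7_pow hc hZ, hkk, zero_mul]
  have h2 : c (Zz k i ^ k + 1) ≠ 0 := fun h0 =>
    hno (Zz k i ^ k) (pow_pos hZ k) hZN ⟨h1, h0⟩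
  have key : ∀ b : ZMod k, c (kap k c i b) = c (lam k i) + b := by
    intro b
    have hl : 0 < lam k i := by
      unfold lam
      omega
    have h3 : 0 < (Zz k i ^ k + 1) ^ jj k c i b := pow_pos (Nat.succ_pos _) _
    have h4 : 0 < (Zz k i + 1) ^ (k * (k - 1 - jj k c i b)) := pow_pos (Nat.succ_pos _) _
    unfold kap
    rw [hc _ _ (Nat.mul_pos hl h3) h4, hc _ _ hl h3, d7_pow hc (Nat.succ_pos _),
      d7_pow hc (Nat.succ_pos _)]
    have h5 : ((jj k c i b : ℕ) : ZMod k) = b * (c (Zz k i ^ k + 1))⁻¹ := by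
      unfold jj
      exact ZMod.natCast_zmod_val _
    rw [h5, Nat.cast_mul, hkk, zero_mul, zero_mul, add_zero]
    have h6 : b * (c (Zz k i ^ k + 1))⁻¹ * c (Zz k i ^ k + 1) = b := by
      rw [mul_assoc, inv_mul_cancel₀ h2, mul_one]
    rw [h6]
  rw [key b, key 0, add_zero]

end Pool.Agent.Lib.MP_fed790_nt.PX
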