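import Pool.Agent.Lib.MP_fed790_nt.PX.Defs3

/-! D8a: root counting -/

open Finset MeasureTheory

namespace Pool.Agent.Lib.MP_fed790_nt.PX

open Polynomial in
private lemma d8a_poly {F : Type} [Field F] (M x a : F) (h k j m : ℕ) (hh : 0 < h) (hk : 0 < k)
    (hM : M ≠ 0) :
    ((1 + (C M * X) ^ h) * ((C x * X) ^ (h * k) + 1) ^ j * ((C x * X) ^ h + 1) ^ m - C a : F[X])
      ≠ 0 ∧
    ((1 + (C M * X) ^ h) * ((C x * X) ^ (h * k) + 1) ^ j * ((C x * X) ^ h + 1) ^ m
      - C a : F[X]).natDegree ≤ h + h * k * j + h * m := by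
  have hlin : ∀ (y : F) (n : ℕ), ((C y * X : F[X]) ^ n).natDegree ≤ n := by
    intro y n
    refine natDegree_pow_le.trans ?_
    have : (C y * X : F[X]).natDegree ≤ 1 := (natDegree_C_mul_le _ _).trans natDegree_X_le
    calc n * (C y * X : F[X]).natDegree ≤ n * 1 := Nat.mul_le_mul_left _ this
      _ = n := by ring
  constructor
  · intro h0
    rw [sub_eq_zero] at h0
    have hP1c : (1 + (C M * X : F[X]) ^ h).coeff h = M ^ h := by
      rw [mul_pow, ← C_pow, coeff_add, coeff_C_mul, coeff_X_pow, coeff_one]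
      simp [hh.ne']
    have hP1 : h ≤ (1 + (C M * X : F[X]) ^ h).natDegree := by
      refine le_natDegree_of_ne_zero ?_
      rw [hP1c]
      exact pow_ne_zero _ hM
    have hP1n : (1 + (C M * X : F[X]) ^ h) ≠ 0 := by
      intro h1
      rw [h1] at hP1
      simp at hP1
      omega
    have hP2n : ((C x * X : F[X]) ^ (h * k) + 1) ≠ 0 := by
      intro h1
      have := congrArg (Polynomial.eval 0) h1
      simp [hh.ne', hk.ne'] at this
    have hP3n : ((C x * X : F[X]) ^ h + 1) ≠ 0 := by
      intro h1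
      have := congrArg (Polynomial.eval 0) h1
      simp [hh.ne'] at this
    have := congrArg natDegree h0
    rw [natDegree_C, natDegree_mul (mul_ne_zero hP1n (pow_ne_zero _ hP2n)) (pow_ne_zero _ hP3n),
      natDegree_mul hP1n (pow_ne_zero _ hP2n)] at this
    omega
  · refine (natDegree_sub_le _ _).trans ?_
    rw [natDegree_C, max_eq_left (Nat.zero_le _)]
    refine natDegree_mul_le.trans ?_
    refine add_le_add (natDegree_mul_le.trans (add_le_add ?_ ?_)) ?_
    · refine (natDegree_add_le _ _).trans ?_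
      simp only [natDegree_one]
      exact max_le (Nat.zero_le _) (hlin M h)
    · refine natDegree_pow_le.trans ?_
      rw [mul_comm (h * k) j]
      refine Nat.mul_le_mul_left _ ?_
      refine (natDegree_add_le _ _).trans ?_
      simp only [natDegree_one]
      exact max_le (hlin x _) (Nat.zero_le _)
    · refine natDegree_pow_le.trans ?_
      rw [mul_comm h m]
      refine Nat.mul_le_mul_left _ ?_
      refine (natDegree_add_le _ _).trans ?_
      simp only [natDegree_one]
      exact max_le (hlin x _) (Nat.zero_le _)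

private lemma d8a_class (p i₁ J : ℕ) (hp : 0 < p) (r : ZMod p) :
    (((Ico i₁ (i₁ + J)).filter fun i : ℕ => (i : ZMod p) = r).card) ≤ J / p + 1 := by
  have := Finset.card_le_card_of_injOn (s := (Ico i₁ (i₁ + J)).filter fun i : ℕ => (i : ZMod p) = r)
    (t := range (J / p + 1)) (fun i => (i - i₁) / p) ?_ ?_
  · rwa [card_range] at this
  · intro i hi
    simp only [coe_filter, mem_Ico, Set.mem_ofPred_eq] at hi
    simp only [coe_range, Set.mem_Iio]
    refine Nat.lt_succ_of_le (Nat.div_le_div_right ?_)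
    omega
  · intro i hi i' hi' hii
    simp only [coe_filter, mem_Ico, Set.mem_ofPred_eq] at hi hi'
    simp only at hii
    have h1 : (i : ZMod p) = (i' : ZMod p) := by rw [hi.2, hi'.2]
    have h2 : ((i - i₁ : ℕ) : ZMod p) = ((i' - i₁ : ℕ) : ZMod p) := by
      rw [Nat.cast_sub hi.1.1, Nat.cast_sub hi'.1.1, h1]
    rw [ZMod.natCast_eq_natCast_iff] at h2
    have h3 : (i - i₁) % p = (i' - i₁) % p := h2
    have h4 := Nat.div_add_mod (i - i₁) p
    have h5 := Nat.div_add_mod (i' - i₁) p
    rw [h3, hii, h5] at h4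
    omega

/-- (Job PX D8a) Proof.  Over `ZMod p` let `f = (1 + (M X')^h) ((x X')^(hk) + 1)^j ((x X')^h + 1)^(k(k-1-j)) - a` as a polynomial in `X'`
(`x = Xx k`).  If `p ∤ x` its degree is `h + hkj + hk(k-1-j) = h + hk(k-1) ≤ hk²` with leading coefficient `M^h x^(hk(k-1)) ≠ 0`.
If `p ∣ x` it is `1 + (M X')^h - a`, of degree `h`.  In both cases it is nonzero (degree `≥ 1`), so it has at most `hk²` roots
in `ZMod p` (`Polynomial.card_roots'`), and every root class contains at most `J/p + 1` of the `J` consecutive integers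
(`Nat.Ico_filter_modEq_card`-like, or `Nat.count_modEq_card`). -/
theorem tD8a (hD0 : S_D0) : S_D8a := by
  intro k hk j i₁ J p a hj hp hpM
  haveI : Fact p.Prime := ⟨hp⟩
  have hh0 : 0 < hh k := by unfold hh; positivity
  have hM : ((Mm k : ℕ) : ZMod p) ≠ 0 := by
    intro h
    exact hpM ((ZMod.natCast_eq_zero_iff _ _).1 h)
  obtain ⟨hne, hdeg⟩ := d8a_poly (F := ZMod p) (Mm k : ℕ) (Xx k : ℕ) (a : ZMod p) (hh k) k j
    (k * (k - 1 - j)) hh0 (by omega) hM
  set f : Polynomial (ZMod p) := (1 + (Polynomial.C ((Mm k : ℕ) : ZMod p) * Polynomial.X) ^ hh k) *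
    ((Polynomial.C ((Xx k : ℕ) : ZMod p) * Polynomial.X) ^ (hh k * k) + 1) ^ j *
    ((Polynomial.C ((Xx k : ℕ) : ZMod p) * Polynomial.X) ^ hh k + 1) ^ (k * (k - 1 - j)) -
      Polynomial.C (a : ZMod p) with hf
  have hroots : f.roots.toFinset.card ≤ hh k * k ^ 2 := by
    refine (Multiset.toFinset_card_le _).trans ((Polynomial.card_roots' f).trans (hdeg.trans ?_))
    have h1 : hh k + hh k * k * j + hh k * (k * (k - 1 - j)) = hh k * (1 + k * (j + (k - 1 - j))) := by
      ring
    rw [h1]
    have h2 : j + (k - 1 - j) = k - 1 := by omega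
    rw [h2]
    refine Nat.mul_le_mul_left _ ?_
    obtain ⟨k', rfl⟩ : ∃ k', k = k' + 1 := ⟨k - 1, by omega⟩
    simp only [Nat.add_sub_cancel]
    nlinarith
  have hmain := Finset.card_le_mul_card_image_of_maps_to
    (s := (Ico i₁ (i₁ + J)).filter fun i : ℕ => (p : ℤ) ∣
      ((lam k i * (Zz k i ^ k + 1) ^ j * (Zz k i + 1) ^ (k * (k - 1 - j)) : ℕ) : ℤ) - a)
    (t := f.roots.toFinset) (f := fun i : ℕ => (i : ZMod p)) ?_ (J / p + 1) ?_
  · calc _ ≤ (J / p + 1) * f.roots.toFinset.card := hmain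
      _ ≤ (J / p + 1) * (hh k * k ^ 2) := Nat.mul_le_mul_left _ hroots
      _ = _ := by ring
  · intro i hi
    rw [mem_filter] at hi
    rw [Multiset.mem_toFinset, Polynomial.mem_roots hne, Polynomial.IsRoot.def, hf]
    have h1 := (ZMod.intCast_zmod_eq_zero_iff_dvd _ p).2 hi.2
    rw [← h1]
    simp only [lam, Zz]
    push_cast
    simp only [Polynomial.eval_sub, Polynomial.eval_mul, Polynomial.eval_add, Polynomial.eval_pow,
      Polynomial.eval_one, Polynomial.eval_X, Polynomial.eval_C, ← pow_mul]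
  · intro r _
    refine (Finset.card_le_card ?_).trans (d8a_class p i₁ J hp.pos r)
    intro i hi
    rw [mem_filter, mem_filter] at hi
    rw [mem_filter]
    exact ⟨hi.1.1, hi.2⟩

end Pool.Agent.Lib.MP_fed790_nt.PX
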