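import Pool.Agent.Lib.MP_fed790_nt.PX.Defs3

/-! D8b: class property of the pools -/

open Finset MeasureTheory

namespace Pool.Agent.Lib.MP_fed790_nt.PX

private lemma d8b_mem_Idx {k e j : ℕ} (he : e < En k) (hj : j < Jn k) :
    i₀ k + e * Jn k + j ∈ Idx k := by
  unfold Idx nn
  rw [mem_Ico]
  refine ⟨by omega, ?_⟩
  have : (e + 1) * Jn k ≤ En k * Jn k := Nat.mul_le_mul he le_rfl
  have h2 : (e + 1) * Jn k = e * Jn k + Jn k := by ring
  omega

private lemma d8b_c_pow {k : ℕ} {c : ℕ → ZMod k}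
    (hc : ∀ a b : ℕ, 0 < a → 0 < b → c (a * b) = c a + c b) {z : ℕ} (hz : 0 < z) :
    ∀ n : ℕ, c (z ^ (n + 1)) = ((n + 1 : ℕ) : ZMod k) * c z := by
  intro n
  induction n with
  | zero => simp
  | succ n ih =>
    rw [pow_succ, hc _ _ (by positivity) hz, ih]
    push_cast
    ring

private lemma d8b_ne_zero {k : ℕ} (hk : k.Prime) {c : ℕ → ZMod k} {N : ℕ} (hB : Bad k c N)
    {z : ℕ} (hz : 0 < z) (hN : z ^ k + 1 ≤ N) : c (z ^ k + 1) ≠ 0 := by
  intro h0
  refine hB.2 (z ^ k) (Nat.succ_le_of_lt (by positivity)) hN ⟨?_, h0⟩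
  obtain ⟨n, rfl⟩ : ∃ n, k = n + 1 := ⟨k - 1, by have := hk.pos; omega⟩
  rw [d8b_c_pow hB.1 hz n, ZMod.natCast_self, zero_mul]

private lemma d8b_jj_inj {k : ℕ} [NeZero k] (hk : k.Prime) {c : ℕ → ZMod k} {i : ℕ}
    (h0 : c (Zz k i ^ k + 1) ≠ 0) : Function.Injective (jj k c i) := by
  haveI : Fact k.Prime := ⟨hk⟩
  intro b b' h
  unfold jj at h
  have h1 := ZMod.val_injective k h
  have h2 : (c (Zz k i ^ k + 1))⁻¹ ≠ 0 := inv_ne_zero h0
  exact mul_right_cancel₀ h2 h1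

private lemma d8b_num (t : ℕ) (ht : 5 ≤ t) : 5 * t + 1 ≤ 2 ^ t := by
  induction t, ht using Nat.le_induction with
  | base => norm_num
  | succ n hn ih =>
    rw [pow_succ]
    omega

private lemma d8b_two {k : ℕ} (hk : 2 ≤ k) : 2 * hh k ^ 5 ≤ 2 ^ hh k := by
  unfold hh
  have ht : 140 ≤ tt k := by
    unfold tt
    have : 0 < Nat.clog 2 k := Nat.clog_pos (by norm_num) hk
    omega
  have h1 := d8b_num (tt k) (by omega)
  have h2 : 2 * (2 ^ tt k) ^ 5 = 2 ^ (5 * tt k + 1) := by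
    rw [← pow_mul, pow_succ, mul_comm (tt k) 5, mul_comm]
  rw [h2]
  exact Nat.pow_le_pow_right (by norm_num) h1

/-- the case of a prime dividing `M` -/
private lemma d8b_same {h M p v i i' : ℕ} (hp : p.Prime) (hh0 : 0 < h) (hM0 : M ≠ 0)
    (hv : v = M.factorization p) (hvh : h ≤ v)
    (hi : 0 < i) (hi2 : i ≤ 2 ^ h) (hi' : 0 < i') (hi2' : i' ≤ 2 ^ h)
    (hdvd : ((p ^ (2 * h * v + 1) : ℕ) : ℤ) ∣
      ((1 + (M * i) ^ h : ℕ) : ℤ) - ((1 + (M * i') ^ h : ℕ) : ℤ)) : i = i' := by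
  obtain ⟨m, hm⟩ : p ^ v ∣ M := hv ▸ Nat.ordProj_dvd M p
  have hpm : ¬ p ∣ m := by
    intro hpm
    obtain ⟨m', rfl⟩ := hpm
    have h1 : p ^ (v + 1) ∣ M := ⟨m', by rw [hm, pow_succ]; ring⟩
    have h2 := (hp.pow_dvd_iff_le_factorization hM0).1 h1
    omega
  have e1 : ((1 + (M * i) ^ h : ℕ) : ℤ) - ((1 + (M * i') ^ h : ℕ) : ℤ) =
      (p : ℤ) ^ (h * v) * ((m : ℤ) ^ h * ((i : ℤ) ^ h - (i' : ℤ) ^ h)) := by
    rw [hm]
    push_cast
    rw [mul_comm h v, pow_mul]
    ring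
  have e2 : ((p ^ (2 * h * v + 1) : ℕ) : ℤ) = (p : ℤ) ^ (h * v) * (p : ℤ) ^ (h * v + 1) := by
    push_cast
    rw [← pow_add]
    congr 1
    ring
  rw [e1, e2] at hdvd
  have hp0 : (p : ℤ) ^ (h * v) ≠ 0 := pow_ne_zero _ (by exact_mod_cast hp.ne_zero)
  have h3 := (mul_dvd_mul_iff_left hp0).1 hdvd
  have hcop : IsCoprime ((p : ℤ) ^ (h * v + 1)) ((m : ℤ) ^ h) := by
    refine IsCoprime.pow ?_
    exact Nat.isCoprime_iff_coprime.2 ((Nat.Prime.coprime_iff_not_dvd hp).2 hpm)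
  have h4 := hcop.dvd_of_dvd_mul_left h3
  have hbound : |(i : ℤ) ^ h - (i' : ℤ) ^ h| < (p : ℤ) ^ (h * v + 1) := by
    have b1 : (i : ℤ) ^ h ≤ ((2 : ℤ) ^ h) ^ h := pow_le_pow_left₀ (by positivity)
      (by exact_mod_cast hi2) h
    have b2 : (i' : ℤ) ^ h ≤ ((2 : ℤ) ^ h) ^ h := pow_le_pow_left₀ (by positivity)
      (by exact_mod_cast hi2') h
    have b3 : (0 : ℤ) < (i : ℤ) ^ h := by positivity
    have b4 : (0 : ℤ) < (i' : ℤ) ^ h := by positivity
    have b5 : ((2 : ℤ) ^ h) ^ h ≤ (p : ℤ) ^ (h * v + 1) := by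
      rw [← pow_mul]
      have c1 : (2 : ℤ) ^ (h * h) ≤ (p : ℤ) ^ (h * h) := pow_le_pow_left₀ (by norm_num)
        (by exact_mod_cast hp.two_le) _
      have c2 : (p : ℤ) ^ (h * h) ≤ (p : ℤ) ^ (h * v + 1) := by
        refine pow_le_pow_right₀ (by exact_mod_cast hp.one_lt.le) ?_
        have := Nat.mul_le_mul_left h hvh
        omega
      exact c1.trans c2
    rw [abs_lt]
    constructor <;> linarith
  have h5 : (i : ℤ) ^ h - (i' : ℤ) ^ h = 0 := Int.eq_zero_of_abs_lt_dvd h4 hbound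
  have h6 : (i : ℤ) ^ h = (i' : ℤ) ^ h := by linarith
  have h7 : i ^ h = i' ^ h := by exact_mod_cast h6
  exact Nat.pow_left_injective hh0.ne' h7

/-- (Job PX D8b) Proof.  `h = hh k`, `J = h²`.  Since `q ∤ M^(2h)` there is a prime `p` with `v_p(q) > 2h v_p(M)`
(`Nat.factorization_prime_le_iff_dvd`-like).
Case `p ∤ M`: then `p ∣ q` and `p > h²` (D0: all primes `≤ h²` divide `M`), so `J/p = 0`.  For fixed `i` the map `b ↦ jj k c i b`
is injective into `{0,…,k-1}` (`c (Z^k+1)` is a unit, as in D7), so the number of `(j', b)` in the class is at most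
`∑_{j ≤ k-1} #{i in the block : p ∣ λ_i (Z^k+1)^j (Z+1)^(k(k-1-j)) - a} ≤ k · h k²` (D8a).  `k²⁶ · h k³ ≤ h² k`.
Case `p ∣ M`, `v = v_p(M) ≥ h` (D0: `p^h ∣ M`): if `(i,b)`, `(i',b')` are in the class then `p^(2hv+1)` divides
`kap i b - kap i' b'`; it also divides `X` (`M^(4h) ∣ X`, `4hv ≥ 2hv+1`), so by D6 it divides
`λ_i - λ_i' = M^h (i^h - i'^h)`, so `p^(hv+1) ∣ i^h - i'^h`, but `|i^h - i'^h| < (2h⁵)^h ≤ (2^h)^h ≤ p^(hv)`
(`2h⁵ ≤ 2^h` since `h ≥ 2¹⁴⁰`), so `i = i'`.  So the class has at most `k` elements and `k²⁶ · k ≤ h² k`. -/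
theorem tD8b (hD0 : S_D0) (hD6 : S_D6) (hD8a : S_D8a) : S_D8b := by
  intro k _ hkp c N hB hN e he q hq hqM a
  have hk : 2 ≤ k := hkp.two_le
  obtain ⟨g1, -, -, -, -, -, g7, -, g9, g10, -, g12, -, g14, -, -⟩ := hD0 k hk
  set h := hh k with hh_def
  have hhpos : 0 < h := by rw [hh_def]; unfold hh; positivity
  have hJ : Jn k = h ^ 2 := rfl
  have hM0 : Mm k ≠ 0 := by omega
  have hkpos : 0 < k := by omega
  -- the prime
  obtain ⟨p, hpf⟩ : ∃ p, (Mm k ^ (2 * h)).factorization p < q.factorization p := by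
    by_contra hcon
    push Not at hcon
    exact hqM ((Nat.factorization_le_iff_dvd hq.ne' (pow_ne_zero _ hM0)).1 hcon)
  have hpp : p.Prime := by
    by_contra hnp
    rw [Nat.factorization_eq_zero_of_not_prime q hnp] at hpf
    omega
  have hpfac : 2 * h * (Mm k).factorization p + 1 ≤ q.factorization p := by
    rw [Nat.factorization_pow] at hpf
    simpa using hpf
  have hpq : p ^ (2 * h * (Mm k).factorization p + 1) ∣ q :=
    (hpp.pow_dvd_iff_le_factorization hq.ne').2 hpfac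
  set Cl := (Finset.univ : Finset (Fin (Jn k) × ZMod k)).filter fun p =>
    (q : ℤ) ∣ (kap k c (i₀ k + e * Jn k + p.1) p.2 : ℤ) - a with hCl
  have hklarge : k ^ 28 ≤ h := (Nat.pow_le_pow_right hkpos (by norm_num)).trans g1
  by_cases hpM : p ∣ Mm k
  · -- same index
    have hv : h ≤ (Mm k).factorization p :=
      (hpp.pow_dvd_iff_le_factorization hM0).1 (g12 p hpp hpM)
    have hsame : ∀ x ∈ Cl, ∀ y ∈ Cl, x.1 = y.1 := by
      intro x hx y hy
      rw [hCl, mem_filter] at hx hy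
      have hxi := d8b_mem_Idx he x.1.2
      have hyi := d8b_mem_Idx he y.1.2
      have hx1 := (hD6 k hk c _ hxi x.2).1
      have hy1 := (hD6 k hk c _ hyi y.2).1
      have hpX : p ^ (2 * h * (Mm k).factorization p + 1) ∣ Xx k := by
        refine Dvd.dvd.trans ?_ g14
        have e1 : p ^ ((Mm k).factorization p * (4 * h)) ∣ Mm k ^ (4 * h) := by
          rw [pow_mul]
          exact pow_dvd_pow_of_dvd (Nat.ordProj_dvd _ _) _
        refine Dvd.dvd.trans (pow_dvd_pow _ ?_) e1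
        have : 1 ≤ (Mm k).factorization p := by omega
        nlinarith
      have d1 : ((p ^ (2 * h * (Mm k).factorization p + 1) : ℕ) : ℤ) ∣
          (kap k c (i₀ k + e * Jn k + x.1) x.2 : ℤ) - kap k c (i₀ k + e * Jn k + y.1) y.2 := by
        have t1 : ((p ^ (2 * h * (Mm k).factorization p + 1) : ℕ) : ℤ) ∣ (q : ℤ) :=
          Int.natCast_dvd_natCast.2 hpq
        have t2 := dvd_sub (t1.trans hx.2) (t1.trans hy.2)
        have t3 : (kap k c (i₀ k + e * Jn k + x.1) x.2 : ℤ) - kap k c (i₀ k + e * Jn k + y.1) y.2 =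
          ((kap k c (i₀ k + e * Jn k + x.1) x.2 : ℤ) - a) -
          ((kap k c (i₀ k + e * Jn k + y.1) y.2 : ℤ) - a) := by ring
        rw [t3]; exact t2
      have d2 : ((p ^ (2 * h * (Mm k).factorization p + 1) : ℕ) : ℤ) ∣
          (lam k (i₀ k + e * Jn k + x.1) : ℤ) - kap k c (i₀ k + e * Jn k + x.1) x.2 := by
        have t1 := (Nat.modEq_iff_dvd.1 hx1)
        exact (Int.natCast_dvd_natCast.2 hpX).trans t1
      have d3 : ((p ^ (2 * h * (Mm k).factorization p + 1) : ℕ) : ℤ) ∣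
          (lam k (i₀ k + e * Jn k + y.1) : ℤ) - kap k c (i₀ k + e * Jn k + y.1) y.2 := by
        have t1 := (Nat.modEq_iff_dvd.1 hy1)
        exact (Int.natCast_dvd_natCast.2 hpX).trans t1
      have d4 : ((p ^ (2 * h * (Mm k).factorization p + 1) : ℕ) : ℤ) ∣
          (lam k (i₀ k + e * Jn k + x.1) : ℤ) - lam k (i₀ k + e * Jn k + y.1) := by
        have t3 : (lam k (i₀ k + e * Jn k + x.1) : ℤ) - lam k (i₀ k + e * Jn k + y.1) =
          ((lam k (i₀ k + e * Jn k + x.1) : ℤ) - kap k c (i₀ k + e * Jn k + x.1) x.2) +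
          ((kap k c (i₀ k + e * Jn k + x.1) x.2 : ℤ) - kap k c (i₀ k + e * Jn k + y.1) y.2) -
          ((lam k (i₀ k + e * Jn k + y.1) : ℤ) - kap k c (i₀ k + e * Jn k + y.1) y.2) := by ring
        rw [t3]
        exact dvd_sub (dvd_add d2 d1) d3
      have hxb := g7 _ hxi
      have hyb := g7 _ hyi
      have h2 := d8b_two hk
      rw [← hh_def] at h2
      have key := d8b_same (h := h) (M := Mm k) (p := p) (v := (Mm k).factorization p)
        hpp hhpos hM0 rfl hv hxb.1 (hxb.2.trans h2) hyb.1 (hyb.2.trans h2) d4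
      apply Fin.ext
      omega
    have hcardCl : Cl.card ≤ k := by
      rcases Cl.eq_empty_or_nonempty with h0 | ⟨x, hx⟩
      · rw [h0]; simp
      · have hsub : Cl ⊆ ({x.1} : Finset (Fin (Jn k))) ×ˢ (Finset.univ : Finset (ZMod k)) := by
          intro y hy
          rw [mem_product]
          exact ⟨by rw [mem_singleton]; exact hsame y hy x hx, mem_univ _⟩
        have := Finset.card_le_card hsub
        rw [card_product, card_singleton, one_mul, Finset.card_univ, ZMod.card] at this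
        exact this
    refine Nat.mul_le_mul ?_ hcardCl
    rw [hJ]
    calc k ^ 26 ≤ k ^ 28 := Nat.pow_le_pow_right hkpos (by norm_num)
      _ ≤ h := hklarge
      _ = h ^ 1 := (pow_one h).symm
      _ ≤ h ^ 2 := Nat.pow_le_pow_right hhpos (by norm_num)
  · -- `p` does not divide `M`
    have hpbig : h ^ 2 < p := by
      by_contra hcon
      push Not at hcon
      exact hpM (g10 p hpp hcon)
    have hpq1 : p ∣ q := Dvd.dvd.trans (dvd_pow_self p (Nat.succ_ne_zero _)) hpq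
    let F : ℕ → Finset ℕ := fun j => (Ico (i₀ k + e * Jn k) (i₀ k + e * Jn k + Jn k)).filter
      fun i : ℕ => (p : ℤ) ∣
        ((lam k i * (Zz k i ^ k + 1) ^ j * (Zz k i + 1) ^ (k * (k - 1 - j)) : ℕ) : ℤ) - a
    have hF : ∀ j ∈ range k, (F j).card ≤ h * k ^ 2 := by
      intro j hj
      rw [mem_range] at hj
      have := hD8a k hk j (i₀ k + e * Jn k) (Jn k) p a (by omega) hpp hpM
      have hdiv : Jn k / p = 0 := Nat.div_eq_of_lt (by rw [hJ]; exact hpbig)
      rw [hdiv, zero_add, mul_one] at this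
      exact this
    let φ : Fin (Jn k) × ZMod k → ℕ × ℕ := fun x =>
      (jj k c (i₀ k + e * Jn k + x.1) x.2, i₀ k + e * Jn k + x.1)
    have hφinj : Set.InjOn φ Cl := by
      intro x _ y _ hxy
      have h1 : i₀ k + e * Jn k + (x.1 : ℕ) = i₀ k + e * Jn k + y.1 := congrArg Prod.snd hxy
      have h2 : jj k c (i₀ k + e * Jn k + x.1) x.2 = jj k c (i₀ k + e * Jn k + y.1) y.2 :=
        congrArg Prod.fst hxy
      have h3 : x.1 = y.1 := Fin.ext (by omega)
      rw [← h3] at h2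
      have hxi := d8b_mem_Idx he x.1.2
      have hZpos : 0 < Zz k (i₀ k + e * Jn k + x.1) := by
        unfold Zz
        have := (g7 _ hxi).1
        have hX : 0 < Xx k := (hD0 k hk).2.2.2.2.2.2.2.2.2.2.2.2.2.2.2
        positivity
      have hne := d8b_ne_zero hkp hB hZpos (hN _ hxi)
      exact Prod.ext h3 (d8b_jj_inj hkp hne h2)
    have himg : Cl.image φ ⊆ (range k).biUnion fun j => ({j} : Finset ℕ) ×ˢ F j := by
      intro y hy
      rw [mem_image] at hy
      obtain ⟨x, hx, rfl⟩ := hy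
      rw [hCl, mem_filter] at hx
      rw [mem_biUnion]
      have hjlt : jj k c (i₀ k + e * Jn k + x.1) x.2 < k := by
        unfold jj; exact ZMod.val_lt _
      refine ⟨jj k c (i₀ k + e * Jn k + x.1) x.2, mem_range.2 hjlt, ?_⟩
      rw [mem_product]
      refine ⟨mem_singleton_self _, ?_⟩
      rw [mem_filter, mem_Ico]
      refine ⟨⟨by simp [φ], by simp [φ]⟩, ?_⟩
      exact (Int.natCast_dvd_natCast.2 hpq1).trans hx.2
    have hcardCl : Cl.card ≤ k * (h * k ^ 2) := by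
      rw [← Finset.card_image_of_injOn hφinj]
      refine (Finset.card_le_card himg).trans ?_
      refine (Finset.card_biUnion_le).trans ?_
      calc ∑ j ∈ range k, (({j} : Finset ℕ) ×ˢ F j).card
          = ∑ j ∈ range k, (F j).card := by
            refine Finset.sum_congr rfl fun j _ => ?_
            rw [card_product, card_singleton, one_mul]
        _ ≤ ∑ _j ∈ range k, h * k ^ 2 := Finset.sum_le_sum hF
        _ = k * (h * k ^ 2) := by rw [Finset.sum_const, card_range, smul_eq_mul]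
    calc k ^ 26 * Cl.card ≤ k ^ 26 * (k * (h * k ^ 2)) := Nat.mul_le_mul_left _ hcardCl
      _ = k ^ 28 * (h * k) := by ring
      _ ≤ h * (h * k) := Nat.mul_le_mul_right _ hklarge
      _ = Jn k * k := by rw [hJ]; ring

end Pool.Agent.Lib.MP_fed790_nt.PX
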