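import Pool.Agent.Lib.MP_fed790_nt.PX.Defs3

/-! D9: sum of 1/q over the primes of a pool element -/

open Finset MeasureTheory

namespace Pool.Agent.Lib.MP_fed790_nt.PX

private lemma d9_sum_inv (n : ℕ) : ∀ P : Finset ℕ, P.card = n → (∀ m ∈ P, 0 < m) →
    ∑ m ∈ P, (1 : ℝ) / m ≤ ∑ i ∈ range n, (1 : ℝ) / ((i : ℝ) + 1) := by
  induction n with
  | zero =>
    intro P hP _
    rw [Finset.card_eq_zero] at hP
    subst hP
    simp
  | succ n ih =>
    intro P hP hpos
    have hne : P.Nonempty := by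
      rw [← Finset.card_pos, hP]; omega
    set M := P.max' hne with hM
    have hMP : M ∈ P := P.max'_mem hne
    have hsub : P ⊆ Icc 1 M := by
      intro m hm
      rw [mem_Icc]
      exact ⟨hpos m hm, P.le_max' m hm⟩
    have hcard : n + 1 ≤ M := by
      have := Finset.card_le_card hsub
      rw [hP, Nat.card_Icc] at this
      omega
    have h1 := ih (P.erase M) (by rw [Finset.card_erase_of_mem hMP, hP]; rfl)
      (fun m hm => hpos m (Finset.mem_of_mem_erase hm))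
    rw [← Finset.add_sum_erase P (fun m : ℕ => (1 : ℝ) / m) hMP, Finset.sum_range_succ, add_comm]
    refine add_le_add h1 ?_
    have h2 : ((n : ℝ) + 1) ≤ (M : ℝ) := by exact_mod_cast hcard
    exact one_div_le_one_div_of_le (by positivity) h2

private lemma d9_sum_log (P : Finset ℕ) (hpos : ∀ m ∈ P, 0 < m) :
    ∑ m ∈ P, (1 : ℝ) / m ≤ 1 + Real.log P.card := by
  refine (d9_sum_inv P.card P rfl hpos).trans ?_
  have h := harmonic_le_one_add_log P.card
  refine le_trans (le_of_eq ?_) h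
  unfold harmonic
  push_cast
  refine Finset.sum_congr rfl fun i _ => ?_
  rw [one_div]

private lemma d9_jj_lt {k : ℕ} (hk : 2 ≤ k) (c : ℕ → ZMod k) (i : ℕ) (b : ZMod k) :
    jj k c i b < k := by
  haveI : NeZero k := ⟨by omega⟩
  unfold jj
  exact ZMod.val_lt _

private lemma d9_kap_pos (k : ℕ) (c : ℕ → ZMod k) (i : ℕ) (b : ZMod k) :
    0 < kap k c i b := by
  unfold kap lam
  positivity

private lemma d9_kap_le {k : ℕ} (hk : 2 ≤ k) (c : ℕ → ZMod k) (i : ℕ) (b : ZMod k) :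
    kap k c i b ≤ kst k i := by
  unfold kap kst
  have hj := d9_jj_lt hk c i b
  refine Nat.mul_le_mul (Nat.mul_le_mul le_rfl ?_) ?_
  · exact Nat.pow_le_pow_right (Nat.succ_pos _) hj.le
  · refine Nat.pow_le_pow_right (Nat.succ_pos _) ?_
    exact Nat.mul_le_mul le_rfl (by omega)

/-- (Job PX D9) Proof.  Let `Q = (kap k c i b).primeFactors`, all `q ∈ Q` are distinct, `≥ 2`, `2h ∣ q - 1`, so `q ↦ (q-1)/(2h)` is injective into the
positive integers and `∑ 1/q ≤ (1/(2h)) ∑_{m=1}^{#Q} 1/m ≤ (1 + log #Q)/(2h)` (sort, or: for a finite set `P` of positive integers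
`∑_{m∈P} 1/m ≤ H_{#P}`, by induction removing the maximum; `harmonic_le_one_add_log`).
`2 ^ #Q ≤ ∏ Q ≤ kap ≤ kst k i ≤ 2 ^ h²²` so `#Q ≤ h²²`; `log h = tt k · log 2 ≤ 140k`; so the sum is at most
`(1 + 22·140 k)/(2 k¹⁴⁰) ≤ 1/k⁷⁰`. -/
theorem tD9 (hD0 : S_D0) (hD3 : S_D3) (hD11 : S_D11) : S_D9 := by
  intro k hk c i hi b
  obtain ⟨h1, -, h3, -⟩ := hD0 k hk
  have hQ3 := hD3 k hk c i hi b
  obtain ⟨-, -, -, -, -, -, -, -, h9⟩ := hD11 k hk
  have hkst := h9 i hi
  set h := hh k with hh_def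
  have hhpos : 0 < h := by
    rw [hh_def]; unfold hh; positivity
  set Q := (kap k c i b).primeFactors with hQdef
  -- the map
  let f : ℕ → ℕ := fun q => (q - 1) / (2 * h)
  have hprime : ∀ q ∈ Q, q.Prime := fun q hq => Nat.prime_of_mem_primeFactors hq
  have hdiv : ∀ q ∈ Q, 2 * h ∣ q - 1 := fun q hq =>
    hQ3 q (hprime q hq) (Nat.dvd_of_mem_primeFactors hq)
  have hfq : ∀ q ∈ Q, 2 * h * f q = q - 1 := fun q hq => Nat.mul_div_cancel' (hdiv q hq)
  have hinj : Set.InjOn f Q := by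
    intro q hq q' hq' hqq
    have e1 := hfq q hq
    have e2 := hfq q' hq'
    have e3 := (hprime q hq).two_le
    have e4 := (hprime q' hq').two_le
    rw [hqq] at e1
    omega
  have hfpos : ∀ q ∈ Q, 0 < f q := by
    intro q hq
    have e1 := hfq q hq
    have e3 := (hprime q hq).two_le
    rcases Nat.eq_zero_or_pos (f q) with h0 | h0
    · rw [h0] at e1; simp at e1; omega
    · exact h0
  have hterm : ∀ q ∈ Q, (1 : ℝ) / q ≤ (1 / (2 * (h : ℝ))) * (1 / (f q : ℝ)) := by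
    intro q hq
    have e1 := hfq q hq
    have e0 := hfpos q hq
    have e2 : 2 * h * f q ≤ q := by omega
    have e3 : (2 * (h : ℝ)) * (f q : ℝ) ≤ (q : ℝ) := by exact_mod_cast e2
    rw [one_div_mul_one_div]
    have : (0 : ℝ) < (f q : ℝ) := by exact_mod_cast e0
    have : (0 : ℝ) < (h : ℝ) := by exact_mod_cast hhpos
    exact one_div_le_one_div_of_le (by positivity) e3
  have hsum : ∑ q ∈ Q, (1 : ℝ) / q ≤ (1 / (2 * (h : ℝ))) * (1 + Real.log Q.card) := by
    refine (Finset.sum_le_sum hterm).trans ?_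
    rw [← Finset.mul_sum]
    refine mul_le_mul_of_nonneg_left ?_ (by positivity)
    have e1 : ∑ q ∈ Q, (1 : ℝ) / (f q : ℝ) = ∑ m ∈ Q.image f, (1 : ℝ) / (m : ℝ) := by
      rw [Finset.sum_image]
      exact fun x hx y hy hxy => hinj hx hy hxy
    rw [e1]
    refine (d9_sum_log (Q.image f) ?_).trans ?_
    · intro m hm
      rw [Finset.mem_image] at hm
      obtain ⟨q, hq, rfl⟩ := hm
      exact hfpos q hq
    · rw [Finset.card_image_of_injOn hinj]
  -- the cardinality
  have hcard : Q.card ≤ h ^ 22 := by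
    have e1 : 2 ^ Q.card ≤ ∏ q ∈ Q, q := by
      refine Finset.pow_card_le_prod Q (fun q => q) 2 ?_
      intro q hq
      exact (hprime q hq).two_le
    have e2 : ∏ q ∈ Q, q ≤ kap k c i b :=
      Nat.le_of_dvd (d9_kap_pos k c i b) (Nat.prod_primeFactors_dvd _)
    have e3 := d9_kap_le hk c i b
    have e4 : 2 ^ Q.card ≤ 2 ^ h ^ 22 := e1.trans (e2.trans (e3.trans hkst))
    exact (Nat.pow_le_pow_iff_right (by norm_num)).1 e4
  have hlog : Real.log Q.card ≤ 22 * (140 * (k : ℝ)) := by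
    have hklog : Real.log (h : ℝ) ≤ 140 * (k : ℝ) := by
      have e1 : (h : ℝ) = (2 : ℝ) ^ tt k := by
        rw [hh_def]; unfold hh; push_cast; rfl
      rw [e1, Real.log_pow]
      have e2 : (tt k : ℝ) ≤ 140 * (k : ℝ) := by exact_mod_cast h3
      have e3 : Real.log 2 ≤ 1 := by
        have := Real.log_two_lt_d9; linarith
      have e4 : 0 ≤ Real.log 2 := Real.log_nonneg (by norm_num)
      have e5 : (0 : ℝ) ≤ (tt k : ℝ) := Nat.cast_nonneg _
      nlinarith
    rcases Nat.eq_zero_or_pos Q.card with h0 | h0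
    · rw [h0]
      simp only [Nat.cast_zero, Real.log_zero]
      positivity
    · have e1 : Real.log (Q.card : ℝ) ≤ Real.log ((h : ℝ) ^ 22) := by
        refine Real.log_le_log (by exact_mod_cast h0) ?_
        exact_mod_cast hcard
      rw [Real.log_pow] at e1
      push_cast at e1
      linarith
  -- numerics
  have hk2 : (2 : ℝ) ≤ (k : ℝ) := by exact_mod_cast hk
  have hh1 : (k : ℝ) ^ 140 ≤ (h : ℝ) := by exact_mod_cast h1
  have hkpos : (0 : ℝ) < (k : ℝ) := by linarith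
  have hhp : (0 : ℝ) < (h : ℝ) := by exact_mod_cast hhpos
  refine hsum.trans ?_
  have e1 : (1 / (2 * (h : ℝ))) * (1 + Real.log Q.card) ≤
      (1 / (2 * (h : ℝ))) * (3081 * (k : ℝ)) := by
    refine mul_le_mul_of_nonneg_left ?_ (by positivity)
    linarith
  refine e1.trans ?_
  rw [one_div_mul_eq_div, div_le_div_iff₀ (by positivity) (by positivity)]
  have e2 : (3081 : ℝ) ≤ 2 * (k : ℝ) ^ 69 := by
    have : (2 : ℝ) ^ 69 ≤ (k : ℝ) ^ 69 := pow_le_pow_left₀ (by norm_num) hk2 69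
    norm_num at this ⊢
    linarith
  have e3 : 3081 * (k : ℝ) * (k : ℝ) ^ 70 ≤ 2 * (k : ℝ) ^ 69 * ((k : ℝ) * (k : ℝ) ^ 70) := by
    rw [mul_assoc]
    exact mul_le_mul_of_nonneg_right e2 (by positivity)
  have e4 : 2 * (k : ℝ) ^ 69 * ((k : ℝ) * (k : ℝ) ^ 70) = 2 * (k : ℝ) ^ 140 := by ring
  rw [e4] at e3
  linarith

end Pool.Agent.Lib.MP_fed790_nt.PX
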