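import Mathlib

/-!
# Program PX (MP_fed790_nt): `Λ(k,2) ≤ 2 ^ (k ^ C)` for all primes `k`

Definitions and statements (`S_xx : Prop`) of the analytic part.
-/

open Finset MeasureTheory

namespace Pool.Agent.Lib.MP_fed790_nt.PX

/-- The circle `ℝ/ℤ`. -/
abbrev T : Type := UnitAddCircle

/-- The Dirichlet kernel `D_n(x) = ∑_{t<n} e(tx)`. -/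
noncomputable def D (n : ℕ) (x : T) : ℂ := ∑ t ∈ range n, fourier (t : ℤ) x

/-- The exponential sum `F(α) = ∑_{1 ≤ ω ≤ W} a_ω e(ωα)`. -/
noncomputable def Fs (a : ℕ → ℂ) (W : ℕ) (α : T) : ℂ :=
  ∑ ω ∈ Icc 1 W, a ω * fourier (ω : ℤ) α

/-- `Φ(θ) = ∑_p κ_p u_p e(ν_p θ) F(κ_p θ)`. -/
noncomputable def Phi {ι : Type} [Fintype ι] (κ : ι → ℕ) (u : ι → ℂ) (ν : ι → ℤ)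
    (a : ℕ → ℂ) (W : ℕ) (θ : T) : ℂ :=
  ∑ p, (κ p : ℂ) * u p * fourier (ν p) θ * Fs a W (κ p • θ)

/-- The coefficients of `Φ`: `φ(d) = ∑_p κ_p u_p ∑_{ω, ν_p + κ_p ω = d} a_ω`. -/
noncomputable def phi {ι : Type} [Fintype ι] (κ : ι → ℕ) (u : ι → ℂ) (ν : ι → ℤ)
    (a : ℕ → ℂ) (W : ℕ) (d : ℤ) : ℂ :=
  ∑ p, (κ p : ℂ) * u p * ∑ ω ∈ Icc 1 W, if d = ν p + κ p * ω then a ω else 0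

/-! ## Block A: the circle -/

/-- A1: orthogonality. -/
def S_A1 : Prop := ∀ n : ℤ, ∫ x : T, fourier n x = if n = 0 then (1 : ℂ) else 0

/-- A2: the two bounds for the Dirichlet kernel (`2‖x‖ ≤ |sin πx|`). -/
def S_A2 : Prop := ∀ (n : ℕ) (x : T), ‖D n x‖ ≤ n ∧ ‖D n x‖ * (2 * ‖x‖) ≤ 1

/-- A3: the transfer identity. -/
def S_A3 : Prop := ∀ (κ : ℕ) (u : ℤ) (g : T → ℝ), 0 < κ → Measurable g →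
  (∃ B : ℝ, ∀ x, |g x| ≤ B) →
  ∫ θ : T, fourier u θ * (g (κ • θ) : ℂ) =
    if (κ : ℤ) ∣ u then ∫ α : T, fourier (u / κ) α * (g α : ℂ) else 0

/-- A4: the double transfer identity. -/
def S_A4 : Prop := ∀ (κ₁ κ₂ V : ℕ) (g₁ g₂ : T → ℝ), 0 < κ₁ → 0 < κ₂ → κ₁.Coprime κ₂ →
  Measurable g₁ → Measurable g₂ → (∃ B : ℝ, ∀ x, |g₁ x| ≤ B) → (∃ B : ℝ, ∀ x, |g₂ x| ≤ B) →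
  ∫ θ₁ : T, ∫ θ₂ : T, ‖D (κ₁ * κ₂ * V) (θ₁ - θ₂)‖ ^ 2 * (g₁ (κ₁ • θ₁) * g₂ (κ₂ • θ₂)) =
    κ₁ * κ₂ * ∫ α : T, ∫ β : T, ‖D V (κ₂ • α - κ₁ • β)‖ ^ 2 * (g₁ α * g₂ β)

/-- A5: the two-dimensional Bessel inequality. -/
def S_A5 : Prop := ∀ (ι₁ ι₂ : Type) [Fintype ι₁] [Fintype ι₂] (κ₁ : ι₁ → ℕ) (κ₂ : ι₂ → ℕ)
  (u₁ : ι₁ → ℂ) (u₂ : ι₂ → ℂ) (ν₁ : ι₁ → ℤ) (ν₂ : ι₂ → ℤ) (a₁ a₂ : ℕ → ℂ) (W ℓ : ℕ) (w : ℤ),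
  ∑ y ∈ range ℓ, ∑ y' ∈ range ℓ, ‖∑ x ∈ range ℓ, phi κ₁ u₁ ν₁ a₁ W (w + x - y) *
      (starRingEnd ℂ) (phi κ₂ u₂ ν₂ a₂ W (w + x - y'))‖ ^ 2 ≤
    ∫ θ₁ : T, ∫ θ₂ : T, ‖D ℓ (θ₁ - θ₂)‖ ^ 2 *
      (‖Phi κ₁ u₁ ν₁ a₁ W θ₁‖ ^ 2 * ‖Phi κ₂ u₂ ν₂ a₂ W θ₂‖ ^ 2)

/-- A6: the measure of the major arcs. -/
def S_A6 : Prop := ∀ (M : ℕ) (δ : ℝ), 0 < M → 0 ≤ δ →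
  (volume : Measure T).real {θ : T | ‖M • θ‖ ≤ δ} ≤ 2 * δ

/-- A7: `∫ |D_ℓ|² = ℓ`. -/
def S_A7 : Prop := ∀ (ℓ : ℕ) (x : T), ∫ y : T, ‖D ℓ (x - y)‖ ^ 2 = (ℓ : ℝ)

/-- A8: `∫ |F|² ≤ W`. -/
def S_A8 : Prop := ∀ (a : ℕ → ℂ) (W : ℕ), (∀ ω, ‖a ω‖ ≤ 1) → ∫ α : T, ‖Fs a W α‖ ^ 2 ≤ (W : ℝ)

/-! ## Block B: the collision lemma -/

/-- B1: if many `κ_p α` lie in one short arc then `α` is close to `(1/M₂)ℤ`. -/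
def S_B1 : Prop := ∀ (ι : Type) [Fintype ι] (κ : ι → ℕ) (K I M₂ : ℕ) (ε δ : ℝ),
  0 < K → 0 < I → 0 ≤ δ → 0 ≤ ε →
  (∀ p, K ≤ κ p ∧ κ p ≤ 2 * K) →
  (∀ p₀, (((univ.filter fun p => I * ((κ p : ℤ) - κ p₀).natAbs < K).card : ℕ) : ℝ)
    ≤ ε * Fintype.card ι) →
  (∀ q : ℕ, 0 < q → ¬ q ∣ M₂ → ∀ a : ℤ, (((univ.filter fun p => (q : ℤ) ∣ (κ p : ℤ) - a).card : ℕ) : ℝ)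
    ≤ ε * Fintype.card ι) →
  2 * K * δ * (1 + I) < 1 →
  ∀ α γ : T, ε * Fintype.card ι < (((univ.filter fun p => ‖κ p • α - γ‖ ≤ δ).card : ℕ) : ℝ) →
    ‖M₂ • α‖ ≤ M₂ * (2 * δ * I / K)

/-! ## Block C: the main analytic estimate -/

/-- C2: minor arcs. `g₁` lives on the set where collisions of the second pool are rare. -/
def S_C2 : Prop := ∀ (ι : Type) [Fintype ι] (κ₁ : ℕ) (κ₂ : ι → ℕ) (K ℓ : ℕ) (ε A : ℝ)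
  (g₁ g₂ : T → ℝ) (B : ℝ), 0 < K → 0 < ℓ → 0 ≤ ε → 0 < A →
  (K ≤ κ₁ ∧ κ₁ ≤ 2 * K) → (∀ p, K ≤ κ₂ p ∧ κ₂ p ≤ 2 * K) →
  (∀ p, κ₁.Coprime (κ₂ p)) → (∀ p, κ₁ * κ₂ p ∣ ℓ) →
  Measurable g₁ → Measurable g₂ → (∀ x, 0 ≤ g₁ x ∧ g₁ x ≤ B) → (∀ x, 0 ≤ g₂ x ∧ g₂ x ≤ B) →
  (∀ α, g₁ α ≠ 0 → ∀ γ : T,
    (((univ.filter fun p => ‖κ₂ p • α - γ‖ ≤ 4 * K ^ 2 * A / ℓ).card : ℕ) : ℝ)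
      ≤ ε * Fintype.card ι) →
  ∑ p, ((κ₁ : ℝ) * κ₂ p) ^ 2 * ∫ θ₁ : T, ∫ θ₂ : T, ‖D ℓ (θ₁ - θ₂)‖ ^ 2 *
      (g₁ (κ₁ • θ₁) * g₂ (κ₂ p • θ₂)) ≤
    Fintype.card ι * (4 * K ^ 2 * ℓ ^ 2 * (ε + 1 / (4 * A ^ 2))) * ((∫ α : T, g₁ α) * ∫ β : T, g₂ β)

/-- C3: both images major but `θ₁` not major: then `θ₁, θ₂` are not close. -/
def S_C3 : Prop := ∀ (κ₁ κ₂ K M₂ ℓ : ℕ) (δ₂ : ℝ), 0 < K → 0 < M₂ → 0 ≤ δ₂ →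
  (K ≤ κ₁ ∧ κ₁ ≤ 2 * K) → (K ≤ κ₂ ∧ κ₂ ≤ 2 * K) → κ₁.Coprime κ₂ → 8 * K ^ 2 * δ₂ < 1 / 4 →
  ∀ θ₁ θ₂ : T, ‖M₂ • (κ₁ • θ₁)‖ ≤ δ₂ → ‖M₂ • (κ₂ • θ₂)‖ ≤ δ₂ → δ₂ / K < ‖M₂ • θ₁‖ →
    ‖D ℓ (θ₁ - θ₂)‖ ≤ 16 * M₂ * K ^ 3

/-- C4: on the major arcs the average over the colours kills the sum. -/
def S_C4 : Prop := ∀ (ι : Type) [Fintype ι] (k : ℕ) [NeZero k] (κ : ι × ZMod k → ℕ)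
  (u : ι → ℂ) (ψ : ZMod k → ℂ) (ν : ι × ZMod k → ℤ) (a : ℕ → ℂ) (W K M₂ : ℕ) (η₀ δ₁ : ℝ),
  0 < K → 0 < M₂ → 0 < W → 0 ≤ η₀ → 0 ≤ δ₁ →
  (∀ p, K ≤ κ p ∧ κ p ≤ 2 * K) → (∀ i, ‖u i‖ ≤ 1) → (∀ b, ‖ψ b‖ ≤ 1) → (∀ ω, ‖a ω‖ ≤ 1) →
  ∑ b, ψ b = 0 →
  (∀ i b, (M₂ : ℤ) ∣ (κ (i, b) : ℤ) - κ (i, 0) ∧ |((κ (i, b) : ℝ) - κ (i, 0))| ≤ K * η₀) →
  (∀ i b, (M₂ : ℤ) ∣ ν (i, b) - ν (i, 0) ∧ |((ν (i, b) : ℝ) - ν (i, 0))| ≤ K * η₀) →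
  ∀ θ : T, ‖M₂ • θ‖ ≤ δ₁ →
    ‖Phi κ (fun p => u p.1 * ψ p.2) ν a W θ‖ ≤
      Fintype.card (ι × ZMod k) * (K * W * (η₀ * (1 + 8 * Real.pi * K * W * δ₁ / M₂)))

/-- C5a: Cauchy-Schwarz for `Φ`. -/
def S_C5a : Prop := ∀ (ι : Type) [Fintype ι] (κ : ι → ℕ) (u : ι → ℂ) (ν : ι → ℤ) (a : ℕ → ℂ)
  (W : ℕ) (θ : T), (∀ p, ‖u p‖ ≤ 1) →
  ‖Phi κ u ν a W θ‖ ^ 2 ≤ Fintype.card ι * ∑ p, (κ p : ℝ) ^ 2 * ‖Fs a W (κ p • θ)‖ ^ 2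

/-- C5m: the contribution of the pairs where `κ₁ θ₁` is minor. -/
def S_C5m : Prop := ∀ (ι₁ ι₂ : Type) [Fintype ι₁] [Fintype ι₂] (κ₁ : ι₁ → ℕ) (κ₂ : ι₂ → ℕ)
  (a : ℕ → ℂ) (W ℓ K I M₂ : ℕ) (ε A : ℝ),
  0 < K → 0 < I → 0 < M₂ → 0 < ℓ → 0 ≤ ε → 0 < A →
  (∀ p, K ≤ κ₁ p ∧ κ₁ p ≤ 2 * K) → (∀ p, K ≤ κ₂ p ∧ κ₂ p ≤ 2 * K) →
  (∀ p q, (κ₁ p).Coprime (κ₂ q)) → (∀ p q, κ₁ p * κ₂ q ∣ ℓ) → (∀ ω, ‖a ω‖ ≤ 1) →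
  (∀ p₀, (((univ.filter fun p => I * ((κ₂ p : ℤ) - κ₂ p₀).natAbs < K).card : ℕ) : ℝ)
    ≤ ε * Fintype.card ι₂) →
  (∀ q : ℕ, 0 < q → ¬ q ∣ M₂ → ∀ a : ℤ, (((univ.filter fun p => (q : ℤ) ∣ (κ₂ p : ℤ) - a).card : ℕ) : ℝ)
    ≤ ε * Fintype.card ι₂) →
  8 * (K : ℝ) ^ 3 * A * (1 + I) < ℓ →
  ∑ p, ∑ q, ((κ₁ p : ℝ) * κ₂ q) ^ 2 * ∫ θ₁ : T, ∫ θ₂ : T, ‖D ℓ (θ₁ - θ₂)‖ ^ 2 *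
      ((if ‖M₂ • (κ₁ p • θ₁)‖ ≤ M₂ * (8 * K * A * I / ℓ) then 0 else ‖Fs a W (κ₁ p • θ₁)‖ ^ 2) *
        ‖Fs a W (κ₂ q • θ₂)‖ ^ 2) ≤
    Fintype.card ι₁ * Fintype.card ι₂ * (4 * K ^ 2 * ℓ ^ 2 * (ε + 1 / (4 * A ^ 2))) * (W : ℝ) ^ 2

/-- C5n: the contribution of the pairs where `κ₂ θ₂` is minor. -/
def S_C5n : Prop := ∀ (ι₁ ι₂ : Type) [Fintype ι₁] [Fintype ι₂] (κ₁ : ι₁ → ℕ) (κ₂ : ι₂ → ℕ)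
  (a : ℕ → ℂ) (W ℓ K I M₂ : ℕ) (ε A : ℝ),
  0 < K → 0 < I → 0 < M₂ → 0 < ℓ → 0 ≤ ε → 0 < A →
  (∀ p, K ≤ κ₁ p ∧ κ₁ p ≤ 2 * K) → (∀ p, K ≤ κ₂ p ∧ κ₂ p ≤ 2 * K) →
  (∀ p q, (κ₁ p).Coprime (κ₂ q)) → (∀ p q, κ₁ p * κ₂ q ∣ ℓ) → (∀ ω, ‖a ω‖ ≤ 1) →
  (∀ p₀, (((univ.filter fun p => I * ((κ₁ p : ℤ) - κ₁ p₀).natAbs < K).card : ℕ) : ℝ)
    ≤ ε * Fintype.card ι₁) →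
  (∀ q : ℕ, 0 < q → ¬ q ∣ M₂ → ∀ a : ℤ, (((univ.filter fun p => (q : ℤ) ∣ (κ₁ p : ℤ) - a).card : ℕ) : ℝ)
    ≤ ε * Fintype.card ι₁) →
  8 * (K : ℝ) ^ 3 * A * (1 + I) < ℓ →
  ∑ p, ∑ q, ((κ₁ p : ℝ) * κ₂ q) ^ 2 * ∫ θ₁ : T, ∫ θ₂ : T, ‖D ℓ (θ₁ - θ₂)‖ ^ 2 *
      (‖Fs a W (κ₁ p • θ₁)‖ ^ 2 *
        (if ‖M₂ • (κ₂ q • θ₂)‖ ≤ M₂ * (8 * K * A * I / ℓ) then 0 else ‖Fs a W (κ₂ q • θ₂)‖ ^ 2)) ≤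
    Fintype.card ι₁ * Fintype.card ι₂ * (4 * K ^ 2 * ℓ ^ 2 * (ε + 1 / (4 * A ^ 2))) * (W : ℝ) ^ 2

/-- C5o: the contribution of one pair where both images are major but `θ₁` is not. -/
def S_C5o : Prop := ∀ (κ₁ κ₂ : ℕ) (a : ℕ → ℂ) (W ℓ K M₂ : ℕ) (δ₂ : ℝ),
  0 < K → 0 < M₂ → 0 ≤ δ₂ → (K ≤ κ₁ ∧ κ₁ ≤ 2 * K) → (K ≤ κ₂ ∧ κ₂ ≤ 2 * K) →
  κ₁.Coprime κ₂ → 8 * K ^ 2 * δ₂ < 1 / 4 → (∀ ω, ‖a ω‖ ≤ 1) →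
  ∫ θ₁ : T, ∫ θ₂ : T, ‖D ℓ (θ₁ - θ₂)‖ ^ 2 *
      (if ‖M₂ • (κ₁ • θ₁)‖ ≤ δ₂ ∧ ‖M₂ • (κ₂ • θ₂)‖ ≤ δ₂ ∧ δ₂ / K < ‖M₂ • θ₁‖ then
        ‖Fs a W (κ₁ • θ₁)‖ ^ 2 * ‖Fs a W (κ₂ • θ₂)‖ ^ 2 else 0) ≤
    (16 * M₂ * K ^ 3) ^ 2 * (W : ℝ) ^ 2

/-- C5g: the contribution of the major `θ₁`. -/
def S_C5g : Prop := ∀ (ι₁ ι₂ : Type) [Fintype ι₁] [Fintype ι₂] (κ₁ : ι₁ → ℕ) (κ₂ : ι₂ → ℕ)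
  (u₁ : ι₁ → ℂ) (u₂ : ι₂ → ℂ) (ν₁ : ι₁ → ℤ) (ν₂ : ι₂ → ℤ) (a : ℕ → ℂ)
  (W ℓ K M₂ : ℕ) (η δ₁ : ℝ),
  0 < K → 0 < M₂ → 0 ≤ η → 0 ≤ δ₁ →
  (∀ p, κ₂ p ≤ 2 * K) → (∀ p, ‖u₂ p‖ ≤ 1) → (∀ ω, ‖a ω‖ ≤ 1) →
  (∀ θ : T, ‖M₂ • θ‖ ≤ δ₁ → ‖Phi κ₁ u₁ ν₁ a W θ‖ ≤ Fintype.card ι₁ * (K * W * η)) →
  ∫ θ₁ : T, ∫ θ₂ : T, ‖D ℓ (θ₁ - θ₂)‖ ^ 2 *
      (if ‖M₂ • θ₁‖ ≤ δ₁ then ‖Phi κ₁ u₁ ν₁ a W θ₁‖ ^ 2 * ‖Phi κ₂ u₂ ν₂ a W θ₂‖ ^ 2 else 0) ≤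
    (Fintype.card ι₁ * (K * W * η)) ^ 2 * (Fintype.card ι₂ * (2 * K * W)) ^ 2 * (2 * δ₁) * ℓ

/-- C5: the main analytic estimate. -/
def S_C5 : Prop := ∀ (ι₁ ι₂ : Type) [Fintype ι₁] [Fintype ι₂] (κ₁ : ι₁ → ℕ) (κ₂ : ι₂ → ℕ)
  (u₁ : ι₁ → ℂ) (u₂ : ι₂ → ℂ) (ν₁ : ι₁ → ℤ) (ν₂ : ι₂ → ℤ) (a : ℕ → ℂ)
  (W ℓ K I M₂ : ℕ) (ε A L η : ℝ),
  0 < K → 0 < I → 0 < M₂ → 0 < W → 0 < ℓ → 0 ≤ ε → 0 < A → 0 ≤ L → 0 ≤ η →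
  (∀ p, K ≤ κ₁ p ∧ κ₁ p ≤ 2 * K) → (∀ p, K ≤ κ₂ p ∧ κ₂ p ≤ 2 * K) →
  (∀ p q, (κ₁ p).Coprime (κ₂ q)) → (∀ p q, κ₁ p * κ₂ q ∣ ℓ) →
  (∀ p, ‖u₁ p‖ ≤ 1) → (∀ p, ‖u₂ p‖ ≤ 1) → (∀ ω, ‖a ω‖ ≤ 1) →
  (∀ p₀, (((univ.filter fun p => I * ((κ₁ p : ℤ) - κ₁ p₀).natAbs < K).card : ℕ) : ℝ)
    ≤ ε * Fintype.card ι₁) →
  (∀ q : ℕ, 0 < q → ¬ q ∣ M₂ → ∀ a : ℤ, (((univ.filter fun p => (q : ℤ) ∣ (κ₁ p : ℤ) - a).card : ℕ) : ℝ)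
    ≤ ε * Fintype.card ι₁) →
  (∀ p₀, (((univ.filter fun p => I * ((κ₂ p : ℤ) - κ₂ p₀).natAbs < K).card : ℕ) : ℝ)
    ≤ ε * Fintype.card ι₂) →
  (∀ q : ℕ, 0 < q → ¬ q ∣ M₂ → ∀ a : ℤ, (((univ.filter fun p => (q : ℤ) ∣ (κ₂ p : ℤ) - a).card : ℕ) : ℝ)
    ≤ ε * Fintype.card ι₂) →
  (2 : ℝ) * K * W ≤ L * ℓ → 8 * (K : ℝ) ^ 3 * A * (1 + I) < ℓ → 256 * M₂ * (K : ℝ) ^ 3 * A * I < ℓ →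
  (∀ θ : T, ‖M₂ • θ‖ ≤ 8 * M₂ * A * I / ℓ →
    ‖Phi κ₁ u₁ ν₁ a W θ‖ ≤ Fintype.card ι₁ * (K * W * η)) →
  ∫ θ₁ : T, ∫ θ₂ : T, ‖D ℓ (θ₁ - θ₂)‖ ^ 2 *
      (‖Phi κ₁ u₁ ν₁ a W θ₁‖ ^ 2 * ‖Phi κ₂ u₂ ν₂ a W θ₂‖ ^ 2) ≤
    (Fintype.card ι₁ : ℝ) ^ 2 * Fintype.card ι₂ ^ 2 * ℓ ^ 4 *
      (2 * L ^ 2 * (ε + 1 / (4 * A ^ 2)) + L ^ 4 * η ^ 2 * (4 * M₂ * A * I)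
        + 2 ^ 10 * K ^ 8 * M₂ ^ 2 * L ^ 2 / ℓ ^ 2)

end Pool.Agent.Lib.MP_fed790_nt.PX
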