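import Pool.Agent.Lib.MP_fed790_nt.PX.Defs

/-!
# Program PX: the pool system and the design (blocks E and F)
-/

open Finset MeasureTheory

namespace Pool.Agent.Lib.MP_fed790_nt.PX

/-- The points: `k + 1` groups of `R` points. -/
abbrev V (k R : ℕ) : Type := Fin (k + 1) × Fin R

/-- The edges `(s, r)`: the group of `r` is smaller than the group of `s`. -/
abbrev Ed (k R : ℕ) : Type := {e : V k R × V k R // e.2.1 < e.1.1}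

/-- The numbers `N`: for a point `s` of group `g'` with coordinate `x` and a point `r` of group
`g < g'` with coordinate `y` one has `t_s - t_r = M ^ (k - g') * N`, where
`t_v = M ^ (k - g(v)) + M ^ (k + 2) * (2 * g(v) * ell + coordinate)`. -/
def Nn (M ell g g' x y : ℕ) : ℤ :=
  1 - (M : ℤ) ^ (g' - g) + (M : ℤ) ^ (g' + 2) * (2 * ((g' : ℤ) - g) * ell + x - y)

/-- A pool system: everything that is needed from number theory. -/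
structure PS (k R : ℕ) [NeZero k] (c : ℕ → ZMod k) where
  /-- size of a block -/
  J : ℕ
  /-- the modulus -/
  M : ℕ
  /-- the length of the coordinate intervals -/
  ell : ℕ
  /-- the size of the pool elements -/
  K : ℕ
  /-- the differences inside one index are divisible by `X₀` -/
  X₀ : ℕ
  /-- the denominator of the major arcs -/
  M₂ : ℕ
  /-- separation -/
  I : ℕ
  /-- length of the exponential sum -/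
  W : ℕ
  /-- all primes up to `B` divide `M` -/
  B : ℕ
  /-- safety factor -/
  Y : ℕ
  /-- binary length of the numbers `N` -/
  Lg : ℕ
  /-- the pools -/
  κ : Ed k R → Fin J × ZMod k → ℕ
  /-- proportion in the collision properties -/
  ε : ℝ
  /-- cut-off -/
  A : ℝ
  /-- `2 K W / ell` -/
  L : ℝ
  /-- smallness on the major arcs -/
  η : ℝ
  /-- bound for `∑ 1/q` over the primes of a pool element -/
  S : ℝ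
  /-- the final constant -/
  εC : ℝ
  hk : 2 ≤ k
  hR : 0 < R
  hJ : 0 < J
  hM : 2 ≤ M
  hell : 0 < ell
  hKpos : 0 < K
  hX₀pos : 0 < X₀
  hM₂pos : 0 < M₂
  hIpos : 0 < I
  hWpos : 0 < W
  hBpos : 0 < B
  hYpos : 0 < Y
  hε : 0 ≤ ε
  hA : 1 ≤ A
  hL : 0 ≤ L
  hη0 : 0 ≤ η
  hS0 : 0 ≤ S
  hεC0 : 0 ≤ εC
  hc : ∀ a b : ℕ, 0 < a → 0 < b → c (a * b) = c a + c b
  hK : ∀ e p, K ≤ κ e p ∧ κ e p ≤ 2 * K
  hcop : ∀ e e' p p', e ≠ e' → (κ e p).Coprime (κ e' p')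
  hmod : ∀ e p, κ e p ≡ 1 [MOD M ^ (k + 2)]
  hdvd : ∀ π : Ed k R → Fin J × ZMod k, (∏ e, κ e (π e)) ∣ ell
  hY : ∀ π : Ed k R → Fin J × ZMod k, (∏ e, κ e (π e)) * Y ≤ ell
  hcol : ∀ e j b, c (κ e (j, b)) = c (κ e (j, 0)) + b
  hX₀ : ∀ e j b, (X₀ : ℤ) ∣ (κ e (j, b) : ℤ) - κ e (j, 0)
  hM₂ : M ^ (k + 2) * M₂ ∣ X₀
  hclose : ∀ e j b, |(κ e (j, b) : ℤ) - κ e (j, 0)| * X₀ ≤ 4 * k ^ 2 * K
  hsep : ∀ e p₀, (((univ.filter fun p => I * ((κ e p : ℤ) - κ e p₀).natAbs < K).card : ℕ) : ℝ)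
    ≤ ε * Fintype.card (Fin J × ZMod k)
  hcl : ∀ e, ∀ q : ℕ, 0 < q → ¬ q ∣ M₂ → ∀ a : ℤ,
    (((univ.filter fun p => (q : ℤ) ∣ (κ e p : ℤ) - a).card : ℕ) : ℝ)
      ≤ ε * Fintype.card (Fin J × ZMod k)
  hS : ∀ e p, ∑ q ∈ (κ e p).primeFactors, (1 : ℝ) / q ≤ S
  hB : ∀ q : ℕ, q.Prime → q ≤ B → q ∣ M
  hW : (2 * k + 1) * ell + K ≤ K * W
  hWL : (2 : ℝ) * K * W ≤ L * ell
  hell0 : 2 * K ≤ ell
  hell1 : 8 * (K : ℝ) ^ 3 * A * (1 + I) < ell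
  hell2 : 256 * M₂ * (K : ℝ) ^ 3 * A * I < ell
  hη : 4 * (k : ℝ) ^ 2 / X₀ * (1 + 32 * Real.pi * L * A * I) ≤ η
  hC : 2 * L ^ 2 * (ε + 1 / (4 * A ^ 2)) + L ^ 4 * η ^ 2 * (4 * M₂ * A * I)
    + 2 ^ 10 * (K : ℝ) ^ 8 * M₂ ^ 2 * L ^ 2 / ell ^ 2 ≤ εC
  hεC : 1 / (R : ℝ) + εC ≤ 1 / (4 * k ^ 11)
  hR2 : 2 * k ^ 4 ≤ R
  hLg : M ^ (k + 2) * ((2 * k + 1) * ell + 1) ≤ 2 ^ Lg
  hbad : (Fintype.card (Ed k R) : ℝ) ^ 2 * (2 * S + 2 / B + 2 * Lg / Y) ≤ 1 / 4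

variable {k R : ℕ} [NeZero k] {c : ℕ → ZMod k}

/-- The number of the edge `e` in the configuration `τ`. -/
def PS.N (P : PS k R c) (e : Ed k R) (τ : V k R → Fin P.ell) : ℤ :=
  Nn P.M P.ell e.1.2.1 e.1.1.1 (τ e.1.1) (τ e.1.2)

/-- The weight of a configuration, edges inside `U` only. -/
noncomputable def PS.wt (P : PS k R c) (π : Ed k R → Fin P.J × ZMod k) (U : Finset (V k R))
    (τ : V k R → Fin P.ell) : ℝ :=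
  ∏ e : Ed k R, if e.1.1 ∈ U ∧ e.1.2 ∈ U then
    (if (P.κ e (π e) : ℤ) ∣ P.N e τ then (P.κ e (π e) : ℝ) else 0) else 1

/-- `ψ(c(N))` for a character `ψ` of `ℤ/k`. -/
noncomputable def PS.chi (P : PS k R c) (ψ : AddChar (ZMod k) ℂ) (g g' x y : ℕ) : ℂ :=
  ψ (c (Nn P.M P.ell g g' x y).natAbs)

/-- The correlation `∑_s F_{s r} conj F_{s r'}`. -/
noncomputable def PS.SS (P : PS k R c) (ψ : AddChar (ZMod k) ℂ) (g g' : Fin (k + 1))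
    (r r' : Fin R) (τ : V k R → Fin P.ell) : ℂ :=
  ∑ s : Fin R, P.chi ψ g g' (τ (g', s)) (τ (g, r)) *
    (starRingEnd ℂ) (P.chi ψ g g' (τ (g', s)) (τ (g, r')))

/-- `H(x,y) = ∑_p κ_p 1[κ_p ∣ N(x,y)] ψ(c(N(x,y)))`. -/
noncomputable def PS.HH (P : PS k R c) (ψ : AddChar (ZMod k) ℂ) (e : Ed k R) (x y : ℕ) : ℂ :=
  ∑ p : Fin P.J × ZMod k, if (P.κ e p : ℤ) ∣ Nn P.M P.ell e.1.2.1 e.1.1.1 x y then
    (P.κ e p : ℂ) * P.chi ψ e.1.2.1 e.1.1.1 x y else 0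

/-! ## Block E -/

/-- E1: the Chinese remainder theorem, exact count. -/
def S_E1 : Prop := ∀ (ι : Type) (s : Finset ι) (q : ι → ℕ) (u a : ι → ℤ) (ell : ℕ),
  (∀ i ∈ s, 0 < q i) → (∀ i ∈ s, ∀ j ∈ s, i ≠ j → (q i).Coprime (q j)) →
  (∀ i ∈ s, IsCoprime (u i) (q i : ℤ)) → (∏ i ∈ s, q i) ∣ ell →
  ((range ell).filter fun x : ℕ => ∀ i ∈ s, (q i : ℤ) ∣ u i * x + a i).card * ∏ i ∈ s, q i = ell

/-- E1b: the same with one more modulus `p` which need not divide `ell`. -/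
def S_E1b : Prop := ∀ (ι : Type) (s : Finset ι) (q : ι → ℕ) (u a : ι → ℤ) (ell p : ℕ) (u' a' : ℤ),
  (∀ i ∈ s, 0 < q i) → (∀ i ∈ s, ∀ j ∈ s, i ≠ j → (q i).Coprime (q j)) →
  (∀ i ∈ s, IsCoprime (u i) (q i : ℤ)) → (∏ i ∈ s, q i) ∣ ell →
  0 < p → IsCoprime u' (p : ℤ) → (∀ i ∈ s, (q i).Coprime p) →
  ((((range ell).filter fun x : ℕ => (∀ i ∈ s, (q i : ℤ) ∣ u i * x + a i) ∧
    (p : ℤ) ∣ u' * x + a').card : ℕ) : ℝ) * ∏ i ∈ s, (q i : ℝ) ≤ ell / p + ∏ i ∈ s, (q i : ℝ)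

/-- E2: integrating out the points outside `U`. -/
def S_E2 : Prop := ∀ (k R : ℕ) [NeZero k] (c : ℕ → ZMod k) (P : PS k R c)
  (π : Ed k R → Fin P.J × ZMod k) (U U' : Finset (V k R)), U ⊆ U' →
  (∀ g : (V k R → Fin P.ell) → ℝ, (∀ τ τ', (∀ v ∈ U, τ v = τ' v) → g τ = g τ') →
    ∑ τ, g τ * P.wt π U' τ = ∑ τ, g τ * P.wt π U τ) ∧
  (∀ g : (V k R → Fin P.ell) → ℂ, (∀ τ τ', (∀ v ∈ U, τ v = τ' v) → g τ = g τ') →
    ∑ τ, g τ * (P.wt π U' τ : ℂ) = ∑ τ, g τ * (P.wt π U τ : ℂ))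

/-- E2b: a sum over all functions of a quantity that depends on few values. -/
def S_E2b : Prop := ∀ (V α : Type) [Fintype V] [DecidableEq V] [Fintype α] (m : ℕ)
  (f : Fin m → V), Function.Injective f →
  (∀ G : (Fin m → α) → ℝ, (∑ τ : V → α, G (τ ∘ f)) * (Fintype.card α : ℝ) ^ m =
    (Fintype.card α : ℝ) ^ Fintype.card V * ∑ x, G x) ∧
  (∀ G : (Fin m → α) → ℂ, (∑ τ : V → α, G (τ ∘ f)) * (Fintype.card α : ℂ) ^ m =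
    (Fintype.card α : ℂ) ^ Fintype.card V * ∑ x, G x)

/-- E3a: the bridge between `HH` and `phi`. -/
def S_E3a : Prop := ∀ (k R : ℕ) [NeZero k] (c : ℕ → ZMod k) (P : PS k R c)
  (ψ : AddChar (ZMod k) ℂ) (e : Ed k R) (x y : ℕ), x < P.ell → y < P.ell →
  phi (P.κ e) (fun p => ψ (c (P.κ e p)))
    (fun p => (((P.κ e p - 1) / P.M ^ ((e.1.1.1 : ℕ) + 2) : ℕ) : ℤ) *
      (1 - (P.M : ℤ) ^ ((e.1.1.1 : ℕ) - e.1.2.1)))
    (fun ω => ψ (c (1 - (P.M : ℤ) ^ ((e.1.1.1 : ℕ) - e.1.2.1) +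
      (P.M : ℤ) ^ ((e.1.1.1 : ℕ) + 2) * ω).natAbs)) P.W
    (2 * (((e.1.1.1 : ℕ) : ℤ) - (e.1.2.1 : ℕ)) * P.ell + x - y) = P.HH ψ e x y

/-- E3b: the pair estimate. -/
def S_E3b : Prop := ∀ (k R : ℕ) [NeZero k] (c : ℕ → ZMod k) (P : PS k R c)
  (ψ : AddChar (ZMod k) ℂ), ψ ≠ 1 → ∀ (e e' : Ed k R), e ≠ e' → e.1.1 = e'.1.1 →
  e.1.2.1 = e'.1.2.1 →
  ∑ y ∈ range P.ell, ∑ y' ∈ range P.ell,
    ‖∑ x ∈ range P.ell, P.HH ψ e x y * (starRingEnd ℂ) (P.HH ψ e' x y')‖ ^ 2 ≤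
  (Fintype.card (Fin P.J × ZMod k) : ℝ) ^ 4 * P.ell ^ 4 * P.εC

/-- E3c: the second moment of `SS`. -/
def S_E3c : Prop := ∀ (k R : ℕ) [NeZero k] (c : ℕ → ZMod k) (P : PS k R c)
  (ψ : AddChar (ZMod k) ℂ), ψ ≠ 1 → ∀ (g g' : Fin (k + 1)), g < g' → ∀ r r' : Fin R, r ≠ r' →
  ∑ π : Ed k R → Fin P.J × ZMod k, ∑ τ : V k R → Fin P.ell,
      ‖P.SS ψ g g' r r' τ‖ ^ 2 * P.wt π univ τ ≤
    (R + R ^ 2 * P.εC) * ((Fintype.card (Fin P.J × ZMod k) : ℝ) ^ Fintype.card (Ed k R) *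
      P.ell ^ Fintype.card (V k R))

/-- E4a: `N_f` and `κ_f'` are coprime with large probability. -/
def S_E4a : Prop := ∀ (k R : ℕ) [NeZero k] (c : ℕ → ZMod k) (P : PS k R c)
  (π : Ed k R → Fin P.J × ZMod k) (f f' : Ed k R), f ≠ f' →
  ∑ τ : V k R → Fin P.ell,
    (if (P.N f τ).natAbs.Coprime (P.κ f' (π f')) then 0 else 1) * P.wt π univ τ ≤
    P.S * (P.ell : ℝ) ^ Fintype.card (V k R)

/-- E4s: the mean of `∑_{q ∣ N} 1/q` over one edge. -/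
def S_E4s : Prop := ∀ (k R : ℕ) [NeZero k] (c : ℕ → ZMod k) (P : PS k R c) (e : Ed k R)
  (p : Fin P.J × ZMod k),
  ∑ x ∈ range P.ell, ∑ y ∈ range P.ell,
    (if (P.κ e p : ℤ) ∣ Nn P.M P.ell e.1.2.1 e.1.1.1 x y then (P.κ e p : ℝ) else 0) *
      ∑ q ∈ (Nn P.M P.ell e.1.2.1 e.1.1.1 x y).natAbs.primeFactors, (1 : ℝ) / q ≤
  (P.S + 2 / P.B + P.Lg / P.Y) * (P.ell : ℝ) ^ 2

open Classical in
/-- E4b: a common prime of `N_e` and `N_e'` which divides no `κ` is rare. -/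
def S_E4b : Prop := ∀ (k R : ℕ) [NeZero k] (c : ℕ → ZMod k) (P : PS k R c)
  (π : Ed k R → Fin P.J × ZMod k) (e e' : Ed k R), e ≠ e' →
  ∑ τ : V k R → Fin P.ell,
    (if ∃ q : ℕ, q.Prime ∧ (q : ℤ) ∣ P.N e τ ∧ (q : ℤ) ∣ P.N e' τ ∧ ∀ f, ¬ q ∣ P.κ f (π f)
      then 1 else 0) * P.wt π univ τ ≤
    (P.S + 2 / P.B + 2 * P.Lg / P.Y) * (P.ell : ℝ) ^ Fintype.card (V k R)

/-- E5: existence of a good configuration. -/
def S_E5 : Prop := ∀ (k R : ℕ) [NeZero k] (c : ℕ → ZMod k) (P : PS k R c),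
  ∃ τ : V k R → Fin P.ell,
    (∀ e e' : Ed k R, e ≠ e' → (P.N e τ).natAbs.Coprime (P.N e' τ).natAbs) ∧
    ∀ ψ : AddChar (ZMod k) ℂ, ψ ≠ 1 → ∀ g g' : Fin (k + 1), g < g' →
      ∑ r : Fin R, ∑ r' : Fin R, (if r = r' then 0 else ‖P.SS ψ g g' r r' τ‖ ^ 2) <
        (R : ℝ) ^ 4 / (4 * k ^ 8)

/-! ## Block F -/

/-- F1: from small correlations to all colours on large rectangles. -/
def S_F1 : Prop := ∀ (k R : ℕ) [NeZero k] (m : Fin R → Fin R → ZMod k), 2 ≤ k → 2 * k ^ 4 ≤ R →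
  (∀ ψ : AddChar (ZMod k) ℂ, ψ ≠ 1 →
    ∑ r : Fin R, ∑ r' : Fin R, (if r = r' then 0 else
      ‖∑ s : Fin R, ψ (m s r) * (starRingEnd ℂ) (ψ (m s r'))‖ ^ 2) < (R : ℝ) ^ 4 / (4 * k ^ 8)) →
  ∀ (I' I : Finset (Fin R)), R ≤ k * I'.card → R ≤ k * I.card → ∀ a : ZMod k,
    ∃ s ∈ I', ∃ r ∈ I, m s r = a

/-- F2: the conclusion for a colouring with a pool system. -/
def S_F2 : Prop := ∀ (k R : ℕ) [NeZero k] (c : ℕ → ZMod k) (P : PS k R c),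
  ∃ n : ℕ, 1 ≤ n ∧ n + 1 ≤ 2 ^ (P.Lg * (Fintype.card (Ed k R) + 3)) ∧ c n = 0 ∧ c (n + 1) = 0

end Pool.Agent.Lib.MP_fed790_nt.PX
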