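import Pool.Agent.Lib.MP_fed790_nt.PX.Defs2

/-!
# Program PX: the explicit pools (block D) and the final theorem (block G)
-/

open Finset

namespace Pool.Agent.Lib.MP_fed790_nt.PX

/-- `h = 2 ^ t` with `t = 140 ⌈log₂ k⌉`; so `k ^ 140 ≤ h ≤ (2 k) ^ 140`. -/
def tt (k : ℕ) : ℕ := 140 * Nat.clog 2 k

/-- `h`. -/
def hh (k : ℕ) : ℕ := 2 ^ tt k

/-- The number of edges. -/
def En (k : ℕ) : ℕ := Fintype.card (Ed k (k ^ 14))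

/-- The size of a block of indices. -/
def Jn (k : ℕ) : ℕ := hh k ^ 2

/-- The number of indices. -/
def nn (k : ℕ) : ℕ := En k * Jn k

/-- The first index. -/
def i₀ (k : ℕ) : ℕ := hh k ^ 5

/-- The index set. -/
def Idx (k : ℕ) : Finset ℕ := Ico (i₀ k) (i₀ k + nn k)

/-- The product of all `i ^ (2hk) - i' ^ (2hk)`. -/
def Del (k : ℕ) : ℕ :=
  ∏ i ∈ Idx k, ∏ i' ∈ Ico (i₀ k) i, (i ^ (2 * hh k * k) - i' ^ (2 * hh k * k))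

/-- The modulus `M`. -/
def Mm (k : ℕ) : ℕ := ((hh k ^ 2).factorial * Del k) ^ hh k

/-- `λ_i = 1 + (M i) ^ h`. -/
def lam (k i : ℕ) : ℕ := 1 + (Mm k * i) ^ hh k

/-- The modulus `X = M ^ (4h) ∏ λ_i`. -/
def Xx (k : ℕ) : ℕ := Mm k ^ (4 * hh k) * ∏ i ∈ Idx k, lam k i

/-- `Z_i = (X i) ^ h`. -/
def Zz (k i : ℕ) : ℕ := (Xx k * i) ^ hh k

/-- The exponent of the steering element: `jj * c (Z_i ^ k + 1) = b`. -/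
def jj (k : ℕ) (c : ℕ → ZMod k) (i : ℕ) (b : ZMod k) : ℕ := (b * (c (Zz k i ^ k + 1))⁻¹).val

/-- The pool elements. -/
def kap (k : ℕ) (c : ℕ → ZMod k) (i : ℕ) (b : ZMod k) : ℕ :=
  lam k i * (Zz k i ^ k + 1) ^ jj k c i b * (Zz k i + 1) ^ (k * (k - 1 - jj k c i b))

/-- A common multiple of all `kap k c i b`, `b ∈ ℤ/k`. -/
def kst (k i : ℕ) : ℕ := lam k i * (Zz k i ^ k + 1) ^ k * (Zz k i + 1) ^ (k * k)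

/-- `ell`. -/
def ellk (k : ℕ) : ℕ := ∏ i ∈ Idx k, kst k i

/-- `K`. -/
def Kk (k : ℕ) : ℕ := lam k (i₀ k) * Zz k (i₀ k) ^ (k * (k - 1))

/-- The hypothesis on the colouring. -/
def Bad (k : ℕ) (c : ℕ → ZMod k) (N : ℕ) : Prop :=
  (∀ a b : ℕ, 0 < a → 0 < b → c (a * b) = c a + c b) ∧
    ∀ n : ℕ, 1 ≤ n → n + 1 ≤ N → ¬ (c n = 0 ∧ c (n + 1) = 0)

/-- D0: basic facts. -/
def S_D0 : Prop := ∀ k : ℕ, 2 ≤ k →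
  k ^ 140 ≤ hh k ∧ hh k ≤ k ^ 280 ∧ tt k ≤ 140 * k ∧ En k ≤ k ^ 30 ∧ 0 < En k ∧ nn k ≤ hh k ^ 3 ∧
  (∀ i ∈ Idx k, 0 < i ∧ i ≤ 2 * hh k ^ 5) ∧ 0 < Del k ∧ 2 ≤ Mm k ∧
  (∀ q, q.Prime → q ≤ hh k ^ 2 → q ∣ Mm k) ∧ 2 ∣ Mm k ∧
  (∀ q, q.Prime → q ∣ Mm k → q ^ hh k ∣ Mm k) ∧
  (∀ i ∈ Idx k, ∀ i' ∈ Idx k, i' < i → (i ^ (2 * hh k * k) - i' ^ (2 * hh k * k)) ∣ Mm k) ∧
  Mm k ^ (4 * hh k) ∣ Xx k ∧ (∀ i ∈ Idx k, lam k i ∣ Xx k) ∧ 0 < Xx k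

/-- D1: primes of `y ^ (2 ^ t) + 1`, `y` even. -/
def S_D1 : Prop := ∀ (q y t : ℕ), q.Prime → 2 ∣ y → q ∣ y ^ 2 ^ t + 1 → 2 ^ (t + 1) ∣ q - 1

/-- D2: pool elements of different indices are coprime. -/
def S_D2 : Prop := ∀ (k : ℕ), 2 ≤ k → ∀ (c : ℕ → ZMod k), ∀ i ∈ Idx k, ∀ i' ∈ Idx k, i ≠ i' →
  ∀ b b', (kap k c i b).Coprime (kap k c i' b')

/-- D3: the primes of the pool elements are `1` modulo `2h`. -/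
def S_D3 : Prop := ∀ (k : ℕ), 2 ≤ k → ∀ (c : ℕ → ZMod k), ∀ i ∈ Idx k, ∀ b q, q.Prime →
  q ∣ kap k c i b → 2 * hh k ∣ q - 1

/-- D4: the size of the pool elements. -/
def S_D4 : Prop := ∀ (k : ℕ), 2 ≤ k → ∀ (c : ℕ → ZMod k), ∀ i ∈ Idx k, ∀ b,
  lam k i * Zz k i ^ (k * (k - 1)) ≤ kap k c i b ∧
  kap k c i b ≤ lam k i * (Zz k i + 1) ^ (k * (k - 1)) ∧
  Kk k ≤ lam k i * Zz k i ^ (k * (k - 1)) ∧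
  lam k i * (Zz k i + 1) ^ (k * (k - 1)) ≤ 2 * Kk k

/-- D5: separation. -/
def S_D5 : Prop := ∀ (k : ℕ), 2 ≤ k → ∀ (c : ℕ → ZMod k), ∀ i ∈ Idx k, ∀ i' ∈ Idx k, i < i' →
  ∀ b b', kap k c i b < kap k c i' b' ∧ Kk k ≤ 4 * i₀ k * (kap k c i' b' - kap k c i b)

/-- D6: residues and closeness. -/
def S_D6 : Prop := ∀ (k : ℕ), 2 ≤ k → ∀ (c : ℕ → ZMod k), ∀ i ∈ Idx k, ∀ b,
  kap k c i b ≡ lam k i [MOD Xx k] ∧ kap k c i b ≡ 1 [MOD Mm k ^ (k + 2)] ∧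
  |(kap k c i b : ℤ) - kap k c i 0| * Xx k ≤ 4 * k ^ 2 * Kk k

/-- D7: colours. -/
def S_D7 : Prop := ∀ (k : ℕ), k.Prime → ∀ (c : ℕ → ZMod k) (N : ℕ), Bad k c N →
  ∀ i ∈ Idx k, Zz k i ^ k + 1 ≤ N → ∀ b, c (kap k c i b) = c (kap k c i 0) + b

/-- D8a: root counting for primes not dividing `M`. -/
def S_D8a : Prop := ∀ (k : ℕ), 2 ≤ k → ∀ (j i₁ J p : ℕ) (a : ℤ), j ≤ k - 1 → p.Prime →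
  ¬ p ∣ Mm k →
  ((Ico i₁ (i₁ + J)).filter fun i : ℕ => (p : ℤ) ∣
    ((lam k i * (Zz k i ^ k + 1) ^ j * (Zz k i + 1) ^ (k * (k - 1 - j)) : ℕ) : ℤ) - a).card ≤
    hh k * k ^ 2 * (J / p + 1)

/-- D8b: the class property of the pools. -/
def S_D8b : Prop := ∀ (k : ℕ) [NeZero k], k.Prime → ∀ (c : ℕ → ZMod k) (N : ℕ), Bad k c N →
  (∀ i ∈ Idx k, Zz k i ^ k + 1 ≤ N) → ∀ e < En k, ∀ q : ℕ, 0 < q →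
  ¬ q ∣ Mm k ^ (2 * hh k) → ∀ a : ℤ,
  k ^ 26 * ((Finset.univ : Finset (Fin (Jn k) × ZMod k)).filter fun p =>
    (q : ℤ) ∣ (kap k c (i₀ k + e * Jn k + p.1) p.2 : ℤ) - a).card ≤ Jn k * k

/-- D9: the sum of `1/q` over the primes of a pool element. -/
def S_D9 : Prop := ∀ (k : ℕ), 2 ≤ k → ∀ (c : ℕ → ZMod k), ∀ i ∈ Idx k, ∀ b,
  ∑ q ∈ (kap k c i b).primeFactors, (1 : ℝ) / q ≤ 1 / (k : ℝ) ^ 70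

/-- D10: divisibility and size of `ell`. -/
def S_D10 : Prop := ∀ (k : ℕ), 2 ≤ k → ∀ (c : ℕ → ZMod k) (e : Ed k (k ^ 14) ≃ Fin (En k))
  (π : Ed k (k ^ 14) → Fin (Jn k) × ZMod k),
  (∏ x, kap k c (i₀ k + (e x : ℕ) * Jn k + (π x).1) (π x).2) ∣ ellk k ∧
  (∏ x, kap k c (i₀ k + (e x : ℕ) * Jn k + (π x).1) (π x).2) * 2 ^ hh k ≤ ellk k

/-- D11: sizes. -/
def S_D11 : Prop := ∀ (k : ℕ), 2 ≤ k →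
  Mm k ≤ 2 ^ hh k ^ 10 ∧ ellk k ≤ 2 ^ hh k ^ 22 ∧
  Mm k ^ (k + 2) * ((2 * k + 1) * ellk k + 1) ≤ 2 ^ hh k ^ 23 ∧
  Kk k ^ 10 ≤ ellk k ∧ Mm k ^ (4 * hh k) ≤ Xx k ∧ Xx k ≤ Kk k ∧ 2 ^ hh k ≤ Mm k ∧
  (∀ i ∈ Idx k, Zz k i ^ k + 1 ≤ 2 ^ hh k ^ 22) ∧ (∀ i ∈ Idx k, kst k i ≤ 2 ^ hh k ^ 22)

/-- D12: the numerical conditions. -/
def S_D12 : Prop := ∀ (k : ℕ), 2 ≤ k →
  8 * (Kk k : ℝ) ^ 3 * (k : ℝ) ^ 13 * (1 + ((4 * i₀ k : ℕ) : ℝ)) < ellk k ∧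
  256 * ((Mm k ^ (2 * hh k) : ℕ) : ℝ) * (Kk k : ℝ) ^ 3 * (k : ℝ) ^ 13 * ((4 * i₀ k : ℕ) : ℝ)
    < ellk k ∧
  2 * ((k : ℝ) ^ 5) ^ 2 * (1 / (k : ℝ) ^ 26 + 1 / (4 * ((k : ℝ) ^ 13) ^ 2)) +
    ((k : ℝ) ^ 5) ^ 4 * (4 * (k : ℝ) ^ 2 / Xx k *
      (1 + 32 * Real.pi * (k : ℝ) ^ 5 * (k : ℝ) ^ 13 * ((4 * i₀ k : ℕ) : ℝ))) ^ 2 *
      (4 * ((Mm k ^ (2 * hh k) : ℕ) : ℝ) * (k : ℝ) ^ 13 * ((4 * i₀ k : ℕ) : ℝ)) +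
    2 ^ 10 * (Kk k : ℝ) ^ 8 * ((Mm k ^ (2 * hh k) : ℕ) : ℝ) ^ 2 * ((k : ℝ) ^ 5) ^ 2 /
      (ellk k : ℝ) ^ 2 ≤ 1 / (k : ℝ) ^ 14 ∧
  ((En k : ℕ) : ℝ) ^ 2 * (2 * (1 / (k : ℝ) ^ 70) + 2 / ((hh k ^ 2 : ℕ) : ℝ) +
    2 * ((hh k ^ 23 : ℕ) : ℝ) / ((2 ^ hh k : ℕ) : ℝ)) ≤ 1 / 4

/-- D13: a colouring without a pair has a pool system. -/
def S_D13 : Prop := ∀ (k : ℕ) [NeZero k], k.Prime → ∀ (c : ℕ → ZMod k) (N : ℕ), Bad k c N →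
  2 ^ hh k ^ 22 ≤ N → ∃ P : PS k (k ^ 14) c, P.Lg = hh k ^ 23

/-- G1: the theorem for colourings. -/
def S_G1 : Prop := ∀ (k : ℕ), k.Prime → ∀ c : ℕ → ZMod k,
  (∀ a b : ℕ, 0 < a → 0 < b → c (a * b) = c a + c b) →
  ∃ n : ℕ, 1 ≤ n ∧ n + 1 ≤ 2 ^ k ^ 6720 ∧ c n = 0 ∧ c (n + 1) = 0

end Pool.Agent.Lib.MP_fed790_nt.PX
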