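import Pool.Agent.Lib.MP_fed790_nt.PX.Defs2

/-! E1: CRT count -/

open Finset MeasureTheory

namespace Pool.Agent.Lib.MP_fed790_nt.PX

theorem e1_one (q : ℕ) (u a : ℤ) (hq : 0 < q) (h : IsCoprime u (q : ℤ)) :
    ∃ r : ℕ, ∀ x : ℕ, ((q : ℤ) ∣ u * x + a) ↔ x ≡ r [MOD q] := by
  obtain ⟨v, w, hvw⟩ := h
  have hq' : (q : ℤ) ≠ 0 := by exact_mod_cast hq.ne'
  obtain ⟨r, hr⟩ : ∃ r : ℕ, (r : ℤ) = (-a * v) % q :=
    ⟨((-a * v) % q).toNat, Int.toNat_of_nonneg (Int.emod_nonneg _ hq')⟩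
  have hr2 : (q : ℤ) ∣ r + a * v := by
    rw [hr]
    have := Int.emod_add_mul_ediv (-a * v) q
    exact ⟨-((-a * v) / q), by linear_combination this⟩
  refine ⟨r, fun x => ?_⟩
  rw [Nat.modEq_iff_dvd]
  constructor
  · rintro ⟨c, hc⟩
    obtain ⟨d, hd⟩ := hr2
    refine ⟨d - w * x - v * c, ?_⟩
    linear_combination hd - v * hc + (x : ℤ) * hvw
  · rintro ⟨c, hc⟩
    obtain ⟨d, hd⟩ := hr2
    refine ⟨u * d - u * c + w * a, ?_⟩
    linear_combination u * hd - u * hc - a * hvw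

theorem e1_all {ι : Type} (s : Finset ι) (q : ι → ℕ) (u a : ι → ℤ)
    (hq : ∀ i ∈ s, 0 < q i) (hc : ∀ i ∈ s, ∀ j ∈ s, i ≠ j → (q i).Coprime (q j))
    (hu : ∀ i ∈ s, IsCoprime (u i) (q i : ℤ)) :
    ∃ r : ℕ, ∀ x : ℕ, (∀ i ∈ s, (q i : ℤ) ∣ u i * x + a i) ↔ x ≡ r [MOD ∏ i ∈ s, q i] := by
  classical
  induction s using Finset.induction_on with
  | empty =>
    refine ⟨0, fun x => ?_⟩
    simp [Nat.modEq_one]
  | insert i s hi ih =>
    obtain ⟨r, hr⟩ := ih (fun j hj => hq j (mem_insert_of_mem hj))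
      (fun j hj l hl => hc j (mem_insert_of_mem hj) l (mem_insert_of_mem hl))
      (fun j hj => hu j (mem_insert_of_mem hj))
    obtain ⟨r', hr'⟩ := e1_one (q i) (u i) (a i) (hq i (mem_insert_self i s))
      (hu i (mem_insert_self i s))
    have hcop : (q i).Coprime (∏ j ∈ s, q j) := by
      apply Nat.Coprime.prod_right
      intro j hj
      exact hc i (mem_insert_self i s) j (mem_insert_of_mem hj) (by rintro rfl; exact hi hj)
    have c := Nat.chineseRemainder hcop r' r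
    refine ⟨c.1, fun x => ?_⟩
    rw [prod_insert hi, ← Nat.modEq_and_modEq_iff_modEq_mul hcop, Finset.forall_mem_insert, hr, hr']
    constructor
    · rintro ⟨h1, h2⟩
      exact ⟨h1.trans c.2.1.symm, h2.trans c.2.2.symm⟩
    · rintro ⟨h1, h2⟩
      exact ⟨h1.trans c.2.1, h2.trans c.2.2⟩

/-- (Job PX E1) Proof.  Each condition `q_i ∣ u_i x + a_i` is `x ≡ r_i mod q_i` for one residue `r_i` (`u_i` invertible mod `q_i`).  By the Chinese
remainder theorem (induction on `s`, combining two coprime moduli with `Nat.chineseRemainder`) the conjunction is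
`x ≡ r mod Q`, `Q = ∏ q_i`, and a multiple `ell = Q m` gives exactly `m` solutions in `range ell` (`Nat.count_modEq_card`). -/
theorem tE1 : S_E1 := by
  intro ι s q u a ell hq hc hu hd
  obtain ⟨r, hr⟩ := e1_all s q u a hq hc hu
  have hpos : 0 < ∏ i ∈ s, q i := Finset.prod_pos hq
  have h1 : ((range ell).filter fun x : ℕ => ∀ i ∈ s, (q i : ℤ) ∣ u i * x + a i) =
      (range ell).filter fun x : ℕ => x ≡ r [MOD ∏ i ∈ s, q i] := by
    apply Finset.filter_congr
    intro x _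
    exact hr x
  rw [h1, ← Nat.count_eq_card_filter_range, Nat.count_modEq_card ell hpos r]
  have h2 : ell % (∏ i ∈ s, q i) = 0 := Nat.mod_eq_zero_of_dvd hd
  rw [h2]
  simp only [Nat.not_lt_zero, if_false, Nat.add_zero]
  exact Nat.div_mul_cancel hd

end Pool.Agent.Lib.MP_fed790_nt.PX
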