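import Pool.Agent.Lib.MP_fed790_nt.PX.Defs2
import Pool.Agent.Lib.MP_fed790_nt.PX.E1

/-! E1b: CRT count with one more modulus -/

open Finset MeasureTheory

namespace Pool.Agent.Lib.MP_fed790_nt.PX

/-- (Job PX E1b) Proof.  As in E1 the conjunction is `x ≡ r mod Q p` (`Q = ∏ q_i`, coprime to `p`), so the number of `x < ell` is at most
`ell/(Qp) + 1`; multiply by `Q`. -/
theorem tE1b : S_E1b := by
  intro ι s q u a ell p u' a' hq hc hu _ hp hu' hcp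
  obtain ⟨r, hr⟩ := e1_all s q u a hq hc hu
  obtain ⟨r', hr'⟩ := e1_one p u' a' hp hu'
  have hpos : 0 < ∏ i ∈ s, q i := Finset.prod_pos hq
  have hcop : (∏ i ∈ s, q i).Coprime p := Nat.Coprime.prod_left hcp
  have c := Nat.chineseRemainder hcop r r'
  have h1 : ((range ell).filter fun x : ℕ => (∀ i ∈ s, (q i : ℤ) ∣ u i * x + a i) ∧
      (p : ℤ) ∣ u' * x + a') =
      (range ell).filter fun x : ℕ => x ≡ c.1 [MOD (∏ i ∈ s, q i) * p] := by
    apply Finset.filter_congr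
    intro x _
    rw [← Nat.modEq_and_modEq_iff_modEq_mul hcop, hr, hr']
    constructor
    · rintro ⟨h1, h2⟩
      exact ⟨h1.trans c.2.1.symm, h2.trans c.2.2.symm⟩
    · rintro ⟨h1, h2⟩
      exact ⟨h1.trans c.2.1, h2.trans c.2.2⟩
  have hQp : 0 < (∏ i ∈ s, q i) * p := Nat.mul_pos hpos hp
  have h2 : ((range ell).filter fun x : ℕ => (∀ i ∈ s, (q i : ℤ) ∣ u i * x + a i) ∧
      (p : ℤ) ∣ u' * x + a').card ≤ ell / ((∏ i ∈ s, q i) * p) + 1 := by
    rw [h1, ← Nat.count_eq_card_filter_range, Nat.count_modEq_card ell hQp c.1]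
    split_ifs <;> omega
  have h3 : ((((range ell).filter fun x : ℕ => (∀ i ∈ s, (q i : ℤ) ∣ u i * x + a i) ∧
      (p : ℤ) ∣ u' * x + a').card : ℕ) : ℝ) ≤ (ell : ℝ) / ((∏ i ∈ s, (q i : ℝ)) * p) + 1 := by
    have h4 : ((((range ell).filter fun x : ℕ => (∀ i ∈ s, (q i : ℤ) ∣ u i * x + a i) ∧
        (p : ℤ) ∣ u' * x + a').card : ℕ) : ℝ) ≤ ((ell / ((∏ i ∈ s, q i) * p) + 1 : ℕ) : ℝ) := by
      exact_mod_cast h2
    refine h4.trans ?_
    rw [Nat.cast_add, Nat.cast_one]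
    have h5 : ((ell / ((∏ i ∈ s, q i) * p) : ℕ) : ℝ) ≤
        (ell : ℝ) / (((∏ i ∈ s, q i) * p : ℕ) : ℝ) := Nat.cast_div_le
    rw [Nat.cast_mul, Nat.cast_prod] at h5
    linarith
  have hQR : (0 : ℝ) < ∏ i ∈ s, (q i : ℝ) :=
    Finset.prod_pos fun i hi => by exact_mod_cast hq i hi
  have hpR : (0 : ℝ) < p := by exact_mod_cast hp
  calc _ ≤ ((ell : ℝ) / ((∏ i ∈ s, (q i : ℝ)) * p) + 1) * ∏ i ∈ s, (q i : ℝ) :=
        mul_le_mul_of_nonneg_right h3 hQR.le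
    _ = ell / p + ∏ i ∈ s, (q i : ℝ) := by
        rw [add_mul, one_mul]
        congr 1
        field_simp

end Pool.Agent.Lib.MP_fed790_nt.PX
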