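import Pool.Agent.Lib.MP_fed790_nt.PX.Defs2

/-! E2: integrating out points -/

open Finset MeasureTheory

namespace Pool.Agent.Lib.MP_fed790_nt.PX

/-- summing over all functions and over one more coordinate. -/
private theorem e2_update {W α : Type} [Fintype W] [DecidableEq W] [Fintype α] (v : W)
    (F : (W → α) → ℝ) :
    ∑ τ : W → α, ∑ x : α, F (Function.update τ v x) = (Fintype.card α : ℝ) * ∑ τ, F τ := by
  classical
  let φ : (W → α) × α ≃ (W → α) × α :=
    { toFun := fun p => (Function.update p.1 v p.2, p.1 v)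
      invFun := fun p => (Function.update p.1 v p.2, p.1 v)
      left_inv := by
        rintro ⟨τ, x⟩
        simp
      right_inv := by
        rintro ⟨τ, x⟩
        simp }
  have h1 : ∑ τ : W → α, ∑ x : α, F (Function.update τ v x)
      = ∑ p : (W → α) × α, F (Function.update p.1 v p.2) := by
    rw [Fintype.sum_prod_type]
  have h2 : ∑ p : (W → α) × α, F (Function.update p.1 v p.2) = ∑ p : (W → α) × α, F p.1 :=
    Fintype.sum_equiv φ _ _ (fun p => rfl)
  rw [h1, h2, Fintype.sum_prod_type, Finset.mul_sum]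
  refine Finset.sum_congr rfl fun τ _ => ?_
  simp

private theorem e2_copr {k R : ℕ} [NeZero k] {c : ℕ → ZMod k} (P : PS k R c) (e : Ed k R)
    (p : Fin P.J × ZMod k) : IsCoprime ((P.M : ℤ) ^ ((e.1.1.1 : ℕ) + 2)) (P.κ e p : ℤ) := by
  have h1 : Nat.Coprime (P.κ e p) (P.M ^ (k + 2)) := by
    have := (P.hmod e p).gcd_eq
    rw [Nat.Coprime, this]
    simp
  have h2 : P.M ^ ((e.1.1.1 : ℕ) + 2) ∣ P.M ^ (k + 2) := by
    apply pow_dvd_pow
    have := e.1.1.1.isLt
    omega
  have h3 : Nat.Coprime (P.M ^ ((e.1.1.1 : ℕ) + 2)) (P.κ e p) :=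
    (Nat.Coprime.coprime_dvd_right h2 h1).symm
  have := Nat.isCoprime_iff_coprime.mpr h3
  exact_mod_cast this

/-- the edges from `v` into `U`. -/
private def e2_E {k R : ℕ} (v : V k R) (U : Finset (V k R)) : Finset (Ed k R) :=
  univ.filter fun e => (e.1.1 = v ∧ e.1.2 ∈ U) ∨ (e.1.2 = v ∧ e.1.1 ∈ U)

private theorem e2_split {k R : ℕ} [NeZero k] {c : ℕ → ZMod k} (P : PS k R c)
    (π : Ed k R → Fin P.J × ZMod k) (U : Finset (V k R)) (v : V k R) (hv : v ∉ U)
    (τ : V k R → Fin P.ell) :
    P.wt π (insert v U) τ = P.wt π U τ *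
      ∏ e ∈ e2_E v U, (if (P.κ e (π e) : ℤ) ∣ P.N e τ then (P.κ e (π e) : ℝ) else 0) := by
  classical
  unfold PS.wt
  rw [e2_E, Finset.prod_filter, ← Finset.prod_mul_distrib]
  refine Finset.prod_congr rfl fun e _ => ?_
  have hne : e.1.1 ≠ e.1.2 := by
    intro h
    have := e.2
    rw [h] at this
    exact lt_irrefl _ this
  by_cases h1 : e.1.1 = v
  · by_cases h2 : e.1.2 ∈ U
    · have hin : e.1.1 ∉ U := by rw [h1]; exact hv
      simp [h1, h2, hv]
    · have h3 : e.1.2 ≠ v := fun h => hne (h1.trans h.symm)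
      have hin : e.1.1 ∉ U := by rw [h1]; exact hv
      simp [h1, h2, hv, h3]
  · by_cases h2 : e.1.2 = v
    · by_cases h3 : e.1.1 ∈ U
      · simp [h1, h2, h3, hv]
      · simp [h1, h2, h3, hv]
    · simp [h1, h2, Finset.mem_insert]

private theorem e2_sum (hE1 : S_E1) {k R : ℕ} [NeZero k] {c : ℕ → ZMod k} (P : PS k R c)
    (π : Ed k R → Fin P.J × ZMod k) (U : Finset (V k R)) (v : V k R) (hv : v ∉ U)
    (τ : V k R → Fin P.ell) :
    ∑ x : Fin P.ell, ∏ e ∈ e2_E v U,
      (if (P.κ e (π e) : ℤ) ∣ P.N e (Function.update τ v x) then (P.κ e (π e) : ℝ) else 0)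
      = P.ell := by
  classical
  let u : Ed k R → ℤ := fun e => if e.1.1 = v then (P.M : ℤ) ^ ((e.1.1.1 : ℕ) + 2)
    else - (P.M : ℤ) ^ ((e.1.1.1 : ℕ) + 2)
  let a : Ed k R → ℤ := fun e => if e.1.1 = v then
      Nn P.M P.ell e.1.2.1 e.1.1.1 0 (τ e.1.2)
    else Nn P.M P.ell e.1.2.1 e.1.1.1 (τ e.1.1) 0
  have hN : ∀ e ∈ e2_E v U, ∀ x : Fin P.ell,
      P.N e (Function.update τ v x) = u e * ((x : ℕ) : ℤ) + a e := by
    intro e he x
    rw [e2_E, Finset.mem_filter] at he
    have hne : e.1.1 ≠ e.1.2 := by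
      intro h
      have := e.2
      rw [h] at this
      exact lt_irrefl _ this
    rcases he.2 with ⟨h1, h2⟩ | ⟨h1, h2⟩
    · have h3 : e.1.2 ≠ v := fun h => hne (h1.trans h.symm)
      have e1 : Function.update τ v x e.1.1 = x := by rw [h1]; simp
      have e2 : Function.update τ v x e.1.2 = τ e.1.2 := Function.update_of_ne h3 _ _
      simp only [PS.N, u, a, if_pos h1, e1, e2, Nn]
      push_cast
      ring
    · have h3 : e.1.1 ≠ v := fun h => hne (h.trans h1.symm)
      have e1 : Function.update τ v x e.1.2 = x := by rw [h1]; simp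
      have e2 : Function.update τ v x e.1.1 = τ e.1.1 := Function.update_of_ne h3 _ _
      simp only [PS.N, u, a, if_neg h3, e1, e2, Nn]
      push_cast
      ring
  have hmain := hE1 (Ed k R) (e2_E v U) (fun e => P.κ e (π e)) u a P.ell
    (fun e _ => lt_of_lt_of_le P.hKpos (P.hK e (π e)).1)
    (fun e _ e' _ hee => P.hcop e e' _ _ hee)
    (fun e _ => by
      by_cases h : e.1.1 = v
      · simp only [u, if_pos h]; exact e2_copr P e (π e)
      · simp only [u, if_neg h]; exact (e2_copr P e (π e)).neg_left)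
    ((Finset.prod_dvd_prod_of_subset _ _ _ (Finset.subset_univ _)).trans (P.hdvd π))
  obtain ⟨Q, hQ⟩ : ∃ Q : ℕ → Prop, ∀ x, Q x ↔
      ∀ e ∈ e2_E v U, (P.κ e (π e) : ℤ) ∣ u e * (x : ℤ) + a e := ⟨_, fun _ => Iff.rfl⟩
  have h1 : ∀ x : Fin P.ell, ∏ e ∈ e2_E v U,
      (if (P.κ e (π e) : ℤ) ∣ P.N e (Function.update τ v x) then (P.κ e (π e) : ℝ) else 0)
      = (if Q (x : ℕ) then 1 else 0) * ∏ e ∈ e2_E v U, (P.κ e (π e) : ℝ) := by
    intro x
    by_cases h : Q (x : ℕ)
    · rw [if_pos h, one_mul]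
      refine Finset.prod_congr rfl fun e he => ?_
      rw [hN e he x, if_pos ((hQ _).1 h e he)]
    · rw [if_neg h, zero_mul]
      rw [hQ] at h
      push Not at h
      obtain ⟨e, he, hh⟩ := h
      refine Finset.prod_eq_zero he ?_
      rw [hN e he x, if_neg hh]
  rw [Finset.sum_congr rfl fun x _ => h1 x, ← Finset.sum_mul]
  rw [Fin.sum_univ_eq_sum_range (fun x : ℕ => if Q x then (1 : ℝ) else 0) P.ell]
  rw [Finset.sum_boole]
  have hf : (range P.ell).filter (fun x : ℕ => Q x) = (range P.ell).filter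
      (fun x : ℕ => ∀ e ∈ e2_E v U, (P.κ e (π e) : ℤ) ∣ u e * (x : ℤ) + a e) :=
    Finset.filter_congr fun x _ => hQ x
  have hmain' := congrArg (fun n : ℕ => (n : ℝ)) hmain
  push_cast at hmain'
  rw [hf, ← hmain']
  congr!

private theorem e2_step (hE1 : S_E1) {k R : ℕ} [NeZero k] {c : ℕ → ZMod k} (P : PS k R c)
    (π : Ed k R → Fin P.J × ZMod k) (U : Finset (V k R)) (v : V k R) (hv : v ∉ U)
    (g : (V k R → Fin P.ell) → ℝ) (hg : ∀ τ x, g (Function.update τ v x) = g τ) :
    ∑ τ, g τ * P.wt π (insert v U) τ = ∑ τ, g τ * P.wt π U τ := by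
  classical
  have hell : (0 : ℝ) < P.ell := by exact_mod_cast P.hell
  have hw : ∀ τ x, P.wt π U (Function.update τ v x) = P.wt π U τ := by
    intro τ x
    unfold PS.wt
    refine Finset.prod_congr rfl fun e _ => ?_
    by_cases h : e.1.1 ∈ U ∧ e.1.2 ∈ U
    · have h1 : e.1.1 ≠ v := fun hh => hv (hh ▸ h.1)
      have h2 : e.1.2 ≠ v := fun hh => hv (hh ▸ h.2)
      have e1 : P.N e (Function.update τ v x) = P.N e τ := by
        simp only [PS.N, Function.update_of_ne h1, Function.update_of_ne h2]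
      rw [e1]
    · rw [if_neg h, if_neg h]
  have key := e2_update v (fun τ => g τ * P.wt π (insert v U) τ)
  rw [Fintype.card_fin] at key
  have h2 : ∑ τ : V k R → Fin P.ell, ∑ x : Fin P.ell,
      g (Function.update τ v x) * P.wt π (insert v U) (Function.update τ v x)
      = (P.ell : ℝ) * ∑ τ, g τ * P.wt π U τ := by
    rw [Finset.mul_sum]
    refine Finset.sum_congr rfl fun τ _ => ?_
    have h3 : ∀ x : Fin P.ell, g (Function.update τ v x) *
        P.wt π (insert v U) (Function.update τ v x) = (g τ * P.wt π U τ) *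
        ∏ e ∈ e2_E v U, (if (P.κ e (π e) : ℤ) ∣ P.N e (Function.update τ v x) then
          (P.κ e (π e) : ℝ) else 0) := by
      intro x
      rw [hg, e2_split P π U v hv, hw]
      ring
    rw [Finset.sum_congr rfl fun x _ => h3 x, ← Finset.mul_sum, e2_sum hE1 P π U v hv τ]
    ring
  exact mul_left_cancel₀ hell.ne' (key.symm.trans h2)

/-- (Job PX E2) Integrating out the points outside `U`. -/
theorem tE2 (hE1 : S_E1) : S_E2 := by
  classical
  intro k R _ c P π U U' hUU'
  have hreal : ∀ g : (V k R → Fin P.ell) → ℝ,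
      (∀ τ τ', (∀ v ∈ U, τ v = τ' v) → g τ = g τ') →
      ∑ τ, g τ * P.wt π U' τ = ∑ τ, g τ * P.wt π U τ := by
    intro g hg
    obtain ⟨D, rfl⟩ : ∃ D, U' = D ∪ U := ⟨U', by rw [Finset.union_eq_left.mpr hUU']⟩
    clear hUU'
    induction D using Finset.induction_on with
    | empty => simp
    | insert v D hvD ih =>
      by_cases hv : v ∈ U
      · have : insert v D ∪ U = D ∪ U := by
          ext w
          simp only [Finset.mem_union, Finset.mem_insert]
          constructor
          · rintro ((rfl | h) | h)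
            · exact Or.inr hv
            · exact Or.inl h
            · exact Or.inr h
          · rintro (h | h)
            · exact Or.inl (Or.inr h)
            · exact Or.inr h
        rw [this]
        exact ih
      · have hv' : v ∉ D ∪ U := by
          simp only [Finset.mem_union, not_or]
          exact ⟨hvD, hv⟩
        rw [Finset.insert_union, e2_step hE1 P π (D ∪ U) v hv' g, ih]
        intro τ x
        have hw : ∀ w ∈ U, Function.update τ v x w = τ w := by
          intro w hw
          have : w ≠ v := by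
            rintro rfl
            exact hv hw
          exact Function.update_of_ne this _ _
        exact hg _ _ hw
  refine ⟨hreal, fun g hg => ?_⟩
  have hre := hreal (fun τ => (g τ).re) (fun τ τ' h => by rw [hg τ τ' h])
  have him := hreal (fun τ => (g τ).im) (fun τ τ' h => by rw [hg τ τ' h])
  apply Complex.ext
  · simpa [Complex.re_sum, Complex.mul_re] using hre
  · simpa [Complex.im_sum, Complex.mul_im] using him

end Pool.Agent.Lib.MP_fed790_nt.PX
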