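import Pool.Agent.Lib.MP_fed790_nt.PX.Defs2

/-! E2b: sums of quantities depending on few values -/

open Finset MeasureTheory

namespace Pool.Agent.Lib.MP_fed790_nt.PX

private theorem e2b_gen (K : Type) [CommSemiring K] (V α : Type) [Fintype V] [DecidableEq V]
    [Fintype α] (m : ℕ) (f : Fin m → V) (hf : Function.Injective f) (G : (Fin m → α) → K) :
    (∑ τ : V → α, G (τ ∘ f)) * (Fintype.card α : K) ^ m =
      (Fintype.card α : K) ^ Fintype.card V * ∑ x, G x := by
  classical
  let W : Type := {v : V // v ∉ Set.range f}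
  let e : Fin m ⊕ W ≃ V :=
    (Equiv.sumCongr (Equiv.ofInjective f hf) (Equiv.refl _)).trans
      (Equiv.Set.sumCompl (Set.range f))
  have he : ∀ i : Fin m, e (Sum.inl i) = f i := fun i => rfl
  have hc : Fintype.card V = m + Fintype.card W := by
    rw [← Fintype.card_congr e, Fintype.card_sum, Fintype.card_fin]
  let E : (V → α) ≃ (Fin m → α) × (W → α) :=
    (Equiv.arrowCongr e.symm (Equiv.refl α)).trans (Equiv.sumArrowEquivProdArrow _ _ _)
  have hE : ∀ τ : V → α, (E τ).1 = τ ∘ f := fun τ => rfl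
  have h1 : ∑ τ : V → α, G (τ ∘ f) = ∑ p : (Fin m → α) × (W → α), G p.1 := by
    rw [← Equiv.sum_comp E]
    exact Finset.sum_congr rfl fun τ _ => by rw [hE]
  have h2 : ∑ p : (Fin m → α) × (W → α), G p.1 =
      (Fintype.card α : K) ^ Fintype.card W * ∑ x, G x := by
    rw [Fintype.sum_prod_type]
    simp only [Finset.sum_const, Finset.card_univ, nsmul_eq_mul]
    rw [← Finset.mul_sum, Fintype.card_fun, Nat.cast_pow]
  rw [h1, h2, hc, pow_add]
  ring

/-- (Job PX E2b) Proof.  The fibres of `τ ↦ τ ∘ f` all have `(card α)^(card V - m)` elements (`m ≤ card V` by injectivity).  E.g. use an equivalence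
`V ≃ Fin m ⊕ rest` extending `f` (`Equiv.ofInjective` / `Equiv.Set.sumCompl` for `Set.range f`) and
`(V → α) ≃ (Fin m → α) × (rest → α)` (`Equiv.sumArrowEquivProdArrow`), `Fintype.card_fun`.  Same proof over `ℝ` and `ℂ`. -/
theorem tE2b : S_E2b := by
  intro V α _ _ _ m f hf
  exact ⟨fun G => e2b_gen ℝ V α m f hf G, fun G => e2b_gen ℂ V α m f hf G⟩

end Pool.Agent.Lib.MP_fed790_nt.PX
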