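import Pool.Agent.Lib.MP_fed790_nt.PX.Defs2

/-! E3a: bridge between HH and phi -/

open Finset MeasureTheory

namespace Pool.Agent.Lib.MP_fed790_nt.PX

theorem e3a_dvd (κ b t : ℕ) (v d : ℤ) (hb : 0 < b) (hκ : κ = 1 + b * t)
    (h : (κ : ℤ) ∣ v + b * d) : ∃ ω : ℤ, d = t * v + κ * ω := by
  obtain ⟨m, hm⟩ := h
  have hκ' : (κ : ℤ) = 1 + b * t := by exact_mod_cast hκ
  refine ⟨d - t * m, ?_⟩
  have hb' : (b : ℤ) ≠ 0 := by exact_mod_cast hb.ne'
  apply mul_left_cancel₀ hb'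
  have h1 : (b : ℤ) * d = κ * m - v := by linear_combination hm
  have h2 : v = κ * m - b * d := by linear_combination hm
  rw [h2, hκ']
  ring

/-- (Job PX E3a) Proof.  Compare the terms for one `p`.  Let `κ = κ_p`, `b = M^(g'+2)`, `v = 1 - M^(g'-g)`, `κ̃ = (κ-1)/b` (exact: `b ∣ κ-1`
because `κ ≡ 1 mod M^(k+2)` and `g' ≤ k`), `d = 2(g'-g)ell + x - y`, `N = v + b d`.
If `d = κ̃v + κω` with `ω ∈ [1,W]` then `N = v + bκω + (κ-1)v = κ (v + bω)`, so `κ ∣ N` and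
`c(|N|) = c(κ) + c(|v + bω|)` (`v + bω > 0` for `ω ≥ 1` since `|v| < b`).
Conversely if `κ ∣ N`, `N = κ m`: mod `b` we get `v ≡ m` (`κ ≡ 1`), so `m = v + bω`, and `b d = κ(v+bω) - v` gives `d = κ̃v + κω`.
Range: `ell < d < (2k+1) ell` (as `1 ≤ g'-g ≤ k`, `|x-y| < ell`), `|κ̃ v| < κ` (as `|v| < b`), so
`κω = d - κ̃v > ell - κ ≥ 0` (`κ ≤ 2K ≤ ell`) gives `ω ≥ 1`, and `κω < (2k+1)ell + κ` gives
`ω < (2k+1)ell/κ + 1 ≤ (2k+1)ell/K + 1 ≤ W` by `hW`.  `ω` is unique (`κ > 0`), so the inner sum has one term. -/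
theorem tE3a : S_E3a := by
  intro k R _ c P ψ e x y hx hy
  unfold phi PS.HH
  apply Finset.sum_congr rfl
  intro p _
  unfold PS.chi Nn
  beta_reduce
  have hgg : ((e.1.2.1 : Fin (k + 1)) : ℕ) < ((e.1.1.1 : Fin (k + 1)) : ℕ) := e.2
  have hgk : ((e.1.1.1 : Fin (k + 1)) : ℕ) ≤ k := Nat.lt_succ_iff.1 e.1.1.1.2
  generalize ((e.1.1.1 : Fin (k + 1)) : ℕ) = g' at *
  generalize ((e.1.2.1 : Fin (k + 1)) : ℕ) = g at *
  have hκ1 := P.hK e p
  have hκm := P.hmod e p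
  have hK := P.hKpos
  have hell0 := P.hell0
  have hW := P.hW
  have hM := P.hM
  have hcm := P.hc
  generalize P.κ e p = κ at *
  generalize hV : (P.M : ℤ) ^ (g' - g) = Q at *
  obtain ⟨b, hb⟩ : ∃ b : ℕ, b = P.M ^ (g' + 2) := ⟨_, rfl⟩
  have hbZ : (P.M : ℤ) ^ (g' + 2) = (b : ℤ) := by rw [hb]; push_cast; rfl
  rw [← hb]
  simp only [hbZ]
  have hMpos : 0 < P.M := by omega
  have hbpos : 0 < b := by rw [hb]; exact pow_pos hMpos _
  have hκpos : 0 < κ := by omega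
  -- `κ = 1 + b t`
  have hbdvd : b ∣ κ - 1 := by
    have h1 : P.M ^ (k + 2) ∣ κ - 1 := (Nat.modEq_iff_dvd' hκpos).1 hκm.symm
    have h2 : b ∣ P.M ^ (k + 2) := by
      rw [hb]
      exact pow_dvd_pow P.M (by omega)
    exact h2.trans h1
  obtain ⟨t, ht⟩ := hbdvd
  have hκt : κ = 1 + b * t := by omega
  have hdiv : (κ - 1) / b = t := by rw [ht]; exact Nat.mul_div_cancel_left t hbpos
  rw [hdiv]
  have hκZ : (κ : ℤ) = 1 + b * t := by exact_mod_cast hκt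
  -- size of `v`
  have hQ1 : 1 ≤ Q := by
    rw [← hV]
    exact_mod_cast Nat.one_le_pow _ _ hMpos
  have hQb : Q ≤ b := by
    rw [← hV, ← hbZ]
    exact_mod_cast Nat.pow_le_pow_right hMpos (by omega)
  obtain ⟨v, hv⟩ : ∃ v : ℤ, v = 1 - Q := ⟨_, rfl⟩
  rw [← hv]
  have hv0 : v ≤ 0 := by omega
  have hvb : 1 - (b : ℤ) ≤ v := by omega
  obtain ⟨d, hd⟩ : ∃ d : ℤ, d = 2 * ((g' : ℤ) - (g : ℤ)) * (P.ell : ℤ) + (x : ℤ) - (y : ℤ) :=
    ⟨_, rfl⟩
  simp only [← hd]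
  -- range of `d`
  have hd1 : (P.ell : ℤ) < d := by
    rw [hd]
    have h1 : (1 : ℤ) ≤ (g' : ℤ) - g := by omega
    have h2 : (P.ell : ℤ) ≤ ((g' : ℤ) - g) * P.ell := by nlinarith
    have h3 : 2 * ((g' : ℤ) - g) * P.ell = 2 * (((g' : ℤ) - g) * P.ell) := by ring
    omega
  have hd2 : d < (2 * k + 1) * (P.ell : ℤ) := by
    rw [hd]
    have h1 : (g' : ℤ) - g ≤ k := by omega
    have h2 : ((g' : ℤ) - g) * P.ell ≤ k * P.ell := by nlinarith
    have h3 : 2 * ((g' : ℤ) - g) * P.ell = 2 * (((g' : ℤ) - g) * P.ell) := by ring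
    have h4 : (2 * (k : ℤ) + 1) * P.ell = 2 * (k * P.ell) + P.ell := by ring
    omega
  have htv0 : (t : ℤ) * v ≤ 0 := mul_nonpos_of_nonneg_of_nonpos (by positivity) hv0
  have htv1 : 1 - (κ : ℤ) ≤ t * v := by
    have h1 : (t : ℤ) * (1 - b) ≤ t * v := mul_le_mul_of_nonneg_left hvb (by positivity)
    have h2 : (t : ℤ) * (1 - b) = t - b * t := by ring
    have h3 : (0 : ℤ) ≤ t := by positivity
    omega
  -- existence of `ω`
  by_cases hN : (κ : ℤ) ∣ v + b * d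
  · rw [if_pos hN]
    obtain ⟨ω, hω⟩ := e3a_dvd κ b t v d hbpos hκt hN
    have hω1 : 1 ≤ ω := by
      by_contra hcon
      have h1 : ω ≤ 0 := by omega
      have h2 : (κ : ℤ) * ω ≤ 0 := mul_nonpos_of_nonneg_of_nonpos (by positivity) h1
      have h3 : (κ : ℤ) ≤ P.ell := by omega
      omega
    have hωW : ω ≤ P.W := by
      by_contra hcon
      have h1 : (P.W : ℤ) + 1 ≤ ω := by omega
      have h2 : (κ : ℤ) * (P.W + 1) ≤ κ * ω := mul_le_mul_of_nonneg_left h1 (by positivity)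
      have h3 : (P.K : ℤ) * P.W ≤ κ * P.W := by
        exact_mod_cast Nat.mul_le_mul_right P.W hκ1.1
      have h4 : (κ : ℤ) * (P.W + 1) = κ * P.W + κ := by ring
      have h5 : ((2 * k + 1) * P.ell + P.K : ℤ) ≤ P.K * P.W := by exact_mod_cast hW
      omega
    lift ω to ℕ using (by omega)
    have hiff : ∀ ω' : ℕ, (d = (t : ℤ) * v + κ * ω') ↔ ω = ω' := by
      intro ω'
      constructor
      · intro h
        have h1 : (κ : ℤ) * ω = κ * ω' := by omega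
        have h2 : (κ : ℤ) ≠ 0 := by exact_mod_cast hκpos.ne'
        exact_mod_cast mul_left_cancel₀ h2 h1
      · rintro rfl
        exact hω
    simp only [hiff]
    rw [Finset.sum_ite_eq, if_pos (by rw [Finset.mem_Icc]; omega)]
    have hmpos : 0 < v + b * ω := by
      have h1 : (b : ℤ) * 1 ≤ b * ω := mul_le_mul_of_nonneg_left hω1 (by positivity)
      omega
    have hNeq : v + b * d = κ * (v + b * ω) := by
      rw [hω, hκZ]
      ring
    rw [hNeq, Int.natAbs_mul, Int.natAbs_natCast, hcm κ _ hκpos (Int.natAbs_pos.2 hmpos.ne'),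
      AddChar.map_add_eq_mul, mul_assoc]
  · rw [if_neg hN]
    have hz : ∀ ω' ∈ Icc 1 P.W, (if d = (t : ℤ) * v + κ * ω' then
        ψ (c (v + b * ω').natAbs) else 0) = 0 := by
      intro ω' _
      rw [if_neg]
      intro h
      apply hN
      refine ⟨v + b * ω', ?_⟩
      rw [h, hκZ]
      ring
    rw [Finset.sum_eq_zero hz, mul_zero]

end Pool.Agent.Lib.MP_fed790_nt.PX
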