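import Pool.Agent.Lib.MP_fed790_nt.PX.Defs2

/-! E3b: the pair estimate -/

open Finset MeasureTheory

namespace Pool.Agent.Lib.MP_fed790_nt.PX

private theorem e3b_norm {k : ℕ} [NeZero k] (ψ : AddChar (ZMod k) ℂ) (x : ZMod k) :
    ‖ψ x‖ ≤ 1 := (AddChar.norm_apply ψ x).le

/-- The two elements of a pool with the same index. -/
private theorem e3b_kap {k R : ℕ} [NeZero k] {c : ℕ → ZMod k} (P : PS k R c) (e : Ed k R)
    (j : Fin P.J) (b : ZMod k) :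
    (P.M₂ : ℤ) ∣ (P.κ e (j, b) : ℤ) - P.κ e (j, 0) ∧
      |((P.κ e (j, b) : ℝ) - P.κ e (j, 0))| ≤ P.K * (4 * (k : ℝ) ^ 2 / P.X₀) := by
  have hX : (0 : ℝ) < P.X₀ := by exact_mod_cast P.hX₀pos
  refine ⟨?_, ?_⟩
  · refine dvd_trans ?_ (P.hX₀ e j b)
    exact_mod_cast (Dvd.intro_left _ rfl : P.M₂ ∣ P.M ^ (k + 2) * P.M₂).trans P.hM₂
  · have h := P.hclose e j b
    have h' : |((P.κ e (j, b) : ℝ) - P.κ e (j, 0))| * P.X₀ ≤ 4 * (k : ℝ) ^ 2 * P.K := by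
      exact_mod_cast h
    rw [mul_div_assoc', le_div_iff₀ hX]
    linarith

private theorem e3b_nu {k R : ℕ} [NeZero k] {c : ℕ → ZMod k} (P : PS k R c) (e : Ed k R)
    (g' g : ℕ) (hg : g' ≤ k) (j : Fin P.J) (b : ZMod k) :
    (P.M₂ : ℤ) ∣ (((P.κ e (j, b) - 1) / P.M ^ (g' + 2) : ℕ) : ℤ) * (1 - (P.M : ℤ) ^ (g' - g)) -
        (((P.κ e (j, 0) - 1) / P.M ^ (g' + 2) : ℕ) : ℤ) * (1 - (P.M : ℤ) ^ (g' - g)) ∧
      |(((((P.κ e (j, b) - 1) / P.M ^ (g' + 2) : ℕ) : ℤ) * (1 - (P.M : ℤ) ^ (g' - g)) : ℤ) : ℝ) -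
        (((((P.κ e (j, 0) - 1) / P.M ^ (g' + 2) : ℕ) : ℤ) * (1 - (P.M : ℤ) ^ (g' - g)) : ℤ) : ℝ)|
        ≤ P.K * (4 * (k : ℝ) ^ 2 / P.X₀) := by
  have hM1 : 1 ≤ P.M := le_trans (by norm_num) P.hM
  have hMpos : 0 < P.M := hM1
  have key : ∀ b : ZMod k, ((((P.κ e (j, b) - 1) / P.M ^ (g' + 2) : ℕ) : ℤ)) * (P.M : ℤ) ^ (g' + 2) =
      (P.κ e (j, b) : ℤ) - 1 := by
    intro b
    have h1 : 1 ≤ P.κ e (j, b) := le_trans P.hKpos (P.hK e (j, b)).1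
    have h2 : P.M ^ (g' + 2) ∣ P.κ e (j, b) - 1 := by
      have h3 : P.M ^ (k + 2) ∣ P.κ e (j, b) - 1 :=
        (Nat.modEq_iff_dvd' h1).1 (P.hmod e (j, b)).symm
      exact (pow_dvd_pow _ (by omega)).trans h3
    have h4 := Nat.div_mul_cancel h2
    have h5 : ((((P.κ e (j, b) - 1) / P.M ^ (g' + 2) * P.M ^ (g' + 2) : ℕ)) : ℤ) =
        ((P.κ e (j, b) - 1 : ℕ) : ℤ) := by rw [h4]
    rw [Nat.cast_sub h1] at h5
    push_cast at h5 ⊢
    exact h5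
  set q : ℤ := (((P.κ e (j, b) - 1) / P.M ^ (g' + 2) : ℕ) : ℤ) with hq
  set q0 : ℤ := (((P.κ e (j, 0) - 1) / P.M ^ (g' + 2) : ℕ) : ℤ) with hq0
  have hkb := key b
  have hk0 := key 0
  rw [← hq] at hkb
  rw [← hq0] at hk0
  have hdiff : (q - q0) * (P.M : ℤ) ^ (g' + 2) = (P.κ e (j, b) : ℤ) - P.κ e (j, 0) := by
    linear_combination hkb - hk0
  have hMz : (0 : ℤ) < (P.M : ℤ) ^ (g' + 2) := by positivity
  refine ⟨?_, ?_⟩
  · have h1 : (P.M : ℤ) ^ (g' + 2) * P.M₂ ∣ (P.M : ℤ) ^ (g' + 2) * (q - q0) := by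
      have h2 : (P.M : ℤ) ^ (k + 2) * P.M₂ ∣ (P.X₀ : ℤ) := by exact_mod_cast P.hM₂
      have h3 : (P.M : ℤ) ^ (g' + 2) * P.M₂ ∣ (P.M : ℤ) ^ (k + 2) * P.M₂ :=
        mul_dvd_mul_right (pow_dvd_pow _ (by omega)) _
      have h4 := (h3.trans h2).trans (P.hX₀ e j b)
      rw [← hdiff, mul_comm (q - q0)] at h4
      exact h4
    have h5 : (P.M₂ : ℤ) ∣ q - q0 := (mul_dvd_mul_iff_left hMz.ne').1 h1
    have h6 : q * (1 - (P.M : ℤ) ^ (g' - g)) - q0 * (1 - (P.M : ℤ) ^ (g' - g)) =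
        (q - q0) * (1 - (P.M : ℤ) ^ (g' - g)) := by ring
    rw [h6]
    exact h5.mul_right _
  · have h1 : |q * (1 - (P.M : ℤ) ^ (g' - g)) - q0 * (1 - (P.M : ℤ) ^ (g' - g))| ≤
        |(P.κ e (j, b) : ℤ) - P.κ e (j, 0)| := by
      rw [← hdiff]
      have h6 : q * (1 - (P.M : ℤ) ^ (g' - g)) - q0 * (1 - (P.M : ℤ) ^ (g' - g)) =
          (q - q0) * (1 - (P.M : ℤ) ^ (g' - g)) := by ring
      rw [h6, abs_mul, abs_mul]
      refine mul_le_mul_of_nonneg_left ?_ (abs_nonneg _)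
      have h7 : (1 : ℤ) ≤ (P.M : ℤ) ^ (g' - g) := by
        exact_mod_cast Nat.one_le_pow _ _ hMpos
      have h8 : (P.M : ℤ) ^ (g' - g) ≤ (P.M : ℤ) ^ (g' + 2) := by
        exact_mod_cast Nat.pow_le_pow_right hMpos (by omega)
      rw [abs_of_nonpos (by linarith), abs_of_pos hMz]
      linarith
    have h2 := (e3b_kap P e j b).2
    have h3 : |((q * (1 - (P.M : ℤ) ^ (g' - g)) : ℤ) : ℝ) -
        ((q0 * (1 - (P.M : ℤ) ^ (g' - g)) : ℤ) : ℝ)| ≤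
        |((P.κ e (j, b) : ℝ) - P.κ e (j, 0))| := by
      exact_mod_cast h1
    exact h3.trans h2

/-- (Job PX E3b) Proof.  By E3a the left side is the left side of A5 with both pools `P.κ e`, `P.κ e'`, `u p = ψ(c κ_p)`, the same `a`
(the groups of the two edges agree), `w = 2(g'-g)ell`.  So it is at most the double integral, which C5 bounds by
`n²n² ell⁴ (…) ≤ n⁴ ell⁴ εC` (`hC`).  Hypotheses of C5: `P.hsep`, `P.hcl`, `P.hcop` (`e ≠ e'`), `κ_e p κ_e' q ∣ ell` (from `hdvd` for a `π` with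
`π e = p`, `π e' = q`), `hWL`, `hell1`, `hell2`.  The last hypothesis is C4 with `ι = Fin J`, `u i = ψ(c κ(i,0))`, `ψ b`:
`ψ(c κ(i,b)) = ψ(c κ(i,0)) ψ(b)` by `hcol`; `∑_b ψ b = 0` (`AddChar.sum_eq_zero_of_ne_one`);
`η₀ = 4k²/X₀`: `|κ(i,b) - κ(i,0)| ≤ 4k²K/X₀` by `hclose`, divisible by `X₀` hence by `M₂`;
`ν(i,b) - ν(i,0) = ((κ(i,b)-κ(i,0))/M^(g'+2)) (1 - M^(g'-g))` is divisible by `M₂` (`M^(k+2) M₂ ∣ X₀`, `g' ≤ k`) and not larger than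
`|κ(i,b)-κ(i,0)|` in absolute value.  `δ₁ = 8M₂AI/ell`, and `8πKWδ₁/M₂ = 64πKWAI/ell ≤ 32πLAI` by `hWL`; then `hη`. -/
theorem tE3b (hA5 : S_A5) (hC4 : S_C4) (hC5 : S_C5) (hE3a : S_E3a) : S_E3b := by
  intro k R _ c P ψ hψ e e' hne h1 h2
  have hKpos := P.hKpos
  have hellpos : (0 : ℝ) < P.ell := by exact_mod_cast P.hell
  have hM₂pos : (0 : ℝ) < P.M₂ := by exact_mod_cast P.hM₂pos
  have hApos : 0 < P.A := lt_of_lt_of_le one_pos P.hA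
  set g' : ℕ := (e.1.1.1 : ℕ) with hg'
  set g : ℕ := (e.1.2.1 : ℕ) with hg
  have hg'k : g' ≤ k := by rw [hg']; have := e.1.1.1.2; omega
  set a : ℕ → ℂ := fun ω => ψ (c (1 - (P.M : ℤ) ^ (g' - g) + (P.M : ℤ) ^ (g' + 2) * ω).natAbs)
    with ha
  set ν : Ed k R → Fin P.J × ZMod k → ℤ := fun e₁ p =>
    (((P.κ e₁ p - 1) / P.M ^ (g' + 2) : ℕ) : ℤ) * (1 - (P.M : ℤ) ^ (g' - g)) with hν
  set u : Ed k R → Fin P.J × ZMod k → ℂ := fun e₁ p => ψ (c (P.κ e₁ p)) with hu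
  set w : ℤ := 2 * ((g' : ℤ) - (g : ℕ)) * P.ell with hw
  -- E3a
  have E1 : ∀ x y : ℕ, x < P.ell → y < P.ell →
      phi (P.κ e) (u e) (ν e) a P.W (w + x - y) = P.HH ψ e x y := fun x y hx hy =>
    hE3a k R c P ψ e x y hx hy
  have E2 : ∀ x y : ℕ, x < P.ell → y < P.ell →
      phi (P.κ e') (u e') (ν e') a P.W (w + x - y) = P.HH ψ e' x y := by
    intro x y hx hy
    have h := hE3a k R c P ψ e' x y hx hy
    rw [← h1, ← h2] at h
    exact h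
  have hL : ∑ y ∈ range P.ell, ∑ y' ∈ range P.ell,
      ‖∑ x ∈ range P.ell, P.HH ψ e x y * (starRingEnd ℂ) (P.HH ψ e' x y')‖ ^ 2 =
      ∑ y ∈ range P.ell, ∑ y' ∈ range P.ell, ‖∑ x ∈ range P.ell,
        phi (P.κ e) (u e) (ν e) a P.W (w + x - y) *
        (starRingEnd ℂ) (phi (P.κ e') (u e') (ν e') a P.W (w + x - y'))‖ ^ 2 := by
    refine Finset.sum_congr rfl fun y hy => Finset.sum_congr rfl fun y' hy' => ?_
    congr 2
    refine Finset.sum_congr rfl fun x hx => ?_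
    rw [E1 x y (mem_range.1 hx) (mem_range.1 hy), E2 x y' (mem_range.1 hx) (mem_range.1 hy')]
  rw [hL]
  refine (hA5 _ _ (P.κ e) (P.κ e') (u e) (u e') (ν e) (ν e') a a P.W P.ell w).trans ?_
  have hanorm : ∀ ω, ‖a ω‖ ≤ 1 := fun ω => e3b_norm ψ _
  -- the last hypothesis of C5
  have hmaj : ∀ θ : T, ‖P.M₂ • θ‖ ≤ 8 * P.M₂ * P.A * P.I / P.ell →
      ‖Phi (P.κ e) (u e) (ν e) a P.W θ‖ ≤
        Fintype.card (Fin P.J × ZMod k) * (P.K * P.W * P.η) := by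
    intro θ hθ
    have hη₀ : (0 : ℝ) ≤ 4 * (k : ℝ) ^ 2 / P.X₀ := by positivity
    have hδ : (0 : ℝ) ≤ 8 * P.M₂ * P.A * P.I / P.ell := by positivity
    have h := hC4 (Fin P.J) k (P.κ e) (fun i => ψ (c (P.κ e (i, 0)))) (fun b => ψ b) (ν e) a
      P.W P.K P.M₂ (4 * (k : ℝ) ^ 2 / P.X₀) (8 * P.M₂ * P.A * P.I / P.ell) P.hKpos P.hM₂pos
      P.hWpos hη₀ hδ (P.hK e) (fun i => e3b_norm ψ _) (fun b => e3b_norm ψ _) hanorm
      (by simpa using AddChar.sum_eq_zero_of_ne_one hψ)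
      (fun i b => e3b_kap P e i b) (fun i b => e3b_nu P e g' g hg'k i b) θ hθ
    have hueq : (fun p : Fin P.J × ZMod k => ψ (c (P.κ e (p.1, 0))) * ψ p.2) = u e := by
      funext p
      obtain ⟨j, b⟩ := p
      simp only [hu]
      rw [P.hcol e j b, AddChar.map_add_eq_mul]
    rw [hueq] at h
    refine h.trans ?_
    refine mul_le_mul_of_nonneg_left ?_ (Nat.cast_nonneg _)
    refine mul_le_mul_of_nonneg_left ?_ (by positivity)
    refine le_trans (mul_le_mul_of_nonneg_left ?_ hη₀) P.hη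
    have h5 : 8 * Real.pi * P.K * P.W * (8 * P.M₂ * P.A * P.I / P.ell) / P.M₂ =
        (2 * P.K * P.W) * (32 * Real.pi * P.A * P.I) / P.ell := by
      field_simp
      ring
    have h6 : (2 * P.K * P.W) * (32 * Real.pi * P.A * P.I) / P.ell ≤
        32 * Real.pi * P.L * P.A * P.I := by
      rw [div_le_iff₀ hellpos]
      have h7 : (0 : ℝ) ≤ 32 * Real.pi * P.A * P.I := by positivity
      calc (2 * (P.K : ℝ) * P.W) * (32 * Real.pi * P.A * P.I)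
          ≤ (P.L * P.ell) * (32 * Real.pi * P.A * P.I) :=
            mul_le_mul_of_nonneg_right P.hWL h7
        _ = 32 * Real.pi * P.L * P.A * P.I * P.ell := by ring
    rw [h5]
    linarith
  have hdvd : ∀ p q, P.κ e p * P.κ e' q ∣ P.ell := by
    intro p q
    have h := P.hdvd (Function.update (Function.update (fun _ => p) e p) e' q)
    refine dvd_trans ?_ h
    have h3 : P.κ e p * P.κ e' q = ∏ x ∈ ({e, e'} : Finset (Ed k R)),
        P.κ x (Function.update (Function.update (fun _ => p) e p) e' q x) := by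
      rw [Finset.prod_pair hne, Function.update_self, Function.update_of_ne hne,
        Function.update_self]
    rw [h3]
    exact Finset.prod_dvd_prod_of_subset _ _ _ (Finset.subset_univ _)
  have hfin := hC5 _ _ (P.κ e) (P.κ e') (u e) (u e') (ν e) (ν e') a P.W P.ell P.K P.I P.M₂ P.ε
    P.A P.L P.η P.hKpos P.hIpos P.hM₂pos P.hWpos P.hell P.hε hApos P.hL P.hη0 (P.hK e) (P.hK e')
    (fun p q => P.hcop e e' p q hne) hdvd (fun p => e3b_norm ψ _) (fun p => e3b_norm ψ _) hanorm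
    (P.hsep e) (P.hcl e) (P.hsep e') (P.hcl e') P.hWL P.hell1 P.hell2 hmaj
  refine hfin.trans ?_
  have h8 := P.hC
  have h9 : (0 : ℝ) ≤ (Fintype.card (Fin P.J × ZMod k) : ℝ) ^ 2 *
      (Fintype.card (Fin P.J × ZMod k) : ℝ) ^ 2 * P.ell ^ 4 := by positivity
  calc _ ≤ (Fintype.card (Fin P.J × ZMod k) : ℝ) ^ 2 *
      (Fintype.card (Fin P.J × ZMod k) : ℝ) ^ 2 * P.ell ^ 4 * P.εC :=
        mul_le_mul_of_nonneg_left h8 h9
    _ = _ := by ring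

end Pool.Agent.Lib.MP_fed790_nt.PX
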