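import Pool.Agent.Lib.MP_fed790_nt.PX.Defs2

/-! E3c: second moment of SS -/

open Finset MeasureTheory

namespace Pool.Agent.Lib.MP_fed790_nt.PX

/-- the four-fold sum -/
private theorem e3c_sum4 {α : Type} [Fintype α] (F : (Fin 4 → α) → ℂ) :
    ∑ x : Fin 4 → α, F x = ∑ c : α, ∑ d : α, ∑ a : α, ∑ b : α, F ![a, b, c, d] := by
  let E : (Fin 4 → α) ≃ α × α × α × α :=
    { toFun := fun x => (x 2, x 3, x 0, x 1)
      invFun := fun p => ![p.2.2.1, p.2.2.2, p.1, p.2.1]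
      left_inv := by
        intro x
        funext i
        fin_cases i <;> rfl
      right_inv := fun p => rfl }
  rw [← Equiv.sum_comp E.symm, Fintype.sum_prod_type]
  refine Finset.sum_congr rfl fun c _ => ?_
  rw [Fintype.sum_prod_type]
  refine Finset.sum_congr rfl fun d _ => ?_
  rw [Fintype.sum_prod_type]
  rfl

private theorem e3c_prod4 {α : Type} [Fintype α] (K : ℂ) (u v w z : α → ℂ) :
    ∑ c : α, ∑ d : α, ∑ a : α, ∑ b : α, K * (u a * v b * w c * z d) =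
      K * ((∑ p, u p) * (∑ p, v p) * (∑ p, w p) * ∑ p, z p) := by
  simp only [← Finset.mul_sum, ← Finset.sum_mul]

variable {k R : ℕ} [NeZero k] {c : ℕ → ZMod k}

private noncomputable def e3c_h (P : PS k R c) (e : Ed k R) (x y : ℕ)
    (p : Fin P.J × ZMod k) : ℝ :=
  if (P.κ e p : ℤ) ∣ Nn P.M P.ell e.1.2.1 e.1.1.1 x y then (P.κ e p : ℝ) else 0

private theorem e3c_HH (P : PS k R c) (ψ : AddChar (ZMod k) ℂ) (e : Ed k R) (x y : ℕ) :
    P.HH ψ e x y = (∑ p, (e3c_h P e x y p : ℂ)) * P.chi ψ e.1.2.1 e.1.1.1 x y := by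
  unfold PS.HH e3c_h
  rw [Finset.sum_mul]
  refine Finset.sum_congr rfl fun p _ => ?_
  split_ifs
  · push_cast
    rfl
  · simp

private theorem e3c_chi_norm (P : PS k R c) (ψ : AddChar (ZMod k) ℂ) (g g' x y : ℕ) :
    ‖P.chi ψ g g' x y‖ = 1 := by
  unfold PS.chi
  exact AddChar.norm_apply ψ _

/-- the weight of four points -/
private theorem e3c_wt (P : PS k R c) (π : Ed k R → Fin P.J × ZMod k) {g g' : Fin (k + 1)}
    (hg : g < g') {r r' s s' : Fin R} (hr : r ≠ r') (hs : s ≠ s')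
    (τ : V k R → Fin P.ell) (e₁ e₂ e₃ e₄ : Ed k R)
    (h₁ : e₁.1 = ((g', s), (g, r))) (h₂ : e₂.1 = ((g', s), (g, r')))
    (h₃ : e₃.1 = ((g', s'), (g, r))) (h₄ : e₄.1 = ((g', s'), (g, r'))) :
    P.wt π {(g', s), (g', s'), (g, r), (g, r')} τ =
      e3c_h P e₁ (τ (g', s)) (τ (g, r)) (π e₁) * e3c_h P e₂ (τ (g', s)) (τ (g, r')) (π e₂) *
      e3c_h P e₃ (τ (g', s')) (τ (g, r)) (π e₃) * e3c_h P e₄ (τ (g', s')) (τ (g, r')) (π e₄) := by
  classical
  have hne : g ≠ g' := hg.ne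
  have n12 : e₁ ≠ e₂ := fun h => hr (by
    have := congrArg (fun e : Ed k R => e.1.2.2) h
    simpa [h₁, h₂] using this)
  have n13 : e₁ ≠ e₃ := fun h => hs (by
    have := congrArg (fun e : Ed k R => e.1.1.2) h
    simpa [h₁, h₃] using this)
  have n14 : e₁ ≠ e₄ := fun h => hs (by
    have := congrArg (fun e : Ed k R => e.1.1.2) h
    simpa [h₁, h₄] using this)
  have n23 : e₂ ≠ e₃ := fun h => hs (by
    have := congrArg (fun e : Ed k R => e.1.1.2) h
    simpa [h₂, h₃] using this)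
  have n24 : e₂ ≠ e₄ := fun h => hs (by
    have := congrArg (fun e : Ed k R => e.1.1.2) h
    simpa [h₂, h₄] using this)
  have n34 : e₃ ≠ e₄ := fun h => hr (by
    have := congrArg (fun e : Ed k R => e.1.2.2) h
    simpa [h₃, h₄] using this)
  have hw : ∀ e : Ed k R, e3c_h P e (τ e.1.1) (τ e.1.2) (π e) =
      if (P.κ e (π e) : ℤ) ∣ P.N e τ then (P.κ e (π e) : ℝ) else 0 := fun e => rfl
  have hmem : ∀ e : Ed k R, (e.1.1 ∈ ({(g', s), (g', s'), (g, r), (g, r')} : Finset (V k R)) ∧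
      e.1.2 ∈ ({(g', s), (g', s'), (g, r), (g, r')} : Finset (V k R))) →
      e ∈ ({e₁, e₂, e₃, e₄} : Finset (Ed k R)) := by
    intro e he
    have hlt := e.2
    simp only [Finset.mem_insert, Finset.mem_singleton] at he ⊢
    have key : ∀ e' : Ed k R, e.1 = e'.1 → e = e' := fun e' h => Subtype.ext h
    obtain ⟨ha, hb⟩ := he
    have hlt' : ¬ g' < g := not_lt.2 hg.le
    rcases ha with ha | ha | ha | ha <;> rcases hb with hb | hb | hb | hb <;>
      rw [ha, hb] at hlt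
    all_goals first
      | exact absurd hlt (lt_irrefl _)
      | exact absurd hlt hlt'
      | skip
    · exact Or.inl (key _ (by rw [h₁]; exact Prod.ext ha hb))
    · exact Or.inr (Or.inl (key _ (by rw [h₂]; exact Prod.ext ha hb)))
    · exact Or.inr (Or.inr (Or.inl (key _ (by rw [h₃]; exact Prod.ext ha hb))))
    · exact Or.inr (Or.inr (Or.inr (key _ (by rw [h₄]; exact Prod.ext ha hb))))
  unfold PS.wt
  rw [← Finset.prod_subset (Finset.subset_univ ({e₁, e₂, e₃, e₄} : Finset (Ed k R)))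
    (fun e _ he => if_neg fun h => he (hmem e h))]
  rw [Finset.prod_insert (by simp [n12, n13, n14]), Finset.prod_insert (by simp [n23, n24]),
    Finset.prod_insert (by simp [n34]), Finset.prod_singleton]
  have q : ∀ e : Ed k R, e.1.1 ∈ ({(g', s), (g', s'), (g, r), (g, r')} : Finset (V k R)) →
      e.1.2 ∈ ({(g', s), (g', s'), (g, r), (g, r')} : Finset (V k R)) →
      (if e.1.1 ∈ ({(g', s), (g', s'), (g, r), (g, r')} : Finset (V k R)) ∧
        e.1.2 ∈ ({(g', s), (g', s'), (g, r), (g, r')} : Finset (V k R)) then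
        (if (P.κ e (π e) : ℤ) ∣ P.N e τ then (P.κ e (π e) : ℝ) else 0) else 1) =
      e3c_h P e (τ e.1.1) (τ e.1.2) (π e) := by
    intro e ha hb
    rw [if_pos ⟨ha, hb⟩, hw]
  rw [q e₁ (by rw [h₁]; simp) (by rw [h₁]; simp), q e₂ (by rw [h₂]; simp) (by rw [h₂]; simp),
    q e₃ (by rw [h₃]; simp) (by rw [h₃]; simp), q e₄ (by rw [h₄]; simp) (by rw [h₄]; simp),
    h₁, h₂, h₃, h₄, mul_assoc, mul_assoc]

/-- the off-diagonal terms -/
private theorem e3c_off (hE2 : S_E2) (hE2b : S_E2b) (hE3b : S_E3b) (P : PS k R c)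
    (ψ : AddChar (ZMod k) ℂ) (hψ : ψ ≠ 1) {g g' : Fin (k + 1)} (hg : g < g') {r r' : Fin R}
    (hr : r ≠ r') {s s' : Fin R} (hs : s ≠ s') :
    ‖∑ π : Ed k R → Fin P.J × ZMod k, ∑ τ : V k R → Fin P.ell,
      (P.chi ψ g g' (τ (g', s)) (τ (g, r)) *
        (starRingEnd ℂ) (P.chi ψ g g' (τ (g', s)) (τ (g, r'))) *
        (starRingEnd ℂ) (P.chi ψ g g' (τ (g', s')) (τ (g, r)) *
          (starRingEnd ℂ) (P.chi ψ g g' (τ (g', s')) (τ (g, r'))))) *
      (P.wt π univ τ : ℂ)‖ ≤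
    P.εC * ((Fintype.card (Fin P.J × ZMod k) : ℝ) ^ Fintype.card (Ed k R) *
      P.ell ^ Fintype.card (V k R)) := by
  classical
  set n := Fintype.card (Fin P.J × ZMod k) with hn
  let e₁ : Ed k R := ⟨((g', s), (g, r)), hg⟩
  let e₂ : Ed k R := ⟨((g', s), (g, r')), hg⟩
  let e₃ : Ed k R := ⟨((g', s'), (g, r)), hg⟩
  let e₄ : Ed k R := ⟨((g', s'), (g, r')), hg⟩
  let fe : Fin 4 → Ed k R := ![e₁, e₂, e₃, e₄]
  let fv : Fin 4 → V k R := ![(g', s), (g', s'), (g, r), (g, r')]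
  let U : Finset (V k R) := {(g', s), (g', s'), (g, r), (g, r')}
  have hne : g ≠ g' := hg.ne
  have hfe : Function.Injective fe := by
    have n12 : e₁ ≠ e₂ := fun h => hr (congrArg (fun e : Ed k R => e.1.2.2) h)
    have n13 : e₁ ≠ e₃ := fun h => hs (congrArg (fun e : Ed k R => e.1.1.2) h)
    have n14 : e₁ ≠ e₄ := fun h => hs (congrArg (fun e : Ed k R => e.1.1.2) h)
    have n23 : e₂ ≠ e₃ := fun h => hs (congrArg (fun e : Ed k R => e.1.1.2) h)
    have n24 : e₂ ≠ e₄ := fun h => hs (congrArg (fun e : Ed k R => e.1.1.2) h)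
    have n34 : e₃ ≠ e₄ := fun h => hr (congrArg (fun e : Ed k R => e.1.2.2) h)
    intro i j hij
    fin_cases i <;> fin_cases j <;> first
      | rfl
      | exact absurd hij n12 | exact absurd hij n13 | exact absurd hij n14
      | exact absurd hij n23 | exact absurd hij n24 | exact absurd hij n34
      | exact absurd hij n12.symm | exact absurd hij n13.symm | exact absurd hij n14.symm
      | exact absurd hij n23.symm | exact absurd hij n24.symm | exact absurd hij n34.symm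
  have hfv : Function.Injective fv := by
    have n12 : ((g', s) : V k R) ≠ (g', s') := fun h => hs (congrArg Prod.snd h)
    have n13 : ((g', s) : V k R) ≠ (g, r) := fun h => hne (congrArg Prod.fst h).symm
    have n14 : ((g', s) : V k R) ≠ (g, r') := fun h => hne (congrArg Prod.fst h).symm
    have n23 : ((g', s') : V k R) ≠ (g, r) := fun h => hne (congrArg Prod.fst h).symm
    have n24 : ((g', s') : V k R) ≠ (g, r') := fun h => hne (congrArg Prod.fst h).symm
    have n34 : ((g, r) : V k R) ≠ (g, r') := fun h => hr (congrArg Prod.snd h)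
    intro i j hij
    fin_cases i <;> fin_cases j <;> first
      | rfl
      | exact absurd hij n12 | exact absurd hij n13 | exact absurd hij n14
      | exact absurd hij n23 | exact absurd hij n24 | exact absurd hij n34
      | exact absurd hij n12.symm | exact absurd hij n13.symm | exact absurd hij n14.symm
      | exact absurd hij n23.symm | exact absurd hij n24.symm | exact absurd hij n34.symm
  let cc : (Fin 4 → Fin P.ell) → ℂ := fun x =>
    P.chi ψ g g' (x 0) (x 2) * (starRingEnd ℂ) (P.chi ψ g g' (x 0) (x 3)) *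
      (starRingEnd ℂ) (P.chi ψ g g' (x 1) (x 2) *
        (starRingEnd ℂ) (P.chi ψ g g' (x 1) (x 3)))
  let Φ : (Fin 4 → Fin P.ell) → (Fin 4 → Fin P.J × ZMod k) → ℂ := fun x p =>
    cc x * ((e3c_h P e₁ (x 0) (x 2) (p 0) : ℂ) * (e3c_h P e₂ (x 0) (x 3) (p 1) : ℂ) *
      (e3c_h P e₃ (x 1) (x 2) (p 2) : ℂ) * (e3c_h P e₄ (x 1) (x 3) (p 3) : ℂ))
  -- reduction to `U`
  have h1 : ∀ π : Ed k R → Fin P.J × ZMod k,
      ∑ τ : V k R → Fin P.ell, (P.chi ψ g g' (τ (g', s)) (τ (g, r)) *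
        (starRingEnd ℂ) (P.chi ψ g g' (τ (g', s)) (τ (g, r'))) *
        (starRingEnd ℂ) (P.chi ψ g g' (τ (g', s')) (τ (g, r)) *
          (starRingEnd ℂ) (P.chi ψ g g' (τ (g', s')) (τ (g, r'))))) *
      (P.wt π univ τ : ℂ) = ∑ τ : V k R → Fin P.ell, Φ (τ ∘ fv) (π ∘ fe) := by
    intro π
    have h2 := (hE2 k R c P π U univ (Finset.subset_univ U)).2
      (fun τ => P.chi ψ g g' (τ (g', s)) (τ (g, r)) *
        (starRingEnd ℂ) (P.chi ψ g g' (τ (g', s)) (τ (g, r'))) *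
        (starRingEnd ℂ) (P.chi ψ g g' (τ (g', s')) (τ (g, r)) *
          (starRingEnd ℂ) (P.chi ψ g g' (τ (g', s')) (τ (g, r'))))) (by
        intro τ τ' hτ
        have a1 := hτ (g', s) (by simp [U])
        have a2 := hτ (g', s') (by simp [U])
        have a3 := hτ (g, r) (by simp [U])
        have a4 := hτ (g, r') (by simp [U])
        simp only [a1, a2, a3, a4])
    rw [h2]
    refine Finset.sum_congr rfl fun τ _ => ?_
    rw [e3c_wt P π hg hr hs τ e₁ e₂ e₃ e₄ rfl rfl rfl rfl]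
    push_cast
    rfl
  have h2 : (∑ π : Ed k R → Fin P.J × ZMod k, ∑ τ : V k R → Fin P.ell,
      Φ (τ ∘ fv) (π ∘ fe)) * (P.ell : ℂ) ^ 4 * (n : ℂ) ^ 4 =
      (P.ell : ℂ) ^ Fintype.card (V k R) * (n : ℂ) ^ Fintype.card (Ed k R) *
        ∑ x, ∑ p, Φ x p := by
    have h3 : (∑ π : Ed k R → Fin P.J × ZMod k, ∑ τ : V k R → Fin P.ell,
        Φ (τ ∘ fv) (π ∘ fe)) * (P.ell : ℂ) ^ 4 =
        ∑ π : Ed k R → Fin P.J × ZMod k, (P.ell : ℂ) ^ Fintype.card (V k R) *
          ∑ x, Φ x (π ∘ fe) := by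
      rw [Finset.sum_mul]
      refine Finset.sum_congr rfl fun π _ => ?_
      have h4 := (hE2b (V k R) (Fin P.ell) 4 fv hfv).2 (fun x => Φ x (π ∘ fe))
      rw [Fintype.card_fin] at h4
      exact h4
    rw [h3, ← Finset.mul_sum, mul_assoc]
    have h5 := (hE2b (Ed k R) (Fin P.J × ZMod k) 4 fe hfe).2 (fun p => ∑ x, Φ x p)
    rw [h5, Finset.sum_comm, ← hn]
    ring
  -- the bound for the short sum
  have h3 : ‖∑ x, ∑ p, Φ x p‖ ≤ (n : ℝ) ^ 4 * P.ell ^ 4 * P.εC := by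
    have h4 : ∑ x, ∑ p, Φ x p = ∑ y : Fin P.ell, ∑ y' : Fin P.ell,
        (∑ x : Fin P.ell, P.HH ψ e₁ x y * (starRingEnd ℂ) (P.HH ψ e₂ x y')) *
        (starRingEnd ℂ) (∑ x : Fin P.ell, P.HH ψ e₃ x y *
          (starRingEnd ℂ) (P.HH ψ e₄ x y')) := by
      rw [e3c_sum4]
      refine Finset.sum_congr rfl fun y _ => Finset.sum_congr rfl fun y' _ => ?_
      rw [map_sum, Finset.sum_mul_sum]
      refine Finset.sum_congr rfl fun x _ => Finset.sum_congr rfl fun x' _ => ?_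
      rw [e3c_sum4]
      show ∑ c : Fin P.J × ZMod k, ∑ d : Fin P.J × ZMod k, ∑ a : Fin P.J × ZMod k,
        ∑ b : Fin P.J × ZMod k, cc ![x, x', y, y'] *
          ((e3c_h P e₁ x y a : ℂ) * (e3c_h P e₂ x y' b : ℂ) *
            (e3c_h P e₃ x' y c : ℂ) * (e3c_h P e₄ x' y' d : ℂ)) = _
      rw [e3c_prod4, e3c_HH, e3c_HH, e3c_HH, e3c_HH]
      simp only [map_mul, map_sum, Complex.conj_ofReal, Complex.conj_conj]
      show (P.chi ψ g g' x y * (starRingEnd ℂ) (P.chi ψ g g' x y') *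
        (starRingEnd ℂ) (P.chi ψ g g' x' y * (starRingEnd ℂ) (P.chi ψ g g' x' y'))) * _ = _
      simp only [map_mul, Complex.conj_conj]
      ring
    rw [h4]
    have b1 := hE3b k R c P ψ hψ e₁ e₂ (fun h => hr (congrArg (fun e : Ed k R => e.1.2.2) h))
      rfl rfl
    have b2 := hE3b k R c P ψ hψ e₃ e₄ (fun h => hr (congrArg (fun e : Ed k R => e.1.2.2) h))
      rfl rfl
    rw [Finset.sum_range] at b1 b2
    simp only [Finset.sum_range] at b1 b2
    rw [← hn] at b1 b2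
    calc ‖∑ y : Fin P.ell, ∑ y' : Fin P.ell,
        (∑ x : Fin P.ell, P.HH ψ e₁ x y * (starRingEnd ℂ) (P.HH ψ e₂ x y')) *
        (starRingEnd ℂ) (∑ x : Fin P.ell, P.HH ψ e₃ x y *
          (starRingEnd ℂ) (P.HH ψ e₄ x y'))‖
        ≤ ∑ y : Fin P.ell, ∑ y' : Fin P.ell,
          (‖∑ x : Fin P.ell, P.HH ψ e₁ x y * (starRingEnd ℂ) (P.HH ψ e₂ x y')‖ ^ 2 / 2 +
          ‖∑ x : Fin P.ell, P.HH ψ e₃ x y * (starRingEnd ℂ) (P.HH ψ e₄ x y')‖ ^ 2 / 2) := by
          refine (norm_sum_le _ _).trans (Finset.sum_le_sum fun y _ => ?_)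
          refine (norm_sum_le _ _).trans (Finset.sum_le_sum fun y' _ => ?_)
          rw [norm_mul, RCLike.norm_conj]
          nlinarith [sq_nonneg (‖∑ x : Fin P.ell, P.HH ψ e₁ x y *
            (starRingEnd ℂ) (P.HH ψ e₂ x y')‖ -
            ‖∑ x : Fin P.ell, P.HH ψ e₃ x y * (starRingEnd ℂ) (P.HH ψ e₄ x y')‖)]
      _ ≤ (n : ℝ) ^ 4 * P.ell ^ 4 * P.εC := by
          simp only [Finset.sum_add_distrib, ← Finset.sum_div]
          linarith
  rw [Finset.sum_congr rfl fun π _ => h1 π]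
  have hn0 : 0 < (n : ℝ) := by
    have : 0 < n := by
      rw [hn, Fintype.card_prod, Fintype.card_fin, ZMod.card]
      exact Nat.mul_pos P.hJ (NeZero.pos k)
    exact_mod_cast this
  have hl0 : 0 < (P.ell : ℝ) := by exact_mod_cast P.hell
  have h6 := congrArg norm h2
  rw [norm_mul, norm_mul, norm_mul, norm_mul, norm_pow, norm_pow, norm_pow, norm_pow,
    Complex.norm_natCast, Complex.norm_natCast] at h6
  have h7 : 0 < (P.ell : ℝ) ^ 4 * (n : ℝ) ^ 4 := by positivity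
  refine le_of_mul_le_mul_right ?_ h7
  rw [← mul_assoc, h6]
  calc (P.ell : ℝ) ^ Fintype.card (V k R) * (n : ℝ) ^ Fintype.card (Ed k R) * ‖∑ x, ∑ p, Φ x p‖
      ≤ (P.ell : ℝ) ^ Fintype.card (V k R) * (n : ℝ) ^ Fintype.card (Ed k R) *
        ((n : ℝ) ^ 4 * P.ell ^ 4 * P.εC) := mul_le_mul_of_nonneg_left h3 (by positivity)
    _ = _ := by ring

/-- (Job PX E3c) Proof.  `‖SS‖² = ∑_{s,s'} F_{sr} conj F_{sr'} conj F_{s'r} F_{s'r'}`, `F_{sr} = chi(τ(g',s), τ(g,r))`.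
Terms `s = s'` are `1` each (`‖F‖ = 1`); `∑_π ∑_τ wt = n^E ell^V` (E2 with `U = ∅`).  For `s ≠ s'` let `U = {(g',s),(g',s'),(g,r),(g,r')}`; by E2
(complex version) replace `wt π univ` by `wt π U`, the product of the four factors of the edges
`e₁ = (s,r), e₂ = (s,r'), e₃ = (s',r), e₄ = (s',r')` (no edges inside a group).  By E2b for `τ` and for `π` the normalised sum becomes
`n⁻⁴ ell⁻⁴ ∑_{p₁..p₄} ∑_{x,x',y,y'} (…) = n⁻⁴ ell⁻⁴ ∑_{y,y'} G(y,y') conj G'(y,y')` with
`G(y,y') = ∑_x HH e₁ x y conj (HH e₂ x y')` and `G'` the same for `e₃, e₄`; `|∑ G conj G'| ≤ ½∑(|G|² + |G'|²) ≤ n⁴ ell⁴ εC` by E3b.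
So every term is at most `εC n^E ell^V` in absolute value, and there are at most `R²` of them. -/
theorem tE3c (hE2 : S_E2) (hE2b : S_E2b) (hE3b : S_E3b) : S_E3c := by
  intro k R _ c P ψ hψ g g' hg r r' hr
  classical
  set n := Fintype.card (Fin P.J × ZMod k) with hn
  set Z : ℝ := (n : ℝ) ^ Fintype.card (Ed k R) * (P.ell : ℝ) ^ Fintype.card (V k R) with hZ
  have hZ0 : 0 ≤ Z := by positivity
  let F : Fin R → (V k R → Fin P.ell) → ℂ := fun s τ =>
    P.chi ψ g g' (τ (g', s)) (τ (g, r)) *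
      (starRingEnd ℂ) (P.chi ψ g g' (τ (g', s)) (τ (g, r')))
  have hSS : ∀ τ, P.SS ψ g g' r r' τ = ∑ s, F s τ := fun τ => rfl
  let A : Fin R → Fin R → ℂ := fun s s' =>
    ∑ π : Ed k R → Fin P.J × ZMod k, ∑ τ : V k R → Fin P.ell,
      (F s τ * (starRingEnd ℂ) (F s' τ)) * (P.wt π univ τ : ℂ)
  have hA1 : ∀ s, ‖A s s‖ ≤ Z := by
    intro s
    have h1 : A s s = ((∑ π : Ed k R → Fin P.J × ZMod k, ∑ τ : V k R → Fin P.ell,
        P.wt π univ τ : ℝ) : ℂ) := by
      push_cast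
      refine Finset.sum_congr rfl fun π _ => Finset.sum_congr rfl fun τ _ => ?_
      rw [Complex.mul_conj, Complex.normSq_eq_norm_sq, norm_mul, RCLike.norm_conj,
        e3c_chi_norm, e3c_chi_norm]
      norm_num
    have h2 : ∀ π : Ed k R → Fin P.J × ZMod k, ∑ τ : V k R → Fin P.ell,
        P.wt π univ τ = (P.ell : ℝ) ^ Fintype.card (V k R) := by
      intro π
      have h3 := (hE2 k R c P π ∅ univ (Finset.empty_subset _)).1 (fun _ => 1)
        (fun _ _ _ => rfl)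
      simp only [one_mul] at h3
      rw [h3]
      have h4 : ∀ τ : V k R → Fin P.ell, P.wt π ∅ τ = 1 := by
        intro τ
        unfold PS.wt
        simp
      simp only [h4, Finset.sum_const, Finset.card_univ, Fintype.card_pi, Fintype.card_fin,
        Finset.prod_const, nsmul_eq_mul, mul_one]
      push_cast
      rfl
    rw [h1]
    simp only [h2, Finset.sum_const, Finset.card_univ, nsmul_eq_mul]
    rw [Complex.norm_real, Real.norm_eq_abs, abs_of_nonneg (by positivity), hZ,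
      Fintype.card_fun]
    push_cast
    exact le_rfl
  have hA2 : ∀ s s', s ≠ s' → ‖A s s'‖ ≤ P.εC * Z := fun s s' hs =>
    e3c_off hE2 hE2b hE3b P ψ hψ hg hr hs
  have h1 : ((∑ π : Ed k R → Fin P.J × ZMod k, ∑ τ : V k R → Fin P.ell,
      ‖P.SS ψ g g' r r' τ‖ ^ 2 * P.wt π univ τ : ℝ) : ℂ) = ∑ s, ∑ s', A s s' := by
    push_cast
    have h2 : ∀ π τ, ((‖P.SS ψ g g' r r' τ‖ : ℂ)) ^ 2 * (P.wt π univ τ : ℂ) =
        ∑ s, ∑ s', (F s τ * (starRingEnd ℂ) (F s' τ)) * (P.wt π univ τ : ℂ) := by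
      intro π τ
      rw [← Complex.mul_conj', hSS, map_sum, Finset.sum_mul_sum, Finset.sum_mul]
      refine Finset.sum_congr rfl fun s _ => ?_
      rw [Finset.sum_mul]
    simp only [h2]
    have h3 : ∀ π : Ed k R → Fin P.J × ZMod k, ∑ τ : V k R → Fin P.ell, ∑ s, ∑ s',
        (F s τ * (starRingEnd ℂ) (F s' τ)) * (P.wt π univ τ : ℂ) =
        ∑ s, ∑ s', ∑ τ : V k R → Fin P.ell,
          (F s τ * (starRingEnd ℂ) (F s' τ)) * (P.wt π univ τ : ℂ) := by
      intro π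
      rw [Finset.sum_comm]
      exact Finset.sum_congr rfl fun s _ => Finset.sum_comm
    rw [Finset.sum_congr rfl fun π _ => h3 π, Finset.sum_comm]
    exact Finset.sum_congr rfl fun s _ => Finset.sum_comm
  have h2 : ∑ π : Ed k R → Fin P.J × ZMod k, ∑ τ : V k R → Fin P.ell,
      ‖P.SS ψ g g' r r' τ‖ ^ 2 * P.wt π univ τ ≤ ‖∑ s, ∑ s', A s s'‖ := by
    rw [← h1, Complex.norm_real, Real.norm_eq_abs]
    exact le_abs_self _
  refine h2.trans ?_
  calc ‖∑ s, ∑ s', A s s'‖ ≤ ∑ s, ∑ s', ‖A s s'‖ :=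
        (norm_sum_le _ _).trans (Finset.sum_le_sum fun s _ => norm_sum_le _ _)
    _ ≤ ∑ s : Fin R, ∑ s' : Fin R, ((if s = s' then Z else 0) + P.εC * Z) := by
        refine Finset.sum_le_sum fun s _ => Finset.sum_le_sum fun s' _ => ?_
        have h0 : 0 ≤ P.εC * Z := mul_nonneg P.hεC0 hZ0
        by_cases hs : s = s'
        · subst hs
          rw [if_pos rfl]
          linarith [hA1 s]
        · rw [if_neg hs]
          linarith [hA2 s s' hs]
    _ = (R + R ^ 2 * P.εC) * Z := by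
        simp only [Finset.sum_add_distrib, Finset.sum_ite_eq, Finset.mem_univ, if_true,
          Finset.sum_const, Finset.card_univ, Fintype.card_fin, nsmul_eq_mul]
        ring

end Pool.Agent.Lib.MP_fed790_nt.PX
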