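import Pool.Agent.Lib.MP_fed790_nt.PX.Defs2

/-! E4a: coprimality with the kappa -/

open Finset MeasureTheory

namespace Pool.Agent.Lib.MP_fed790_nt.PX

private lemma e4a_copM {k R : ℕ} [NeZero k] {c : ℕ → ZMod k} (P : PS k R c) (e : Ed k R)
    (p : Fin P.J × ZMod k) : IsCoprime (P.M : ℤ) (P.κ e p : ℤ) := by
  have h := (P.hmod e p).symm
  have h1 : ((P.M ^ (k + 2) : ℕ) : ℤ) ∣ (P.κ e p : ℤ) - (1 : ℕ) := (Nat.modEq_iff_dvd.1 h)
  have h2 : (P.M : ℤ) ∣ (P.κ e p : ℤ) - 1 := by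
    refine dvd_trans ?_ (by simpa using h1)
    exact dvd_pow_self _ (by omega)
  obtain ⟨t, ht⟩ := h2
  exact ⟨-t, 1, by linear_combination ht⟩

private lemma e4a_wt {k R : ℕ} [NeZero k] {c : ℕ → ZMod k} (P : PS k R c)
    (π : Ed k R → Fin P.J × ZMod k) (f : Ed k R) (τ : V k R → Fin P.ell) :
    P.wt π {f.1.1, f.1.2} τ =
      if (P.κ f (π f) : ℤ) ∣ P.N f τ then (P.κ f (π f) : ℝ) else 0 := by
  unfold PS.wt
  rw [Finset.prod_eq_single f]
  · simp
  · intro e _ hne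
    rw [if_neg]
    rintro ⟨h1, h2⟩
    simp only [mem_insert, mem_singleton] at h1 h2
    apply hne
    have he := e.2
    have hf := f.2
    rcases h1 with h1 | h1 <;> rcases h2 with h2 | h2
    · rw [h1, h2] at he
      exact absurd he (lt_irrefl _)
    · exact Subtype.ext (Prod.ext h1 h2)
    · rw [h1, h2] at he
      exact absurd (he.trans hf) (lt_irrefl _)
    · rw [h1, h2] at he
      exact absurd he (lt_irrefl _)
  · intro h
    exact absurd (mem_univ _) h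

private lemma e4a_count (hE1 : S_E1) {k R : ℕ} [NeZero k] {c : ℕ → ZMod k} (P : PS k R c)
    (π : Ed k R → Fin P.J × ZMod k) (f f' : Ed k R) (hff : f ≠ f') (q : ℕ)
    (hq : q ∈ (P.κ f' (π f')).primeFactors) (y : ℕ) :
    ∑ x : Fin P.ell, (if (q : ℤ) ∣ Nn P.M P.ell f.1.2.1 f.1.1.1 x y then (1 : ℝ) else 0) *
      (if (P.κ f (π f) : ℤ) ∣ Nn P.M P.ell f.1.2.1 f.1.1.1 x y then (P.κ f (π f) : ℝ) else 0) =
      P.ell / q := by
  have hqp : q.Prime := Nat.prime_of_mem_primeFactors hq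
  have hqd : q ∣ P.κ f' (π f') := Nat.dvd_of_mem_primeFactors hq
  have hκpos : 0 < P.κ f (π f) := lt_of_lt_of_le P.hKpos (P.hK f (π f)).1
  have hcopκq : (P.κ f (π f)).Coprime q := (P.hcop f f' (π f) (π f') hff).coprime_dvd_right hqd
  have hMκ : IsCoprime ((P.M : ℤ) ^ ((f.1.1.1 : ℕ) + 2)) (P.κ f (π f) : ℤ) :=
    (e4a_copM P f (π f)).pow_left
  have hMq : IsCoprime ((P.M : ℤ) ^ ((f.1.1.1 : ℕ) + 2)) (q : ℤ) := by
    refine IsCoprime.pow_left ?_
    exact (e4a_copM P f' (π f')).of_isCoprime_of_dvd_right (by exact_mod_cast hqd)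
  have hdvd : P.κ f (π f) * q ∣ P.ell := by
    have h1 : P.κ f (π f) * P.κ f' (π f') ∣ ∏ e, P.κ e (π e) := by
      have h2 : ∏ e ∈ ({f, f'} : Finset (Ed k R)), P.κ e (π e) ∣ ∏ e, P.κ e (π e) :=
        Finset.prod_dvd_prod_of_subset _ _ _ (Finset.subset_univ _)
      rwa [Finset.prod_pair hff] at h2
    exact (Nat.mul_dvd_mul_left _ hqd).trans (h1.trans (P.hdvd π))
  have h := hE1 (Fin 2) univ ![P.κ f (π f), q] (fun _ => (P.M : ℤ) ^ ((f.1.1.1 : ℕ) + 2))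
    (fun _ => 1 - (P.M : ℤ) ^ ((f.1.1.1 : ℕ) - (f.1.2.1 : ℕ)) + (P.M : ℤ) ^ ((f.1.1.1 : ℕ) + 2) *
      (2 * (((f.1.1.1 : ℕ) : ℤ) - ((f.1.2.1 : ℕ) : ℤ)) * P.ell - y)) P.ell
    (by
      intro i _
      fin_cases i
      · simpa using hκpos
      · simpa using hqp.pos)
    (by
      intro i _ j _ hij
      fin_cases i <;> fin_cases j
      · exact absurd rfl hij
      · simpa using hcopκq
      · simpa using hcopκq.symm
      · exact absurd rfl hij)
    (by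
      intro i _
      fin_cases i
      · simpa using hMκ
      · simpa using hMq)
    (by simpa [Fin.prod_univ_two] using hdvd)
  have hN : ∀ x : ℕ, (P.M : ℤ) ^ ((f.1.1.1 : ℕ) + 2) * x + (1 - (P.M : ℤ) ^ ((f.1.1.1 : ℕ) -
      (f.1.2.1 : ℕ)) + (P.M : ℤ) ^ ((f.1.1.1 : ℕ) + 2) *
      (2 * (((f.1.1.1 : ℕ) : ℤ) - ((f.1.2.1 : ℕ) : ℤ)) * P.ell - y)) =
      Nn P.M P.ell f.1.2.1 f.1.1.1 x y := by
    intro x
    unfold Nn
    ring
  simp only [hN, Fin.prod_univ_two, Matrix.cons_val_zero, Matrix.cons_val_one] at h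
  have hset : ((range P.ell).filter fun x : ℕ => ∀ i ∈ (univ : Finset (Fin 2)),
      ((![P.κ f (π f), q] i : ℕ) : ℤ) ∣ Nn P.M P.ell f.1.2.1 f.1.1.1 x y) =
      (range P.ell).filter fun x : ℕ => (q : ℤ) ∣ Nn P.M P.ell f.1.2.1 f.1.1.1 x y ∧
        (P.κ f (π f) : ℤ) ∣ Nn P.M P.ell f.1.2.1 f.1.1.1 x y := by
    apply Finset.filter_congr
    intro x _
    constructor
    · intro hx
      exact ⟨by simpa using hx 1 (mem_univ _), by simpa using hx 0 (mem_univ _)⟩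
    · rintro ⟨h1, h2⟩ i _
      fin_cases i
      · simpa using h2
      · simpa using h1
  rw [hset] at h
  rw [← Finset.sum_range (fun x : ℕ => (if (q : ℤ) ∣ Nn P.M P.ell f.1.2.1 f.1.1.1 x y
    then (1 : ℝ) else 0) * (if (P.κ f (π f) : ℤ) ∣ Nn P.M P.ell f.1.2.1 f.1.1.1 x y
    then (P.κ f (π f) : ℝ) else 0))]
  have hterm : ∀ x ∈ range P.ell, (if (q : ℤ) ∣ Nn P.M P.ell f.1.2.1 f.1.1.1 x y
      then (1 : ℝ) else 0) * (if (P.κ f (π f) : ℤ) ∣ Nn P.M P.ell f.1.2.1 f.1.1.1 x y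
      then (P.κ f (π f) : ℝ) else 0) =
      if (q : ℤ) ∣ Nn P.M P.ell f.1.2.1 f.1.1.1 x y ∧
        (P.κ f (π f) : ℤ) ∣ Nn P.M P.ell f.1.2.1 f.1.1.1 x y then (P.κ f (π f) : ℝ) else 0 := by
    intro x _
    by_cases h1 : (q : ℤ) ∣ Nn P.M P.ell f.1.2.1 f.1.1.1 x y <;>
      by_cases h2 : (P.κ f (π f) : ℤ) ∣ Nn P.M P.ell f.1.2.1 f.1.1.1 x y <;> simp [h1, h2]
  rw [Finset.sum_congr rfl hterm, ← Finset.sum_filter, Finset.sum_const, nsmul_eq_mul]
  have hq0 : (q : ℝ) ≠ 0 := by exact_mod_cast hqp.ne_zero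
  rw [eq_div_iff hq0]
  have h' : ((((range P.ell).filter fun x : ℕ => (q : ℤ) ∣ Nn P.M P.ell f.1.2.1 f.1.1.1 x y ∧
        (P.κ f (π f) : ℤ) ∣ Nn P.M P.ell f.1.2.1 f.1.1.1 x y).card : ℕ) : ℝ) *
        ((P.κ f (π f) : ℝ) * q) = P.ell := by exact_mod_cast h
  linarith [h', mul_assoc ((((range P.ell).filter fun x : ℕ => (q : ℤ) ∣ Nn P.M P.ell f.1.2.1 f.1.1.1 x y ∧
        (P.κ f (π f) : ℤ) ∣ Nn P.M P.ell f.1.2.1 f.1.1.1 x y).card : ℕ) : ℝ) (P.κ f (π f) : ℝ) (q : ℝ)]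

/-- (Job PX E4a) Proof.  `¬ coprime` implies that some prime `q ∈ (κ_f').primeFactors` divides `N_f`; so bound the indicator by
`∑_{q ∈ primeFactors κ_f'} 1[q ∣ N_f τ]`.  For each such `q`: by E2 with `U = {f.1.1, f.1.2}` and E2b, `ell^(-V) ∑_τ 1[q ∣ N_f] wt =
ell⁻² ∑_{x,y} κ_f 1[κ_f ∣ N] 1[q ∣ N]`, and for fixed `y` E1 with the two coprime moduli `κ_f (π f)`, `q` (`κ_f q ∣ κ_f κ_f' ∣ ell`;
both coprime to `M`) gives exactly `1/q`.  Sum: `≤ P.S` by `hS`. -/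
theorem tE4a (hE1 : S_E1) (hE2 : S_E2) (hE2b : S_E2b) : S_E4a := by
  intro k R _ c P π f f' hff
  have hwt0 : ∀ τ, 0 ≤ P.wt π univ τ := by
    intro τ
    unfold PS.wt
    apply Finset.prod_nonneg
    intro e _
    split_ifs <;> positivity
  have hell : (0 : ℝ) < P.ell := by exact_mod_cast P.hell
  have hcard : (Fintype.card (Fin P.ell) : ℝ) = P.ell := by simp
  -- the sum for one prime
  have key : ∀ q ∈ (P.κ f' (π f')).primeFactors,
      ∑ τ : V k R → Fin P.ell, (if (q : ℤ) ∣ P.N f τ then (1 : ℝ) else 0) * P.wt π univ τ =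
        (1 : ℝ) / q * (P.ell : ℝ) ^ Fintype.card (V k R) := by
    intro q hq
    have h1 := (hE2 k R c P π {f.1.1, f.1.2} univ (subset_univ _)).1
      (fun τ => if (q : ℤ) ∣ P.N f τ then (1 : ℝ) else 0) (by
        intro τ τ' hττ
        have e1 := hττ f.1.1 (by simp)
        have e2 := hττ f.1.2 (by simp)
        simp only [PS.N, e1, e2]
        rfl)
    rw [h1]
    have hne : f.1.1 ≠ f.1.2 := by
      intro h
      have hf := f.2
      rw [h] at hf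
      exact lt_irrefl _ hf
    have hinj : Function.Injective (![f.1.1, f.1.2] : Fin 2 → V k R) := by
      intro i j hij
      fin_cases i <;> fin_cases j
      · rfl
      · exact absurd (by simpa using hij) hne
      · exact absurd (by simpa using hij.symm) hne
      · rfl
    have h2 := (hE2b (V k R) (Fin P.ell) 2 ![f.1.1, f.1.2] hinj).1
      (fun x => (if (q : ℤ) ∣ Nn P.M P.ell f.1.2.1 f.1.1.1 (x 0) (x 1) then (1 : ℝ) else 0) *
        (if (P.κ f (π f) : ℤ) ∣ Nn P.M P.ell f.1.2.1 f.1.1.1 (x 0) (x 1)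
          then (P.κ f (π f) : ℝ) else 0))
    have h3 : ∑ x : Fin 2 → Fin P.ell,
        (if (q : ℤ) ∣ Nn P.M P.ell f.1.2.1 f.1.1.1 (x 0) (x 1) then (1 : ℝ) else 0) *
        (if (P.κ f (π f) : ℤ) ∣ Nn P.M P.ell f.1.2.1 f.1.1.1 (x 0) (x 1)
          then (P.κ f (π f) : ℝ) else 0) = P.ell * (P.ell / q) := by
      rw [← (finTwoArrowEquiv (Fin P.ell)).symm.sum_comp]
      simp only [finTwoArrowEquiv_symm_apply, Matrix.cons_val_zero, Matrix.cons_val_one]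
      rw [Fintype.sum_prod_type, Finset.sum_comm]
      calc _ = ∑ y : Fin P.ell, (P.ell : ℝ) / q :=
            Finset.sum_congr rfl (fun y _ => e4a_count hE1 P π f f' hff q hq y)
        _ = _ := by simp
    rw [h3, hcard] at h2
    have h4 : ∑ τ : V k R → Fin P.ell, (if (q : ℤ) ∣ P.N f τ then (1 : ℝ) else 0) *
        P.wt π {f.1.1, f.1.2} τ = ∑ τ : V k R → Fin P.ell,
        (fun x : Fin 2 → Fin P.ell =>
          (if (q : ℤ) ∣ Nn P.M P.ell f.1.2.1 f.1.1.1 (x 0) (x 1) then (1 : ℝ) else 0) *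
        (if (P.κ f (π f) : ℤ) ∣ Nn P.M P.ell f.1.2.1 f.1.1.1 (x 0) (x 1)
          then (P.κ f (π f) : ℝ) else 0)) (τ ∘ ![f.1.1, f.1.2]) := by
      apply Finset.sum_congr rfl
      intro τ _
      rw [e4a_wt]
      rfl
    rw [h4]
    have h5 : (P.ell : ℝ) ^ 2 ≠ 0 := by positivity
    apply mul_right_cancel₀ h5
    rw [h2]
    ring
  calc ∑ τ : V k R → Fin P.ell,
      (if (P.N f τ).natAbs.Coprime (P.κ f' (π f')) then 0 else 1) * P.wt π univ τ
      ≤ ∑ τ : V k R → Fin P.ell, ∑ q ∈ (P.κ f' (π f')).primeFactors,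
        (if (q : ℤ) ∣ P.N f τ then (1 : ℝ) else 0) * P.wt π univ τ := by
        apply Finset.sum_le_sum
        intro τ _
        rw [← Finset.sum_mul]
        apply mul_le_mul_of_nonneg_right _ (hwt0 τ)
        split_ifs with h
        · exact Finset.sum_nonneg (fun q _ => by split_ifs <;> norm_num)
        · obtain ⟨q, hqp, hq1, hq2⟩ := Nat.Prime.not_coprime_iff_dvd.1 h
          have hκ0 : P.κ f' (π f') ≠ 0 := (lt_of_lt_of_le P.hKpos (P.hK f' (π f')).1).ne'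
          have hmem : q ∈ (P.κ f' (π f')).primeFactors := Nat.mem_primeFactors.2 ⟨hqp, hq2, hκ0⟩
          have hdiv : (q : ℤ) ∣ P.N f τ := Int.natCast_dvd.2 hq1
          calc (1 : ℝ) = (if (q : ℤ) ∣ P.N f τ then (1 : ℝ) else 0) := by rw [if_pos hdiv]
            _ ≤ _ := Finset.single_le_sum
              (f := fun q : ℕ => if (q : ℤ) ∣ P.N f τ then (1 : ℝ) else 0)
              (fun q _ => by split_ifs <;> norm_num) hmem
    _ = ∑ q ∈ (P.κ f' (π f')).primeFactors, ∑ τ : V k R → Fin P.ell,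
        (if (q : ℤ) ∣ P.N f τ then (1 : ℝ) else 0) * P.wt π univ τ := Finset.sum_comm
    _ = ∑ q ∈ (P.κ f' (π f')).primeFactors, (1 : ℝ) / q * (P.ell : ℝ) ^ Fintype.card (V k R) :=
        Finset.sum_congr rfl key
    _ = (∑ q ∈ (P.κ f' (π f')).primeFactors, (1 : ℝ) / q) *
        (P.ell : ℝ) ^ Fintype.card (V k R) := by rw [Finset.sum_mul]
    _ ≤ P.S * (P.ell : ℝ) ^ Fintype.card (V k R) :=
        mul_le_mul_of_nonneg_right (P.hS f' (π f')) (by positivity)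

end Pool.Agent.Lib.MP_fed790_nt.PX
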