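import Pool.Agent.Lib.MP_fed790_nt.PX.Defs2

/-! E4b: common primes of two numbers N -/

open Finset MeasureTheory

namespace Pool.Agent.Lib.MP_fed790_nt.PX

private theorem e4b_sum_update {Q α : Type} [Fintype Q] [DecidableEq Q] [Fintype α] (v : Q)
    (F : (Q → α) → ℝ) :
    ∑ τ : Q → α, ∑ x : α, F (Function.update τ v x) =
      (Fintype.card α : ℝ) * ∑ τ : Q → α, F τ := by
  have h1 : ∑ p : (Q → α) × α, F (Function.update p.1 v p.2) = ∑ p : (Q → α) × α, F p.1 := by
    let e : ((Q → α) × α) ≃ ((Q → α) × α) :=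
      { toFun := fun p => (Function.update p.1 v p.2, p.1 v)
        invFun := fun p => (Function.update p.1 v p.2, p.1 v)
        left_inv := by intro p; simp
        right_inv := by intro p; simp }
    exact Fintype.sum_equiv e _ _ (fun p => rfl)
  rw [Fintype.sum_prod_type, Fintype.sum_prod_type] at h1
  rw [h1, Finset.mul_sum]
  apply Finset.sum_congr rfl
  intro τ _
  simp

private theorem e4b_point {k R : ℕ} (e e' : Ed k R) (h : e ≠ e') :
    ∃ v : V k R, (v = e'.1.1 ∨ v = e'.1.2) ∧ v ≠ e.1.1 ∧ v ≠ e.1.2 := by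
  by_contra hcon
  have h1 : e'.1.1 ≠ e.1.1 → e'.1.1 = e.1.2 := by
    intro h1
    by_contra h2
    exact hcon ⟨e'.1.1, Or.inl rfl, h1, h2⟩
  have h2 : e'.1.2 ≠ e.1.1 → e'.1.2 = e.1.2 := by
    intro h1
    by_contra h2
    exact hcon ⟨e'.1.2, Or.inr rfl, h1, h2⟩
  have he := e.2
  have he' := e'.2
  apply h
  have a1 : e'.1.1 = e.1.1 := by
    by_contra hne
    have h3 := h1 hne
    by_cases h4 : e'.1.2 = e.1.1
    · rw [h3, h4] at he'
      exact absurd (lt_trans he he') (lt_irrefl _)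
    · have h5 := h2 h4
      rw [h3, h5] at he'
      exact lt_irrefl _ he'
  have a2 : e'.1.2 = e.1.2 := by
    by_contra hne
    have h4 : e'.1.2 = e.1.1 := by
      by_contra h5
      exact hne (h2 h5)
    rw [a1, h4] at he'
    exact lt_irrefl _ he'
  exact Subtype.ext (Prod.ext a1.symm a2.symm)

private theorem e4b_Nn_mod (M ell g g' x y : ℕ) (hg : g < g') :
    ∃ z : ℤ, Nn M ell g g' x y = 1 + M * z := by
  obtain ⟨d, hd⟩ : ∃ d, g' - g = d + 1 := ⟨g' - g - 1, by omega⟩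
  refine ⟨-(M : ℤ) ^ d + (M : ℤ) ^ (g' + 1) * (2 * ((g' : ℤ) - g) * ell + x - y), ?_⟩
  unfold Nn
  rw [hd]
  ring

private theorem e4b_Nn_ne (M ell g g' x y : ℕ) (hg : g < g') (hM : 2 ≤ M) :
    Nn M ell g g' x y ≠ 0 := by
  obtain ⟨z, hz⟩ := e4b_Nn_mod M ell g g' x y hg
  intro h
  rw [h] at hz
  have h1 : (M : ℤ) ∣ 1 := ⟨-z, by linarith⟩
  have h2 : M ∣ 1 := by exact_mod_cast h1
  have h3 := Nat.le_of_dvd one_pos h2
  omega

private theorem e4b_Nn_prime (M ell g g' x y q : ℕ) (hg : g < g') (hq : q.Prime)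
    (h : (q : ℤ) ∣ Nn M ell g g' x y) : ¬ q ∣ M := by
  intro hqM
  obtain ⟨z, hz⟩ := e4b_Nn_mod M ell g g' x y hg
  have h1 : (q : ℤ) ∣ (M : ℤ) := by exact_mod_cast hqM
  have h2 : (q : ℤ) ∣ (M : ℤ) * z := Dvd.dvd.mul_right h1 z
  rw [hz] at h
  have h3 : (q : ℤ) ∣ 1 := (dvd_add_left h2).1 h
  have h4 : q ∣ 1 := by exact_mod_cast h3
  exact hq.one_lt.ne' (Nat.dvd_one.1 h4)

private theorem e4b_Nn_bound (M ell k g g' x y : ℕ) (hg : g < g') (hk : g' ≤ k) (hM : 1 ≤ M)
    (hx : x < ell) (hy : y < ell) :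
    (Nn M ell g g' x y).natAbs ≤ M ^ (k + 2) * ((2 * k + 1) * ell + 1) := by
  have hM' : (1 : ℤ) ≤ M := by exact_mod_cast hM
  have hA : (M : ℤ) ^ (g' + 2) ≤ (M : ℤ) ^ (k + 2) := pow_le_pow_right₀ hM' (by omega)
  have hB : (M : ℤ) ^ (g' - g) ≤ (M : ℤ) ^ (k + 2) := pow_le_pow_right₀ hM' (by omega)
  have hB1 : (1 : ℤ) ≤ (M : ℤ) ^ (g' - g) := one_le_pow₀ hM'
  have hA1 : (1 : ℤ) ≤ (M : ℤ) ^ (g' + 2) := one_le_pow₀ hM'
  have hg' : (1 : ℤ) ≤ (g' : ℤ) - g := by
    have : (g : ℤ) + 1 ≤ g' := by exact_mod_cast hg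
    linarith
  have hgk : (g' : ℤ) - g ≤ k := by
    have : (g' : ℤ) ≤ k := by exact_mod_cast hk
    have : (0 : ℤ) ≤ g := by positivity
    linarith
  have hx' : (x : ℤ) < ell := by exact_mod_cast hx
  have hy' : (y : ℤ) < ell := by exact_mod_cast hy
  have hx0 : (0 : ℤ) ≤ x := by positivity
  have hy0 : (0 : ℤ) ≤ y := by positivity
  have hC0 : (0 : ℤ) ≤ 2 * ((g' : ℤ) - g) * ell + x - y := by nlinarith
  have hC1 : 2 * ((g' : ℤ) - g) * ell + x - y ≤ (2 * k + 1) * ell := by nlinarith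
  have h1 : (M : ℤ) ^ (g' + 2) * (2 * ((g' : ℤ) - g) * ell + x - y) ≤
      (M : ℤ) ^ (k + 2) * ((2 * k + 1) * ell) := by
    apply mul_le_mul hA hC1 hC0 (by positivity)
  have h2 : (0 : ℤ) ≤ (M : ℤ) ^ (g' + 2) * (2 * ((g' : ℤ) - g) * ell + x - y) := by
    apply mul_nonneg _ hC0
    linarith
  have h3 : |Nn M ell g g' x y| ≤ (M : ℤ) ^ (k + 2) * ((2 * k + 1) * ell + 1) := by
    unfold Nn
    rw [abs_le]
    constructor
    · nlinarith
    · nlinarith
  have h4 : ((Nn M ell g g' x y).natAbs : ℤ) ≤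
      ((M ^ (k + 2) * ((2 * k + 1) * ell + 1) : ℕ) : ℤ) := by
    rw [Int.natCast_natAbs]
    push_cast
    exact h3
  exact_mod_cast h4

private theorem e4b_card (n L : ℕ) (hn : n ≠ 0) (h : n ≤ 2 ^ L) : n.primeFactors.card ≤ L := by
  have h1 : 2 ^ n.primeFactors.card ≤ ∏ p ∈ n.primeFactors, p := by
    rw [← Finset.prod_const]
    apply Finset.prod_le_prod'
    intro p hp
    exact (Nat.prime_of_mem_primeFactors hp).two_le
  have h2 : ∏ p ∈ n.primeFactors, p ≤ n :=
    Nat.le_of_dvd (Nat.pos_of_ne_zero hn) (Nat.prod_primeFactors_dvd n)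
  exact (Nat.pow_le_pow_iff_right (by norm_num : 1 < 2)).1 (h1.trans (h2.trans h))

private theorem e4b_Nn_shift (M ell g g' x y : ℕ) :
    Nn M ell g g' x y = (M : ℤ) ^ (g' + 2) * x + Nn M ell g g' 0 y := by
  unfold Nn
  push_cast
  ring

private theorem e4b_Nn_shift' (M ell g g' x y : ℕ) :
    Nn M ell g g' x y = -(M : ℤ) ^ (g' + 2) * y + Nn M ell g g' x 0 := by
  unfold Nn
  push_cast
  ring

variable {k R : ℕ} [NeZero k] {c : ℕ → ZMod k}

private theorem e4b_N_ne (P : PS k R c) (e : Ed k R) (τ : V k R → Fin P.ell) : P.N e τ ≠ 0 :=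
  e4b_Nn_ne _ _ _ _ _ _ e.2 P.hM

private theorem e4b_N_card (P : PS k R c) (e : Ed k R) (τ : V k R → Fin P.ell) :
    (P.N e τ).natAbs.primeFactors.card ≤ P.Lg := by
  apply e4b_card
  · intro h
    exact e4b_N_ne P e τ (Int.natAbs_eq_zero.1 h)
  · refine le_trans ?_ P.hLg
    apply e4b_Nn_bound
    · exact e.2
    · exact Nat.le_of_lt_succ e.1.1.1.2
    · have := P.hM
      omega
    · exact (τ e.1.1).2
    · exact (τ e.1.2).2

/-- the coefficient of the coordinate `v` in `N f` -/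
private def e4bU (P : PS k R c) (v : V k R) (f : Ed k R) : ℤ :=
  if v = f.1.1 then (P.M : ℤ) ^ ((f.1.1.1 : ℕ) + 2) else -(P.M : ℤ) ^ ((f.1.1.1 : ℕ) + 2)

private theorem e4b_aff (P : PS k R c) (v : V k R) (f : Ed k R) (hv : v = f.1.1 ∨ v = f.1.2)
    (τ : V k R → Fin P.ell) (x : Fin P.ell) :
    P.N f (Function.update τ v x) =
      e4bU P v f * ((x : ℕ) : ℤ) + P.N f (Function.update τ v ⟨0, P.hell⟩) := by
  have hf : f.1.1 ≠ f.1.2 := by
    intro h
    have := f.2
    rw [h] at this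
    exact lt_irrefl _ this
  by_cases h : v = f.1.1
  · have h2 : f.1.2 ≠ v := by
      rw [h]
      exact hf.symm
    have h3 : f.1.1 = v := h.symm
    unfold PS.N e4bU
    rw [if_pos h, Function.update_of_ne h2, Function.update_of_ne h2, h3, Function.update_self,
      Function.update_self]
    exact e4b_Nn_shift _ _ _ _ _ _
  · have h1 : f.1.1 ≠ v := fun h' => h h'.symm
    have h2 : f.1.2 = v := by
      rcases hv with h' | h'
      · exact absurd h' h
      · exact h'.symm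
    unfold PS.N e4bU
    rw [if_neg h, Function.update_of_ne h1, Function.update_of_ne h1, h2, Function.update_self,
      Function.update_self]
    exact e4b_Nn_shift' _ _ _ _ _ _

private theorem e4b_κM (P : PS k R c) (e : Ed k R) (p : Fin P.J × ZMod k) :
    Nat.Coprime P.M (P.κ e p) := by
  have h1 := P.hmod e p
  have h2 : P.κ e p ≡ 1 [MOD P.M] := h1.of_dvd (dvd_pow_self _ (by omega))
  have h3 := h2.gcd_eq
  rw [Nat.gcd_one_left] at h3
  exact Nat.Coprime.symm h3

private theorem e4b_κpos (P : PS k R c) (e : Ed k R) (p : Fin P.J × ZMod k) : 0 < P.κ e p :=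
  lt_of_lt_of_le P.hKpos (P.hK e p).1

private theorem e4b_cop (P : PS k R c) (v : V k R) (f : Ed k R) (q : ℕ) (hq : Nat.Coprime P.M q) :
    IsCoprime (e4bU P v f) (q : ℤ) := by
  have h1 : IsCoprime ((P.M : ℤ) ^ ((f.1.1.1 : ℕ) + 2)) (q : ℤ) :=
    IsCoprime.pow_left (Nat.isCoprime_iff_coprime.2 hq)
  unfold e4bU
  split_ifs
  · exact h1
  · exact h1.neg_left

private theorem e4b_fiber (hE1b : S_E1b) (P : PS k R c)
    (π : Ed k R → Fin P.J × ZMod k) (e' : Ed k R) (v : V k R) (hv : v = e'.1.1 ∨ v = e'.1.2)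
    (τ : V k R → Fin P.ell) (q : ℕ) (hq : q.Prime) (hqM : ¬ q ∣ P.M)
    (hqκ : ∀ f, ¬ q ∣ P.κ f (π f)) :
    ∑ x : Fin P.ell, (if (q : ℤ) ∣ P.N e' (Function.update τ v x) then (1 : ℝ) else 0) *
      ∏ f ∈ univ.filter (fun f : Ed k R => v = f.1.1 ∨ v = f.1.2),
        (if (P.κ f (π f) : ℤ) ∣ P.N f (Function.update τ v x) then (P.κ f (π f) : ℝ) else 0)
      ≤ P.ell * (1 / q + 1 / P.Y) := by
  classical
  set s : Finset (Ed k R) := univ.filter (fun f : Ed k R => v = f.1.1 ∨ v = f.1.2) with hs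
  set a : Ed k R → ℤ := fun f => P.N f (Function.update τ v ⟨0, P.hell⟩) with ha
  have hcopq : Nat.Coprime P.M q := by
    rw [Nat.coprime_comm]
    exact (Nat.Prime.coprime_iff_not_dvd hq).2 hqM
  have hdiv : (∏ i ∈ s, P.κ i (π i)) ∣ ∏ i, P.κ i (π i) :=
    Finset.prod_dvd_prod_of_subset _ _ _ (Finset.subset_univ _)
  have key := hE1b (Ed k R) s (fun f => P.κ f (π f)) (fun f => e4bU P v f) a P.ell q
    (e4bU P v e') (a e')
    (fun i _ => e4b_κpos P i (π i))
    (fun i _ j _ hij => P.hcop i j (π i) (π j) hij)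
    (fun i _ => e4b_cop P v i _ (e4b_κM P i (π i)))
    (hdiv.trans (P.hdvd π)) hq.pos (e4b_cop P v e' q hcopq)
    (fun i _ => Nat.Coprime.symm ((Nat.Prime.coprime_iff_not_dvd hq).2 (hqκ i)))
  have hprod : ∏ i ∈ s, (P.κ i (π i) : ℝ) ≤ P.ell / P.Y := by
    have hpos : 0 < ∏ i, P.κ i (π i) := Finset.prod_pos (fun i _ => e4b_κpos P i (π i))
    have h1 : ∏ i ∈ s, P.κ i (π i) ≤ ∏ i, P.κ i (π i) := Nat.le_of_dvd hpos hdiv
    have h2 := P.hY π
    have h3 : (∏ i ∈ s, P.κ i (π i)) * P.Y ≤ P.ell := (Nat.mul_le_mul_right _ h1).trans h2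
    rw [le_div_iff₀ (by exact_mod_cast P.hYpos)]
    exact_mod_cast h3
  have hsum : ∑ x : Fin P.ell, (if (q : ℤ) ∣ P.N e' (Function.update τ v x) then (1 : ℝ) else 0) *
      ∏ f ∈ s, (if (P.κ f (π f) : ℤ) ∣ P.N f (Function.update τ v x) then (P.κ f (π f) : ℝ) else 0)
      = ((((range P.ell).filter fun x : ℕ => (∀ i ∈ s, (P.κ i (π i) : ℤ) ∣ e4bU P v i * x + a i) ∧
          (q : ℤ) ∣ e4bU P v e' * x + a e').card : ℕ) : ℝ) * ∏ i ∈ s, (P.κ i (π i) : ℝ) := by
    have h1 : ∀ x : Fin P.ell,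
        (if (q : ℤ) ∣ P.N e' (Function.update τ v x) then (1 : ℝ) else 0) *
        ∏ f ∈ s, (if (P.κ f (π f) : ℤ) ∣ P.N f (Function.update τ v x) then
          (P.κ f (π f) : ℝ) else 0) =
        (fun x : ℕ => if (∀ i ∈ s, (P.κ i (π i) : ℤ) ∣ e4bU P v i * x + a i) ∧
          (q : ℤ) ∣ e4bU P v e' * x + a e' then ∏ i ∈ s, (P.κ i (π i) : ℝ) else 0) (x : ℕ) := by
      intro x
      have h2 : ∏ f ∈ s, (if (P.κ f (π f) : ℤ) ∣ P.N f (Function.update τ v x) then
          (P.κ f (π f) : ℝ) else 0) =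
          ∏ f ∈ s, (if (P.κ f (π f) : ℤ) ∣ e4bU P v f * ((x : ℕ) : ℤ) + a f then
          (P.κ f (π f) : ℝ) else 0) := by
        apply Finset.prod_congr rfl
        intro f hf
        rw [e4b_aff P v f (Finset.mem_filter.1 hf).2 τ x]
      rw [h2, Finset.prod_ite_zero, e4b_aff P v e' hv τ x]
      by_cases h3 : (q : ℤ) ∣ e4bU P v e' * ((x : ℕ) : ℤ) + a e'
      · have h3' : (q : ℤ) ∣ e4bU P v e' * ((x : ℕ) : ℤ) +
            P.N e' (Function.update τ v ⟨0, P.hell⟩) := h3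
        rw [if_pos h3', one_mul]
        simp only [h3, and_true]
        split_ifs <;> rfl
      · have h3' : ¬ (q : ℤ) ∣ e4bU P v e' * ((x : ℕ) : ℤ) +
            P.N e' (Function.update τ v ⟨0, P.hell⟩) := h3
        rw [if_neg h3', zero_mul]
        simp only [h3, and_false, if_false]
    rw [Finset.sum_congr rfl (fun x _ => h1 x), ← Finset.sum_range
      (f := fun x : ℕ => if (∀ i ∈ s, (P.κ i (π i) : ℤ) ∣ e4bU P v i * x + a i) ∧
          (q : ℤ) ∣ e4bU P v e' * x + a e' then ∏ i ∈ s, (P.κ i (π i) : ℝ) else 0),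
      ← nsmul_eq_mul, ← Finset.sum_const, Finset.sum_filter]
    apply Finset.sum_congr rfl
    intro x _
    split_ifs <;> rfl
  rw [hsum]
  calc _ ≤ (P.ell : ℝ) / q + ∏ i ∈ s, (P.κ i (π i) : ℝ) := by
        refine le_trans (le_of_eq ?_) key
        refine congrArg (fun t : ℕ => (t : ℝ) * ∏ i ∈ s, (P.κ i (π i) : ℝ)) ?_
        refine congrArg Finset.card ?_
        ext x
        simp only [Finset.mem_filter]
    _ ≤ (P.ell : ℝ) / q + P.ell / P.Y := by linarith
    _ = P.ell * (1 / q + 1 / P.Y) := by ring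

private theorem e4b_W_nonneg (P : PS k R c) (π : Ed k R → Fin P.J × ZMod k) (U : Finset (V k R))
    (τ : V k R → Fin P.ell) : 0 ≤ P.wt π U τ := by
  unfold PS.wt
  apply Finset.prod_nonneg
  intro f _
  split_ifs
  · positivity
  · exact le_refl _
  · norm_num

private theorem e4b_wt_split (P : PS k R c) (π : Ed k R → Fin P.J × ZMod k) (v : V k R)
    (τ : V k R → Fin P.ell) (x : Fin P.ell) :
    P.wt π univ (Function.update τ v x) = P.wt π (univ.erase v) τ *
      ∏ f ∈ univ.filter (fun f : Ed k R => v = f.1.1 ∨ v = f.1.2),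
        (if (P.κ f (π f) : ℤ) ∣ P.N f (Function.update τ v x) then (P.κ f (π f) : ℝ) else 0) := by
  classical
  unfold PS.wt
  rw [Finset.prod_filter, ← Finset.prod_mul_distrib]
  apply Finset.prod_congr rfl
  intro f _
  by_cases h : v = f.1.1 ∨ v = f.1.2
  · have h' : ¬ (f.1.1 ∈ univ.erase v ∧ f.1.2 ∈ univ.erase v) := by
      rintro ⟨h1, h2⟩
      rcases h with h | h
      · exact (Finset.mem_erase.1 h1).1 h.symm
      · exact (Finset.mem_erase.1 h2).1 h.symm
    rw [if_pos h, if_neg h', one_mul, if_pos ⟨Finset.mem_univ _, Finset.mem_univ _⟩]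
  · have hh : f.1.1 ≠ v ∧ f.1.2 ≠ v := ⟨fun h' => h (Or.inl h'.symm), fun h' => h (Or.inr h'.symm)⟩
    have h' : f.1.1 ∈ univ.erase v ∧ f.1.2 ∈ univ.erase v :=
      ⟨Finset.mem_erase.2 ⟨hh.1, Finset.mem_univ _⟩, Finset.mem_erase.2 ⟨hh.2, Finset.mem_univ _⟩⟩
    have hN : P.N f (Function.update τ v x) = P.N f τ := by
      unfold PS.N
      rw [Function.update_of_ne hh.1, Function.update_of_ne hh.2]
    rw [if_neg h, if_pos h', mul_one, if_pos ⟨Finset.mem_univ _, Finset.mem_univ _⟩, hN]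

private noncomputable def e4bG (P : PS k R c) (e : Ed k R) (τ : V k R → Fin P.ell) : ℝ :=
  ∑ q ∈ (P.N e τ).natAbs.primeFactors, (1 : ℝ) / q

private theorem e4b_main (hE1b : S_E1b) (P : PS k R c)
    (π : Ed k R → Fin P.J × ZMod k) (e e' : Ed k R) (v : V k R) (hv : v = e'.1.1 ∨ v = e'.1.2)
    (hv1 : v ≠ e.1.1) (hv2 : v ≠ e.1.2) (ind : (V k R → Fin P.ell) → ℝ)
    (hind : ∀ τ, ind τ ≤ ∑ q ∈ (P.N e τ).natAbs.primeFactors,
      if (∀ f, ¬ q ∣ P.κ f (π f)) then (if (q : ℤ) ∣ P.N e' τ then (1 : ℝ) else 0) else 0) :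
    ∑ τ : V k R → Fin P.ell, ind τ * P.wt π univ τ ≤
      ∑ τ : V k R → Fin P.ell,
        (e4bG P e τ + (P.Lg : ℝ) / P.Y) * P.wt π (univ.erase v) τ := by
  classical
  have hell : (0 : ℝ) < P.ell := by exact_mod_cast P.hell
  have h1 := e4b_sum_update v (fun τ : V k R → Fin P.ell => ind τ * P.wt π univ τ)
  rw [Fintype.card_fin] at h1
  have h2 : ∀ τ : V k R → Fin P.ell,
      ∑ x : Fin P.ell, ind (Function.update τ v x) * P.wt π univ (Function.update τ v x) ≤
      P.ell * ((e4bG P e τ + (P.Lg : ℝ) / P.Y) * P.wt π (univ.erase v) τ) := by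
    intro τ
    have hN : ∀ x : Fin P.ell, P.N e (Function.update τ v x) = P.N e τ := by
      intro x
      unfold PS.N
      rw [Function.update_of_ne hv1.symm, Function.update_of_ne hv2.symm]
    set Pr : Fin P.ell → ℝ := fun x => ∏ f ∈ univ.filter (fun f : Ed k R => v = f.1.1 ∨ v = f.1.2),
        (if (P.κ f (π f) : ℤ) ∣ P.N f (Function.update τ v x) then (P.κ f (π f) : ℝ) else 0) with hPr
    have hPr0 : ∀ x, 0 ≤ Pr x := by
      intro x
      apply Finset.prod_nonneg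
      intro f _
      split_ifs
      · positivity
      · exact le_refl _
    have hw0 := e4b_W_nonneg P π (univ.erase v) τ
    set w : ℝ := P.wt π (univ.erase v) τ with hw
    calc ∑ x : Fin P.ell, ind (Function.update τ v x) * P.wt π univ (Function.update τ v x)
        ≤ ∑ x : Fin P.ell, (∑ q ∈ (P.N e τ).natAbs.primeFactors,
            if (∀ f, ¬ q ∣ P.κ f (π f)) then
              (if (q : ℤ) ∣ P.N e' (Function.update τ v x) then (1 : ℝ) else 0) else 0) *
            (w * Pr x) := by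
          apply Finset.sum_le_sum
          intro x _
          rw [e4b_wt_split P π v τ x]
          apply mul_le_mul_of_nonneg_right _ (mul_nonneg hw0 (hPr0 x))
          have := hind (Function.update τ v x)
          rw [hN x] at this
          exact this
      _ = w * ∑ q ∈ (P.N e τ).natAbs.primeFactors, ∑ x : Fin P.ell,
            (if (∀ f, ¬ q ∣ P.κ f (π f)) then
              (if (q : ℤ) ∣ P.N e' (Function.update τ v x) then (1 : ℝ) else 0) else 0) * Pr x := by
          rw [Finset.sum_comm (s := (P.N e τ).natAbs.primeFactors), Finset.mul_sum]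
          apply Finset.sum_congr rfl
          intro x _
          rw [← Finset.sum_mul]
          ring
      _ ≤ w * ∑ q ∈ (P.N e τ).natAbs.primeFactors, (P.ell : ℝ) * (1 / q + 1 / P.Y) := by
          apply mul_le_mul_of_nonneg_left _ hw0
          apply Finset.sum_le_sum
          intro q hq
          have hqp := Nat.prime_of_mem_primeFactors hq
          have hqd : (q : ℤ) ∣ P.N e τ := by
            have := Nat.dvd_of_mem_primeFactors hq
            exact Int.natCast_dvd.2 this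
          by_cases hgood : ∀ f, ¬ q ∣ P.κ f (π f)
          · simp only [if_pos hgood]
            exact e4b_fiber hE1b P π e' v hv τ q hqp (e4b_Nn_prime _ _ _ _ _ _ q e.2 hqp hqd) hgood
          · simp only [if_neg hgood, zero_mul, Finset.sum_const_zero]
            positivity
      _ = w * (P.ell * (e4bG P e τ + (P.N e τ).natAbs.primeFactors.card * (1 / P.Y))) := by
          unfold e4bG
          rw [← Finset.mul_sum, Finset.sum_add_distrib, Finset.sum_const, nsmul_eq_mul]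
      _ ≤ P.ell * ((e4bG P e τ + (P.Lg : ℝ) / P.Y) * w) := by
          have hc : ((P.N e τ).natAbs.primeFactors.card : ℝ) ≤ P.Lg := by
            exact_mod_cast e4b_N_card P e τ
          have hY : (0 : ℝ) ≤ 1 / P.Y := by positivity
          have h3 : ((P.N e τ).natAbs.primeFactors.card : ℝ) * (1 / P.Y) ≤ (P.Lg : ℝ) / P.Y := by
            rw [div_eq_mul_one_div (P.Lg : ℝ)]
            exact mul_le_mul_of_nonneg_right hc hY
          have h4 : w * (P.ell * (e4bG P e τ + (P.N e τ).natAbs.primeFactors.card * (1 / P.Y))) ≤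
              w * (P.ell * (e4bG P e τ + (P.Lg : ℝ) / P.Y)) := by
            apply mul_le_mul_of_nonneg_left _ hw0
            apply mul_le_mul_of_nonneg_left _ hell.le
            linarith
          linarith
  have h3 : (P.ell : ℝ) * ∑ τ : V k R → Fin P.ell, ind τ * P.wt π univ τ ≤
      P.ell * ∑ τ : V k R → Fin P.ell,
        (e4bG P e τ + (P.Lg : ℝ) / P.Y) * P.wt π (univ.erase v) τ := by
    rw [← h1, Finset.mul_sum]
    exact Finset.sum_le_sum (fun τ _ => h2 τ)
  exact le_of_mul_le_mul_left h3 hell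

private theorem e4b_wt_pair (P : PS k R c) (π : Ed k R → Fin P.J × ZMod k) (e : Ed k R)
    (τ : V k R → Fin P.ell) :
    P.wt π {e.1.1, e.1.2} τ =
      if (P.κ e (π e) : ℤ) ∣ P.N e τ then (P.κ e (π e) : ℝ) else 0 := by
  classical
  unfold PS.wt
  rw [Finset.prod_eq_single e]
  · rw [if_pos]
    simp
  · intro f _ hf
    rw [if_neg]
    rintro ⟨h1, h2⟩
    apply hf
    have hf2 := f.2
    have he2 := e.2
    rw [Finset.mem_insert, Finset.mem_singleton] at h1 h2
    rcases h1 with h1 | h1 <;> rcases h2 with h2 | h2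
    · rw [h1, h2] at hf2
      exact absurd hf2 (lt_irrefl _)
    · exact Subtype.ext (Prod.ext h1 h2)
    · rw [h1, h2] at hf2
      exact absurd (lt_trans hf2 he2) (lt_irrefl _)
    · rw [h1, h2] at hf2
      exact absurd hf2 (lt_irrefl _)
  · intro h
    exact absurd (Finset.mem_univ _) h

/-- (Job PX E4b) Proof.  Choose a point `v` of `e'` not in `e` (exists: `e = (s,r)`, `e' = (s',r')`; if `s' ∉ {s,r}` take `s'`; if `s' = s` then `r' ≠ r, s`; if
`s' = r` then `r'` has a smaller group, so `r' ∉ {s,r}`).  Let `U = univ \ {v}`.  The indicator is at most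
`∑_{q ∈ primeFactors |N_e τ|, q ∤ all κ} 1[q ∣ N_e' τ]`; `N_e` does not depend on `τ v`.  For such `q`: `q ∤ M` (`N_e ≡ 1 mod M`), and summing over
`τ v` with the factors `κ_f 1[κ_f ∣ N_f]`, `f ∋ v`: by E1b at most `ell/q + ∏_{f ∋ v} κ_f ≤ ell (1/q + 1/Y)` (`hY`).  So the sum is at most
`∑_τ wt π U τ · ∑_{q ∣ N_e τ} (1/q + 1/Y)` (one factor `ell` is the sum over the free coordinate `τ v`), and by E2 (from `U` down to the two
points of `e`) and E2b and E4s this is at most `ell^V (S + 2/B + Lg/Y + Lg/Y)`: the second part because `N_e` has at most `Lg` prime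
factors (`0 < N_e ≤ 2^Lg`, `hLg`) and the weights have mean one. -/
theorem tE4b (hE1b : S_E1b) (hE2 : S_E2) (hE2b : S_E2b) (hE4s : S_E4s) : S_E4b := by
  classical
  intro k R _ c P π e e' hee'
  obtain ⟨v, hv, hv1, hv2⟩ := e4b_point e e' hee'
  have hell : (0 : ℝ) < P.ell := by exact_mod_cast P.hell
  have hmain := e4b_main hE1b P π e e' v hv hv1 hv2
    (fun τ => if ∃ q : ℕ, q.Prime ∧ (q : ℤ) ∣ P.N e τ ∧ (q : ℤ) ∣ P.N e' τ ∧
      ∀ f, ¬ q ∣ P.κ f (π f) then 1 else 0) (by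
      intro τ
      show (if ∃ q : ℕ, q.Prime ∧ (q : ℤ) ∣ P.N e τ ∧ (q : ℤ) ∣ P.N e' τ ∧
        ∀ f, ¬ q ∣ P.κ f (π f) then (1 : ℝ) else 0) ≤ _
      have hnn : ∀ q ∈ (P.N e τ).natAbs.primeFactors, (0 : ℝ) ≤
          if (∀ f, ¬ q ∣ P.κ f (π f)) then (if (q : ℤ) ∣ P.N e' τ then (1 : ℝ) else 0) else 0 := by
        intro q _
        split_ifs <;> norm_num
      split_ifs with h
      · obtain ⟨q, hq, h1, h2, h3⟩ := h
        have hmem : q ∈ (P.N e τ).natAbs.primeFactors := by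
          rw [Nat.mem_primeFactors]
          refine ⟨hq, Int.natCast_dvd.1 h1, ?_⟩
          intro h
          exact e4b_N_ne P e τ (Int.natAbs_eq_zero.1 h)
        refine le_trans ?_ (Finset.single_le_sum hnn hmem)
        rw [if_pos h3, if_pos h2]
      · exact Finset.sum_nonneg hnn)
  refine le_trans hmain ?_
  -- second part
  have hsub0 : (∅ : Finset (V k R)) ⊆ univ.erase v := Finset.empty_subset _
  have hE20 := (hE2 k R c P π ∅ (univ.erase v) hsub0).1 (fun _ => (P.Lg : ℝ) / P.Y)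
    (fun _ _ _ => rfl)
  have hwt0 : ∀ τ : V k R → Fin P.ell, P.wt π ∅ τ = 1 := by
    intro τ
    unfold PS.wt
    apply Finset.prod_eq_one
    intro f _
    rw [if_neg]
    simp
  have h2nd : ∑ τ : V k R → Fin P.ell, (P.Lg : ℝ) / P.Y * P.wt π (univ.erase v) τ =
      (P.Lg : ℝ) / P.Y * (P.ell : ℝ) ^ Fintype.card (V k R) := by
    rw [hE20]
    simp only [hwt0, mul_one, Finset.sum_const, nsmul_eq_mul, Finset.card_univ]
    rw [Fintype.card_fun, Fintype.card_fin]
    push_cast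
    ring
  -- first part
  have hsub : ({e.1.1, e.1.2} : Finset (V k R)) ⊆ univ.erase v := by
    intro w hw
    rw [Finset.mem_insert, Finset.mem_singleton] at hw
    rw [Finset.mem_erase]
    refine ⟨?_, Finset.mem_univ _⟩
    rcases hw with hw | hw
    · rw [hw]
      exact hv1.symm
    · rw [hw]
      exact hv2.symm
  have hE21 := (hE2 k R c P π {e.1.1, e.1.2} (univ.erase v) hsub).1 (e4bG P e) (by
    intro τ τ' h
    unfold e4bG PS.N
    rw [h e.1.1 (Finset.mem_insert_self _ _),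
      h e.1.2 (Finset.mem_insert_of_mem (Finset.mem_singleton_self _))])
  set Gf : (Fin 2 → Fin P.ell) → ℝ := fun x =>
    (if (P.κ e (π e) : ℤ) ∣ Nn P.M P.ell e.1.2.1 e.1.1.1 (x 0) (x 1) then
      (P.κ e (π e) : ℝ) else 0) *
    ∑ q ∈ (Nn P.M P.ell e.1.2.1 e.1.1.1 (x 0) (x 1)).natAbs.primeFactors, (1 : ℝ) / q with hGf
  have hinj : Function.Injective (![e.1.1, e.1.2] : Fin 2 → V k R) := by
    have hne : e.1.1 ≠ e.1.2 := by
      intro h
      have := e.2
      rw [h] at this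
      exact lt_irrefl _ this
    intro i j hij
    fin_cases i <;> fin_cases j
    · rfl
    · exact absurd hij hne
    · exact absurd hij hne.symm
    · rfl
  have hE2b' := (hE2b (V k R) (Fin P.ell) 2 ![e.1.1, e.1.2] hinj).1 Gf
  rw [Fintype.card_fin] at hE2b'
  have h1a : ∑ τ : V k R → Fin P.ell, e4bG P e τ * P.wt π (univ.erase v) τ =
      ∑ τ : V k R → Fin P.ell, Gf (τ ∘ ![e.1.1, e.1.2]) := by
    rw [hE21]
    apply Finset.sum_congr rfl
    intro τ _
    rw [e4b_wt_pair, mul_comm]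
    rfl
  have h1b : ∑ x : Fin 2 → Fin P.ell, Gf x = ∑ x ∈ range P.ell, ∑ y ∈ range P.ell,
      (if (P.κ e (π e) : ℤ) ∣ Nn P.M P.ell e.1.2.1 e.1.1.1 x y then (P.κ e (π e) : ℝ) else 0) *
      ∑ q ∈ (Nn P.M P.ell e.1.2.1 e.1.1.1 x y).natAbs.primeFactors, (1 : ℝ) / q := by
    have e1 : ∑ x : Fin 2 → Fin P.ell, Gf x = ∑ p : Fin P.ell × Fin P.ell, Gf ![p.1, p.2] := by
      apply Fintype.sum_equiv (finTwoArrowEquiv (Fin P.ell))
      intro x
      congr 1
      funext i
      fin_cases i <;> rfl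
    rw [e1, Fintype.sum_prod_type, Finset.sum_range]
    apply Finset.sum_congr rfl
    intro x _
    rw [Finset.sum_range]
    rfl
  have h1c := hE4s k R c P e (π e)
  rw [← h1b] at h1c
  have h1st : ∑ τ : V k R → Fin P.ell, e4bG P e τ * P.wt π (univ.erase v) τ ≤
      (P.S + 2 / P.B + P.Lg / P.Y) * (P.ell : ℝ) ^ Fintype.card (V k R) := by
    rw [h1a]
    have hpos : (0 : ℝ) < (P.ell : ℝ) ^ 2 := by positivity
    apply le_of_mul_le_mul_right _ hpos
    rw [hE2b']
    calc (P.ell : ℝ) ^ Fintype.card (V k R) * ∑ x, Gf x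
        ≤ (P.ell : ℝ) ^ Fintype.card (V k R) *
          ((P.S + 2 / P.B + P.Lg / P.Y) * (P.ell : ℝ) ^ 2) :=
          mul_le_mul_of_nonneg_left h1c (by positivity)
      _ = _ := by ring
  calc ∑ τ : V k R → Fin P.ell, (e4bG P e τ + (P.Lg : ℝ) / P.Y) * P.wt π (univ.erase v) τ
      = ∑ τ : V k R → Fin P.ell, e4bG P e τ * P.wt π (univ.erase v) τ +
        ∑ τ : V k R → Fin P.ell, (P.Lg : ℝ) / P.Y * P.wt π (univ.erase v) τ := by
        rw [← Finset.sum_add_distrib]
        apply Finset.sum_congr rfl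
        intro τ _
        ring
    _ ≤ (P.S + 2 / P.B + P.Lg / P.Y) * (P.ell : ℝ) ^ Fintype.card (V k R) +
        (P.Lg : ℝ) / P.Y * (P.ell : ℝ) ^ Fintype.card (V k R) := by
        rw [h2nd]
        linarith
    _ = (P.S + 2 / P.B + 2 * P.Lg / P.Y) * (P.ell : ℝ) ^ Fintype.card (V k R) := by ring

end Pool.Agent.Lib.MP_fed790_nt.PX
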