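import Pool.Agent.Lib.MP_fed790_nt.PX.Defs2

/-! E4s: mean of sum of 1/q over one edge -/

open Finset MeasureTheory

namespace Pool.Agent.Lib.MP_fed790_nt.PX

private theorem e4s_card (a b : ℤ) (d n t : ℕ) (hd : 0 < d) (hb : IsCoprime b (d : ℤ))
    (hn : n ≤ d * t) : ((range n).filter (fun x : ℕ => (d : ℤ) ∣ a + b * x)).card ≤ t := by
  calc ((range n).filter (fun x : ℕ => (d : ℤ) ∣ a + b * x)).card ≤ (range t).card := by
        refine Finset.card_le_card_of_injOn (fun x => x / d) ?_ ?_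
        · intro x hx
          have hx' := Finset.mem_range.1 (Finset.mem_filter.1 (Finset.mem_coe.1 hx)).1
          simp only [Finset.coe_range, Set.mem_Iio]
          exact Nat.div_lt_of_lt_mul (lt_of_lt_of_le hx' hn)
        · intro x hx x' hx' hxx
          have h1 := (Finset.mem_filter.1 (Finset.mem_coe.1 hx)).2
          have h2 := (Finset.mem_filter.1 (Finset.mem_coe.1 hx')).2
          have h3 : (d : ℤ) ∣ b * ((x : ℤ) - x') := by
            have := dvd_sub h1 h2
            have h4 : a + b * (x : ℤ) - (a + b * (x' : ℤ)) = b * ((x : ℤ) - x') := by ring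
            rwa [h4] at this
          have h4 : (d : ℤ) ∣ (x : ℤ) - x' := hb.symm.dvd_of_dvd_mul_left h3
          have h5 : (x : ℤ) % d = (x' : ℤ) % d :=
            Int.emod_eq_emod_iff_emod_sub_eq_zero.2 (Int.emod_eq_zero_of_dvd h4)
          have h6 : x % d = x' % d := by exact_mod_cast h5
          simp only at hxx
          rw [← Nat.div_add_mod x d, ← Nat.div_add_mod x' d, hxx, h6]
    _ = t := Finset.card_range t

private theorem e4s_log (m L : ℕ) (hm : 0 < m) (h : m ≤ 2 ^ L) : m.primeFactors.card ≤ L := by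
  have h1 : 2 ^ m.primeFactors.card ≤ m := by
    calc 2 ^ m.primeFactors.card = ∏ _q ∈ m.primeFactors, 2 := by rw [Finset.prod_const]
      _ ≤ ∏ q ∈ m.primeFactors, q :=
        Finset.prod_le_prod (fun _ _ => Nat.zero_le _)
          (fun q hq => (Nat.prime_of_mem_primeFactors hq).two_le)
      _ ≤ m := Nat.le_of_dvd hm (Nat.prod_primeFactors_dvd m)
  exact (Nat.pow_le_pow_iff_right (by norm_num)).1 (h1.trans h)

/-- the sum over the small and the large primes -/
private theorem e4s_main (X : Finset ℕ) (m : ℕ → ℕ) (T B Lg : ℕ) (hT : 0 < T) (hB : 0 < B)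
    (hX : X.card ≤ T) (hm : ∀ x ∈ X, 0 < m x ∧ m x ≤ 2 ^ Lg)
    (hq : ∀ x ∈ X, ∀ q ∈ (m x).primeFactors, B < q)
    (hcount : ∀ q : ℕ, q.Prime → B < q → q ≤ T → (X.filter fun x => q ∣ m x).card ≤ T / q + 1) :
    ∑ x ∈ X, ∑ q ∈ (m x).primeFactors, (1 : ℝ) / q ≤ 2 * T / B + Lg := by
  have hT' : (0 : ℝ) < T := by exact_mod_cast hT
  have h1 : ∀ x ∈ X, ∑ q ∈ (m x).primeFactors, (1 : ℝ) / q ≤
      (∑ q ∈ Ioc B T, if q.Prime ∧ q ∣ m x then (1 : ℝ) / q else 0) + Lg / T := by
    intro x hx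
    rw [← Finset.sum_filter_add_sum_filter_not (m x).primeFactors (fun q => q ≤ T)]
    refine add_le_add ?_ ?_
    · rw [← Finset.sum_filter]
      refine Finset.sum_le_sum_of_subset_of_nonneg ?_ (fun q _ _ => by positivity)
      intro q hqm
      obtain ⟨hq1, hq2⟩ := Finset.mem_filter.1 hqm
      exact Finset.mem_filter.2 ⟨Finset.mem_Ioc.2 ⟨hq x hx q hq1, hq2⟩,
        Nat.prime_of_mem_primeFactors hq1, Nat.dvd_of_mem_primeFactors hq1⟩
    · calc ∑ q ∈ (m x).primeFactors with ¬ q ≤ T, (1 : ℝ) / q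
          ≤ ∑ q ∈ (m x).primeFactors with ¬ q ≤ T, (1 : ℝ) / T := by
            refine Finset.sum_le_sum fun q hqm => ?_
            have h2 := (Finset.mem_filter.1 hqm).2
            push Not at h2
            exact one_div_le_one_div_of_le hT' (by exact_mod_cast h2.le)
        _ = (((m x).primeFactors.filter fun q => ¬ q ≤ T).card : ℝ) * (1 / T) := by
            rw [Finset.sum_const, nsmul_eq_mul]
        _ ≤ (Lg : ℝ) * (1 / T) := by
            refine mul_le_mul_of_nonneg_right ?_ (by positivity)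
            have h3 : ((m x).primeFactors.filter fun q => ¬ q ≤ T).card ≤ Lg :=
              (Finset.card_filter_le _ _).trans (e4s_log _ _ (hm x hx).1 (hm x hx).2)
            exact_mod_cast h3
        _ = Lg / T := by ring
  calc ∑ x ∈ X, ∑ q ∈ (m x).primeFactors, (1 : ℝ) / q
      ≤ ∑ x ∈ X, ((∑ q ∈ Ioc B T, if q.Prime ∧ q ∣ m x then (1 : ℝ) / q else 0) + Lg / T) :=
        Finset.sum_le_sum h1
    _ = (∑ q ∈ Ioc B T, ∑ x ∈ X, if q.Prime ∧ q ∣ m x then (1 : ℝ) / q else 0) +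
          X.card * (Lg / T) := by
        rw [Finset.sum_add_distrib, Finset.sum_comm, Finset.sum_const, nsmul_eq_mul]
    _ ≤ 2 * T / B + Lg := by
        refine add_le_add ?_ ?_
        · have h2 : ∀ q ∈ Ioc B T, (∑ x ∈ X, if q.Prime ∧ q ∣ m x then (1 : ℝ) / q else 0) ≤
              2 * T * ((q : ℝ) ^ 2)⁻¹ := by
            intro q hqm
            obtain ⟨hq1, hq2⟩ := Finset.mem_Ioc.1 hqm
            have hq0 : 0 < q := by omega
            have hq0' : (0 : ℝ) < q := by exact_mod_cast hq0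
            by_cases hp : q.Prime
            · simp only [hp, true_and]
              rw [← Finset.sum_filter, Finset.sum_const, nsmul_eq_mul]
              have h3 := hcount q hp hq1 hq2
              have h4 : ((T / q + 1 : ℕ) : ℝ) ≤ 2 * T / q := by
                have h5 : ((T / q : ℕ) : ℝ) ≤ (T : ℝ) / q := Nat.cast_div_le
                have h6 : (1 : ℝ) ≤ (T : ℝ) / q := by
                  rw [le_div_iff₀ hq0']
                  simpa using (by exact_mod_cast hq2 : (q : ℝ) ≤ T)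
                push_cast
                have h7 : 2 * (T : ℝ) / q = T / q + T / q := by ring
                rw [h7]
                exact add_le_add h5 h6
              have h5 : (((X.filter fun x => q ∣ m x).card : ℕ) : ℝ) ≤ 2 * T / q :=
                le_trans (by exact_mod_cast h3) h4
              calc (((X.filter fun x => q ∣ m x).card : ℕ) : ℝ) * (1 / q)
                  ≤ (2 * T / q) * (1 / q) := mul_le_mul_of_nonneg_right h5 (by positivity)
                _ = 2 * T * ((q : ℝ) ^ 2)⁻¹ := by field_simp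
            · simp only [hp, false_and, if_false, Finset.sum_const_zero]
              positivity
          calc (∑ q ∈ Ioc B T, ∑ x ∈ X, if q.Prime ∧ q ∣ m x then (1 : ℝ) / q else 0)
              ≤ ∑ q ∈ Ioc B T, 2 * T * ((q : ℝ) ^ 2)⁻¹ := Finset.sum_le_sum h2
            _ = 2 * T * ∑ q ∈ Ioc B T, ((q : ℝ) ^ 2)⁻¹ := by rw [Finset.mul_sum]
            _ ≤ 2 * T * (1 / B) := by
                refine mul_le_mul_of_nonneg_left ?_ (by positivity)
                rcases le_or_gt B T with h3 | h3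
                · have h4 := sum_Ioc_inv_sq_le_sub (α := ℝ) (k := B) (n := T) (by omega) h3
                  refine h4.trans ?_
                  rw [one_div]
                  have : (0 : ℝ) ≤ (T : ℝ)⁻¹ := by positivity
                  linarith
                · rw [Finset.Ioc_eq_empty (by omega)]
                  simp
            _ = 2 * T / B := by ring
        · calc (X.card : ℝ) * (Lg / T) ≤ T * (Lg / T) :=
                mul_le_mul_of_nonneg_right (by exact_mod_cast hX) (by positivity)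
            _ = Lg := by field_simp

/-- (Job PX E4s) Proof.  Fix `y` (it suffices: for each `y < ell` the sum over `x` is at most `(S + 2/B + Lg/Y) ell`).  `κ = κ_e p`, `b = M^(g'+2)`, `v = 1 - M^(g'-g)`.
The `x < ell` with `κ ∣ N(x,y)` form one class mod `κ` (`κ ∣ ell`), there are `T = ell/κ` of them and `N = κ m_ω`, `m_ω = v + bω` with
`ω` running over `T` consecutive integers (`N(x+κ) = N(x) + bκ`).  `∑_{q ∣ κm} 1/q ≤ ∑_{q∣κ} 1/q + ∑_{q ∣ m} 1/q ≤ S + ∑_{q∣m} 1/q`.
`∑_ω ∑_{q ∣ m_ω} 1/q`: primes `q ≤ T`: `q ∤ M` (as `m ≡ 1 mod M`), so `q > B` (`hB`) and at most `T/q + 1 ≤ 2T/q` of the `ω` have `q ∣ m_ω`: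
contribution `∑_{q > B} 2T/q² ≤ 2T/B` (`∑_{n > B} 1/n² ≤ 1/B`).  Primes `q > T`: `1/q < 1/T` and `m_ω` has at most `Lg` prime factors
(`m ≤ N ≤ M^(k+2)(2k+1)ell ≤ 2^Lg`): contribution `≤ T · Lg/T = Lg`.  Total `κ (T S + 2T/B + Lg) = ell (S + 2/B + Lg κ/ell)`, and
`κ/ell ≤ 1/Y` by `hY`. -/
theorem tE4s : S_E4s := by
  intro k R _ c P e p
  obtain ⟨g, hg⟩ : ∃ g : ℕ, g = (e.1.2.1 : ℕ) := ⟨_, rfl⟩
  obtain ⟨g', hg'⟩ : ∃ g' : ℕ, g' = (e.1.1.1 : ℕ) := ⟨_, rfl⟩
  have hgg : g < g' := by rw [hg, hg']; exact e.2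
  have hg'k : g' ≤ k := by rw [hg']; exact Nat.lt_succ_iff.1 e.1.1.1.2
  rw [← hg, ← hg']
  obtain ⟨κ, hκ⟩ : ∃ κ : ℕ, κ = P.κ e p := ⟨_, rfl⟩
  rw [← hκ]
  have hκpos : 0 < κ := lt_of_lt_of_le P.hKpos (hκ ▸ (P.hK e p).1)
  have hκprod : κ ∣ ∏ f, P.κ f ((fun _ => p) f) := by
    rw [hκ]
    exact Finset.dvd_prod_of_mem (fun f => P.κ f p) (Finset.mem_univ e)
  have hprodpos : 0 < ∏ f, P.κ f ((fun _ => p) f) :=
    Finset.prod_pos fun f _ => lt_of_lt_of_le P.hKpos (P.hK f p).1
  have hκell : κ ∣ P.ell := hκprod.trans (P.hdvd fun _ => p)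
  have hκY : κ * P.Y ≤ P.ell :=
    (Nat.mul_le_mul_right _ (Nat.le_of_dvd hprodpos hκprod)).trans (P.hY fun _ => p)
  obtain ⟨T, hT⟩ := hκell
  have hTpos : 0 < T := by
    rcases Nat.eq_zero_or_pos T with h | h
    · have := P.hell
      rw [hT, h] at this
      simp at this
    · exact h
  have hMpos : 0 < P.M := by have := P.hM; omega
  have hM1 : (1 : ℤ) ≤ (P.M : ℤ) := by exact_mod_cast hMpos
  -- `κ ≡ 1 mod M`
  have hκM : (P.M : ℤ) ∣ (κ : ℤ) - 1 := by
    have h1 := P.hmod e p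
    rw [← hκ] at h1
    have h2 : κ ≡ 1 [MOD P.M] := h1.of_dvd (dvd_pow_self _ (by omega))
    have h3 := (Nat.modEq_iff_dvd.1 h2.symm)
    simpa using h3
  have hNM : ∀ x y : ℕ, (P.M : ℤ) ∣ Nn P.M P.ell g g' x y - 1 := by
    intro x y
    unfold Nn
    have h1 : (P.M : ℤ) ∣ (P.M : ℤ) ^ (g' - g) := dvd_pow_self _ (by omega)
    have h2 : (P.M : ℤ) ∣ (P.M : ℤ) ^ (g' + 2) := dvd_pow_self _ (by omega)
    have h3 : 1 - (P.M : ℤ) ^ (g' - g) + (P.M : ℤ) ^ (g' + 2) * (2 * ((g' : ℤ) - g) * P.ell + x - y) - 1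
        = (P.M : ℤ) ^ (g' + 2) * (2 * ((g' : ℤ) - g) * P.ell + x - y) - (P.M : ℤ) ^ (g' - g) := by ring
    rw [h3]
    exact dvd_sub (h2.mul_right _) h1
  -- bounds for `N`
  have hNpos : ∀ x y : ℕ, y < P.ell → 0 < Nn P.M P.ell g g' x y := by
    intro x y hy
    unfold Nn
    have h1 : (P.M : ℤ) ^ (g' - g) ≤ (P.M : ℤ) ^ (g' + 2) := pow_le_pow_right₀ hM1 (by omega)
    have h2 : (1 : ℤ) ≤ (2 * ((g' : ℤ) - g) * P.ell + x - y) := by
      have h3 : (1 : ℤ) ≤ (g' : ℤ) - g := by omega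
      have h4 : (y : ℤ) < P.ell := by exact_mod_cast hy
      have h5 : (0 : ℤ) ≤ (x : ℤ) := by positivity
      have h6 : (P.ell : ℤ) ≤ ((g' : ℤ) - g) * P.ell := by nlinarith
      nlinarith
    have h3 : (0 : ℤ) ≤ (P.M : ℤ) ^ (g' + 2) := by positivity
    nlinarith
  have hNle : ∀ x y : ℕ, x < P.ell → Nn P.M P.ell g g' x y ≤ 2 ^ P.Lg := by
    intro x y hx
    have h0 : ((P.M ^ (k + 2) * ((2 * k + 1) * P.ell + 1) : ℕ) : ℤ) ≤ ((2 ^ P.Lg : ℕ) : ℤ) := by
      exact_mod_cast P.hLg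
    push_cast at h0
    refine le_trans ?_ h0
    unfold Nn
    have h1 : (P.M : ℤ) ^ (g' + 2) ≤ (P.M : ℤ) ^ (k + 2) := pow_le_pow_right₀ hM1 (by omega)
    have h2 : (1 : ℤ) ≤ (P.M : ℤ) ^ (g' - g) := one_le_pow₀ hM1
    have h3 : (2 * ((g' : ℤ) - g) * P.ell + x - y) ≤ (2 * k + 1) * P.ell + 1 := by
      have h4 : (x : ℤ) < P.ell := by exact_mod_cast hx
      have h5 : (0 : ℤ) ≤ (y : ℤ) := by positivity
      have h6 : (g' : ℤ) - g ≤ k := by
        have : (g' : ℤ) ≤ k := by exact_mod_cast hg'k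
        have : (0 : ℤ) ≤ (g : ℤ) := by positivity
        omega
      have h7 : (0 : ℤ) ≤ (P.ell : ℤ) := by positivity
      nlinarith
    have h4 : (0 : ℤ) ≤ (P.M : ℤ) ^ (g' + 2) := by positivity
    have h5 : (0 : ℤ) ≤ (2 * (k : ℤ) + 1) * P.ell + 1 := by positivity
    calc 1 - (P.M : ℤ) ^ (g' - g) + (P.M : ℤ) ^ (g' + 2) * (2 * ((g' : ℤ) - g) * P.ell + x - y)
        ≤ 0 + (P.M : ℤ) ^ (g' + 2) * ((2 * k + 1) * P.ell + 1) :=
          add_le_add (by linarith) (mul_le_mul_of_nonneg_left h3 h4)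
      _ ≤ (P.M : ℤ) ^ (k + 2) * ((2 * k + 1) * P.ell + 1) := by
          rw [zero_add]
          exact mul_le_mul_of_nonneg_right h1 h5
  -- numbers coprime to `M`
  have hcopM : ∀ d : ℕ, IsCoprime (P.M : ℤ) (d : ℤ) →
      IsCoprime ((P.M : ℤ) ^ (g' + 2)) (d : ℤ) := fun d h => h.pow_left
  have hκcop : IsCoprime (P.M : ℤ) (κ : ℤ) := by
    obtain ⟨z, hz⟩ := hκM
    exact ⟨-z, 1, by linarith⟩
  -- the sum over `x`
  have key : ∀ y : ℕ, y < P.ell → ∑ x ∈ range P.ell,
      (if (κ : ℤ) ∣ Nn P.M P.ell g g' x y then (κ : ℝ) else 0) *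
        ∑ q ∈ (Nn P.M P.ell g g' x y).natAbs.primeFactors, (1 : ℝ) / q ≤
      (P.S + 2 / P.B + P.Lg / P.Y) * P.ell := by
    intro y hy
    obtain ⟨X, hX⟩ : ∃ X : Finset ℕ, X = (range P.ell).filter
      (fun x : ℕ => (κ : ℤ) ∣ Nn P.M P.ell g g' x y) := ⟨_, rfl⟩
    obtain ⟨m, hm⟩ : ∃ m : ℕ → ℕ, m = fun x => (Nn P.M P.ell g g' x y).natAbs / κ := ⟨_, rfl⟩
    have hXm : ∀ x ∈ X, x < P.ell ∧ (κ : ℤ) ∣ Nn P.M P.ell g g' x y := by
      intro x hx
      rw [hX] at hx
      exact ⟨Finset.mem_range.1 (Finset.mem_filter.1 hx).1, (Finset.mem_filter.1 hx).2⟩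
    have hNm : ∀ x ∈ X, (Nn P.M P.ell g g' x y).natAbs = κ * m x := by
      intro x hx
      have h1 := Int.natCast_dvd.1 (hXm x hx).2
      rw [hm]
      exact (Nat.mul_div_cancel' h1).symm
    have hNmZ : ∀ x ∈ X, Nn P.M P.ell g g' x y = κ * m x := by
      intro x hx
      have h1 := hNm x hx
      have h2 : ((Nn P.M P.ell g g' x y).natAbs : ℤ) = Nn P.M P.ell g g' x y :=
        Int.natAbs_of_nonneg (hNpos x y hy).le
      rw [← h2, h1]
      push_cast
      ring
    have hmpos : ∀ x ∈ X, 0 < m x := by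
      intro x hx
      have h1 := hNpos x y hy
      rw [hNmZ x hx] at h1
      rcases Nat.eq_zero_or_pos (m x) with h | h
      · rw [h] at h1; simp at h1
      · exact h
    have haff : ∀ x : ℕ, Nn P.M P.ell g g' x y =
        (1 - (P.M : ℤ) ^ (g' - g) + (P.M : ℤ) ^ (g' + 2) * (2 * ((g' : ℤ) - g) * P.ell - y)) +
          (P.M : ℤ) ^ (g' + 2) * x := by
      intro x
      unfold Nn
      ring
    have hXcard : X.card ≤ T := by
      rw [hX]
      simp only [haff]
      exact e4s_card _ _ κ P.ell T hκpos (hcopM κ hκcop) hT.le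
    have hcopm : ∀ x ∈ X, ∀ q ∈ (m x).primeFactors, ¬ q ∣ P.M := by
      intro x hx q hq hqM
      have h1 : (q : ℤ) ∣ Nn P.M P.ell g g' x y := by
        rw [hNmZ x hx]
        exact (by exact_mod_cast Nat.dvd_of_mem_primeFactors hq : (q : ℤ) ∣ (m x : ℤ)).mul_left _
      have h2 : (q : ℤ) ∣ Nn P.M P.ell g g' x y - 1 :=
        (by exact_mod_cast hqM : (q : ℤ) ∣ (P.M : ℤ)).trans (hNM x y)
      have h3 : (q : ℤ) ∣ 1 := by
        have := dvd_sub h1 h2
        simpa using this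
      have h4 : q ∣ 1 := by exact_mod_cast h3
      exact (Nat.prime_of_mem_primeFactors hq).one_lt.ne' (Nat.dvd_one.1 h4)
    have hmain := e4s_main X m T P.B P.Lg hTpos P.hBpos hXcard
      (fun x hx => ⟨hmpos x hx, by
        have h1 := hNle x y (hXm x hx).1
        rw [hNmZ x hx] at h1
        have h2 : κ * m x ≤ 2 ^ P.Lg := by exact_mod_cast h1
        exact (Nat.le_mul_of_pos_left _ hκpos).trans h2⟩)
      (fun x hx q hq => by
        by_contra h
        exact hcopm x hx q hq (P.hB q (Nat.prime_of_mem_primeFactors hq) (by omega)))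
      (fun q hq hBq hqT => by
        by_cases hqM : q ∣ P.M
        · have h0 : (X.filter fun x => q ∣ m x) = ∅ := by
            refine Finset.filter_eq_empty_iff.2 fun x hx hqm => ?_
            exact hcopm x hx q (Nat.mem_primeFactors.2 ⟨hq, hqm, (hmpos x hx).ne'⟩) hqM
          rw [h0]
          simp
        · have hqcop : IsCoprime (P.M : ℤ) (q : ℤ) := by
            rw [Nat.isCoprime_iff_coprime]
            exact ((Nat.Prime.coprime_iff_not_dvd hq).2 hqM).symm
          have hcop2 : IsCoprime (P.M : ℤ) ((κ * q : ℕ) : ℤ) := by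
            push_cast
            exact hκcop.mul_right hqcop
          have hsub : (X.filter fun x => q ∣ m x) ⊆ (range P.ell).filter
              (fun x : ℕ => ((κ * q : ℕ) : ℤ) ∣ (1 - (P.M : ℤ) ^ (g' - g) +
                (P.M : ℤ) ^ (g' + 2) * (2 * ((g' : ℤ) - g) * P.ell - y)) +
                (P.M : ℤ) ^ (g' + 2) * x) := by
            intro x hx
            obtain ⟨hx1, hx2⟩ := Finset.mem_filter.1 hx
            refine Finset.mem_filter.2 ⟨Finset.mem_range.2 (hXm x hx1).1, ?_⟩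
            rw [← haff x, hNmZ x hx1]
            push_cast
            exact mul_dvd_mul_left _ (by exact_mod_cast hx2)
          refine (Finset.card_le_card hsub).trans ?_
          refine e4s_card _ _ (κ * q) P.ell (T / q + 1) (Nat.mul_pos hκpos hq.pos)
            (hcopM _ hcop2) ?_
          rw [hT, mul_assoc]
          refine Nat.mul_le_mul_left _ ?_
          have := Nat.lt_mul_div_succ T hq.pos
          exact this.le)
    have hκpos' : (0 : ℝ) < κ := by exact_mod_cast hκpos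
    have hYpos' : (0 : ℝ) < P.Y := by exact_mod_cast P.hYpos
    have hBpos' : (0 : ℝ) < P.B := by exact_mod_cast P.hBpos
    calc ∑ x ∈ range P.ell, (if (κ : ℤ) ∣ Nn P.M P.ell g g' x y then (κ : ℝ) else 0) *
        ∑ q ∈ (Nn P.M P.ell g g' x y).natAbs.primeFactors, (1 : ℝ) / q
        = ∑ x ∈ X, (κ : ℝ) * ∑ q ∈ (Nn P.M P.ell g g' x y).natAbs.primeFactors, (1 : ℝ) / q := by
          rw [hX, Finset.sum_filter]
          refine Finset.sum_congr rfl fun x _ => ?_
          split_ifs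
          · rfl
          · simp
      _ ≤ ∑ x ∈ X, (κ : ℝ) * (P.S + ∑ q ∈ (m x).primeFactors, (1 : ℝ) / q) := by
          refine Finset.sum_le_sum fun x hx => ?_
          refine mul_le_mul_of_nonneg_left ?_ hκpos'.le
          rw [hNm x hx, Nat.primeFactors_mul hκpos.ne' (hmpos x hx).ne']
          have h1 : ∑ q ∈ κ.primeFactors, (1 : ℝ) / q ≤ P.S := by
            rw [hκ]; exact P.hS e p
          have h2 : ∑ q ∈ κ.primeFactors ∪ (m x).primeFactors, (1 : ℝ) / q ≤
              ∑ q ∈ κ.primeFactors, (1 : ℝ) / q + ∑ q ∈ (m x).primeFactors, (1 : ℝ) / q := by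
            have h3 := Finset.sum_union_inter (s₁ := κ.primeFactors) (s₂ := (m x).primeFactors)
              (f := fun q : ℕ => (1 : ℝ) / q)
            have h4 : (0 : ℝ) ≤ ∑ q ∈ κ.primeFactors ∩ (m x).primeFactors, (1 : ℝ) / q :=
              Finset.sum_nonneg fun q _ => by positivity
            linarith
          linarith
      _ = κ * (X.card * P.S + ∑ x ∈ X, ∑ q ∈ (m x).primeFactors, (1 : ℝ) / q) := by
          rw [← Finset.mul_sum, Finset.sum_add_distrib, Finset.sum_const, nsmul_eq_mul]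
      _ ≤ κ * (T * P.S + (2 * T / P.B + P.Lg)) := by
          refine mul_le_mul_of_nonneg_left ?_ hκpos'.le
          refine add_le_add (mul_le_mul_of_nonneg_right (by exact_mod_cast hXcard) P.hS0) hmain
      _ ≤ (P.S + 2 / P.B + P.Lg / P.Y) * P.ell := by
          have h1 : (P.ell : ℝ) = κ * T := by
            rw [hT]; push_cast; ring
          have h2 : (κ : ℝ) ≤ P.ell / P.Y := by
            rw [le_div_iff₀ hYpos']
            exact_mod_cast hκY
          have h3 : (κ : ℝ) * P.Lg ≤ P.ell / P.Y * P.Lg :=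
            mul_le_mul_of_nonneg_right h2 (by positivity)
          calc κ * (T * P.S + (2 * T / P.B + P.Lg))
              = (κ * T) * P.S + (κ * T) * (2 / P.B) + κ * P.Lg := by ring
            _ ≤ (κ * T) * P.S + (κ * T) * (2 / P.B) + P.ell / P.Y * P.Lg := by linarith
            _ = (P.S + 2 / P.B + P.Lg / P.Y) * P.ell := by rw [← h1]; ring
  rw [Finset.sum_comm]
  calc _ ≤ ∑ _y ∈ range P.ell, (P.S + 2 / P.B + P.Lg / P.Y) * (P.ell : ℝ) :=
        Finset.sum_le_sum fun y hy => key y (Finset.mem_range.1 hy)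
    _ = (P.S + 2 / P.B + P.Lg / P.Y) * (P.ell : ℝ) ^ 2 := by
        rw [Finset.sum_const, Finset.card_range, nsmul_eq_mul]
        ring

end Pool.Agent.Lib.MP_fed790_nt.PX
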