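import Pool.Agent.Lib.MP_fed790_nt.PX.Defs2

/-! E5: existence of a good configuration -/

open Finset MeasureTheory

namespace Pool.Agent.Lib.MP_fed790_nt.PX

/-- The weighted sum over all configurations. -/
noncomputable def e5_Ex {k R : ℕ} [NeZero k] {c : ℕ → ZMod k} (P : PS k R c)
    (F : (Ed k R → Fin P.J × ZMod k) → (V k R → Fin P.ell) → ℝ) : ℝ :=
  ∑ π, ∑ τ, F π τ * P.wt π univ τ

/-- The total weight. -/
noncomputable def e5_T {k R : ℕ} [NeZero k] {c : ℕ → ZMod k} (P : PS k R c) : ℝ :=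
  (Fintype.card (Fin P.J × ZMod k) : ℝ) ^ Fintype.card (Ed k R) *
      (P.ell : ℝ) ^ Fintype.card (V k R)

variable {k R : ℕ} [NeZero k] {c : ℕ → ZMod k}

theorem e5_wt_nonneg (P : PS k R c) (π : Ed k R → Fin P.J × ZMod k) (U : Finset (V k R))
    (τ : V k R → Fin P.ell) : 0 ≤ P.wt π U τ := by
  unfold PS.wt
  refine prod_nonneg fun e _ => ?_
  split_ifs <;> positivity

theorem e5_Ex_mono (P : PS k R c)
    (F G : (Ed k R → Fin P.J × ZMod k) → (V k R → Fin P.ell) → ℝ)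
    (h : ∀ π τ, F π τ ≤ G π τ) : e5_Ex P F ≤ e5_Ex P G := by
  unfold e5_Ex
  exact sum_le_sum fun π _ => sum_le_sum fun τ _ =>
    mul_le_mul_of_nonneg_right (h π τ) (e5_wt_nonneg P π univ τ)

theorem e5_Ex_sum (P : PS k R c) {ι : Type*} (s : Finset ι)
    (F : ι → (Ed k R → Fin P.J × ZMod k) → (V k R → Fin P.ell) → ℝ) :
    e5_Ex P (fun π τ => ∑ i ∈ s, F i π τ) = ∑ i ∈ s, e5_Ex P (F i) := by
  unfold e5_Ex
  simp only [sum_mul]
  rw [sum_comm]
  rw [show (∑ y ∈ s, ∑ π : Ed k R → Fin P.J × ZMod k, ∑ τ : V k R → Fin P.ell,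
      F y π τ * P.wt π univ τ) = ∑ π : Ed k R → Fin P.J × ZMod k, ∑ y ∈ s,
        ∑ τ : V k R → Fin P.ell, F y π τ * P.wt π univ τ from sum_comm]
  rw [sum_comm]
  exact sum_congr rfl fun π _ => sum_comm

theorem e5_Ex_add (P : PS k R c)
    (F G : (Ed k R → Fin P.J × ZMod k) → (V k R → Fin P.ell) → ℝ) :
    e5_Ex P (fun π τ => F π τ + G π τ) = e5_Ex P F + e5_Ex P G := by
  unfold e5_Ex
  simp only [add_mul, sum_add_distrib]

theorem e5_Ex_mul (P : PS k R c) (a : ℝ)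
    (F : (Ed k R → Fin P.J × ZMod k) → (V k R → Fin P.ell) → ℝ) :
    e5_Ex P (fun π τ => a * F π τ) = a * e5_Ex P F := by
  unfold e5_Ex
  simp only [mul_assoc, mul_sum]

theorem e5_Ex_zero (P : PS k R c) : e5_Ex P (fun _ _ => 0) = 0 := by
  unfold e5_Ex
  simp

theorem e5_Ex_ite (P : PS k R c) (p : Prop) [Decidable p]
    (F : (Ed k R → Fin P.J × ZMod k) → (V k R → Fin P.ell) → ℝ) :
    e5_Ex P (fun π τ => if p then F π τ else 0) = if p then e5_Ex P F else 0 := by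
  by_cases hp : p
  · simp only [hp, if_true]
  · simp only [hp, if_false]
    exact e5_Ex_zero P

theorem e5_T_pos (P : PS k R c) : 0 < e5_T P := by
  unfold e5_T
  have h1 : 0 < Fintype.card (Fin P.J × ZMod k) := by
    rw [Fintype.card_prod, Fintype.card_fin, ZMod.card]
    exact Nat.mul_pos P.hJ (Nat.pos_of_ne_zero (NeZero.ne k))
  have h2 := P.hell
  positivity

theorem e5_one (hE2 : S_E2) (P : PS k R c) : e5_Ex P (fun _ _ => 1) = e5_T P := by
  unfold e5_Ex e5_T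
  have h : ∀ π : Ed k R → Fin P.J × ZMod k,
      ∑ τ : V k R → Fin P.ell, (1 : ℝ) * P.wt π univ τ = (P.ell : ℝ) ^ Fintype.card (V k R) := by
    intro π
    have h1 := (hE2 k R c P π ∅ univ (empty_subset _)).1 (fun _ => 1) (fun _ _ _ => rfl)
    rw [h1]
    have h2 : ∀ τ : V k R → Fin P.ell, (1 : ℝ) * P.wt π ∅ τ = 1 := by
      intro τ
      unfold PS.wt
      simp
    rw [sum_congr rfl fun τ _ => h2 τ]
    simp
  rw [sum_congr rfl fun π _ => h π]
  rw [sum_const, card_univ, Fintype.card_fun, nsmul_eq_mul]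
  push_cast
  ring

/-- a bound for all `π` gives a bound for the sum. -/
theorem e5_of_pi (P : PS k R c)
    (F : (Ed k R → Fin P.J × ZMod k) → (V k R → Fin P.ell) → ℝ) (b : ℝ)
    (h : ∀ π, ∑ τ, F π τ * P.wt π univ τ ≤ b * (P.ell : ℝ) ^ Fintype.card (V k R)) :
    e5_Ex P F ≤ b * e5_T P := by
  unfold e5_Ex e5_T
  refine (sum_le_sum fun π _ => h π).trans (le_of_eq ?_)
  rw [sum_const, card_univ, Fintype.card_fun, nsmul_eq_mul]
  push_cast
  ring

theorem e5_pairs (k : ℕ) : (∑ g : Fin (k + 1), ∑ g' : Fin (k + 1),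
    if g < g' then (1 : ℝ) else 0) = k * (k + 1) / 2 := by
  rw [sum_comm]
  have h : ∀ g' : Fin (k + 1), (∑ g : Fin (k + 1), if g < g' then (1 : ℝ) else 0) = (g' : ℕ) := by
    intro g'
    rw [sum_boole]
    congr 1
    rw [show (univ.filter fun g : Fin (k + 1) => g < g') = Iio g' by ext; simp]
    exact Fin.card_Iio g'
  rw [sum_congr rfl fun g' _ => h g', Fin.sum_univ_eq_sum_range (fun i => ((i : ℕ) : ℝ)) (k + 1)]
  have h2 := Finset.sum_range_id_mul_two (k + 1)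
  have h3 : ((∑ i ∈ range (k + 1), i : ℕ) : ℝ) * 2 = ((k + 1) * (k + 1 - 1) : ℕ) := by
    rw [← h2]; push_cast; ring
  rw [Nat.add_sub_cancel] at h3
  push_cast at h3
  linarith

open Classical in
/-- (Job PX E5) Proof.  Let `Z(π,τ) = (4k⁸/R⁴) ∑_{ψ≠1} ∑_{g<g'} ∑_{r≠r'} ‖SS‖² + ∑_{f≠f'} 1[N_f, κ_f' not coprime] + ∑_{e≠e'} 1[common prime dividing no κ]`.
With `E[·] = (n^E ell^V)⁻¹ ∑_π ∑_τ (·) wt`, `E[1] = 1` (E2, `U = ∅`), E3c, E4a, E4b give
`E[Z] ≤ (4k⁸/R⁴)(k-1)(k(k+1)/2)R²(R + R²εC) + E²(2S + 2/B + 2Lg/Y) ≤ 2k¹¹(1/R + εC) + 1/4 ≤ 3/4 < 1`.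
So some `(π,τ)` has `Z < 1` and positive weight; all indicators vanish and the `SS`-sums are `< R⁴/(4k⁸)` each.  If a prime `q` divided
`N_e` and `N_e'`, `e ≠ e'`: for `f ≠ e`, `q ∤ κ_f` as `N_e, κ_f` are coprime; `q ∤ κ_e` as `N_e', κ_e` are coprime; so the second indicator
of `(e,e')` would be `1`.  (`AddChar (ZMod k) ℂ` has `k` elements: `AddChar.card_eq`.) -/
theorem tE5 (hE2 : S_E2) (hE3c : S_E3c) (hE4a : S_E4a) (hE4b : S_E4b) : S_E5 := by
  intro k R _ c P
  have hk := P.hk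
  have hR := P.hR
  have hT := e5_T_pos P
  have hkR : (0 : ℝ) < R := by exact_mod_cast hR
  have hk0 : (0 : ℝ) < k := by exact_mod_cast (lt_of_lt_of_le (by norm_num) hk)
  have hk2 : (2 : ℝ) ≤ k := by exact_mod_cast hk
  set A : (Ed k R → Fin P.J × ZMod k) → (V k R → Fin P.ell) → ℝ := fun _ τ =>
    ∑ ψ : AddChar (ZMod k) ℂ, ∑ g : Fin (k + 1), ∑ g' : Fin (k + 1),
      if ψ ≠ 1 ∧ g < g' then ∑ r : Fin R, ∑ r' : Fin R,
        (if r = r' then 0 else ‖P.SS ψ g g' r r' τ‖ ^ 2) else 0 with hA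
  set B : (Ed k R → Fin P.J × ZMod k) → (V k R → Fin P.ell) → ℝ := fun π τ =>
    ∑ f : Ed k R, ∑ f' : Ed k R, if f = f' then 0 else
      (if (P.N f τ).natAbs.Coprime (P.κ f' (π f')) then 0 else 1) with hB
  set C : (Ed k R → Fin P.J × ZMod k) → (V k R → Fin P.ell) → ℝ := fun π τ =>
    ∑ e : Ed k R, ∑ e' : Ed k R, if e = e' then 0 else
      (if ∃ q : ℕ, q.Prime ∧ (q : ℤ) ∣ P.N e τ ∧ (q : ℤ) ∣ P.N e' τ ∧ ∀ f, ¬ q ∣ P.κ f (π f)
      then 1 else 0) with hC
  -- the means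
  have mA : e5_Ex P A ≤ (k - 1) * (k * (k + 1) / 2) * ((R : ℝ) ^ 2 * (R + R ^ 2 * P.εC)) *
      e5_T P := by
    have hb : 0 ≤ (R + (R : ℝ) ^ 2 * P.εC) * e5_T P := by
      have := P.hεC0
      positivity
    have h1 : ∀ ψ : AddChar (ZMod k) ℂ, ∀ g g' : Fin (k + 1),
        e5_Ex P (fun _ τ => if ψ ≠ 1 ∧ g < g' then ∑ r : Fin R, ∑ r' : Fin R,
        (if r = r' then 0 else ‖P.SS ψ g g' r r' τ‖ ^ 2) else 0) ≤
        (if ψ ≠ 1 then 1 else 0) * (if g < g' then 1 else 0) *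
          ((R : ℝ) ^ 2 * ((R + R ^ 2 * P.εC) * e5_T P)) := by
      intro ψ g g'
      rw [e5_Ex_ite]
      by_cases hψ : ψ ≠ 1
      · by_cases hg : g < g'
        · rw [if_pos ⟨hψ, hg⟩, if_pos hψ, if_pos hg, e5_Ex_sum, one_mul, one_mul]
          have h2 : ∀ r r' : Fin R, e5_Ex P (fun _ τ =>
              if r = r' then 0 else ‖P.SS ψ g g' r r' τ‖ ^ 2) ≤
              (R + R ^ 2 * P.εC) * e5_T P := by
            intro r r'
            by_cases hr : r = r'
            · simp only [hr, if_true]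
              rw [e5_Ex_zero]
              exact hb
            · simp only [hr, if_false]
              exact hE3c k R c P ψ hψ g g' hg r r' hr
          calc ∑ r : Fin R, e5_Ex P (fun _ τ => ∑ r' : Fin R,
                  if r = r' then 0 else ‖P.SS ψ g g' r r' τ‖ ^ 2)
              ≤ ∑ r : Fin R, ∑ r' : Fin R, (R + R ^ 2 * P.εC) * e5_T P := by
                refine sum_le_sum fun r _ => ?_
                rw [e5_Ex_sum]
                exact sum_le_sum fun r' _ => h2 r r'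
            _ = (R : ℝ) ^ 2 * ((R + R ^ 2 * P.εC) * e5_T P) := by
                simp only [sum_const, card_univ, Fintype.card_fin, nsmul_eq_mul]
                ring
        · rw [if_neg (fun h => hg h.2), if_neg hg]
          simp
      · rw [if_neg (fun h => hψ h.1), if_neg hψ]
        simp
    have h3 : (∑ ψ : AddChar (ZMod k) ℂ, if ψ ≠ 1 then (1 : ℝ) else 0) = k - 1 := by
      rw [sum_boole, filter_ne', card_erase_of_mem (mem_univ _), card_univ, AddChar.card_eq,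
        ZMod.card, Nat.cast_sub (by omega)]
      simp
    calc e5_Ex P A = ∑ ψ : AddChar (ZMod k) ℂ, ∑ g : Fin (k + 1), ∑ g' : Fin (k + 1),
          e5_Ex P (fun _ τ => if ψ ≠ 1 ∧ g < g' then ∑ r : Fin R, ∑ r' : Fin R,
          (if r = r' then 0 else ‖P.SS ψ g g' r r' τ‖ ^ 2) else 0) := by
          rw [hA, e5_Ex_sum]
          refine sum_congr rfl fun ψ _ => ?_
          rw [e5_Ex_sum]
          refine sum_congr rfl fun g _ => ?_
          rw [e5_Ex_sum]
      _ ≤ ∑ ψ : AddChar (ZMod k) ℂ, ∑ g : Fin (k + 1), ∑ g' : Fin (k + 1),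
          (if ψ ≠ 1 then 1 else 0) * (if g < g' then 1 else 0) *
          ((R : ℝ) ^ 2 * ((R + R ^ 2 * P.εC) * e5_T P)) :=
          sum_le_sum fun ψ _ => sum_le_sum fun g _ => sum_le_sum fun g' _ => h1 ψ g g'
      _ = (∑ ψ : AddChar (ZMod k) ℂ, if ψ ≠ 1 then (1 : ℝ) else 0) *
          (∑ g : Fin (k + 1), ∑ g' : Fin (k + 1), if g < g' then (1 : ℝ) else 0) *
          ((R : ℝ) ^ 2 * ((R + R ^ 2 * P.εC) * e5_T P)) := by
          rw [mul_assoc, sum_mul]
          refine sum_congr rfl fun ψ _ => ?_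
          rw [sum_mul, mul_sum]
          refine sum_congr rfl fun g _ => ?_
          rw [sum_mul, mul_sum]
          refine sum_congr rfl fun g' _ => ?_
          ring
      _ = _ := by
          rw [h3, e5_pairs]
          ring
  have mB : e5_Ex P B ≤ (Fintype.card (Ed k R) : ℝ) ^ 2 * P.S * e5_T P := by
    have hS := P.hS0
    rw [hB, e5_Ex_sum]
    calc ∑ f : Ed k R, e5_Ex P (fun π τ => ∑ f' : Ed k R, if f = f' then 0 else
          (if (P.N f τ).natAbs.Coprime (P.κ f' (π f')) then 0 else 1))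
        ≤ ∑ f : Ed k R, ∑ f' : Ed k R, P.S * e5_T P := by
          refine sum_le_sum fun f _ => ?_
          rw [e5_Ex_sum]
          refine sum_le_sum fun f' _ => ?_
          by_cases hf : f = f'
          · simp only [hf, if_true]
            rw [e5_Ex_zero]
            positivity
          · simp only [hf, if_false]
            exact e5_of_pi P _ _ fun π => hE4a k R c P π f f' hf
      _ = _ := by
          simp only [sum_const, card_univ, nsmul_eq_mul]
          ring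
  have mC : e5_Ex P C ≤ (Fintype.card (Ed k R) : ℝ) ^ 2 * (P.S + 2 / P.B + 2 * P.Lg / P.Y) *
      e5_T P := by
    have hS := P.hS0
    rw [hC, e5_Ex_sum]
    calc ∑ e : Ed k R, e5_Ex P (fun π τ => ∑ e' : Ed k R, if e = e' then 0 else
          (if ∃ q : ℕ, q.Prime ∧ (q : ℤ) ∣ P.N e τ ∧ (q : ℤ) ∣ P.N e' τ ∧
            ∀ f, ¬ q ∣ P.κ f (π f) then 1 else 0))
        ≤ ∑ e : Ed k R, ∑ e' : Ed k R, (P.S + 2 / P.B + 2 * P.Lg / P.Y) * e5_T P := by
          refine sum_le_sum fun e _ => ?_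
          rw [e5_Ex_sum]
          refine sum_le_sum fun e' _ => ?_
          by_cases hf : e = e'
          · simp only [hf, if_true]
            rw [e5_Ex_zero]
            positivity
          · simp only [hf, if_false]
            exact e5_of_pi P _ _ fun π => by
              have := hE4b k R c P π e e' hf
              convert this using 5
      _ = _ := by
          simp only [sum_const, card_univ, nsmul_eq_mul]
          ring
  -- a good configuration
  have hex : ∃ π τ, 4 * (k : ℝ) ^ 8 / R ^ 4 * A π τ + B π τ + C π τ < 1 := by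
    by_contra hcon
    push Not at hcon
    have h1 : e5_T P ≤ e5_Ex P (fun π τ => 4 * (k : ℝ) ^ 8 / R ^ 4 * A π τ + B π τ + C π τ) := by
      rw [← e5_one hE2 P]
      exact e5_Ex_mono P _ _ hcon
    rw [e5_Ex_add, e5_Ex_add, e5_Ex_mul] at h1
    have h2 : 4 * (k : ℝ) ^ 8 / R ^ 4 * e5_Ex P A ≤ 1 / 2 * e5_T P := by
      calc 4 * (k : ℝ) ^ 8 / R ^ 4 * e5_Ex P A ≤ 4 * (k : ℝ) ^ 8 / R ^ 4 *
            ((k - 1) * (k * (k + 1) / 2) * ((R : ℝ) ^ 2 * (R + R ^ 2 * P.εC)) * e5_T P) :=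
            mul_le_mul_of_nonneg_left mA (by positivity)
        _ = 2 * (k : ℝ) ^ 9 * (k ^ 2 - 1) * (1 / R + P.εC) * e5_T P := by
            field_simp
            ring
        _ ≤ 2 * (k : ℝ) ^ 9 * k ^ 2 * (1 / (4 * k ^ 11)) * e5_T P := by
            have h3 := P.hεC
            have h4 := P.hεC0
            have h5 : 0 ≤ 1 / (R : ℝ) + P.εC := by positivity
            refine mul_le_mul_of_nonneg_right ?_ hT.le
            refine mul_le_mul ?_ h3 h5 (by positivity)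
            exact mul_le_mul_of_nonneg_left (by linarith) (by positivity)
        _ = 1 / 2 * e5_T P := by
            field_simp
            ring
    have h3 : (Fintype.card (Ed k R) : ℝ) ^ 2 * P.S * e5_T P +
        (Fintype.card (Ed k R) : ℝ) ^ 2 * (P.S + 2 / P.B + 2 * P.Lg / P.Y) * e5_T P ≤
        1 / 4 * e5_T P := by
      have := mul_le_mul_of_nonneg_right P.hbad hT.le
      refine le_trans (le_of_eq ?_) this
      ring
    linarith
  obtain ⟨π, τ, hlt⟩ := hex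
  have nA : 0 ≤ A π τ := by
    refine sum_nonneg fun ψ _ => sum_nonneg fun g _ => sum_nonneg fun g' _ => ?_
    split_ifs
    · refine sum_nonneg fun r _ => sum_nonneg fun r' _ => ?_
      split_ifs <;> positivity
    · exact le_rfl
  have nB : 0 ≤ B π τ := by
    refine sum_nonneg fun f _ => sum_nonneg fun f' _ => ?_
    split_ifs <;> norm_num
  have nC : 0 ≤ C π τ := by
    refine sum_nonneg fun f _ => sum_nonneg fun f' _ => ?_
    split_ifs <;> norm_num
  have nA' : 0 ≤ 4 * (k : ℝ) ^ 8 / R ^ 4 * A π τ := by positivity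
  have lB : B π τ < 1 := by linarith
  have lC : C π τ < 1 := by linarith
  have lA : A π τ < (R : ℝ) ^ 4 / (4 * k ^ 8) := by
    have h : 4 * (k : ℝ) ^ 8 / R ^ 4 * A π τ < 1 := by linarith
    rw [lt_div_iff₀ (by positivity)]
    rw [div_mul_eq_mul_div, div_lt_one (by positivity)] at h
    linarith
  have cB : ∀ f f' : Ed k R, f ≠ f' → (P.N f τ).natAbs.Coprime (P.κ f' (π f')) := by
    intro f f' hff
    by_contra hn
    have h1 : (1 : ℝ) ≤ B π τ := by
      have h2 : (1 : ℝ) = if f = f' then 0 else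
          (if (P.N f τ).natAbs.Coprime (P.κ f' (π f')) then 0 else 1) := by
        rw [if_neg hff, if_neg hn]
      rw [h2]
      refine le_trans ?_ (single_le_sum (f := fun f => ∑ f' : Ed k R, if f = f' then (0 : ℝ) else
          (if (P.N f τ).natAbs.Coprime (P.κ f' (π f')) then 0 else 1))
        (fun f _ => sum_nonneg fun f' _ => by split_ifs <;> norm_num) (mem_univ f))
      exact single_le_sum (f := fun f' => if f = f' then (0 : ℝ) else
          (if (P.N f τ).natAbs.Coprime (P.κ f' (π f')) then 0 else 1))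
        (fun f' _ => by split_ifs <;> norm_num) (mem_univ f')
    linarith
  have cC : ∀ e e' : Ed k R, e ≠ e' → ¬ ∃ q : ℕ, q.Prime ∧ (q : ℤ) ∣ P.N e τ ∧
      (q : ℤ) ∣ P.N e' τ ∧ ∀ f, ¬ q ∣ P.κ f (π f) := by
    intro f f' hff hn
    have h1 : (1 : ℝ) ≤ C π τ := by
      have h2 : (1 : ℝ) = if f = f' then 0 else
          (if ∃ q : ℕ, q.Prime ∧ (q : ℤ) ∣ P.N f τ ∧ (q : ℤ) ∣ P.N f' τ ∧
            ∀ f, ¬ q ∣ P.κ f (π f) then 1 else 0) := by
        rw [if_neg hff, if_pos hn]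
      rw [h2]
      refine le_trans ?_ (single_le_sum (f := fun e => ∑ e' : Ed k R, if e = e' then (0 : ℝ) else
          (if ∃ q : ℕ, q.Prime ∧ (q : ℤ) ∣ P.N e τ ∧ (q : ℤ) ∣ P.N e' τ ∧
            ∀ f, ¬ q ∣ P.κ f (π f) then 1 else 0))
        (fun f _ => sum_nonneg fun f' _ => by split_ifs <;> norm_num) (mem_univ f))
      exact single_le_sum (f := fun e' => if f = e' then (0 : ℝ) else
          (if ∃ q : ℕ, q.Prime ∧ (q : ℤ) ∣ P.N f τ ∧ (q : ℤ) ∣ P.N e' τ ∧
            ∀ f, ¬ q ∣ P.κ f (π f) then 1 else 0))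
        (fun f' _ => by split_ifs <;> norm_num) (mem_univ f')
    linarith
  refine ⟨τ, ?_, ?_⟩
  · intro e e' hee
    by_contra hn
    obtain ⟨q, hq, hq1, hq2⟩ := Nat.Prime.not_coprime_iff_dvd.mp hn
    refine cC e e' hee ⟨q, hq, Int.natCast_dvd.mpr hq1, Int.natCast_dvd.mpr hq2, ?_⟩
    intro f hf
    by_cases hfe : f = e
    · subst hfe
      exact Nat.Prime.not_coprime_iff_dvd.mpr ⟨q, hq, hq2, hf⟩ (cB e' f (Ne.symm hee))
    · exact Nat.Prime.not_coprime_iff_dvd.mpr ⟨q, hq, hq1, hf⟩ (cB e f (Ne.symm hfe))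
  · intro ψ hψ g g' hg
    refine lt_of_le_of_lt ?_ lA
    have h2 : ∑ r : Fin R, ∑ r' : Fin R, (if r = r' then 0 else ‖P.SS ψ g g' r r' τ‖ ^ 2) =
        if ψ ≠ 1 ∧ g < g' then ∑ r : Fin R, ∑ r' : Fin R,
        (if r = r' then 0 else ‖P.SS ψ g g' r r' τ‖ ^ 2) else 0 := by
      rw [if_pos ⟨hψ, hg⟩]
    rw [h2]
    have nn : ∀ ψ : AddChar (ZMod k) ℂ, ∀ g g' : Fin (k + 1),
        0 ≤ if ψ ≠ 1 ∧ g < g' then ∑ r : Fin R, ∑ r' : Fin R,
        (if r = r' then 0 else ‖P.SS ψ g g' r r' τ‖ ^ 2) else 0 := by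
      intro ψ g g'
      split_ifs
      · refine sum_nonneg fun r _ => sum_nonneg fun r' _ => ?_
        split_ifs <;> positivity
      · exact le_rfl
    refine le_trans ?_ (single_le_sum (f := fun ψ : AddChar (ZMod k) ℂ =>
      ∑ g : Fin (k + 1), ∑ g' : Fin (k + 1),
      if ψ ≠ 1 ∧ g < g' then ∑ r : Fin R, ∑ r' : Fin R,
        (if r = r' then 0 else ‖P.SS ψ g g' r r' τ‖ ^ 2) else 0)
        (fun ψ _ => sum_nonneg fun g _ => sum_nonneg fun g' _ => nn ψ g g') (mem_univ ψ))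
    refine le_trans ?_ (single_le_sum (f := fun g : Fin (k + 1) => ∑ g' : Fin (k + 1),
      if ψ ≠ 1 ∧ g < g' then ∑ r : Fin R, ∑ r' : Fin R,
        (if r = r' then 0 else ‖P.SS ψ g g' r r' τ‖ ^ 2) else 0)
        (fun g _ => sum_nonneg fun g' _ => nn ψ g g') (mem_univ g))
    exact single_le_sum (f := fun g' : Fin (k + 1) =>
      if ψ ≠ 1 ∧ g < g' then ∑ r : Fin R, ∑ r' : Fin R,
        (if r = r' then 0 else ‖P.SS ψ g g' r r' τ‖ ^ 2) else 0)
        (fun g' _ => nn ψ g g') (mem_univ g')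

end Pool.Agent.Lib.MP_fed790_nt.PX
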