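import Pool.Agent.Lib.MP_fed790_nt.PX.Defs2

/-! F1: all colours on large rectangles -/

open Finset MeasureTheory

namespace Pool.Agent.Lib.MP_fed790_nt.PX

private lemma f1_bound {R : ℕ} (F : Fin R → Fin R → ℂ) (hF : ∀ s r, ‖F s r‖ ≤ 1) (B : ℝ)
    (hB : 0 ≤ B)
    (hT : ∑ r : Fin R, ∑ r' : Fin R, (if r = r' then (0 : ℝ) else
      ‖∑ s : Fin R, F s r * (starRingEnd ℂ) (F s r')‖ ^ 2) ≤ B ^ 2) (I' I : Finset (Fin R)) :
    ‖∑ s ∈ I', ∑ r ∈ I, F s r‖ ^ 2 ≤ (I'.card : ℝ) * (I.card * (R + B)) := by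
  classical
  set g : Fin R → ℂ := fun s => ∑ r ∈ I, F s r with hg
  set S : Fin R → Fin R → ℂ := fun r r' => ∑ s : Fin R, F s r * (starRingEnd ℂ) (F s r') with hS
  -- step 1
  have h1 : ‖∑ s ∈ I', g s‖ ^ 2 ≤ (I'.card : ℝ) * ∑ s : Fin R, ‖g s‖ ^ 2 := by
    have h2 : ‖∑ s ∈ I', g s‖ ≤ ∑ s ∈ I', ‖g s‖ := norm_sum_le _ _
    have h3 : ‖∑ s ∈ I', g s‖ ^ 2 ≤ (∑ s ∈ I', ‖g s‖) ^ 2 :=
      pow_le_pow_left₀ (norm_nonneg _) h2 2
    have h4 : (∑ s ∈ I', ‖g s‖) ^ 2 ≤ (I'.card : ℝ) * ∑ s ∈ I', ‖g s‖ ^ 2 :=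
      sq_sum_le_card_mul_sum_sq
    have h5 : ∑ s ∈ I', ‖g s‖ ^ 2 ≤ ∑ s : Fin R, ‖g s‖ ^ 2 :=
      Finset.sum_le_sum_of_subset_of_nonneg (Finset.subset_univ _) fun _ _ _ => by positivity
    calc ‖∑ s ∈ I', g s‖ ^ 2 ≤ (∑ s ∈ I', ‖g s‖) ^ 2 := h3
      _ ≤ (I'.card : ℝ) * ∑ s ∈ I', ‖g s‖ ^ 2 := h4
      _ ≤ (I'.card : ℝ) * ∑ s : Fin R, ‖g s‖ ^ 2 := mul_le_mul_of_nonneg_left h5 (by positivity)
  -- step 2
  have h2 : ((∑ s : Fin R, ‖g s‖ ^ 2 : ℝ) : ℂ) = ∑ r ∈ I, ∑ r' ∈ I, S r r' := by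
    push_cast
    have h3 : ∀ s : Fin R, ((‖g s‖ : ℂ)) ^ 2 =
        ∑ r ∈ I, ∑ r' ∈ I, F s r * (starRingEnd ℂ) (F s r') := by
      intro s
      rw [← Complex.mul_conj', hg]
      simp only
      rw [map_sum, Finset.sum_mul_sum]
    rw [Finset.sum_congr rfl fun s _ => h3 s, Finset.sum_comm]
    refine Finset.sum_congr rfl fun r _ => ?_
    rw [Finset.sum_comm]
  have h3 : ∑ s : Fin R, ‖g s‖ ^ 2 ≤ ∑ r ∈ I, ∑ r' ∈ I, ‖S r r'‖ := by
    have h4 : ‖((∑ s : Fin R, ‖g s‖ ^ 2 : ℝ) : ℂ)‖ = ∑ s : Fin R, ‖g s‖ ^ 2 := by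
      rw [Complex.norm_real, Real.norm_of_nonneg (Finset.sum_nonneg fun _ _ => by positivity)]
    rw [← h4, h2]
    refine (norm_sum_le _ _).trans (Finset.sum_le_sum fun r _ => norm_sum_le _ _)
  -- the diagonal
  have hdiag : ∀ r, ‖S r r‖ ≤ R := by
    intro r
    calc ‖S r r‖ ≤ ∑ s : Fin R, ‖F s r * (starRingEnd ℂ) (F s r)‖ := norm_sum_le _ _
      _ ≤ ∑ s : Fin R, (1 : ℝ) := by
          refine Finset.sum_le_sum fun s _ => ?_
          rw [norm_mul, RCLike.norm_conj]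
          have := hF s r
          have h0 := norm_nonneg (F s r)
          nlinarith
      _ = R := by simp
  set u : Fin R → Fin R → ℝ := fun r r' => if r = r' then 0 else ‖S r r'‖ with hu
  have h4 : ∑ r ∈ I, ∑ r' ∈ I, ‖S r r'‖ ≤ (I.card : ℝ) * R + ∑ r ∈ I, ∑ r' ∈ I, u r r' := by
    have h5 : ∀ r ∈ I, ∑ r' ∈ I, ‖S r r'‖ ≤ (R : ℝ) + ∑ r' ∈ I, u r r' := by
      intro r hr
      have h6 : ∀ r' ∈ I, ‖S r r'‖ = (if r = r' then ‖S r r'‖ else 0) + u r r' := by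
        intro r' _
        rw [hu]
        simp only
        split_ifs <;> simp
      rw [Finset.sum_congr rfl h6, Finset.sum_add_distrib, Finset.sum_ite_eq, if_pos hr]
      have := hdiag r
      linarith
    calc ∑ r ∈ I, ∑ r' ∈ I, ‖S r r'‖ ≤ ∑ r ∈ I, ((R : ℝ) + ∑ r' ∈ I, u r r') :=
          Finset.sum_le_sum h5
      _ = _ := by rw [Finset.sum_add_distrib, Finset.sum_const, nsmul_eq_mul]
  -- Cauchy-Schwarz for the rest
  have h5 : ∑ r ∈ I, ∑ r' ∈ I, u r r' ≤ (I.card : ℝ) * B := by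
    have h6 : (∑ r ∈ I, ∑ r' ∈ I, u r r') ^ 2 ≤ ((I.card : ℝ) * B) ^ 2 := by
      rw [← Finset.sum_product']
      have h7 : (∑ x ∈ I ×ˢ I, u x.1 x.2) ^ 2 ≤ ((I ×ˢ I).card : ℝ) * ∑ x ∈ I ×ˢ I, u x.1 x.2 ^ 2 :=
        sq_sum_le_card_mul_sum_sq
      have h8 : ∑ x ∈ I ×ˢ I, u x.1 x.2 ^ 2 ≤ B ^ 2 := by
        rw [Finset.sum_product' I I (fun r r' => u r r' ^ 2)]
        calc ∑ r ∈ I, ∑ r' ∈ I, u r r' ^ 2 ≤ ∑ r ∈ I, ∑ r' : Fin R, u r r' ^ 2 :=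
              Finset.sum_le_sum fun r _ => Finset.sum_le_sum_of_subset_of_nonneg
                (Finset.subset_univ _) fun _ _ _ => by positivity
          _ ≤ ∑ r : Fin R, ∑ r' : Fin R, u r r' ^ 2 :=
              Finset.sum_le_sum_of_subset_of_nonneg
                (Finset.subset_univ _) fun _ _ _ => Finset.sum_nonneg fun _ _ => by positivity
          _ = ∑ r : Fin R, ∑ r' : Fin R, (if r = r' then (0 : ℝ) else ‖S r r'‖ ^ 2) := by
              refine Finset.sum_congr rfl fun r _ => Finset.sum_congr rfl fun r' _ => ?_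
              rw [hu]
              simp only
              split_ifs <;> simp
          _ ≤ B ^ 2 := hT
      rw [Finset.card_product] at h7
      push_cast at h7
      calc (∑ x ∈ I ×ˢ I, u x.1 x.2) ^ 2 ≤ ((I.card : ℝ) * I.card) * ∑ x ∈ I ×ˢ I, u x.1 x.2 ^ 2 := h7
        _ ≤ ((I.card : ℝ) * I.card) * B ^ 2 := mul_le_mul_of_nonneg_left h8 (by positivity)
        _ = ((I.card : ℝ) * B) ^ 2 := by ring
    exact le_of_abs_le (abs_le_of_sq_le_sq h6 (by positivity))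
  calc ‖∑ s ∈ I', ∑ r ∈ I, F s r‖ ^ 2 ≤ (I'.card : ℝ) * ∑ s : Fin R, ‖g s‖ ^ 2 := h1
    _ ≤ (I'.card : ℝ) * (I.card * (R + B)) := by
        refine mul_le_mul_of_nonneg_left ?_ (by positivity)
        calc ∑ s : Fin R, ‖g s‖ ^ 2 ≤ _ := h3
          _ ≤ _ := h4
          _ ≤ (I.card : ℝ) * R + (I.card : ℝ) * B := by linarith
          _ = I.card * (R + B) := by ring

/-- (Job PX F1) Proof.  `F_{sr} = ψ(m s r)`, `T_ψ` the sum in the hypothesis, `ψ ≠ 1`.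
`|∑_{s∈I',r∈I} F_{sr}|² ≤ |I'| ∑_{s} |∑_{r∈I} F_{sr}|² = |I'| ∑_{r,r'∈I} ∑_s F_{sr} conj F_{sr'} ≤ |I'| (|I| R + |I| √T_ψ)`
(diagonal terms are `R`; Cauchy-Schwarz for the others).  If colour `a` does not occur on `I' × I` then
`0 = k #{m = a} = ∑_ψ ∑_{s,r} ψ(m s r - a) ` (`AddChar.sum_apply_eq_ite`) so
`|I'||I| ≤ ∑_{ψ≠1} |∑ F| ≤ (k-1) (|I'||I|(R+√T))^(1/2)`, i.e. `|I'||I| ≤ k²(R + √T)`; but `|I'||I| ≥ R²/k²`,
`k⁴R ≤ R²/2` and `k⁴√T < R²/2`: contradiction. -/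
theorem tF1 : S_F1 := by
  intro k R hkz m hk hR hT I' I hI' hI a
  classical
  by_contra hcon
  push Not at hcon
  have hk0 : (0 : ℝ) < k := by
    have : 0 < k := by omega
    exact_mod_cast this
  have hk4 : 1 ≤ k ^ 4 := Nat.one_le_pow _ _ (by omega)
  have hRpos : (0 : ℝ) < R := by
    have : 0 < R := by omega
    exact_mod_cast this
  have hR' : 2 * (k : ℝ) ^ 4 ≤ R := by exact_mod_cast hR
  set A : AddChar (ZMod k) ℂ → ℂ := fun ψ => ∑ s ∈ I', ∑ r ∈ I, ψ (m s r) with hA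
  set B : ℝ := (R : ℝ) ^ 2 / (2 * k ^ 4) with hBdef
  have hB0 : 0 ≤ B := by positivity
  have hRB : (R : ℝ) ≤ B := by
    rw [hBdef, le_div_iff₀ (by positivity)]
    nlinarith
  set p : ℝ := (I'.card : ℝ) * I.card with hp
  have hp0 : 0 ≤ p := by positivity
  -- the bound for one character
  have hbound : ∀ ψ : AddChar (ZMod k) ℂ, ψ ≠ 1 → ‖A ψ‖ ≤ Real.sqrt p * (R / k ^ 2) := by
    intro ψ hψ
    have h1 := f1_bound (fun s r => ψ (m s r)) (fun s r => le_of_eq (AddChar.norm_apply ψ _)) B hB0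
      (by
        have h2 := hT ψ hψ
        have h3 : B ^ 2 = (R : ℝ) ^ 4 / (4 * k ^ 8) := by
          rw [hBdef]
          ring
        rw [h3]
        exact h2.le) I' I
    have h2 : ‖A ψ‖ ^ 2 ≤ (Real.sqrt p * (R / k ^ 2)) ^ 2 := by
      calc ‖A ψ‖ ^ 2 ≤ (I'.card : ℝ) * (I.card * (R + B)) := h1
        _ = p * (R + B) := by rw [hp]; ring
        _ ≤ p * (B + B) := mul_le_mul_of_nonneg_left (by linarith) hp0
        _ = p * (R / k ^ 2) ^ 2 := by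
            rw [hBdef]
            field_simp
            ring
        _ = (Real.sqrt p * (R / k ^ 2)) ^ 2 := by
            rw [mul_pow, Real.sq_sqrt hp0]
    exact le_of_abs_le (abs_le_of_sq_le_sq h2 (by positivity))
  -- orthogonality
  have horth : ∑ ψ : AddChar (ZMod k) ℂ, ψ (-a) * A ψ = 0 := by
    rw [hA]
    simp only [Finset.mul_sum]
    rw [Finset.sum_comm]
    refine Finset.sum_eq_zero fun s hs => ?_
    rw [Finset.sum_comm]
    refine Finset.sum_eq_zero fun r hr => ?_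
    have h1 : ∀ ψ : AddChar (ZMod k) ℂ, ψ (-a) * ψ (m s r) = ψ (m s r - a) := by
      intro ψ
      rw [← AddChar.map_add_eq_mul]
      congr 1
      ring
    rw [Finset.sum_congr rfl fun ψ _ => h1 ψ, AddChar.sum_apply_eq_ite, if_neg]
    exact sub_ne_zero.2 (hcon s hs r hr)
  have hA1 : A 1 = (p : ℂ) := by
    rw [hA, hp]
    simp
  have hcardψ : Fintype.card (AddChar (ZMod k) ℂ) = k := by
    rw [AddChar.card_eq, ZMod.card]
  have hsum : ∑ ψ ∈ (univ : Finset (AddChar (ZMod k) ℂ)).erase 1, ψ (-a) * A ψ = -(p : ℂ) := by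
    have h1 := Finset.add_sum_erase (univ : Finset (AddChar (ZMod k) ℂ))
      (fun ψ => ψ (-a) * A ψ) (Finset.mem_univ 1)
    rw [horth] at h1
    simp only [AddChar.one_apply, one_mul] at h1
    rw [hA1] at h1
    linear_combination h1
  have hfin : p ≤ (k - 1 : ℝ) * (Real.sqrt p * (R / k ^ 2)) := by
    have h1 : ‖∑ ψ ∈ (univ : Finset (AddChar (ZMod k) ℂ)).erase 1, ψ (-a) * A ψ‖ = p := by
      rw [hsum, norm_neg, Complex.norm_real, Real.norm_of_nonneg hp0]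
    calc p = ‖∑ ψ ∈ (univ : Finset (AddChar (ZMod k) ℂ)).erase 1, ψ (-a) * A ψ‖ := h1.symm
      _ ≤ ∑ ψ ∈ (univ : Finset (AddChar (ZMod k) ℂ)).erase 1, ‖ψ (-a) * A ψ‖ := norm_sum_le _ _
      _ ≤ ∑ ψ ∈ (univ : Finset (AddChar (ZMod k) ℂ)).erase 1, Real.sqrt p * (R / k ^ 2) := by
          refine Finset.sum_le_sum fun ψ hψ => ?_
          rw [norm_mul, AddChar.norm_apply, one_mul]
          exact hbound ψ (Finset.ne_of_mem_erase hψ)
      _ = (k - 1 : ℝ) * (Real.sqrt p * (R / k ^ 2)) := by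
          rw [Finset.sum_const, nsmul_eq_mul, Finset.card_erase_of_mem (Finset.mem_univ _),
            Finset.card_univ, hcardψ, Nat.cast_sub (by omega), Nat.cast_one]
  -- conclusion
  have h1 : (R : ℝ) ≤ k * I'.card := by exact_mod_cast hI'
  have h2 : (R : ℝ) ≤ k * I.card := by exact_mod_cast hI
  have h3 : (R : ℝ) ^ 2 ≤ k ^ 2 * p := by
    rw [hp]
    calc (R : ℝ) ^ 2 = R * R := by ring
      _ ≤ (k * I'.card) * (k * I.card) := mul_le_mul h1 h2 hRpos.le (by positivity)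
      _ = _ := by ring
  have hppos : 0 < p := by
    by_contra hc
    have : p = 0 := le_antisymm (not_lt.1 hc) hp0
    rw [this, mul_zero] at h3
    have : 0 < (R : ℝ) ^ 2 := by positivity
    linarith
  set q : ℝ := Real.sqrt p with hq
  have hq2 : q ^ 2 = p := Real.sq_sqrt hp0
  have hqpos : 0 < q := Real.sqrt_pos.2 hppos
  have h4 : q ≤ (k - 1 : ℝ) * (R / k ^ 2) := by
    refine le_of_mul_le_mul_left ?_ hqpos
    calc q * q = p := by rw [← hq2]; ring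
      _ ≤ _ := hfin
      _ = _ := by ring
  have h5 : (R : ℝ) ≤ k * q := by
    have h6 : (R : ℝ) ^ 2 ≤ (k * q) ^ 2 := by
      rw [mul_pow, hq2]; exact h3
    exact le_of_abs_le (abs_le_of_sq_le_sq h6 (by positivity))
  have hk1 : (2 : ℝ) ≤ k := by exact_mod_cast hk
  have h6 : k * q ≤ (k - 1 : ℝ) * R / k := by
    calc k * q ≤ k * ((k - 1 : ℝ) * (R / k ^ 2)) := mul_le_mul_of_nonneg_left h4 hk0.le
      _ = _ := by field_simp
  have h7 : (k - 1 : ℝ) * R / k < R := by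
    rw [div_lt_iff₀ hk0]
    nlinarith
  linarith

end Pool.Agent.Lib.MP_fed790_nt.PX
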