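import Pool.Agent.Lib.MP_fed790_nt.PX.Defs2

/-! F2: conclusion for a colouring -/

open Finset MeasureTheory

namespace Pool.Agent.Lib.MP_fed790_nt.PX

private theorem f2_Nn_id (M ell k g g' x y : ℕ) (h1 : g < g') (h2 : g' ≤ k) :
    (M : ℤ) ^ (k - g') * Nn M ell g g' x y =
      ((M ^ (k - g') + M ^ (k + 2) * (2 * g' * ell + x) : ℕ) : ℤ) -
      ((M ^ (k - g) + M ^ (k + 2) * (2 * g * ell + y) : ℕ) : ℤ) := by
  unfold Nn
  have e1 : (M : ℤ) ^ (k - g) = (M : ℤ) ^ (k - g') * (M : ℤ) ^ (g' - g) := by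
    rw [← pow_add]; congr 1; omega
  have e2 : (M : ℤ) ^ (k + 2) = (M : ℤ) ^ (k - g') * (M : ℤ) ^ (g' + 2) := by
    rw [← pow_add]; congr 1; omega
  push_cast
  rw [e1, e2]
  ring

private theorem f2_Nn_pos (M ell g g' x y : ℕ) (hM : 2 ≤ M) (h1 : g < g') (hy : y < ell) :
    0 < Nn M ell g g' x y := by
  unfold Nn
  have hM' : (2 : ℤ) ≤ M := by exact_mod_cast hM
  have e1 : (M : ℤ) ^ (g' - g) ≤ (M : ℤ) ^ (g' + 2) :=
    pow_le_pow_right₀ (by omega) (by omega)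
  have e2 : (1 : ℤ) ≤ 2 * ((g' : ℤ) - g) * ell + x - y := by
    have h3 : (1 : ℤ) ≤ (g' : ℤ) - g := by omega
    have h4 : (y : ℤ) + 1 ≤ ell := by exact_mod_cast hy
    have h5 : (0 : ℤ) ≤ x := by positivity
    have h6 : (0 : ℤ) ≤ y := by positivity
    nlinarith
  have e3 : (0 : ℤ) < (M : ℤ) ^ (g' + 2) := by positivity
  nlinarith

private theorem f2_Nn_le (M ell k g g' x y : ℕ) (hM : 2 ≤ M) (_h1 : g < g') (h2 : g' ≤ k)
    (hx : x < ell) : Nn M ell g g' x y ≤ ((M ^ (k + 2) * ((2 * k + 1) * ell) : ℕ) : ℤ) := by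
  unfold Nn
  have hM' : (2 : ℤ) ≤ M := by exact_mod_cast hM
  have e0 : (1 : ℤ) ≤ (M : ℤ) ^ (g' - g) := one_le_pow₀ (by omega)
  have e1 : (M : ℤ) ^ (g' + 2) ≤ (M : ℤ) ^ (k + 2) :=
    pow_le_pow_right₀ (by omega) (by omega)
  have e2 : 2 * ((g' : ℤ) - g) * ell + x - y ≤ (2 * k + 1) * ell := by
    have h3 : (g' : ℤ) - g ≤ k := by omega
    have h4 : (x : ℤ) ≤ ell := by exact_mod_cast hx.le
    have h5 : (0 : ℤ) ≤ y := by positivity
    have h6 : (0 : ℤ) ≤ ell := by positivity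
    nlinarith
  have e3 : (0 : ℤ) ≤ (M : ℤ) ^ (g' + 2) := by positivity
  have e4 : (0 : ℤ) ≤ (2 * (k : ℤ) + 1) * ell := by positivity
  have e5 : (M : ℤ) ^ (g' + 2) * (2 * ((g' : ℤ) - g) * ell + x - y) ≤
      (M : ℤ) ^ (g' + 2) * ((2 * k + 1) * ell) := mul_le_mul_of_nonneg_left e2 e3
  have e6 : (M : ℤ) ^ (g' + 2) * ((2 * (k : ℤ) + 1) * ell) ≤
      (M : ℤ) ^ (k + 2) * ((2 * k + 1) * ell) := mul_le_mul_of_nonneg_right e1 e4
  push_cast
  linarith

private theorem f2_Nn_coprime (M ell g g' x y j : ℕ) (h1 : g < g') :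
    (Nn M ell g g' x y).natAbs.Coprime (M ^ j) := by
  apply Nat.Coprime.pow_right
  have h2 : ∃ w : ℤ, Nn M ell g g' x y = 1 + M * w := by
    refine ⟨-(M : ℤ) ^ (g' - g - 1) + (M : ℤ) ^ (g' + 1) *
      (2 * ((g' : ℤ) - g) * ell + x - y), ?_⟩
    unfold Nn
    have e1 : (M : ℤ) ^ (g' - g) = M * (M : ℤ) ^ (g' - g - 1) := by
      rw [← pow_succ']; congr 1; omega
    have e2 : (M : ℤ) ^ (g' + 2) = M * (M : ℤ) ^ (g' + 1) := by
      rw [← pow_succ']
    rw [e1, e2]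
    ring
  obtain ⟨w, hw⟩ := h2
  have h3 : IsCoprime (Nn M ell g g' x y) (M : ℤ) := ⟨1, -w, by rw [hw]; ring⟩
  have h4 := Int.isCoprime_iff_gcd_eq_one.1 h3
  rw [Int.gcd, Int.natAbs_natCast] at h4
  exact h4

private theorem f2_pigeon {k R : ℕ} [NeZero k] (f : Fin R → ZMod k) :
    ∃ a : ZMod k, R ≤ k * (univ.filter fun i => f i = a).card := by
  by_contra hcon
  push Not at hcon
  have h1 : ∑ a : ZMod k, (univ.filter fun i => f i = a).card = R := by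
    have := Finset.card_eq_sum_card_fiberwise (s := (univ : Finset (Fin R)))
      (t := (univ : Finset (ZMod k))) (f := f) (fun _ _ => by simp)
    rw [Finset.card_univ, Fintype.card_fin] at this
    exact this.symm
  have h2 : ∑ a : ZMod k, k * (univ.filter fun i => f i = a).card < ∑ _a : ZMod k, R :=
    Finset.sum_lt_sum_of_nonempty ⟨0, mem_univ _⟩ fun a _ => hcon a
  rw [← Finset.mul_sum, h1, Finset.sum_const, Finset.card_univ, ZMod.card, smul_eq_mul] at h2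
  exact lt_irrefl _ h2

/-- (Job PX F2) Proof.  Take `τ` from E5.  `t_v = M^(k-g) + M^(k+2)(2g·ell + τ_v)` for `v = (g,·)`.  For `e = (s,r)` with groups `g < g'`:
`t_s = t_r + M^(k-g') N_e` (identity in `ℤ`), `N_e > 0`, `N_e ≡ 1 mod M`, `N_e ≤ M^(k+2)(2k+1)ell ≤ 2^Lg`.
The moduli `M^(k+2)` and `N_e` (all `e`) are pairwise coprime (E5), so there is `x < M^(k+2) ∏ N_e ≤ 2^(Lg(E+1))` with `M^(k+2) ∣ x` and
`N_e ∣ x + t_s` for all `e` (`Nat.chineseRemainderOfFinset` / `Ideal`-free induction).  Group `g` has a colour `a_g` with at least `R/k` indices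
`i`, `c(x + t_(g,i)) = a_g` (pigeonhole); two of the `k+1` groups `g < g'` have `a_g = a_g' = a`.  F1 for the matrix
`m i j = c |Nn … (τ(g',i)) (τ(g,j))|` and the colour `a - c(M^(k-g'))` gives `s, r` in the two sets with `c(t_s - t_r) = a`.
`t_s - t_r = M^(k-g') N_e` divides `x + t_s` (coprime factors, both divide: `M^(k-g') ∣ x, t_s`) and `x + t_r`; put
`n = (x+t_r)/(t_s-t_r) ≥ 1`, `n + 1 = (x+t_s)/(t_s-t_r)`; colours `a - a = 0`.  `n + 1 ≤ x + t_s ≤ 2^(Lg(E+1)) + 2^Lg ≤ 2^(Lg(E+3))`. -/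
theorem tF2 (hE5 : S_E5) (hF1 : S_F1) : S_F2 := by
  classical
  intro k R _ c P
  obtain ⟨τ, hco, hcorr⟩ := hE5 k R c P
  have hM2 := P.hM
  have hMpos : 0 < P.M := by omega
  -- the numbers `N_e`
  set n_ : Ed k R → ℕ := fun e => (P.N e τ).natAbs with hn_
  have hgk : ∀ v : V k R, (v.1 : ℕ) ≤ k := fun v => Nat.lt_succ_iff.1 v.1.2
  have hlt : ∀ e : Ed k R, (e.1.2.1 : ℕ) < (e.1.1.1 : ℕ) := fun e => e.2
  have hNpos : ∀ e : Ed k R, 0 < P.N e τ := fun e =>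
    f2_Nn_pos _ _ _ _ _ _ hM2 (hlt e) (τ e.1.2).2
  have hcast : ∀ e : Ed k R, ((n_ e : ℕ) : ℤ) = P.N e τ := fun e =>
    Int.natAbs_of_nonneg (hNpos e).le
  have hnpos : ∀ e : Ed k R, 0 < n_ e := fun e => Int.natAbs_pos.2 (hNpos e).ne'
  have hnle : ∀ e : Ed k R, n_ e ≤ 2 ^ P.Lg := by
    intro e
    have h1 : ((n_ e : ℕ) : ℤ) ≤ ((P.M ^ (k + 2) * ((2 * k + 1) * P.ell) : ℕ) : ℤ) := by
      rw [hcast]
      exact f2_Nn_le _ _ _ _ _ _ _ hM2 (hlt e) (hgk e.1.1) (τ e.1.1).2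
    have h2 : n_ e ≤ P.M ^ (k + 2) * ((2 * k + 1) * P.ell) := by exact_mod_cast h1
    refine h2.trans (le_trans ?_ P.hLg)
    exact Nat.mul_le_mul_left _ (Nat.le_succ _)
  have hMle : P.M ^ (k + 2) ≤ 2 ^ P.Lg := by
    refine le_trans ?_ P.hLg
    exact Nat.le_mul_of_pos_right _ (Nat.succ_pos _)
  -- the points
  set t : V k R → ℕ := fun v =>
    P.M ^ (k - (v.1 : ℕ)) + P.M ^ (k + 2) * (2 * (v.1 : ℕ) * P.ell + (τ v : ℕ)) with ht
  have htpos : ∀ v, 0 < t v := fun v => Nat.add_pos_left (pow_pos hMpos _) _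
  have htle : ∀ v, t v ≤ 2 ^ P.Lg := by
    intro v
    refine le_trans ?_ P.hLg
    have h1 : P.M ^ (k - (v.1 : ℕ)) ≤ P.M ^ (k + 2) := Nat.pow_le_pow_right hMpos (by omega)
    have h2 : 2 * (v.1 : ℕ) * P.ell + (τ v : ℕ) ≤ (2 * k + 1) * P.ell := by
      have h3 : (τ v : ℕ) ≤ P.ell := (τ v).2.le
      have h4 : 2 * (v.1 : ℕ) * P.ell ≤ 2 * k * P.ell :=
        Nat.mul_le_mul_right _ (Nat.mul_le_mul_left _ (hgk v))
      calc _ ≤ 2 * k * P.ell + P.ell := Nat.add_le_add h4 h3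
        _ = (2 * k + 1) * P.ell := by ring
    calc t v ≤ P.M ^ (k + 2) + P.M ^ (k + 2) * ((2 * k + 1) * P.ell) :=
          Nat.add_le_add h1 (Nat.mul_le_mul_left _ h2)
      _ = P.M ^ (k + 2) * ((2 * k + 1) * P.ell + 1) := by ring
  have hid : ∀ e : Ed k R, t e.1.1 = t e.1.2 + P.M ^ (k - (e.1.1.1 : ℕ)) * n_ e := by
    intro e
    have h1 := f2_Nn_id P.M P.ell k e.1.2.1 e.1.1.1 (τ e.1.1) (τ e.1.2) (hlt e) (hgk e.1.1)
    have h2 : (P.M : ℤ) ^ (k - (e.1.1.1 : ℕ)) * (n_ e : ℤ) = (t e.1.1 : ℤ) - (t e.1.2 : ℤ) := by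
      rw [hcast]
      exact h1
    have h3 : (t e.1.1 : ℤ) = ((t e.1.2 + P.M ^ (k - (e.1.1.1 : ℕ)) * n_ e : ℕ) : ℤ) := by
      push_cast
      rw [h2]
      ring
    exact_mod_cast h3
  -- the Chinese remainder theorem
  set md : Option (Ed k R) → ℕ := fun o => o.elim (P.M ^ (k + 2)) n_ with hmd
  set aa : Option (Ed k R) → ℕ := fun o => o.elim 0 fun e => t e.1.1 * (n_ e - 1) with haa
  have hs : ∀ i ∈ (univ : Finset (Option (Ed k R))), md i ≠ 0 := by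
    rintro (_ | e) -
    · exact (pow_pos hMpos _).ne'
    · exact (hnpos e).ne'
  have hpp : Set.Pairwise ((univ : Finset (Option (Ed k R))) : Set (Option (Ed k R)))
      (Function.onFun Nat.Coprime md) := by
    rintro (_ | e) - (_ | e') - hne
    · exact absurd rfl hne
    · exact (f2_Nn_coprime _ _ _ _ _ _ _ (hlt e')).symm
    · exact f2_Nn_coprime _ _ _ _ _ _ _ (hlt e)
    · exact hco e e' fun h => hne (congrArg some h)
  obtain ⟨x, hx, hxlt⟩ : ∃ x : ℕ, (∀ o : Option (Ed k R), x ≡ aa o [MOD md o]) ∧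
      x < ∏ o : Option (Ed k R), md o :=
    ⟨(Nat.chineseRemainderOfFinset aa md univ hs hpp : ℕ),
      fun o => (Nat.chineseRemainderOfFinset aa md univ hs hpp).2 o (mem_univ _),
      Nat.chineseRemainderOfFinset_lt_prod aa md hs hpp⟩
  have hxM : P.M ^ (k + 2) ∣ x := (Nat.modEq_zero_iff_dvd).1 (hx none)
  have hxN : ∀ e : Ed k R, n_ e ∣ x + t e.1.1 := by
    intro e
    have h1 : x ≡ t e.1.1 * (n_ e - 1) [MOD n_ e] := hx (some e)
    have h2 : x + t e.1.1 ≡ t e.1.1 * (n_ e - 1) + t e.1.1 [MOD n_ e] := h1.add_right _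
    have h3 : t e.1.1 * (n_ e - 1) + t e.1.1 = t e.1.1 * n_ e := by
      obtain ⟨m, hm⟩ : ∃ m, n_ e = m + 1 := ⟨n_ e - 1, by have := hnpos e; omega⟩
      rw [hm, Nat.add_sub_cancel]
      ring
    rw [h3] at h2
    exact (Nat.modEq_zero_iff_dvd).1 (h2.trans ((Nat.modEq_zero_iff_dvd).2 (dvd_mul_left _ _)))
  have hxle : x ≤ 2 ^ (P.Lg * (Fintype.card (Ed k R) + 1)) := by
    refine hxlt.le.trans ?_
    rw [Fintype.prod_option]
    calc md none * ∏ e, md (some e) ≤ 2 ^ P.Lg * ∏ _e : Ed k R, 2 ^ P.Lg :=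
          Nat.mul_le_mul hMle (Finset.prod_le_prod' fun e _ => hnle e)
      _ = 2 ^ (P.Lg * (Fintype.card (Ed k R) + 1)) := by
          rw [Finset.prod_const, Finset.card_univ, ← pow_mul, ← pow_add]
          congr 1
          ring
  -- colours of the groups
  have hpig : ∀ g : Fin (k + 1), ∃ a : ZMod k,
      R ≤ k * (univ.filter fun i : Fin R => c (x + t (g, i)) = a).card := fun g =>
    f2_pigeon fun i => c (x + t (g, i))
  choose ag hag using hpig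
  obtain ⟨g, g', hgg, hage⟩ : ∃ g g' : Fin (k + 1), g < g' ∧ ag g = ag g' := by
    have hcard : Fintype.card (ZMod k) < Fintype.card (Fin (k + 1)) := by
      rw [ZMod.card, Fintype.card_fin]
      exact Nat.lt_succ_self k
    obtain ⟨g, g', hne, he⟩ := Fintype.exists_ne_map_eq_of_card_lt ag hcard
    rcases lt_or_gt_of_ne hne with h | h
    · exact ⟨g, g', h, he⟩
    · exact ⟨g', g, h, he.symm⟩
  obtain ⟨s, hs', r, hr', hm⟩ := hF1 k R
    (fun s r => c (Nn P.M P.ell g g' (τ (g', s)) (τ (g, r))).natAbs) P.hk P.hR2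
    (fun ψ hψ => hcorr ψ hψ g g' hgg)
    (univ.filter fun i : Fin R => c (x + t (g', i)) = ag g')
    (univ.filter fun i : Fin R => c (x + t (g, i)) = ag g) (hag g') (hag g)
    (ag g - c (P.M ^ (k - (g' : ℕ))))
  rw [Finset.mem_filter] at hs' hr'
  have hcs : c (x + t (g', s)) = ag g := hs'.2.trans hage.symm
  have hcr : c (x + t (g, r)) = ag g := hr'.2
  set e : Ed k R := ⟨((g', s), (g, r)), hgg⟩ with he
  have hm' : c (n_ e) = ag g - c (P.M ^ (k - (g' : ℕ))) := hm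
  set d : ℕ := P.M ^ (k - (g' : ℕ)) * n_ e with hd
  have hdpos : 0 < d := Nat.mul_pos (pow_pos hMpos _) (hnpos e)
  have hcd : c d = ag g := by
    rw [hd, P.hc _ _ (pow_pos hMpos _) (hnpos e), hm']
    ring
  have htd : t (g', s) = t (g, r) + d := hid e
  have hds : d ∣ x + t (g', s) := by
    have h1 : P.M ^ (k - (g' : ℕ)) ∣ x + t (g', s) := by
      have h2 : P.M ^ (k - (g' : ℕ)) ∣ P.M ^ (k + 2) := pow_dvd_pow _ (by omega)
      refine dvd_add (h2.trans hxM) ?_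
      exact dvd_add (dvd_refl _) (h2.trans (dvd_mul_right _ _))
    have h3 : (P.M ^ (k - (g' : ℕ))).Coprime (n_ e) :=
      (f2_Nn_coprime _ _ _ _ _ _ _ (hlt e)).symm
    exact h3.mul_dvd_of_dvd_of_dvd h1 (hxN e)
  have hdr : d ∣ x + t (g, r) := by
    have h1 : x + t (g', s) = x + t (g, r) + d := by rw [htd]; ring
    rw [h1] at hds
    exact (Nat.dvd_add_left (dvd_refl d)).1 hds
  obtain ⟨n, hn⟩ := hdr
  have hn1 : x + t (g', s) = d * (n + 1) := by
    rw [htd, ← add_assoc, hn]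
    ring
  have hnpos' : 1 ≤ n := by
    rcases Nat.eq_zero_or_pos n with h0 | h0
    · exfalso
      rw [h0, mul_zero] at hn
      have := htpos (g, r)
      omega
    · exact h0
  refine ⟨n, hnpos', ?_, ?_, ?_⟩
  · have h1 : n + 1 ≤ x + t (g', s) := by
      rw [hn1]
      exact Nat.le_mul_of_pos_left _ hdpos
    have hLg1 : 1 ≤ P.Lg := by
      by_contra hcon
      have h2 : P.Lg = 0 := by omega
      rw [h2, pow_zero] at hMle
      have h3 : 2 ^ (k + 2) ≤ P.M ^ (k + 2) := Nat.pow_le_pow_left hM2 _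
      have h4 : 2 ^ 1 ≤ 2 ^ (k + 2) := Nat.pow_le_pow_right (by norm_num) (by omega)
      omega
    have h5 : 2 ^ P.Lg ≤ 2 ^ (P.Lg * (Fintype.card (Ed k R) + 1)) :=
      Nat.pow_le_pow_right (by norm_num) (Nat.le_mul_of_pos_right _ (Nat.succ_pos _))
    calc n + 1 ≤ x + t (g', s) := h1
      _ ≤ 2 ^ (P.Lg * (Fintype.card (Ed k R) + 1)) +
          2 ^ (P.Lg * (Fintype.card (Ed k R) + 1)) := Nat.add_le_add hxle ((htle _).trans h5)
      _ = 2 ^ (P.Lg * (Fintype.card (Ed k R) + 1) + 1) := by ring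
      _ ≤ 2 ^ (P.Lg * (Fintype.card (Ed k R) + 3)) := by
          apply Nat.pow_le_pow_right (by norm_num)
          nlinarith
  · have h1 : c (x + t (g, r)) = c d + c n := by
      rw [hn]
      exact P.hc _ _ hdpos hnpos'
    rw [hcr, hcd] at h1
    simpa using h1
  · have h1 : c (x + t (g', s)) = c d + c (n + 1) := by
      rw [hn1]
      exact P.hc _ _ hdpos (Nat.succ_pos _)
    rw [hcs, hcd] at h1
    simpa using h1

end Pool.Agent.Lib.MP_fed790_nt.PX
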