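import Pool.Agent.Lib.MP_fed790_nt.PX.Defs3

/-! G1: the theorem for colourings -/

open Finset MeasureTheory

namespace Pool.Agent.Lib.MP_fed790_nt.PX

/-- (Job PX G1) Proof.  Suppose there is no such `n`; then `Bad k c N` for `N = 2 ^ k ^ 6720`.  `h = hh k ≤ k²⁸⁰`, `2^(h²²) ≤ N`, so D13 gives a pool system with
`Lg = h²³` and F2 a pair with `n + 1 ≤ 2^(h²³(En+3)) ≤ 2^(h²⁴) ≤ 2^(k^6720)` (`En + 3 ≤ k³⁰ + 3 ≤ h`), a contradiction. -/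
theorem tG1 (hD0 : S_D0) (hD13 : S_D13) (hF2 : S_F2) : S_G1 := by
  intro k hk c hc
  have hk2 : 2 ≤ k := hk.two_le
  have hk1 : 1 ≤ k := le_trans (by norm_num) hk2
  haveI : NeZero k := ⟨by omega⟩
  obtain ⟨h1, h2, -, h4, -⟩ := hD0 k hk2
  by_contra hcon
  push Not at hcon
  have hbad : Bad k c (2 ^ k ^ 6720) := by
    refine ⟨hc, fun n hn hnN h => ?_⟩
    exact hcon n hn hnN h.1 h.2
  have hle : 2 ^ hh k ^ 22 ≤ 2 ^ k ^ 6720 := by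
    refine Nat.pow_le_pow_right (by norm_num) ?_
    calc hh k ^ 22 ≤ (k ^ 280) ^ 22 := Nat.pow_le_pow_left h2 22
      _ = k ^ 6160 := by rw [← pow_mul]
      _ ≤ k ^ 6720 := Nat.pow_le_pow_right hk1 (by norm_num)
  obtain ⟨P, hP⟩ := hD13 k hk c (2 ^ k ^ 6720) hbad hle
  obtain ⟨n, hn1, hn2, hn3, hn4⟩ := hF2 k (k ^ 14) c P
  refine hcon n hn1 (le_trans hn2 ?_) hn3 hn4
  refine Nat.pow_le_pow_right (by norm_num) ?_
  have hE : Fintype.card (Ed k (k ^ 14)) + 3 ≤ hh k := by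
    have h4' : Fintype.card (Ed k (k ^ 14)) ≤ k ^ 30 := h4
    have h5 : k ^ 30 + 3 ≤ k ^ 140 := by
      have h6 : k ^ 140 = k ^ 30 * k ^ 110 := by rw [← pow_add]
      have h7 : 2 ^ 110 ≤ k ^ 110 := Nat.pow_le_pow_left hk2 110
      have h8 : 1 ≤ k ^ 30 := Nat.one_le_pow _ _ hk1
      have h9 : 4 ≤ k ^ 110 := le_trans (by norm_num) h7
      rw [h6]
      nlinarith
    omega
  rw [hP]
  calc hh k ^ 23 * (Fintype.card (Ed k (k ^ 14)) + 3) ≤ hh k ^ 23 * hh k := Nat.mul_le_mul_left _ hE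
    _ = hh k ^ 24 := by rw [← pow_succ]
    _ ≤ (k ^ 280) ^ 24 := Nat.pow_le_pow_left h2 24
    _ = k ^ 6720 := by rw [← pow_mul]

end Pool.Agent.Lib.MP_fed790_nt.PX
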